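import Mathlib
import Pool.Agent.Helper2.Planar.Induce

/-!
# Ping-pong with an intersection number, and the length functions which it defines

A group `G` acts on a set `Ω` (of closed curves) with an invariant symmetric function
`I : Ω → Ω → ℕ` (the intersection number).  Two elements `A`, `B` fix the curves `a`, `b` and
satisfy the estimates for large powers of Dehn twists.
-/

set_option autoImplicit false

open Set

namespace Pool.Agent.GEN

open Pool.Agent.Helper2.Planar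

/-- Two large powers `A`, `B` of Dehn twists about `a`, `b`. -/
structure PP (G Ω : Type*) [Group G] [MulAction G Ω] where
  /-- the intersection number -/
  I : Ω → Ω → ℕ
  /-- the first curve -/
  a : Ω
  /-- the second curve -/
  b : Ω
  /-- the twist about the first curve -/
  A : G
  /-- the twist about the second curve -/
  B : G
  comm : ∀ u w, I u w = I w u
  inv : ∀ (g : G) (u w : Ω), I (g • u) (g • w) = I u w
  aa : I a a = 0
  bb : I b b = 0
  ab : 0 < I a b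
  Aa : A • a = a
  Bb : B • b = b
  stepA : ∀ k : ℤ, k ≠ 0 → ∀ u, I u b ≤ I u a → 4 * I u a ≤ I (A ^ k • u) b
  stepB : ∀ k : ℤ, k ≠ 0 → ∀ u, I u a ≤ I u b → 4 * I u b ≤ I (B ^ k • u) a
  big : ∀ k : ℤ, k ≠ 0 → ∀ u w, I u a ≤ I u b → I w a ≤ I w b →
    I u b * I w b ≤ I (B ^ k • u) w

namespace PP

variable {G Ω : Type*} [Group G] [MulAction G Ω] (P : PP G Ω)

/-- The same data with the second twist inverted. -/
def flip : PP G Ω where
  I := P.I
  a := P.a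
  b := P.b
  A := P.A
  B := P.B⁻¹
  comm := P.comm
  inv := P.inv
  aa := P.aa
  bb := P.bb
  ab := P.ab
  Aa := P.Aa
  Bb := by rw [inv_smul_eq_iff, P.Bb]
  stepA := P.stepA
  stepB := fun k hk u hu => by
    rw [inv_zpow']
    exact P.stepB (-k) (neg_ne_zero.mpr hk) u hu
  big := fun k hk u w hu hw => by
    rw [inv_zpow']
    exact P.big (-k) (neg_ne_zero.mpr hk) u w hu hw

lemma zpow_fix {g : G} {c : Ω} (h : g • c = c) (k : ℤ) : g ^ k • c = c := by
  have h1 : g ∈ MulAction.stabilizer G c := h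
  exact (MulAction.stabilizer G c).zpow_mem h1 k

lemma I_A (k : ℤ) (u : Ω) : P.I (P.A ^ k • u) P.a = P.I u P.a := by
  conv_lhs => rw [← zpow_fix P.Aa k]
  exact P.inv _ _ _

lemma I_B (k : ℤ) (u : Ω) : P.I (P.B ^ k • u) P.b = P.I u P.b := by
  conv_lhs => rw [← zpow_fix P.Bb k]
  exact P.inv _ _ _

/-- The curves which cross `a` at least as often as `b`. -/
def K₀ : Set Ω := {c | P.I c P.b ≤ P.I c P.a ∧ 0 < P.I c P.a}

/-- The curves which cross `b` more often than `a`. -/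
def K₁ : Set Ω := {c | P.I c P.a < P.I c P.b}

lemma not_K₀_of_K₁ {c : Ω} (h : c ∈ P.K₁) : c ∉ P.K₀ := fun h' => not_le.mpr h h'.1

lemma a_mem : P.a ∈ P.K₁ := by
  change P.I P.a P.a < P.I P.a P.b
  rw [P.aa]
  exact P.ab

lemma b_mem : P.b ∈ P.K₀ := by
  refine ⟨?_, ?_⟩
  · rw [P.bb]
    exact Nat.zero_le _
  · rw [P.comm]
    exact P.ab

lemma A_K₀ {k : ℤ} (hk : k ≠ 0) {c : Ω} (h : c ∈ P.K₀) :
    P.A ^ k • c ∈ P.K₁ ∧ 4 * P.I c P.a ≤ P.I (P.A ^ k • c) P.b := by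
  have h1 := P.stepA k hk c h.1
  refine ⟨?_, h1⟩
  change P.I (P.A ^ k • c) P.a < P.I (P.A ^ k • c) P.b
  rw [P.I_A]
  have := h.2
  omega

lemma B_K₁ {k : ℤ} (hk : k ≠ 0) {c : Ω} (h : c ∈ P.K₁) :
    P.B ^ k • c ∈ P.K₀ ∧ 4 * P.I c P.b ≤ P.I (P.B ^ k • c) P.a := by
  have h0 : P.I c P.a < P.I c P.b := h
  have h1 := P.stepB k hk c h0.le
  refine ⟨⟨?_, ?_⟩, h1⟩
  · rw [P.I_B]
    omega
  · omega

/-- The pseudo-Anosov map. -/
def f : G := P.B * P.A

lemma f_smul (c : Ω) : P.f • c = P.B • P.A • c := mul_smul _ _ _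

lemma f_K₀ {c : Ω} (h : c ∈ P.K₀) :
    P.f • c ∈ P.K₀ ∧ 4 * P.I c P.a ≤ P.I (P.f • c) P.a := by
  have h1 := P.A_K₀ one_ne_zero h
  have h2 := P.B_K₁ one_ne_zero h1.1
  rw [zpow_one, zpow_one] at h2
  rw [zpow_one] at h1
  rw [f_smul]
  refine ⟨h2.1, ?_⟩
  omega

lemma f_pow_K₀ (n : ℕ) {c : Ω} (h : c ∈ P.K₀) :
    P.f ^ n • c ∈ P.K₀ ∧ 4 ^ n ≤ P.I (P.f ^ n • c) P.a := by
  induction n with
  | zero =>
    rw [pow_zero, one_smul, pow_zero]
    exact ⟨h, h.2⟩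
  | succ n ih =>
    rw [pow_succ', mul_smul]
    have h1 := P.f_K₀ ih.1
    refine ⟨h1.1, ?_⟩
    rw [pow_succ]
    omega

lemma big_pow {n : ℕ} (hn : n ≠ 0) {v w : Ω} (hv : v ∈ P.K₀) (hw : w ∈ P.K₁) :
    4 ^ n ≤ P.I (P.f ^ n • v) w := by
  obtain ⟨m, rfl⟩ := Nat.exists_eq_succ_of_ne_zero hn
  rw [Nat.succ_eq_add_one, pow_succ' P.f, mul_smul, f_smul]
  obtain ⟨h1, h2⟩ := P.f_pow_K₀ m hv
  obtain ⟨h3, h4⟩ := P.A_K₀ one_ne_zero h1
  rw [zpow_one] at h3 h4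
  have h5 : P.I (P.A • P.f ^ m • v) P.a < P.I (P.A • P.f ^ m • v) P.b := h3
  have h6 : P.I w P.a < P.I w P.b := hw
  have h7 := P.big 1 one_ne_zero (P.A • P.f ^ m • v) w h5.le h6.le
  rw [zpow_one] at h7
  refine le_trans ?_ h7
  have h8 : 1 ≤ P.I w P.b := by omega
  calc 4 ^ (m + 1) = 4 * 4 ^ m := by rw [pow_succ]; ring
    _ ≤ 4 * P.I (P.f ^ m • v) P.a := Nat.mul_le_mul_left 4 h2
    _ ≤ P.I (P.A • P.f ^ m • v) P.b := h4
    _ ≤ _ := Nat.le_mul_of_pos_right _ h8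

/-- The levels of `η`. -/
def lev (η : G) : Set ℕ :=
  {j | (P.f⁻¹) ^ j • η • P.a ∈ P.K₀ ∨ (P.f⁻¹) ^ j • η • P.b ∈ P.K₀}

lemma le_of_lev {η : G} {j : ℕ} (h : j ∈ P.lev η) :
    j ≤ P.I (η • P.a) P.a + P.I (η • P.b) P.a := by
  have key : ∀ c : Ω, (P.f⁻¹) ^ j • c ∈ P.K₀ → j ≤ P.I c P.a := by
    intro c hc
    have h1 := (P.f_pow_K₀ j hc).2
    rw [inv_pow, smul_inv_smul] at h1
    exact (Nat.lt_pow_self (by norm_num)).le.trans h1
  rcases h with h | h
  · exact (key _ h).trans (Nat.le_add_right _ _)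
  · exact (key _ h).trans (Nat.le_add_left _ _)

lemma bddAbove_lev (η : G) : BddAbove (P.lev η) := ⟨_, fun _ h => P.le_of_lev h⟩

/-- The depth of `η` in the nested sets `f ^ j K₀`. -/
noncomputable def kap (η : G) : ℕ := sSup (P.lev η)

lemma le_kap {η : G} {j : ℕ} (h : j ∈ P.lev η) : j ≤ P.kap η := le_csSup (P.bddAbove_lev η) h

lemma kap_mem {η : G} (h : P.kap η ≠ 0) : P.kap η ∈ P.lev η := by
  refine Nat.sSup_mem ?_ (P.bddAbove_lev η)
  by_contra hne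
  rw [Set.not_nonempty_iff_eq_empty] at hne
  apply h
  rw [kap, hne]
  simp

lemma kap_congr {η η' : G} (ha : η • P.a = η' • P.a) (hb : η • P.b = η' • P.b) :
    P.kap η = P.kap η' := by
  unfold kap lev
  rw [ha, hb]

/-- The intersection numbers of the two curves with their images. -/
def bound (θ : G) : ℕ :=
  1 + (P.I P.a (θ • P.a) + P.I P.a (θ • P.b) + P.I P.b (θ • P.a) + P.I P.b (θ • P.b))

/-- For all `h` in `H` one of the curves `h a`, `h b` crosses `a` or `b`. -/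
def NonDisp (H : Subgroup G) : Prop :=
  ∀ h ∈ H, ∃ c d : Ω, (c = P.a ∨ c = P.b) ∧ (d = P.a ∨ d = P.b) ∧ 0 < P.I (h • c) d

variable {H : Subgroup G} (hA : P.A ∈ H) (hB : P.B ∈ H) (hN : P.NonDisp H)

include hA hB hN

theorem kap_le {η θ : G} (hη : η ∈ H) (hθ : θ ∈ H) : P.kap η ≤ P.kap (η * θ) + P.bound θ := by
  by_contra hlt
  rw [not_le] at hlt
  have hb : 1 ≤ P.bound θ := Nat.le_add_right _ _
  have hmem := P.kap_mem (η := η) (by omega)
  set j := P.kap η with hj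
  set k := P.kap (η * θ) with hk
  obtain ⟨m, hm⟩ : ∃ m, j = m + (k + 1) := ⟨j - (k + 1), by omega⟩
  have hm1 : P.bound θ ≤ m := by omega
  have hf : P.f ∈ H := H.mul_mem hB hA
  obtain ⟨c, d, hc, hd, hcd⟩ := hN ((P.f⁻¹) ^ (k + 1) * (η * θ))
    (H.mul_mem (H.pow_mem (H.inv_mem hf) _) (H.mul_mem hη hθ))
  -- the curve `w`
  have hw : ∃ e : Ω, (e = P.a ∨ e = P.b) ∧ (P.f⁻¹) ^ (k + 1) • (η * θ) • e ∈ P.K₁ := by
    have hnot : k + 1 ∉ P.lev (η * θ) := fun h => by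
      have := P.le_kap h
      omega
    have hna : ¬ ((P.f⁻¹) ^ (k + 1) • (η * θ) • P.a ∈ P.K₀) := fun h => hnot (Or.inl h)
    have hnb : ¬ ((P.f⁻¹) ^ (k + 1) • (η * θ) • P.b ∈ P.K₀) := fun h => hnot (Or.inr h)
    refine ⟨c, hc, ?_⟩
    have hnc : ¬ ((P.f⁻¹) ^ (k + 1) • (η * θ) • c ∈ P.K₀) := by
      rcases hc with rfl | rfl
      · exact hna
      · exact hnb
    rw [mul_smul] at hcd
    set w := (P.f⁻¹) ^ (k + 1) • (η * θ) • c with hw
    change P.I w P.a < P.I w P.b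
    by_contra hle
    rw [not_lt] at hle
    have h0 : P.I w P.a = 0 := by
      by_contra h0
      exact hnc ⟨hle, Nat.pos_of_ne_zero h0⟩
    have h1 : P.I w P.b = 0 := by omega
    rcases hd with rfl | rfl
    · omega
    · omega
  obtain ⟨e, he, hwe⟩ := hw
  -- the curve `v`
  obtain ⟨e', he', hve⟩ : ∃ e' : Ω, (e' = P.a ∨ e' = P.b) ∧ (P.f⁻¹) ^ j • η • e' ∈ P.K₀ := by
    rcases hmem with h | h
    · exact ⟨_, Or.inl rfl, h⟩
    · exact ⟨_, Or.inr rfl, h⟩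
  have h1 := P.big_pow (n := m) (by omega) hve hwe
  have h2 : P.f ^ m • (P.f⁻¹) ^ j • η • e' = (P.f⁻¹) ^ (k + 1) • η • e' := by
    rw [hm, pow_add, mul_smul, inv_pow, smul_inv_smul]
  rw [h2, P.inv, mul_smul, P.inv] at h1
  have h3 : P.I e' (θ • e) < P.bound θ := by
    unfold bound
    rcases he with rfl | rfl <;> rcases he' with rfl | rfl <;> omega
  have h4 : m < 4 ^ m := Nat.lt_pow_self (by norm_num)
  omega

omit hA hB hN in
/-- The length function. -/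
noncomputable def len (H : Subgroup G) (θ : G) : ℝ :=
  sSup {r : ℝ | ∃ η ∈ H, r = |(P.kap (η * θ) : ℝ) - P.kap η|}

lemma abs_kap_le {η θ : G} (hη : η ∈ H) (hθ : θ ∈ H) :
    |(P.kap (η * θ) : ℝ) - P.kap η| ≤ P.bound θ + P.bound θ⁻¹ := by
  have h1 := P.kap_le hA hB hN hη hθ
  have h2 := P.kap_le hA hB hN (H.mul_mem hη hθ) (H.inv_mem hθ)
  rw [mul_inv_cancel_right] at h2
  have h1' : (P.kap η : ℝ) ≤ P.kap (η * θ) + P.bound θ := by exact_mod_cast h1
  have h2' : (P.kap (η * θ) : ℝ) ≤ P.kap η + P.bound θ⁻¹ := by exact_mod_cast h2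
  have h3 : (0 : ℝ) ≤ P.bound θ := Nat.cast_nonneg _
  have h4 : (0 : ℝ) ≤ P.bound θ⁻¹ := Nat.cast_nonneg _
  rw [abs_le]
  constructor <;> linarith

lemma bddAbove_len {θ : G} (hθ : θ ∈ H) :
    BddAbove {r : ℝ | ∃ η ∈ H, r = |(P.kap (η * θ) : ℝ) - P.kap η|} := by
  refine ⟨P.bound θ + P.bound θ⁻¹, ?_⟩
  rintro r ⟨η, hη, rfl⟩
  exact P.abs_kap_le hA hB hN hη hθ

lemma le_len {η θ : G} (hη : η ∈ H) (hθ : θ ∈ H) :
    |(P.kap (η * θ) : ℝ) - P.kap η| ≤ P.len H θ :=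
  le_csSup (P.bddAbove_len hA hB hN hθ) ⟨η, hη, rfl⟩

omit hA hB hN in
lemma len_le {θ : G} {c : ℝ} (h : ∀ η ∈ H, |(P.kap (η * θ) : ℝ) - P.kap η| ≤ c) :
    P.len H θ ≤ c := by
  refine csSup_le ⟨_, 1, H.one_mem, rfl⟩ ?_
  rintro r ⟨η, hη, rfl⟩
  exact h η hη

omit hA hB hN in
/-- The length vanishes on the elements which fix the two curves. -/
lemma len_fix {θ : G} (ha : θ • P.a = P.a) (hb : θ • P.b = P.b) : P.len H θ = 0 := by
  have h : ∀ η : G, P.kap (η * θ) = P.kap η := fun η =>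
    P.kap_congr (by rw [mul_smul, ha]) (by rw [mul_smul, hb])
  have h1 : {r : ℝ | ∃ η ∈ H, r = |(P.kap (η * θ) : ℝ) - P.kap η|} = {0} := by
    ext r
    simp only [mem_ofPred_eq, mem_singleton_iff, h, sub_self, abs_zero]
    exact ⟨fun ⟨_, _, h⟩ => h, fun h => ⟨1, H.one_mem, h⟩⟩
  rw [len, h1, csSup_singleton]

theorem isLen : IsLen (P.len H) H where
  one := P.len_fix (one_smul _ _) (one_smul _ _)
  inv := by
    have key : ∀ g ∈ H, P.len H g⁻¹ ≤ P.len H g := by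
      intro g hg
      refine P.len_le fun η hη => ?_
      have h := P.le_len hA hB hN (H.mul_mem hη (H.inv_mem hg)) hg
      rw [inv_mul_cancel_right] at h
      rwa [abs_sub_comm]
    intro g hg
    refine le_antisymm (key g hg) ?_
    have h := key g⁻¹ (H.inv_mem hg)
    rwa [inv_inv] at h
  mul := by
    intro g hg h hh
    refine P.len_le fun η hη => ?_
    have h1 := P.le_len hA hB hN hη hg
    have h2 := P.le_len hA hB hN (H.mul_mem hη hg) hh
    rw [mul_assoc] at h2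
    calc |(P.kap (η * (g * h)) : ℝ) - P.kap η| ≤
          |(P.kap (η * (g * h)) : ℝ) - P.kap (η * g)| + |(P.kap (η * g) : ℝ) - P.kap η| :=
        abs_sub_le _ _ _
      _ ≤ P.len H g + P.len H h := by linarith

omit hA hB hN in
lemma le_kap_f (n : ℕ) : n ≤ P.kap (P.f ^ n) := by
  refine P.le_kap (Or.inr ?_)
  rw [inv_pow, inv_smul_smul]
  exact P.b_mem

/-- The powers of `f` are unbounded. -/
theorem len_f (n : ℤ) : |(n : ℝ)| - P.kap 1 ≤ P.len H (P.f ^ n) := by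
  have hf : P.f ∈ H := H.mul_mem hB hA
  have key : ∀ n : ℕ, (n : ℝ) - P.kap 1 ≤ P.len H (P.f ^ n) := by
    intro n
    have h1 := P.le_len hA hB hN H.one_mem (H.pow_mem hf n)
    rw [one_mul] at h1
    have h2 : (n : ℝ) ≤ P.kap (P.f ^ n) := by exact_mod_cast P.le_kap_f n
    have h3 := le_abs_self ((P.kap (P.f ^ n) : ℝ) - P.kap 1)
    linarith
  rcases Int.le_total 0 n with hn | hn
  · obtain ⟨m, rfl⟩ := Int.eq_ofNat_of_zero_le hn
    have h1 := key m
    rw [zpow_natCast]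
    simpa using h1
  · obtain ⟨m, hm⟩ := Int.eq_ofNat_of_zero_le (neg_nonneg.mpr hn)
    have h1 := key m
    have h2 : P.f ^ n = (P.f ^ m)⁻¹ := by
      rw [← zpow_natCast, ← zpow_neg, ← hm, neg_neg]
    have h3 : |(n : ℝ)| = m := by
      rw [← abs_neg, ← Int.cast_neg, hm]
      simp
    rw [h2, h3, (P.isLen hA hB hN).inv _ (H.pow_mem hf m)]
    exact h1

end PP

namespace PP

variable {G Ω : Type*} [Group G] [MulAction G Ω] (P : PP G Ω)

/-! ### The second map `f' = B⁻¹ A` -/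

lemma f_inv_smul (c : Ω) : P.f⁻¹ • c = P.A⁻¹ • P.B⁻¹ • c := by
  rw [f, mul_inv_rev, mul_smul]

lemma A_inv_K₀ {c : Ω} (h : c ∈ P.K₀) : P.A⁻¹ • c ∈ P.K₁ := by
  have := (P.A_K₀ (k := -1) (by norm_num) h).1
  rwa [zpow_neg_one] at this

lemma B_inv_K₁ {c : Ω} (h : c ∈ P.K₁) : P.B⁻¹ • c ∈ P.K₀ := by
  have := (P.B_K₁ (k := -1) (by norm_num) h).1
  rwa [zpow_neg_one] at this

lemma B_smul_K₁ {c : Ω} (h : c ∈ P.K₁) : P.B • c ∈ P.K₀ := by
  have := (P.B_K₁ (k := 1) (by norm_num) h).1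
  rwa [zpow_one] at this

lemma A_smul_K₀ {c : Ω} (h : c ∈ P.K₀) : P.A • c ∈ P.K₁ := by
  have := (P.A_K₀ (k := 1) (by norm_num) h).1
  rwa [zpow_one] at this

lemma f_inv_K₁ {c : Ω} (h : c ∈ P.K₁) : P.f⁻¹ • c ∈ P.K₁ := by
  rw [f_inv_smul]
  exact P.A_inv_K₀ (P.B_inv_K₁ h)

lemma BB_smul_K₁ {c : Ω} (h : c ∈ P.K₁) : P.B • P.B • c ∈ P.K₀ := by
  have := (P.B_K₁ (k := 2) (by norm_num) h).1
  rwa [zpow_ofNat, pow_two, mul_smul] at this

/-- `B f ^ n c` is in `K₀` for all `n` and `c = a` or `c = b`. -/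
lemma B_f_zpow (n : ℤ) {c : Ω} (hc : c = P.a ∨ c = P.b) : P.B • P.f ^ n • c ∈ P.K₀ := by
  rcases lt_trichotomy n 0 with hn | hn | hn
  · -- `f ^ n c ∈ K₁`
    obtain ⟨m, rfl⟩ : ∃ m : ℕ, n = -((m : ℤ) + 1) := ⟨(-n - 1).toNat, by omega⟩
    refine P.B_smul_K₁ ?_
    have h1 : P.f⁻¹ • c ∈ P.K₁ := by
      rcases hc with rfl | rfl
      · exact P.f_inv_K₁ P.a_mem
      · rw [f_inv_smul]
        have : P.B⁻¹ • P.b = P.b := by rw [inv_smul_eq_iff, P.Bb]
        rw [this]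
        exact P.A_inv_K₀ P.b_mem
    have h2 : ∀ k : ℕ, (P.f⁻¹) ^ k • P.f⁻¹ • c ∈ P.K₁ := by
      intro k
      induction k with
      | zero => rwa [pow_zero, one_smul]
      | succ k ih =>
        rw [pow_succ', mul_smul]
        exact P.f_inv_K₁ ih
    have h3 : P.f ^ (-((m : ℤ) + 1)) • c = (P.f⁻¹) ^ m • P.f⁻¹ • c := by
      rw [← mul_smul, ← pow_succ, zpow_neg, ← inv_zpow, ← zpow_natCast]
      push_cast
      rfl
    rw [h3]
    exact h2 m
  · subst hn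
    rw [zpow_zero, one_smul]
    rcases hc with rfl | rfl
    · exact P.B_smul_K₁ P.a_mem
    · rw [P.Bb]
      exact P.b_mem
  · obtain ⟨m, rfl⟩ : ∃ m : ℕ, n = (m : ℤ) + 1 := ⟨(n - 1).toNat, by omega⟩
    have h1 : P.A • P.f ^ m • c ∈ P.K₁ := by
      rcases hc with rfl | rfl
      · cases m with
        | zero =>
          rw [pow_zero, one_smul, P.Aa]
          exact P.a_mem
        | succ m =>
          have h2 : P.f • P.a ∈ P.K₀ := by
            rw [f_smul, P.Aa]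
            exact P.B_smul_K₁ P.a_mem
          rw [pow_succ, mul_smul]
          exact P.A_smul_K₀ (P.f_pow_K₀ m h2).1
      · exact P.A_smul_K₀ (P.f_pow_K₀ m P.b_mem).1
    have h3 : P.f ^ ((m : ℤ) + 1) • c = P.B • P.A • P.f ^ m • c := by
      rw [← f_smul, ← mul_smul, ← pow_succ', ← zpow_natCast]
      push_cast
      rfl
    rw [h3]
    exact P.BB_smul_K₁ h1

/-- The depth with respect to the other map vanishes on the powers of `f`. -/
lemma kap_flip (n : ℤ) : P.flip.kap (P.f ^ n) = 0 := by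
  by_contra hne
  have h := P.flip.kap_mem hne
  set j := P.flip.kap (P.f ^ n) with hj
  have key : ∀ c : Ω, (c = P.a ∨ c = P.b) → (P.flip.f⁻¹) ^ j • P.f ^ n • c ∉ P.K₀ := by
    intro c hc
    refine P.not_K₀_of_K₁ ?_
    obtain ⟨m, hm⟩ := Nat.exists_eq_succ_of_ne_zero hne
    rw [hm, Nat.succ_eq_add_one, pow_succ, mul_smul]
    have h1 : P.flip.f⁻¹ • P.f ^ n • c ∈ P.K₁ := by
      rw [P.flip.f_inv_smul]
      change P.A⁻¹ • P.B⁻¹⁻¹ • P.f ^ n • c ∈ P.K₁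
      rw [inv_inv]
      exact P.A_inv_K₀ (P.B_f_zpow n hc)
    have h2 : ∀ k : ℕ, (P.flip.f⁻¹) ^ k • P.flip.f⁻¹ • P.f ^ n • c ∈ P.K₁ := by
      intro k
      induction k with
      | zero => rwa [pow_zero, one_smul]
      | succ k ih =>
        rw [pow_succ', mul_smul]
        exact P.flip.f_inv_K₁ ih
    exact h2 m
  rcases h with h | h
  · exact key P.a (Or.inl rfl) h
  · exact key P.b (Or.inr rfl) h

variable {H : Subgroup G} (hA : P.A ∈ H) (hB : P.B ∈ H) (hN : P.NonDisp H)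

include hA hB hN

/-- The powers of `f' = B⁻¹ A` are far from all the powers of `f`. -/
theorem len_flip (n : ℤ) (m : ℕ) : (m : ℝ) ≤ P.flip.len H (P.f ^ (-n) * P.flip.f ^ m) := by
  have hB' : P.flip.B ∈ H := H.inv_mem hB
  have hf : P.f ∈ H := H.mul_mem hB hA
  have hf' : P.flip.f ∈ H := H.mul_mem hB' hA
  have h1 := P.flip.le_len hA hB' hN (H.zpow_mem hf n)
    (H.mul_mem (H.zpow_mem hf (-n)) (H.pow_mem hf' m))
  rw [← mul_assoc, ← zpow_add, add_neg_cancel, zpow_zero, one_mul, P.kap_flip, Nat.cast_zero,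
    sub_zero, abs_of_nonneg (Nat.cast_nonneg _)] at h1
  refine le_trans ?_ h1
  exact_mod_cast P.flip.le_kap_f m

/-- The sum of the two length functions. -/
noncomputable def length (H : Subgroup G) (θ : G) : ℝ := P.len H θ + P.flip.len H θ

theorem length_isLen : IsLen (P.length H) H := by
  have hB' : P.flip.B ∈ H := H.inv_mem hB
  have h1 := P.isLen hA hB hN
  have h2 := P.flip.isLen hA hB' hN
  refine ⟨?_, ?_, ?_⟩
  · rw [length, h1.one, h2.one, add_zero]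
  · intro g hg
    rw [length, length, h1.inv g hg, h2.inv g hg]
  · intro g hg h hh
    have e1 := h1.mul g hg h hh
    have e2 := h2.mul g hg h hh
    unfold length
    linarith

omit hA hB hN in
theorem length_fix {θ : G} (ha : θ • P.a = P.a) (hb : θ • P.b = P.b) : P.length H θ = 0 := by
  rw [length, P.len_fix ha hb, P.flip.len_fix ha hb, add_zero]

theorem length_f (n : ℤ) : |(n : ℝ)| - P.kap 1 ≤ P.length H (P.f ^ n) := by
  have hf : P.f ∈ H := H.mul_mem hB hA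
  have hB' : P.flip.B ∈ H := H.inv_mem hB
  have h1 := P.len_f hA hB hN n
  have h2 := (P.flip.isLen hA hB' hN).nonneg (H.zpow_mem hf n)
  unfold length
  linarith

theorem length_far (n : ℤ) (m : ℕ) : (m : ℝ) ≤ P.length H (P.f ^ (-n) * P.flip.f ^ m) := by
  have hf : P.f ∈ H := H.mul_mem hB hA
  have hB' : P.flip.B ∈ H := H.inv_mem hB
  have hf' : P.flip.f ∈ H := H.mul_mem hB' hA
  have h1 := P.len_flip hA hB hN n m
  have h2 := (P.isLen hA hB hN).nonneg (H.mul_mem (H.zpow_mem hf (-n)) (H.pow_mem hf' m))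
  unfold length
  linarith

end PP

end Pool.Agent.GEN
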