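import Mathlib
import Pool.Agent.Helper2.Fuch.Surface

/-!
# Crossings of axes, positions along an axis, twists

`Γ ≤ SL(2, ℝ)` is a discrete group all of whose nontrivial elements are hyperbolic.
-/

set_option autoImplicit false

open Topology Set Filter
open scoped MatrixGroups UpperHalfPlane

namespace Pool.Agent.GEN

open Pool.Agent.Helper2.Fuch Pool.Agent.Helper2.Genus Pool.Agent.Helper2.Planar

variable {Γ : Subgroup SL(2, ℝ)}

/-- The attracting end of the axis of `x`. -/
noncomputable def ep (x : Γ) : ℝ × ℝ := att (x : SL(2, ℝ))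

/-- The repelling end of the axis of `x`. -/
noncomputable def em (x : Γ) : ℝ × ℝ := att ((x⁻¹ : Γ) : SL(2, ℝ))

/-- The axes of `x` and `y` cross. -/
def Cr (x y : Γ) : Prop := Lk (em x) (ep x) (em y) (ep y)

/-- The elements `g` which move the axis of `w` to an axis which crosses the axis of `u`. -/
def crs (u w : Γ) : Set Γ := {g | Cr u (g * w * g⁻¹)}

/-- The elements `g` and `g'` give the same crossing of the closed geodesics of `u` and `w`. -/
def Rel (u w g g' : Γ) : Prop := ∃ c d : Γ, Commute c u ∧ Commute d w ∧ g' = c * g * d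

lemma Rel.refl (u w g : Γ) : Rel u w g g :=
  ⟨1, 1, Commute.one_left _, Commute.one_left _, by simp⟩

lemma Rel.symm {u w g g' : Γ} (h : Rel u w g g') : Rel u w g' g := by
  obtain ⟨c, d, hc, hd, rfl⟩ := h
  exact ⟨c⁻¹, d⁻¹, hc.inv_left, hd.inv_left, by group⟩

lemma Rel.trans {u w g g' g'' : Γ} (h : Rel u w g g') (h' : Rel u w g' g'') : Rel u w g g'' := by
  obtain ⟨c, d, hc, hd, rfl⟩ := h
  obtain ⟨c', d', hc', hd', rfl⟩ := h'
  exact ⟨c' * c, d * d', hc'.mul_left hc, hd.mul_left hd', by group⟩

/-- The equivalence relation of `Rel`. -/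
def crossSetoid (u w : Γ) : Setoid (crs u w) where
  r g g' := Rel u w g g'
  iseqv := ⟨fun g => Rel.refl u w g, fun h => h.symm, fun h h' => h.trans h'⟩

/-- The set of crossings of the closed geodesics of `u` and `w`. -/
def Crossing (u w : Γ) : Type := Quotient (crossSetoid u w)

/-- The number of crossings of the closed geodesics of `u` and `w`. -/
noncomputable def I (u w : Γ) : ℕ := Nat.card (Crossing u w)

/-- The eigenvalue of `γ` at its attracting end. -/
noncomputable def ev (γ : Γ) : ℝ := dt (ac (γ : SL(2, ℝ)) (ep γ)) (em γ) / dt (ep γ) (em γ)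

/-- The position of the direction `v` along the axis of `γ`, in units of the translation
length of `γ`. -/
noncomputable def pos (γ : Γ) (v : ℝ × ℝ) : ℝ :=
  Real.log (|dt v (em γ)| / |dt v (ep γ)|) / (2 * Real.log |ev γ|)

/-- The direction `v` is on the left of the axis of `γ`. -/
def lft (γ : Γ) (v : ℝ × ℝ) : Prop := 0 < dt v (em γ) * dt v (ep γ) * dt (em γ) (ep γ)

/-- The direction `v` is on the right of the axis of `γ`. -/
def rgt (γ : Γ) (v : ℝ × ℝ) : Prop := dt v (em γ) * dt v (ep γ) * dt (em γ) (ep γ) < 0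

open Classical in
/-- The position along the axis of `γ` of the left end of the axis of `w` (if they cross). -/
noncomputable def lp (γ w : Γ) : ℝ := if lft γ (ep w) then pos γ (ep w) else pos γ (em w)

open Classical in
/-- The position along the axis of `γ` of the right end of the axis of `w` (if they cross). -/
noncomputable def rp (γ w : Γ) : ℝ := if lft γ (ep w) then pos γ (em w) else pos γ (ep w)

/-- The twisting of the axis of `w` along the axis of `γ` (if they cross): the position of its end
on the right minus the position of its end on the left. -/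
noncomputable def sig (γ w : Γ) : ℝ := rp γ w - lp γ w

/-- The closed geodesic of `b` is simple. -/
def Simple (b : Γ) : Prop := b ≠ 1 ∧ ∀ g : Γ, ¬ Cr b (g * b * g⁻¹)

/-- `θ` acts like a Dehn twist about the closed geodesic of `b`. -/
structure Twist (b : Γ) (θ : MulAut Γ) : Prop where
  op : θ ∈ opg Γ
  fix : θ b = b
  left : ∃ v : Γ, v ≠ 1 ∧ lft b (ep v) ∧ θ v = v
  right : ∃ v : Γ, v ≠ 1 ∧ rgt b (ep v) ∧ θ v = b * v * b⁻¹

/-- The automorphism `θ` is induced by the homeomorphism `h` of the surface `ℍ / Γ`. -/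
def LiftOf (h : Surf Γ ≃ₜ Surf Γ) (θ : MulAut Γ) : Prop :=
  ∃ φ : ℍ ≃ₜ ℍ, (∀ z, pr Γ (φ z) = h (pr Γ z)) ∧ Eqv φ θ

/-- Crossing curves: more crossings with `a` than with `b`. -/
def KK (a b : Γ) : Set Γ := {c | I c b ≤ I c a ∧ 0 < I c a}

/-- The depth of `η` with respect to `f`. -/
noncomputable def kappa (a b : Γ) (f η : MulAut Γ) : ℕ :=
  sSup {j : ℕ | (f ^ (-(j : ℤ)) * η) a ∈ KK a b ∨ (f ^ (-(j : ℤ)) * η) b ∈ KK a b}

/-- The automorphisms induced by the elements of `H`. -/
def autOf (H : Subgroup (Surf Γ ≃ₜ Surf Γ)) : Set (MulAut Γ) := {θ | ∃ h ∈ H, LiftOf h θ}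

/-- The tangent of the angle between `z` and the axis of `b`, seen from the repelling end;
positive on the left, negative on the right of the axis. -/
noncomputable def ang (b : Γ) (z : ℍ) : ℝ :=
  (RR (em b) (ep b) z).re / (RR (em b) (ep b) z).im

end Pool.Agent.GEN
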