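import Mathlib
import Pool.Agent.Helper2.Fuch.Lift
import Pool.Agent.Helper2.Planar.Induce
import Pool.Agent.GEN.Defs

/-!
# The automorphisms of the fundamental group induced by a homeomorphism of the surface
-/

set_option autoImplicit false

open Topology Set Filter unitInterval
open scoped MatrixGroups UpperHalfPlane

namespace Pool.Agent.GEN

open Pool.Agent.Helper2.Fuch Pool.Agent.Helper2.Genus Pool.Agent.Helper2.Planar

variable {Γ : Subgroup SL(2, ℝ)}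

lemma LiftOf.mul {h h' : Surf Γ ≃ₜ Surf Γ} {θ θ' : MulAut Γ} (hθ : LiftOf h θ)
    (hθ' : LiftOf h' θ') : LiftOf (h * h') (θ * θ') := by
  obtain ⟨φ, h1, h2⟩ := hθ
  obtain ⟨φ', h1', h2'⟩ := hθ'
  refine ⟨φ * φ', fun z => ?_, h2.mul h2'⟩
  change pr Γ (φ (φ' z)) = h (h' (pr Γ z))
  rw [h1, h1']

lemma LiftOf.inv {h : Surf Γ ≃ₜ Surf Γ} {θ : MulAut Γ} (hθ : LiftOf h θ) :
    LiftOf h⁻¹ θ⁻¹ := by
  obtain ⟨φ, h1, h2⟩ := hθ
  refine ⟨φ.symm, fun z => ?_, h2.symm⟩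
  apply h.injective
  rw [← h1, Homeomorph.apply_symm_apply]
  change _ = (h * h⁻¹) (pr Γ z)
  rw [mul_inv_cancel]
  rfl

lemma LiftOf.one : LiftOf (1 : Surf Γ ≃ₜ Surf Γ) (1 : MulAut Γ) :=
  ⟨1, fun _ => rfl, fun _ _ => rfl⟩

lemma LiftOf.one_conj (g : Γ) : LiftOf (1 : Surf Γ ≃ₜ Surf Γ) (MulAut.conj g) := by
  refine ⟨Homeomorph.smul g, fun z => pr_smul g z, fun k z => ?_⟩
  change g • k • z = (g * k * g⁻¹) • g • z
  rw [mul_smul, mul_smul, inv_smul_smul]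

lemma LiftOf.conj {h : Surf Γ ≃ₜ Surf Γ} {θ : MulAut Γ} (hl : LiftOf h θ) (g : Γ) :
    LiftOf h (MulAut.conj g * θ) := by
  have := (LiftOf.one_conj g).mul hl
  rwa [one_mul] at this

lemma LiftOf.pow {h : Surf Γ ≃ₜ Surf Γ} {θ : MulAut Γ} (hθ : LiftOf h θ) (n : ℕ) :
    LiftOf (h ^ n) (θ ^ n) := by
  induction n with
  | zero => simpa using LiftOf.one
  | succ n ih =>
    rw [pow_succ, pow_succ]
    exact ih.mul hθ

lemma LiftOf.zpow {h : Surf Γ ≃ₜ Surf Γ} {θ : MulAut Γ} (hθ : LiftOf h θ) (n : ℤ) :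
    LiftOf (h ^ n) (θ ^ n) := by
  obtain ⟨n, rfl | rfl⟩ := n.eq_nat_or_neg
  · rw [zpow_natCast, zpow_natCast]
    exact hθ.pow n
  · rw [zpow_neg, zpow_neg, zpow_natCast, zpow_natCast]
    exact (hθ.pow n).inv

variable [DiscreteTopology Γ] (hΓ : Hyp Γ)

include hΓ in
lemma exists_liftOf (h : Surf Γ ≃ₜ Surf Γ) : ∃ θ, LiftOf h θ := by
  obtain ⟨b, hb⟩ := pr_surj (h (pr Γ UpperHalfPlane.I))
  obtain ⟨φ, -, hφ⟩ := hΓ.exists_homeo h hb
  obtain ⟨θ, hθ⟩ := hΓ.exists_eqv hφ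
  exact ⟨θ, φ, hφ, hθ⟩

include hΓ in
/-- Two automorphisms induced by the same homeomorphism differ by a conjugation. -/
lemma LiftOf.unique {h : Surf Γ ≃ₜ Surf Γ} {θ θ' : MulAut Γ} (hθ : LiftOf h θ)
    (hθ' : LiftOf h θ') : ∃ g : Γ, θ' = MulAut.conj g * θ := by
  obtain ⟨φ, h1, h2⟩ := hθ
  obtain ⟨φ', h1', h2'⟩ := hθ'
  have h3 : pr Γ (φ' UpperHalfPlane.I) = pr Γ (φ UpperHalfPlane.I) := by rw [h1, h1']
  obtain ⟨g, hg⟩ := pr_eq.mp h3
  have hcs : Continuous (fun z : ℍ => g • z) := continuous_const_smul g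
  have h4 : (fun z => φ' z) = fun z => g • φ z := by
    refine hΓ.lift_unique φ'.continuous (hcs.comp φ.continuous) (fun z => ?_)
      (a := UpperHalfPlane.I) hg.symm
    rw [h1', pr_smul, h1]
  refine ⟨g, hΓ.eqv_unique h2' ?_⟩
  intro k z
  rw [congrFun h4, congrFun h4, h2, MulAut.mul_apply, MulAut.conj_apply, smul_smul, smul_smul]
  congr 1
  group

include hΓ in
omit [DiscreteTopology Γ] in
lemma LiftOf.op {h : Surf Γ ≃ₜ Surf Γ} {θ : MulAut Γ} (hθ : LiftOf h θ) : θ ∈ opg Γ := by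
  obtain ⟨φ, -, h2⟩ := hθ
  exact h2.op hΓ

include hΓ in
/-- A homeomorphism isotopic to the identity has a lift which commutes with the group. -/
lemma liftOf_of_isotopic {u : Surf Γ ≃ₜ Surf Γ} (hu : u ∈ isotopySubgroup (Surf Γ)) :
    LiftOf u (1 : MulAut Γ) := by
  obtain ⟨F, hF, hF0, hF1⟩ := hu
  let H : C(I × ℍ, Surf Γ) := ⟨fun r => F r.1 (pr Γ r.2),
    hF.comp (continuous_fst.prodMk (pr_continuous.comp continuous_snd))⟩
  let f : C(ℍ, ℍ) := ContinuousMap.id ℍ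
  have hH0 : ∀ a : ℍ, H (0, a) = pr Γ (f a) := by
    intro a
    change F 0 (pr Γ a) = pr Γ a
    rw [hF0]
    rfl
  let L : C(I × ℍ, ℍ) := hΓ.isCov.liftHomotopy H f hH0
  have hL0 : ∀ a : ℍ, L (0, a) = a := hΓ.isCov.liftHomotopy_zero H f hH0
  have hL : ∀ t, ∀ a : ℍ, pr Γ (L (t, a)) = F t (pr Γ a) := fun t a =>
    congrFun (hΓ.isCov.liftHomotopy_lifts H f hH0) (t, a)
  have hLg : ∀ (g : Γ) (a : ℍ) (t : I), L (t, g • a) = g • L (t, a) := by
    intro g a t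
    have hcs : Continuous (fun z : ℍ => g • z) := continuous_const_smul g
    have h1 : (fun t : I => L (t, g • a)) = fun t : I => g • L (t, a) := by
      refine hΓ.lift_unique (L.continuous.comp (Continuous.prodMk_left _))
        (hcs.comp (L.continuous.comp (Continuous.prodMk_left _))) (fun t => ?_) (a := 0) ?_
      · rw [hL, pr_smul, pr_smul, hL]
      · rw [hL0, hL0]
    exact congrFun h1 t
  have hab : pr Γ (L (1, UpperHalfPlane.I)) = u (pr Γ UpperHalfPlane.I) := by rw [hL, hF1]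
  obtain ⟨φ, hφa, hφ⟩ := hΓ.exists_homeo u hab
  have h2 : (fun z => φ z) = fun z => L (1, z) := by
    refine hΓ.lift_unique φ.continuous (L.continuous.comp (Continuous.prodMk_right 1))
      (fun z => ?_) (a := UpperHalfPlane.I) hφa
    rw [hφ, hL, hF1]
  refine ⟨φ, hφ, fun g z => ?_⟩
  rw [congrFun h2, congrFun h2, hLg]
  rfl

include hΓ in
theorem LiftOf.isotopic {h : Surf Γ ≃ₜ Surf Γ} (hh : h ∈ isotopySubgroup (Surf Γ)) {θ : MulAut Γ}
    (hl : LiftOf h θ) (x : Γ) : IsConj (θ x) x := by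
  obtain ⟨g, hg⟩ := LiftOf.unique hΓ (liftOf_of_isotopic hΓ hh) hl
  refine IsConj.symm (isConj_iff.mpr ⟨g, ?_⟩)
  rw [hg, mul_one, MulAut.conj_apply]

omit [DiscreteTopology Γ] in
/-- The evaluation is continuous. -/
lemma continuous_evalX : Continuous (fun r : (Surf Γ ≃ₜ Surf Γ) × Surf Γ => r.1 r.2) := by
  have h1 : Continuous (fun h : Surf Γ ≃ₜ Surf Γ =>
      (⟨h, h.continuous⟩ : C(Surf Γ, Surf Γ))) := continuous_induced_dom
  have h2 : Continuous (fun r : C(Surf Γ, Surf Γ) × Surf Γ => r.1 r.2) :=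
    _root_.ContinuousEval.continuous_eval
  exact h2.comp ((h1.comp continuous_fst).prodMk continuous_snd)

include hΓ in
/-- Homeomorphisms close to the identity fix a given conjugacy class. -/
theorem LiftOf.near (x : Γ) : ∀ᶠ h : Surf Γ ≃ₜ Surf Γ in 𝓝 1, ∀ θ, LiftOf h θ →
    IsConj (θ x) x := by
  set p : ℍ := UpperHalfPlane.I with hp
  obtain ⟨c⟩ : Nonempty (Path p (x • p)) := ⟨PathConnectedSpace.somePath _ _⟩
  obtain ⟨e, hpe, he⟩ := hΓ.isCov.isLocalHomeomorph p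
  have hval : ∀ z, e z = pr Γ z := fun z => (congrFun he z).symm
  let A : Set (Surf Γ ≃ₜ Surf Γ) := {h | h (pr Γ p) ∈ e.target}
  have hevp : Continuous (fun h : Surf Γ ≃ₜ Surf Γ => h (pr Γ p)) :=
    continuous_evalX.comp (Continuous.prodMk_left (pr Γ p))
  have hAo : IsOpen A := e.open_target.preimage hevp
  have h1A : (1 : Surf Γ ≃ₜ Surf Γ) ∈ A := by
    change pr Γ p ∈ e.target
    rw [← hval]
    exact e.map_source hpe
  let H : C(I × A, Surf Γ) := ⟨fun r => (r.2 : Surf Γ ≃ₜ Surf Γ) (pr Γ (c r.1)),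
    continuous_evalX.comp ((continuous_subtype_val.comp continuous_snd).prodMk
      (pr_continuous.comp (c.continuous.comp continuous_fst)))⟩
  let f : C(A, ℍ) := ⟨fun a => e.symm ((a : Surf Γ ≃ₜ Surf Γ) (pr Γ p)), by
    have h1 : ContinuousOn e.symm e.target := e.continuousOn_symm
    exact h1.comp_continuous (hevp.comp continuous_subtype_val) fun a => a.2⟩
  have hf : ∀ a : A, pr Γ (f a) = (a : Surf Γ ≃ₜ Surf Γ) (pr Γ p) := by
    intro a
    change pr Γ (e.symm ((a : Surf Γ ≃ₜ Surf Γ) (pr Γ p))) = _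
    rw [← hval, e.right_inv a.2]
  have hH0 : ∀ a : A, H (0, a) = pr Γ (f a) := by
    intro a
    rw [hf]
    change (a : Surf Γ ≃ₜ Surf Γ) (pr Γ (c 0)) = _
    rw [c.source]
  let L : C(I × A, ℍ) := hΓ.isCov.liftHomotopy H f hH0
  have hL0 : ∀ a : A, L (0, a) = f a := hΓ.isCov.liftHomotopy_zero H f hH0
  have hL : ∀ t, ∀ a : A, pr Γ (L (t, a)) = (a : Surf Γ ≃ₜ Surf Γ) (pr Γ (c t)) := fun t a =>
    congrFun (hΓ.isCov.liftHomotopy_lifts H f hH0) (t, a)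
  have hL1 : ∀ (a : A) (φ : ℍ ≃ₜ ℍ), (∀ z, pr Γ (φ z) = (a : Surf Γ ≃ₜ Surf Γ) (pr Γ z)) →
      φ p = f a → L (1, a) = φ (x • p) := by
    intro a φ hφ hφp
    have h1 : (fun t : I => L (t, a)) = fun t : I => φ (c t) := by
      refine hΓ.lift_unique (L.continuous.comp (Continuous.prodMk_left a))
        (φ.continuous.comp c.continuous) (fun t => ?_) (a := 0) ?_
      · rw [hL, hφ]
      · rw [hL0, c.source, hφp]
    have h2 := congrFun h1 1
    simpa only [c.target] using h2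
  obtain ⟨U, hU, hdis⟩ := hΓ.cover.disjoint p
  let one : A := ⟨1, h1A⟩
  have hf1 : f one = p := by
    change e.symm (pr Γ p) = p
    rw [← hval, e.left_inv hpe]
  have hL11 : L (1, one) = x • p := hL1 one 1 (fun _ => rfl) hf1.symm
  have hxU : (fun z : ℍ => x⁻¹ • z) ⁻¹' U ∈ 𝓝 (x • p) := by
    have h1 : Continuous (fun z : ℍ => x⁻¹ • z) := continuous_const_smul _
    refine h1.continuousAt ?_
    rwa [inv_smul_smul]
  have e1 : ∀ᶠ a : A in 𝓝 one, L (1, a) ∈ (fun z : ℍ => x⁻¹ • z) ⁻¹' U := by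
    have h2 : Continuous (fun a : A => L (1, a)) := L.continuous.comp (Continuous.prodMk_right 1)
    refine h2.continuousAt ?_
    rw [hL11]
    exact hxU
  have e2 : ∀ᶠ a : A in 𝓝 one, f a ∈ U := by
    refine f.continuous.continuousAt ?_
    rw [hf1]
    exact hU
  have e3 : ∀ᶠ a : A in 𝓝 one, ∀ θ, LiftOf (a : Surf Γ ≃ₜ Surf Γ) θ →
      IsConj (θ x) x := by
    filter_upwards [e1, e2] with a ha1 ha2 θ hθ
    obtain ⟨φ, hφp, hφ⟩ := hΓ.exists_homeo (a : Surf Γ ≃ₜ Surf Γ) (hf a)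
    obtain ⟨η, hη⟩ := hΓ.exists_eqv hφ
    have h1 := hL1 a φ hφ hφp
    rw [hη, hφp] at h1
    rw [h1, mem_preimage, smul_smul] at ha1
    have h3 := hdis (x⁻¹ * η x) ⟨_, ⟨f a, ha2, rfl⟩, ha1⟩
    rw [inv_mul_eq_one] at h3
    obtain ⟨g, hg⟩ := LiftOf.unique hΓ ⟨φ, hφ, hη⟩ hθ
    refine IsConj.symm (isConj_iff.mpr ⟨g, ?_⟩)
    rw [hg, MulAut.mul_apply, ← h3, MulAut.conj_apply]
  have h4 : Filter.map (Subtype.val : A → Surf Γ ≃ₜ Surf Γ) (𝓝 one) = 𝓝 1 :=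
    hAo.isOpenEmbedding_subtypeVal.map_nhds_eq one
  rw [← h4]
  exact e3

end Pool.Agent.GEN
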