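import Mathlib
import Pool.Agent.GEN.Defs

/-!
# Basic facts on axes and their crossings
-/

set_option autoImplicit false

open Topology Set Filter
open scoped MatrixGroups UpperHalfPlane

namespace Pool.Agent.GEN

open Pool.Agent.Helper2.Fuch Pool.Agent.Helper2.Genus Pool.Agent.Helper2.Planar

variable {Γ : Subgroup SL(2, ℝ)}

theorem isAtt_ep (hΓ : Hyp Γ) {x : Γ} (hx : x ≠ 1) : IsAtt (x : SL(2, ℝ)) (ep x) := hΓ.att' hx

theorem isAtt_em (hΓ : Hyp Γ) {x : Γ} (hx : x ≠ 1) : IsAtt ((x⁻¹ : Γ) : SL(2, ℝ)) (em x) :=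
  hΓ.att' (inv_ne_one.mpr hx)

theorem ep_ne_zero (x : Γ) : ep x ≠ 0 := att_ne_zero _

theorem em_ne_zero (x : Γ) : em x ≠ 0 := att_ne_zero _

theorem ep_inv (x : Γ) : ep x⁻¹ = em x := rfl

theorem em_inv (x : Γ) : em x⁻¹ = ep x := by
  unfold em ep
  rw [inv_inv]

/-- the eigenvalue at the two ends -/
theorem exists_eig (hΓ : Hyp Γ) {x : Γ} (hx : x ≠ 1) : dt (ep x) (em x) ≠ 0 ∧
    ∃ μ : ℝ, 1 < |μ| ∧ ac (x : SL(2, ℝ)) (ep x) = μ • ep x ∧
      ac (x : SL(2, ℝ)) (em x) = μ⁻¹ • em x := by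
  have h1 := isAtt_ep hΓ hx
  have h2 := isAtt_em hΓ hx
  rw [Subgroup.coe_inv] at h2
  exact h1.pair h2

theorem dt_em_ep (hΓ : Hyp Γ) {x : Γ} (hx : x ≠ 1) : dt (em x) (ep x) ≠ 0 := by
  rw [dt_comm, neg_ne_zero]
  exact (exists_eig hΓ hx).1

theorem ep_conj (hΓ : Hyp Γ) (g : Γ) {x : Γ} (hx : x ≠ 1) :
    dt (ep (g * x * g⁻¹)) (ac (g : SL(2, ℝ)) (ep x)) = 0 := hΓ.conj_par g hx

theorem em_conj (hΓ : Hyp Γ) (g : Γ) {x : Γ} (hx : x ≠ 1) :
    dt (em (g * x * g⁻¹)) (ac (g : SL(2, ℝ)) (em x)) = 0 := by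
  have h := hΓ.conj_par g (inv_ne_one.mpr hx)
  have e : g * x⁻¹ * g⁻¹ = (g * x * g⁻¹)⁻¹ := by group
  rw [e] at h
  exact h

theorem Cr.symm {x y : Γ} (h : Cr x y) : Cr y x := by
  unfold Cr Lk at *
  rwa [lkp_comm]

theorem cr_comm (x y : Γ) : Cr x y ↔ Cr y x := ⟨Cr.symm, Cr.symm⟩

theorem not_cr_one_left (y : Γ) : ¬ Cr 1 y := by
  intro h
  apply h.ne'
  have : (em (1 : Γ)) = ep (1 : Γ) := by
    unfold em ep
    rw [inv_one]
  rw [this, dt_self]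

theorem Cr.ne_one_left {x y : Γ} (h : Cr x y) : x ≠ 1 := by
  rintro rfl
  exact not_cr_one_left y h

theorem Cr.ne_one_right {x y : Γ} (h : Cr x y) : y ≠ 1 := h.symm.ne_one_left

theorem not_cr_self (x : Γ) : ¬ Cr x x := by
  intro h
  exact h.ne.1 (dt_self _)

theorem cr_inv_left (x y : Γ) : Cr x⁻¹ y ↔ Cr x y := by
  unfold Cr Lk
  rw [ep_inv, em_inv, lkp_swap_left]

theorem cr_inv_right (x y : Γ) : Cr x y⁻¹ ↔ Cr x y := by
  unfold Cr Lk
  rw [ep_inv, em_inv, lkp_swap_right]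

theorem cr_map {θ : MulAut Γ} (hθ : θ ∈ opg Γ) (x y : Γ) : Cr (θ x) (θ y) ↔ Cr x y := by
  by_cases hx : x = 1
  · subst hx
    rw [map_one]
    exact ⟨fun h => absurd h (not_cr_one_left _), fun h => absurd h (not_cr_one_left _)⟩
  by_cases hy : y = 1
  · subst hy
    rw [map_one]
    exact ⟨fun h => absurd h.symm (not_cr_one_left _), fun h => absurd h.symm (not_cr_one_left _)⟩
  have h := hθ.lk x⁻¹ x y⁻¹ y (inv_ne_one.mpr hx) hx (inv_ne_one.mpr hy) hy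
  rw [map_inv, map_inv] at h
  exact h.symm

theorem cr_conj (hΓ : Hyp Γ) (g x y : Γ) : Cr (g * x * g⁻¹) (g * y * g⁻¹) ↔ Cr x y := by
  have h := cr_map (hΓ.conj_mem g) x y
  rwa [MulAut.conj_apply, MulAut.conj_apply] at h

/-- elements whose attracting ends agree commute -/
theorem commute_of_ep (hΓ : Hyp Γ) {x y : Γ} (hx : x ≠ 1) (hy : y ≠ 1)
    (h : dt (ep x) (ep y) = 0) : Commute x y := by
  obtain ⟨-, μ, -, h1⟩ := isAtt_ep hΓ hx
  obtain ⟨hne, -⟩ := isAtt_ep hΓ hx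
  have h2 : IsAtt (y : SL(2, ℝ)) (ep x) := by
    refine (isAtt_ep hΓ hy).of_par hne ?_
    rw [dt_comm, h, neg_zero]
  obtain ⟨-, ν, -, h3⟩ := h2
  have h4 := hΓ.commute x.2 y.2 hne h1 h3
  exact Subtype.ext h4

/-- elements whose axes have a common end commute -/
theorem ends_ne (hΓ : Hyp Γ) {x y : Γ} (hx : x ≠ 1) (hy : y ≠ 1) (h : ¬ Commute x y) :
    dt (ep x) (ep y) ≠ 0 ∧ dt (ep x) (em y) ≠ 0 ∧ dt (em x) (ep y) ≠ 0 ∧
      dt (em x) (em y) ≠ 0 := by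
  have hx' : x⁻¹ ≠ 1 := inv_ne_one.mpr hx
  have hy' : y⁻¹ ≠ 1 := inv_ne_one.mpr hy
  refine ⟨fun h0 => h (commute_of_ep hΓ hx hy h0), fun h0 => h ?_, fun h0 => h ?_, fun h0 => h ?_⟩
  · have := commute_of_ep hΓ hx hy' (by rwa [ep_inv])
    simpa using this.inv_right
  · have := commute_of_ep hΓ hx' hy (by rwa [ep_inv])
    simpa using this.inv_left
  · have := commute_of_ep hΓ hx' hy' (by rwa [ep_inv, ep_inv])
    simpa using this.inv_left.inv_right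

/-- an eigenvector of `c` is parallel to one of its ends -/
theorem eig_par (hΓ : Hyp Γ) {c : Γ} (hc : c ≠ 1) {v : ℝ × ℝ} {ν : ℝ}
    (h : ac (c : SL(2, ℝ)) v = ν • v) : dt v (ep c) = 0 ∨ dt v (em c) = 0 := by
  obtain ⟨-, μ, hμ, h1, h2⟩ := exists_eig hΓ hc
  have e1 := dt_ac (c : SL(2, ℝ)) v (ep c)
  have e2 := dt_ac (c : SL(2, ℝ)) v (em c)
  rw [h, h1, dt_smul_left, dt_smul_right] at e1
  rw [h, h2, dt_smul_left, dt_smul_right] at e2
  by_contra hcon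
  rw [not_or] at hcon
  have hμ0 : μ ≠ 0 := by rintro rfl; simp at hμ; linarith
  have f1 : ν * μ = 1 := by
    have : (ν * μ - 1) * dt v (ep c) = 0 := by linarith
    have := (mul_eq_zero.mp this).resolve_right hcon.1
    linarith
  have f2 : ν * μ⁻¹ = 1 := by
    have : (ν * μ⁻¹ - 1) * dt v (em c) = 0 := by linarith
    have := (mul_eq_zero.mp this).resolve_right hcon.2
    linarith
  have f3 : ν = μ := by
    field_simp at f2
    exact f2
  have f4 : |μ| * |μ| = 1 := by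
    rw [← abs_mul, ← f3]
    rw [← f3] at f1
    rw [f1, abs_one]
  nlinarith

/-- commuting elements map the ends to themselves -/
theorem exists_eig_of_commute (hΓ : Hyp Γ) {c x : Γ} (hx : x ≠ 1) (h : Commute c x) :
    ∃ ν : ℝ, ac (c : SL(2, ℝ)) (ep x) = ν • ep x := by
  have h1 := (isAtt_ep hΓ hx).conj (c : SL(2, ℝ))
  have e : (c : SL(2, ℝ)) * (x : SL(2, ℝ)) * (c : SL(2, ℝ))⁻¹ = x := by
    have h2 : c * x * c⁻¹ = x := by rw [h.eq, mul_inv_cancel_right]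
    exact congrArg (Subtype.val) h2
  rw [e] at h1
  exact exists_smul_of_dt (ep_ne_zero x) ((isAtt_ep hΓ hx).par h1)

/-- `c ≠ 1` commuting with `x` has the same two ends -/
theorem ends_of_commute (hΓ : Hyp Γ) {x c : Γ} (hx : x ≠ 1) (hc : c ≠ 1) (h : Commute c x) :
    (dt (ep x) (ep c) = 0 ∧ dt (em x) (em c) = 0) ∨
      (dt (ep x) (em c) = 0 ∧ dt (em x) (ep c) = 0) := by
  obtain ⟨ν, h1⟩ := exists_eig_of_commute hΓ hx h
  obtain ⟨ν', h2⟩ := exists_eig_of_commute hΓ (inv_ne_one.mpr hx) (c := c) h.inv_right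
  rw [ep_inv] at h2
  have hne := (exists_eig hΓ hx).1
  have key : ∀ v : ℝ × ℝ, v ≠ 0 → dt (ep x) v = 0 → dt (em x) v = 0 → False := by
    intro v hv e1 e2
    obtain ⟨a, ha, hav⟩ := exists_smul_of_dt' (ep_ne_zero x) hv e1
    rw [hav, dt_smul_right] at e2
    rcases mul_eq_zero.mp e2 with e3 | e3
    · exact ha e3
    · exact hne (by rw [dt_comm, e3, neg_zero])
  rcases eig_par hΓ hc h1 with e1 | e1 <;> rcases eig_par hΓ hc h2 with e2 | e2
  · exact (key _ (ep_ne_zero c) e1 e2).elim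
  · exact Or.inl ⟨e1, e2⟩
  · exact Or.inr ⟨e1, e2⟩
  · exact (key _ (em_ne_zero c) e1 e2).elim

theorem cr_of_commute_imp (hΓ : Hyp Γ) {x c y : Γ} (hx : x ≠ 1) (hc : c ≠ 1) (h : Commute c x)
    (hcr : Cr x y) : Cr c y := by
  rcases ends_of_commute hΓ hx hc h with ⟨h1, h2⟩ | ⟨h1, h2⟩
  · exact Lk_of_par (em_ne_zero c) (ep_ne_zero c) (em_ne_zero y) (ep_ne_zero y) h2 h1 (dt_self _)
      (dt_self _) hcr
  · have : Lk (ep c) (em c) (em y) (ep y) :=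
      Lk_of_par (ep_ne_zero c) (em_ne_zero c) (em_ne_zero y) (ep_ne_zero y) h2 h1 (dt_self _)
        (dt_self _) hcr
    unfold Cr Lk at *
    rwa [lkp_swap_left] at this

/-- `c ≠ 1` commuting with `x` crosses the same axes -/
theorem cr_of_commute (hΓ : Hyp Γ) {x c y : Γ} (hx : x ≠ 1) (hc : c ≠ 1) (h : Commute c x) :
    Cr c y ↔ Cr x y :=
  ⟨cr_of_commute_imp hΓ hc hx h.symm, cr_of_commute_imp hΓ hx hc h⟩

/-- commuting elements do not cross -/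
theorem Cr.not_commute (hΓ : Hyp Γ) {x y : Γ} (h : Cr x y) : ¬ Commute x y := by
  intro hc
  exact not_cr_self y ((cr_of_commute hΓ h.ne_one_left h.ne_one_right hc.symm).mpr h)

theorem eq_one_of_commute (hΓ : Hyp Γ) {u b c : Γ} (h : Cr u b) (hu : Commute c u)
    (hb : Commute c b) : c = 1 := by
  by_contra hc
  have h1 : Cr c b := (cr_of_commute hΓ h.ne_one_left hc hu).mpr h
  exact h1.not_commute hΓ hb

end Pool.Agent.GEN
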