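import Mathlib
import Pool.Agent.Helper2.Fuch.Lift

/-!
# The distance from a geodesic and the translation flow
-/

set_option autoImplicit false

open Topology Set Filter
open scoped MatrixGroups UpperHalfPlane

namespace Pool.Agent.GEN

open Pool.Agent.Helper2.Fuch

/-- The hyperbolic sine of the signed distance of `z` from the geodesic with the ends `P`, `Q`. -/
noncomputable def sd (P Q : ℝ × ℝ) (z : ℍ) : ℝ := (RR P Q z).re / (RR P Q z).im

lemma im_ne {P Q : ℝ × ℝ} (h : dt P Q ≠ 0) (z : ℍ) : (RR P Q z).im ≠ 0 := by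
  have hQ : Q ≠ 0 := by
    rintro rfl
    simp [dt] at h
  rw [RR_im]
  have h1 := Complex.normSq_pos.mpr (DD_ne_zero hQ z)
  have h2 := z.im_ne_zero
  exact div_ne_zero (mul_ne_zero h h2) h1.ne'

lemma sd_ac (g : SL(2, ℝ)) (P Q : ℝ × ℝ) (z : ℍ) :
    sd (ac g P) (ac g Q) (g • z) = sd P Q z := by
  unfold sd
  rw [RR_ac]

lemma sd_ac_inv (g : SL(2, ℝ)) (P Q : ℝ × ℝ) (z : ℍ) :
    sd P Q (g⁻¹ • z) = sd (ac g P) (ac g Q) z := by
  have h := sd_ac g P Q (g⁻¹ • z)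
  rw [smul_inv_smul] at h
  exact h.symm

lemma sd_smul_left {c : ℝ} (hc : c ≠ 0) (P Q : ℝ × ℝ) (z : ℍ) : sd (c • P) Q z = sd P Q z := by
  unfold sd
  rw [RR_smul_left, Complex.re_ofReal_mul, Complex.im_ofReal_mul, mul_div_mul_left _ _ hc]

lemma sd_smul_right {c : ℝ} (hc : c ≠ 0) (P Q : ℝ × ℝ) (z : ℍ) : sd P (c • Q) z = sd P Q z := by
  unfold sd
  rw [RR_smul_right, ← Complex.ofReal_inv, Complex.re_ofReal_mul, Complex.im_ofReal_mul,
    mul_div_mul_left _ _ (inv_ne_zero hc)]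

lemma sd_par {P Q P' Q' : ℝ × ℝ} (hP : P ≠ 0) (hP' : P' ≠ 0) (hQ : Q ≠ 0) (hQ' : Q' ≠ 0)
    (h1 : dt P P' = 0) (h2 : dt Q Q' = 0) (z : ℍ) : sd P' Q' z = sd P Q z := by
  obtain ⟨c, hc, rfl⟩ := exists_smul_of_dt' hP hP' h1
  obtain ⟨d, hd, rfl⟩ := exists_smul_of_dt' hQ hQ' h2
  rw [sd_smul_left hc, sd_smul_right hd]

lemma sd_swap (P Q : ℝ × ℝ) (z : ℍ) : sd Q P z = -sd P Q z := by
  have h : RR Q P z = (RR P Q z)⁻¹ := by
    unfold RR
    rw [inv_div]
  unfold sd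
  rw [h, Complex.inv_re, Complex.inv_im]
  by_cases h0 : Complex.normSq (RR P Q z) = 0
  · rw [Complex.normSq_eq_zero.mp h0]
    simp
  · rw [div_div_div_cancel_right₀ h0, div_neg]

lemma sd_continuous {P Q : ℝ × ℝ} (h : dt P Q ≠ 0) : Continuous (sd P Q) := by
  have hQ : Q ≠ 0 := by
    rintro rfl
    simp [dt] at h
  have h1 := RR_continuous P hQ
  exact (Complex.continuous_re.comp h1).div (Complex.continuous_im.comp h1) (im_ne h)

lemma sd_eq_zero {P Q : ℝ × ℝ} (h : dt P Q ≠ 0) {z : ℍ} :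
    sd P Q z = 0 ↔ (RR P Q z).re = 0 := by
  unfold sd
  rw [div_eq_zero_iff]
  exact ⟨fun h1 => h1.resolve_right (im_ne h z), Or.inl⟩

/-! ### The flow -/

/-- The translation along the geodesic with the ends `P`, `Q`. -/
noncomputable def fl (P Q : ℝ × ℝ) (h : dt P Q ≠ 0) (t : ℝ) : SL(2, ℝ) :=
  ⟨!![(Real.exp t * (Q.2 * P.1) - Real.exp (-t) * (P.2 * Q.1)) / dt P Q,
      (-(Real.exp t * (Q.1 * P.1)) + Real.exp (-t) * (P.1 * Q.1)) / dt P Q;
      (Real.exp t * (Q.2 * P.2) - Real.exp (-t) * (P.2 * Q.2)) / dt P Q,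
      (-(Real.exp t * (Q.1 * P.2)) + Real.exp (-t) * (P.1 * Q.2)) / dt P Q], by
    rw [Matrix.det_fin_two_of]
    have he : Real.exp t * Real.exp (-t) = 1 := by rw [← Real.exp_add, add_neg_cancel, Real.exp_zero]
    rw [div_mul_div_comm, div_mul_div_comm, ← sub_div, div_eq_one_iff_eq (mul_ne_zero h h)]
    simp only [dt]
    linear_combination (P.1 ^ 2 * Q.2 ^ 2 + P.2 ^ 2 * Q.1 ^ 2 - 2 * P.1 * P.2 * Q.1 * Q.2) * he⟩

section fl

variable {P Q : ℝ × ℝ} (h : dt P Q ≠ 0)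

lemma ac_fl_left (t : ℝ) : ac (fl P Q h t) P = Real.exp t • P := by
  have h' : P.1 * Q.2 - P.2 * Q.1 ≠ 0 := h
  simp only [ac, fl]
  ext
  · simp only [Matrix.of_apply, Matrix.cons_val', Matrix.cons_val_zero,
      Matrix.cons_val_one, Prod.smul_fst, smul_eq_mul, dt]
    rw [div_mul_eq_mul_div, div_mul_eq_mul_div, ← add_div, div_eq_iff h']
    ring
  · simp only [Matrix.of_apply, Matrix.cons_val', Matrix.cons_val_zero,
      Matrix.cons_val_one, Prod.smul_snd, smul_eq_mul, dt]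
    rw [div_mul_eq_mul_div, div_mul_eq_mul_div, ← add_div, div_eq_iff h']
    ring

lemma ac_fl_right (t : ℝ) : ac (fl P Q h t) Q = Real.exp (-t) • Q := by
  have h' : P.1 * Q.2 - P.2 * Q.1 ≠ 0 := h
  simp only [ac, fl]
  ext
  · simp only [Matrix.of_apply, Matrix.cons_val', Matrix.cons_val_zero,
      Matrix.cons_val_one, Prod.smul_fst, smul_eq_mul, dt]
    rw [div_mul_eq_mul_div, div_mul_eq_mul_div, ← add_div, div_eq_iff h']
    ring
  · simp only [Matrix.of_apply, Matrix.cons_val', Matrix.cons_val_zero,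
      Matrix.cons_val_one, Prod.smul_snd, smul_eq_mul, dt]
    rw [div_mul_eq_mul_div, div_mul_eq_mul_div, ← add_div, div_eq_iff h']
    ring

lemma RR_fl (t : ℝ) (z : ℍ) :
    RR P Q (fl P Q h t • z) = ((Real.exp (-(2 * t)) : ℝ) : ℂ) * RR P Q z := by
  have h1 := RR_ac (fl P Q h t) P Q z
  rw [ac_fl_left, ac_fl_right, RR_smul_left, RR_smul_right] at h1
  rw [← h1, ← Complex.ofReal_inv, ← mul_assoc, ← mul_assoc, ← Complex.ofReal_mul,
    ← Complex.ofReal_mul, ← Real.exp_neg, ← Real.exp_add, ← Real.exp_add]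
  have : -(2 * t) + t + - -t = 0 := by ring
  rw [this, Real.exp_zero, Complex.ofReal_one, one_mul]

lemma sd_fl (t : ℝ) (z : ℍ) : sd P Q (fl P Q h t • z) = sd P Q z := by
  unfold sd
  rw [RR_fl, Complex.re_ofReal_mul, Complex.im_ofReal_mul,
    mul_div_mul_left _ _ (Real.exp_ne_zero _)]

lemma fl_zero (z : ℍ) : fl P Q h 0 • z = z := by
  apply RR_inj h
  rw [RR_fl]
  simp

lemma fl_add (s t : ℝ) (z : ℍ) : fl P Q h s • fl P Q h t • z = fl P Q h (s + t) • z := by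
  apply RR_inj h
  rw [RR_fl, RR_fl, RR_fl, ← mul_assoc, ← Complex.ofReal_mul, ← Real.exp_add]
  congr 3
  ring

lemma fl_conj (g : SL(2, ℝ)) (h' : dt (ac g P) (ac g Q) ≠ 0) (t : ℝ) (z : ℍ) :
    fl (ac g P) (ac g Q) h' t • g • z = g • fl P Q h t • z := by
  apply RR_inj h'
  rw [RR_fl, RR_ac, RR_ac, RR_fl]

lemma fl_eq {a : SL(2, ℝ)} {μ : ℝ} (hμ : μ ≠ 0) (ha : ac a P = μ • P) (ha' : ac a Q = μ⁻¹ • Q)
    (z : ℍ) : fl P Q h (Real.log |μ|) • z = a • z := by
  apply RR_inj h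
  rw [RR_fl]
  have h1 := RR_pow hμ ha ha' 1 z
  rw [pow_one, mul_one] at h1
  rw [h1]
  congr 1
  rw [Real.exp_neg, two_mul, Real.exp_add, Real.exp_log (abs_pos.mpr hμ), abs_mul_abs_self]
  push_cast
  ring

lemma fl_comm {a : SL(2, ℝ)} {μ : ℝ} (hμ : μ ≠ 0) (ha : ac a P = μ • P) (ha' : ac a Q = μ⁻¹ • Q)
    (t : ℝ) (z : ℍ) : fl P Q h t • a • z = a • fl P Q h t • z := by
  rw [← fl_eq h hμ ha ha', ← fl_eq h hμ ha ha', fl_add, fl_add, add_comm]

lemma fl_continuous : Continuous (fl P Q h) := by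
  refine Continuous.subtype_mk ?_ _
  refine continuous_matrix ?_
  intro i j
  fin_cases i <;> fin_cases j <;> simp <;> fun_prop

end fl

/-- Compact pieces of collars. -/
lemma isCompact_piece {P Q : ℝ × ℝ} (h : dt P Q ≠ 0) (R : ℝ) {r s : ℝ} (hr : 0 < r) :
    IsCompact {z : ℍ | |sd P Q z| ≤ R ∧ r ≤ ‖RR P Q z‖ ∧ ‖RR P Q z‖ ≤ s} := by
  have hd : 0 < |dt P Q| := abs_pos.mpr h
  have hQ : Q ≠ 0 := by
    rintro rfl
    simp [dt] at h
  have h1 : IsCompact ((fun z : ℍ => col P Q h • z) ''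
      {z : ℍ | ‖(z : ℂ)‖ ≤ s / |dt P Q| ∧ r / (|dt P Q| * (|R| + 1)) ≤ z.im}) :=
    (isCompact_box _ (by positivity)).image (continuous_const_smul _)
  refine h1.of_isClosed_subset ?_ ?_
  · exact (isClosed_le (sd_continuous h).abs continuous_const).inter
      ((isClosed_le continuous_const (RR_continuous P hQ).norm).inter
        (isClosed_le (RR_continuous P hQ).norm continuous_const))
  · rintro z ⟨hz1, hz2, hz3⟩
    refine ⟨(col P Q h)⁻¹ • z, ?_, smul_inv_smul _ _⟩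
    set w := (col P Q h)⁻¹ • z with hw
    have hzw : z = col P Q h • w := (smul_inv_smul _ _).symm
    have h2 : RR P Q z = dt P Q * w := by rw [hzw]; exact RR_col P Q h w
    have h3 : ‖RR P Q z‖ = |dt P Q| * ‖(w : ℂ)‖ := by
      rw [h2, norm_mul, Complex.norm_real, Real.norm_eq_abs]
    have h4 : sd P Q z = (w : ℂ).re / w.im := by
      unfold sd
      rw [h2, Complex.re_ofReal_mul, Complex.im_ofReal_mul, mul_div_mul_left _ _ h]
      rfl
    constructor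
    · rw [le_div_iff₀ hd, mul_comm, ← h3]
      exact hz3
    · have him := w.im_pos
      have h5 : |(w : ℂ).re| ≤ |R| * w.im := by
        rw [h4, abs_div, abs_of_pos him, div_le_iff₀ him] at hz1
        exact hz1.trans (mul_le_mul_of_nonneg_right (le_abs_self R) him.le)
      have h6 : ‖(w : ℂ)‖ ≤ |(w : ℂ).re| + |(w : ℂ).im| := Complex.norm_le_abs_re_add_abs_im _
      have h7 : |(w : ℂ).im| = w.im := abs_of_pos him
      rw [h7] at h6
      rw [div_le_iff₀ (by positivity)]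
      calc r ≤ |dt P Q| * ‖(w : ℂ)‖ := by rw [← h3]; exact hz2
        _ ≤ |dt P Q| * (|R| * w.im + w.im) := mul_le_mul_of_nonneg_left (by linarith) hd.le
        _ = w.im * (|dt P Q| * (|R| + 1)) := by ring

end Pool.Agent.GEN
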