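import Mathlib
import Pool.Agent.GEN.Basic
import Pool.Agent.GEN.Flow

/-!
# Disjoint collars of the translates of a simple axis
-/

set_option autoImplicit false

open Topology Set Filter
open scoped MatrixGroups UpperHalfPlane

namespace Pool.Agent.GEN

open Pool.Agent.Helper2.Fuch Pool.Agent.Helper2.Genus Pool.Agent.Helper2.Planar

variable {Γ : Subgroup SL(2, ℝ)}

private lemma data (hΓ : Hyp Γ) {b : Γ} (hb : b ≠ 1) : dt (em b) (ep b) ≠ 0 ∧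
    ∃ μ : ℝ, 1 < |μ| ∧ ac (b : SL(2, ℝ)) (ep b) = μ • ep b ∧
      ac (b : SL(2, ℝ)) (em b) = μ⁻¹ • em b := by
  have hb1 : (b : SL(2, ℝ)) ≠ 1 := fun h => hb (Subtype.ext h)
  obtain ⟨hne, μ, hμ, hu, hv⟩ := (hΓ.att b.2 hb1).pair
    (hΓ.att (Γ.inv_mem b.2) (inv_ne_one.mpr hb1))
  refine ⟨?_, μ, hμ, hu, hv⟩
  rw [dt_comm, neg_ne_zero]
  exact hne

private lemma ep0 (x : Γ) : ep x ≠ 0 := att_ne_zero _

private lemma em0 (x : Γ) : em x ≠ 0 := att_ne_zero _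

private lemma epc (hΓ : Hyp Γ) (g : Γ) {x : Γ} (hx : x ≠ 1) :
    dt (ep (g * x * g⁻¹)) (ac (g : SL(2, ℝ)) (ep x)) = 0 := by
  have h1 := (hΓ.att' hx).conj (g : SL(2, ℝ))
  exact (hΓ.att' (conj_ne_one g hx)).par h1

private lemma emc (hΓ : Hyp Γ) (g : Γ) {x : Γ} (hx : x ≠ 1) :
    dt (em (g * x * g⁻¹)) (ac (g : SL(2, ℝ)) (em x)) = 0 := by
  have h1 := epc hΓ g (inv_ne_one.mpr hx)
  have h2 : g * x⁻¹ * g⁻¹ = (g * x * g⁻¹)⁻¹ := by group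
  rw [h2] at h1
  exact h1

lemma ang_eq_sd (b : Γ) (z : ℍ) : ang b z = sd (em b) (ep b) z := rfl

theorem ang_conj (hΓ : Hyp Γ) (g : Γ) {b : Γ} (hb : b ≠ 1) (z : ℍ) :
    ang (g * b * g⁻¹) (g • z) = ang b z := by
  rw [ang_eq_sd, ang_eq_sd, ← sd_ac (g : SL(2, ℝ)) (em b) (ep b) z]
  refine (sd_par (em0 _) (ac_ne_zero (em0 _)) (ep0 _) (ac_ne_zero (ep0 _))
    (emc hΓ g hb) (epc hΓ g hb) _).symm

theorem ang_conj_inv (hΓ : Hyp Γ) (g : Γ) {b : Γ} (hb : b ≠ 1) (z : ℍ) :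
    ang (g * b * g⁻¹) z = ang b (g⁻¹ • z) := by
  have h := ang_conj hΓ g hb (g⁻¹ • z)
  rwa [smul_inv_smul] at h

theorem ang_commute (hΓ : Hyp Γ) {g b : Γ} (hb : b ≠ 1) (h : Commute g b) (z : ℍ) :
    ang b (g • z) = ang b z := by
  have h1 := ang_conj hΓ g hb z
  have h2 : g * b * g⁻¹ = b := by rw [h.eq, mul_inv_cancel_right]
  rwa [h2] at h1

theorem continuous_ang (hΓ : Hyp Γ) {b : Γ} (hb : b ≠ 1) : Continuous (ang b) :=
  sd_continuous (data hΓ hb).1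

private lemma norm_RR_zpow {b : Γ} {μ : ℝ} (hμ : 1 < |μ|)
    (hu : ac (b : SL(2, ℝ)) (ep b) = μ • ep b) (hv : ac (b : SL(2, ℝ)) (em b) = μ⁻¹ • em b)
    (m : ℤ) (z : ℍ) : ‖RR (em b) (ep b) (b ^ m • z)‖ = (|μ| ^ 2) ^ m * ‖RR (em b) (ep b) z‖ := by
  have hμ0 : μ ≠ 0 := by rintro rfl; simp at hμ; linarith
  have hμp : 0 < |μ| := abs_pos.mpr hμ0
  have hone : ∀ z : ℍ, ‖RR (em b) (ep b) (b • z)‖ = |μ| ^ 2 * ‖RR (em b) (ep b) z‖ := by
    intro z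
    have h1 := RR_pow (inv_ne_zero hμ0) hv (by rw [inv_inv]; exact hu) 1 z
    rw [pow_one, mul_one] at h1
    have h2 : RR (em b) (ep b) (b • z) = RR (em b) (ep b) ((b : SL(2, ℝ)) • z) := rfl
    rw [h2, h1, norm_mul, norm_inv, norm_pow, Complex.norm_real, norm_inv, Real.norm_eq_abs,
      inv_pow, inv_inv]
  induction m using Int.induction_on with
  | zero => simp
  | succ n ih =>
    rw [zpow_add_one, (Commute.refl b).zpow_left _ |>.eq, mul_smul, hone, ih,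
      zpow_add_one₀ (by positivity)]
    ring
  | pred n ih =>
    have h3 := hone (b ^ (-(n : ℤ) - 1) • z)
    rw [← mul_smul, ← zpow_one_add] at h3
    have h4 : (1 : ℤ) + (-(n : ℤ) - 1) = -n := by ring
    rw [h4, ih] at h3
    rw [zpow_sub_one₀ (by positivity)]
    field_simp
    linarith

private lemma exists_zpow (hΓ : Hyp Γ) {b : Γ} (hb : b ≠ 1) : ∃ r : ℝ, ∀ z : ℍ, ∃ m : ℤ,
    1 ≤ ‖RR (em b) (ep b) (b ^ m • z)‖ ∧ ‖RR (em b) (ep b) (b ^ m • z)‖ ≤ r := by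
  obtain ⟨hne, μ, hμ, hu, hv⟩ := data hΓ hb
  have hμp : 0 < |μ| := by linarith
  refine ⟨|μ| ^ 2, fun z => ?_⟩
  have h1 : 1 < |μ| ^ 2 := by nlinarith
  have h2 : 0 < ‖RR (em b) (ep b) z‖ :=
    norm_pos_iff.mpr (div_ne_zero (DD_ne_zero (em0 b) z) (DD_ne_zero (ep0 b) z))
  obtain ⟨n, hn1, hn2⟩ := exists_mem_Ico_zpow h2 h1
  have hpos : 0 < (|μ| ^ 2) ^ n := by positivity
  refine ⟨-n, ?_, ?_⟩
  · rw [norm_RR_zpow hμ hu hv, zpow_neg, le_inv_mul_iff₀ hpos, mul_one]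
    exact hn1
  · rw [norm_RR_zpow hμ hu hv, zpow_neg, inv_mul_le_iff₀ hpos, ← zpow_add_one₀ (by positivity)]
    exact hn2.le

/-- A compact set which meets all the orbits of `b` in its collar. -/
private lemma exists_compact (hΓ : Hyp Γ) {b : Γ} (hb : b ≠ 1) (ε : ℝ) : ∃ F : Set ℍ, IsCompact F ∧
    (∀ z ∈ F, |ang b z| ≤ ε) ∧ ∀ z : ℍ, |ang b z| ≤ ε → ∃ m : ℤ, b ^ m • z ∈ F := by
  obtain ⟨r, hr⟩ := exists_zpow hΓ hb
  refine ⟨_, isCompact_piece (data hΓ hb).1 ε (r := 1) (s := r) one_pos, fun z hz => hz.1,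
    fun z hz => ?_⟩
  obtain ⟨m, hm1, hm2⟩ := hr z
  refine ⟨m, ?_, hm1, hm2⟩
  have h1 := ang_commute hΓ hb (Commute.zpow_left (Commute.refl b) m) z
  rw [ang_eq_sd] at h1
  rw [h1]
  exact hz

/-- only finitely many collars meet a compact set -/
theorem collar_finite (hΓ : Hyp Γ) [DiscreteTopology Γ] {b : Γ} (hb : b ≠ 1) (ε : ℝ) {K : Set ℍ}
    (hK : IsCompact K) :
    {δ : Γ | (∃ g : Γ, δ = g * b * g⁻¹) ∧ ∃ z ∈ K, |ang δ z| ≤ ε}.Finite := by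
  obtain ⟨F, hF, -, hF2⟩ := exists_compact hΓ hb ε
  have h1 : Set.Finite {h : Γ | ((h • ·) '' K ∩ F).Nonempty} := by
    have h2 := ProperlyDiscontinuousSMul.finite_disjoint_inter_image (Γ := Γ) hK hF
    refine h2.subset fun h hh => ?_
    exact hh
  refine (h1.image fun h => h⁻¹ * b * h).subset ?_
  rintro δ ⟨⟨g, rfl⟩, z, hz, hzε⟩
  rw [ang_conj_inv hΓ g hb] at hzε
  obtain ⟨m, hm⟩ := hF2 _ hzε
  refine ⟨b ^ m * g⁻¹, ⟨(b ^ m * g⁻¹) • z, mem_image_of_mem _ hz, ?_⟩, ?_⟩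
  · rw [mul_smul]
    exact hm
  · change (b ^ m * g⁻¹)⁻¹ * b * (b ^ m * g⁻¹) = g * b * g⁻¹
    have h3 : b ^ (-m) * b * b ^ m = b := by
      rw [← zpow_add_one, ← zpow_add]
      have : -m + 1 + m = 1 := by ring
      rw [this, zpow_one]
    calc (b ^ m * g⁻¹)⁻¹ * b * (b ^ m * g⁻¹) = g * (b ^ (-m) * b * b ^ m) * g⁻¹ := by
          rw [mul_inv_rev, inv_inv, zpow_neg]
          simp only [mul_assoc]
      _ = g * b * g⁻¹ := by rw [h3]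

lemma eig_of_comm {x y : SL(2, ℝ)} {u : ℝ × ℝ} (hu0 : u ≠ 0) {μ : ℝ} (hμ : μ ^ 2 ≠ 1)
    (hu : ac x u = μ • u) (hxy : x * y = y * x) : ∃ ν : ℝ, ac y u = ν • u := by
  have h1 : ac x (ac y u) = μ • ac y u := by rw [← ac_mul, hxy, ac_mul, hu, ac_smul]
  have h2 := dt_ac x u (ac y u)
  rw [hu, h1, dt_smul_left, dt_smul_right] at h2
  have h3 : (μ ^ 2 - 1) * dt u (ac y u) = 0 := by linarith
  exact exists_smul_of_dt hu0 ((mul_eq_zero.mp h3).resolve_left (sub_ne_zero.mpr hμ))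

private lemma par_or {y : SL(2, ℝ)} {u P Q : ℝ × ℝ} {μ ν : ℝ} (hμ0 : μ ≠ 0) (hμ : μ ^ 2 ≠ 1)
    (hu : ac y u = ν • u) (hQ : ac y Q = μ • Q) (hP : ac y P = μ⁻¹ • P) :
    dt u P = 0 ∨ dt u Q = 0 := by
  by_contra hcon
  push Not at hcon
  have h1 := dt_ac y u P
  have h2 := dt_ac y u Q
  rw [hu, hP, dt_smul_left, dt_smul_right] at h1
  rw [hu, hQ, dt_smul_left, dt_smul_right] at h2
  have h3 : ν * μ⁻¹ = 1 := by
    have : (ν * μ⁻¹ - 1) * dt u P = 0 := by linarith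
    linarith [(mul_eq_zero.mp this).resolve_right hcon.1]
  have h4 : ν * μ = 1 := by
    have : (ν * μ - 1) * dt u Q = 0 := by linarith
    linarith [(mul_eq_zero.mp this).resolve_right hcon.2]
  have h5 : ν = μ := by
    rw [mul_inv_eq_one₀ hμ0] at h3
    exact h3
  rw [h5] at h4
  exact hμ (by rw [sq]; exact h4)

private lemma sq_ne {μ : ℝ} (h : 1 < |μ|) : μ ^ 2 ≠ 1 := by
  rw [← sq_abs]
  nlinarith

private lemma ne_of_abs {μ : ℝ} (h : 1 < |μ|) : μ ≠ 0 := by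
  rintro rfl
  rw [abs_zero] at h
  linarith

/-- Elements with a common end commute. -/
private lemma comm_of_end (hΓ : Hyp Γ) {x y : Γ} {u : ℝ × ℝ} (hu : u ≠ 0) {μ ν : ℝ}
    (h1 : ac (x : SL(2, ℝ)) u = μ • u) (h2 : ac (y : SL(2, ℝ)) u = ν • u) : Commute x y :=
  Subtype.ext (hΓ.commute x.2 y.2 hu h1 h2)

private lemma eig_of_par {x : SL(2, ℝ)} {u v : ℝ × ℝ} (hu : u ≠ 0) (hv : v ≠ 0)
    (h : dt u v = 0) {μ : ℝ} (hx : ac x u = μ • u) : ac x v = μ • v := by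
  obtain ⟨c, hc, rfl⟩ := exists_smul_of_dt' hu hv h
  rw [ac_smul, hx, smul_comm]

/-- If `b` commutes with its conjugate by `g` then `g` commutes with `b`. -/
private lemma comm_of_comm_conj (hΓ : Hyp Γ) {b g : Γ} (hb : b ≠ 1)
    (h : Commute b (g * b * g⁻¹)) : Commute g b := by
  by_cases hg1 : g = 1
  · rw [hg1]
    exact Commute.one_left _
  obtain ⟨hne, μ, hμ, hu, hv⟩ := data hΓ hb
  obtain ⟨hne', μ', hμ', hu', hv'⟩ := data hΓ (conj_ne_one g hb)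
  have hxy : (b : SL(2, ℝ)) * (g * b * g⁻¹ : Γ) = (g * b * g⁻¹ : Γ) * b :=
    congrArg Subtype.val h.eq
  have hpar : ∀ v : ℝ × ℝ, v ≠ 0 → dt v (ac (g : SL(2, ℝ)) v) = 0 → ∀ ν : ℝ,
      ac (b : SL(2, ℝ)) v = ν • v → Commute g b := by
    intro v hv0 hd ν hν
    obtain ⟨c, hc⟩ := exists_smul_of_dt hv0 hd
    exact comm_of_end hΓ hv0 hc hν
  have hce := epc hΓ g hb
  have hcm := emc hΓ g hb
  obtain ⟨ν, hν⟩ := eig_of_comm (ep0 b) (sq_ne hμ) hu hxy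
  have hμi : (μ⁻¹) ^ 2 ≠ 1 := by
    rw [inv_pow]
    exact inv_ne_one.mpr (sq_ne hμ)
  obtain ⟨ν', hν'⟩ := eig_of_comm (em0 b) hμi hv hxy
  have tr : ∀ {u v w : ℝ × ℝ}, v ≠ 0 → dt u v = 0 → dt v w = 0 → dt u w = 0 := by
    intro u v w hv0 h1 h2
    obtain ⟨c, rfl⟩ := exists_smul_of_dt hv0 (by rw [dt_comm, h1, neg_zero] : dt v u = 0)
    rw [dt_smul_left, h2, mul_zero]
  rcases par_or (ne_of_abs hμ') (sq_ne hμ') hν hu' hv' with k1 | k1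
  · rcases par_or (ne_of_abs hμ') (sq_ne hμ') hν' hu' hv' with k2 | k2
    · exact hpar _ (em0 b) (tr (em0 _) k2 hcm) _ hv
    · -- `g` exchanges the two ends
      have e1 : dt (ep b) (ac (g : SL(2, ℝ)) (em b)) = 0 := tr (em0 _) k1 hcm
      have e2 : dt (em b) (ac (g : SL(2, ℝ)) (ep b)) = 0 := tr (ep0 _) k2 hce
      obtain ⟨c, hc⟩ := exists_smul_of_dt (ep0 b) e1
      obtain ⟨d, hd⟩ := exists_smul_of_dt (em0 b) e2
      have e3 : ac ((g * g : Γ) : SL(2, ℝ)) (ep b) = (d * c) • ep b := by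
        rw [Subgroup.coe_mul, ac_mul, hd, ac_smul, hc, smul_smul]
      have e4 : Commute (g * g) b := comm_of_end hΓ (ep0 b) e3 hu
      obtain ⟨-, ρ, hρ, hgu, hgv⟩ := data hΓ hg1
      have e5 : ac ((g * g : Γ) : SL(2, ℝ)) (ep g) = (ρ ^ 2) • ep g := by
        rw [Subgroup.coe_mul, ac_mul, hgu, ac_smul, hgu, smul_smul, sq]
      have e6 : (ρ ^ 2) ^ 2 ≠ 1 := by
        have h2 : ρ ^ 2 = |ρ| ^ 2 := (sq_abs ρ).symm
        rw [h2]
        have h3 : 1 < |ρ| ^ 2 := by nlinarith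
        nlinarith
      obtain ⟨σ, hσ⟩ := eig_of_comm (ep0 g) e6 e5 (congrArg Subtype.val e4.eq)
      exact comm_of_end hΓ (ep0 g) hgu hσ
  · exact hpar _ (ep0 b) (tr (ep0 _) k1 hce) _ hu

/-- Two axes which are not linked and have no common ends are disjoint. -/
private lemma disj (hΓ : Hyp Γ) {b : Γ} (hb : Simple b) {g : Γ} (hg : ¬ Commute g b) {z : ℍ}
    (h1 : ang b z = 0) (h2 : ang (g * b * g⁻¹) z = 0) : False := by
  obtain ⟨hne, μ, hμ, hu, hv⟩ := data hΓ hb.1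
  obtain ⟨hne', μ', hμ', hu', hv'⟩ := data hΓ (conj_ne_one g hb.1)
  have h3 := lkp_nonpos (ep0 b) (ep0 (g * b * g⁻¹)) ((sd_eq_zero hne).mp h1)
    ((sd_eq_zero hne').mp h2)
  have h4 : ¬ lkp (em b) (ep b) (em (g * b * g⁻¹)) (ep (g * b * g⁻¹)) < 0 := hb.2 g
  have h5 : lkp (em b) (ep b) (em (g * b * g⁻¹)) (ep (g * b * g⁻¹)) = 0 :=
    le_antisymm h3 (not_lt.mp h4)
  unfold lkp at h5
  apply hg
  apply comm_of_comm_conj hΓ hb.1
  rcases mul_eq_zero.mp h5 with h5 | h5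
  · rcases mul_eq_zero.mp h5 with h5 | h5
    · rcases mul_eq_zero.mp h5 with h5 | h5
      · exact comm_of_end hΓ (em0 _) (eig_of_par (em0 _) (em0 _) h5 hv) hv'
      · exact comm_of_end hΓ (ep0 _) (eig_of_par (em0 _) (ep0 _) h5 hv) hu'
    · exact comm_of_end hΓ (em0 _) (eig_of_par (ep0 _) (em0 _) h5 hu) hv'
  · exact comm_of_end hΓ (ep0 _) (eig_of_par (ep0 _) (ep0 _) h5 hu) hu'

/-- disjoint closed collars -/
theorem exists_collar (hΓ : Hyp Γ) [DiscreteTopology Γ] {b : Γ} (hb : Simple b) :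
    ∃ ε : ℝ, 0 < ε ∧ ∀ g : Γ, ¬ Commute g b → ∀ z : ℍ, |ang b z| ≤ ε →
      ε < |ang (g * b * g⁻¹) z| := by
  have hb1 := hb.1
  obtain ⟨F, hF, hF1, hF2⟩ := exists_compact hΓ hb1 1
  set S := {δ : Γ | (∃ g : Γ, δ = g * b * g⁻¹) ∧ ∃ z ∈ F, |ang δ z| ≤ 1} with hS
  have hSf : S.Finite := collar_finite hΓ hb1 1 hF
  have hm : ∀ δ ∈ S, ∀ᶠ ε in 𝓝[>] (0 : ℝ), δ ≠ b → ∀ z ∈ F, ε < max |ang b z| |ang δ z| := by
    rintro δ ⟨⟨g, rfl⟩, -⟩
    by_cases hgb : g * b * g⁻¹ = b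
    · exact Filter.Eventually.of_forall fun ε h => absurd hgb h
    have hg : ¬ Commute g b := fun h => hgb (by rw [h.eq, mul_inv_cancel_right])
    have hδ1 : g * b * g⁻¹ ≠ 1 := conj_ne_one g hb1
    obtain ⟨a, ha0, ha⟩ := hF.exists_forall_le' (f := fun z => max |ang b z| |ang (g * b * g⁻¹) z|)
      (a := 0) (((continuous_ang hΓ hb1).abs.max (continuous_ang hΓ hδ1).abs).continuousOn) (by
        intro z _
        rw [lt_max_iff, abs_pos, abs_pos]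
        by_contra hcon
        push Not at hcon
        exact disj hΓ hb hg hcon.1 hcon.2)
    filter_upwards [Ioo_mem_nhdsGT ha0] with ε hε _ z hz
    exact hε.2.trans_le (ha z hz)
  have h1 : ∀ᶠ ε in 𝓝[>] (0 : ℝ), ∀ δ ∈ S, δ ≠ b → ∀ z ∈ F, ε < max |ang b z| |ang δ z| :=
    (eventually_all_finite hSf).mpr hm
  obtain ⟨ε, h2, h3⟩ := (h1.and (Ioo_mem_nhdsGT (zero_lt_one (α := ℝ)))).exists
  refine ⟨ε, h3.1, fun g hg z hz => ?_⟩
  by_contra hcon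
  rw [not_lt] at hcon
  obtain ⟨m, hm⟩ := hF2 z (hz.trans h3.2.le)
  have h4 : ang (b ^ m * (g * b * g⁻¹) * (b ^ m)⁻¹) (b ^ m • z) = ang (g * b * g⁻¹) z :=
    ang_conj hΓ _ (conj_ne_one g hb1) z
  have h5 : ang b (b ^ m • z) = ang b z :=
    ang_commute hΓ hb1 (Commute.zpow_left (Commute.refl b) m) z
  have h6 := h2 (b ^ m * (g * b * g⁻¹) * (b ^ m)⁻¹) ⟨⟨b ^ m * g, by group⟩, b ^ m • z, hm, by
    rw [h4]; exact hcon.trans h3.2.le⟩ (by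
      intro h7
      apply hg
      have h8 : b ^ m * (g * b * g⁻¹) = b ^ m * b := by
        rw [mul_inv_eq_iff_eq_mul.mp h7]
        exact (Commute.zpow_right (Commute.refl b) m).eq
      exact mul_inv_eq_iff_eq_mul.mp (mul_left_cancel h8)) _ hm
  rw [h4, h5] at h6
  exact absurd h6 (not_lt.mpr (max_le hz hcon))

end Pool.Agent.GEN
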