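import Mathlib
import Pool.Agent.GEN.Basic

/-!
# Intersection numbers of closed geodesics
-/

set_option autoImplicit false

open Topology Set Filter
open scoped MatrixGroups UpperHalfPlane

namespace Pool.Agent.GEN

open Pool.Agent.Helper2.Fuch

variable {Γ : Subgroup SL(2, ℝ)}

theorem crs_of_rel (hΓ : Hyp Γ) {u w g g' : Γ} (h : Rel u w g g') (hg : g ∈ crs u w) :
    g' ∈ crs u w := by
  obtain ⟨c, d, hc, hd, rfl⟩ := h
  have h1 := (cr_conj hΓ c u (g * w * g⁻¹)).mpr hg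
  have e1 : c * u * c⁻¹ = u := by rw [hc.eq]; group
  have e2 : c * (g * w * g⁻¹) * c⁻¹ = (c * g * d) * w * (c * g * d)⁻¹ := by
    have : d * w * d⁻¹ = w := by rw [hd.eq]; group
    calc c * (g * w * g⁻¹) * c⁻¹ = c * (g * (d * w * d⁻¹) * g⁻¹) * c⁻¹ := by rw [this]
      _ = _ := by group
  rw [e1, e2] at h1
  exact h1

lemma crs_left_one (w : Γ) : crs 1 w = ∅ := by
  ext g
  exact ⟨fun h => absurd h (not_cr_one_left _), fun h => h.elim⟩

lemma crs_right_one (u : Γ) : crs u 1 = ∅ := by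
  ext g
  refine ⟨fun h => ?_, fun h => h.elim⟩
  have h1 : Cr u (g * 1 * g⁻¹) := h
  rw [mul_one, mul_inv_cancel] at h1
  exact absurd h1.symm (not_cr_one_left _)

lemma inv_mem_crs (hΓ : Hyp Γ) {u w g : Γ} (h : g ∈ crs u w) : g⁻¹ ∈ crs w u := by
  have h1 := ((cr_conj hΓ g⁻¹ u (g * w * g⁻¹)).mpr h).symm
  have e : g⁻¹ * (g * w * g⁻¹) * g⁻¹⁻¹ = w := by group
  rw [e] at h1
  exact h1

lemma inv_mem_crs_iff (hΓ : Hyp Γ) {u w g : Γ} : g⁻¹ ∈ crs w u ↔ g ∈ crs u w := by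
  refine ⟨fun h => ?_, inv_mem_crs hΓ⟩
  have := inv_mem_crs hΓ h
  rwa [inv_inv] at this

/-! ### Finiteness -/

/-- The points of the axis. -/
lemma exists_axis (hΓ : Hyp Γ) {x : Γ} (hx : x ≠ 1) : ∃ G : ℝ → ℍ, Continuous G ∧
    Conv G atBot (ep x) ∧ Conv G atTop (em x) ∧
    ∃ l : ℝ, 0 < l ∧ ∀ (n : ℤ) (t : ℝ), (x ^ n) • G t = G (t - n * l) := by
  obtain ⟨hne, μ, hμ, hxp, hxm⟩ := exists_eig hΓ hx
  have hμ0 : μ ≠ 0 := by rintro rfl; simp at hμ; linarith
  have hI : ∀ t : ℝ, 0 < (((Real.exp t : ℝ) : ℂ) * Complex.I).im := fun t => by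
    rw [Complex.im_ofReal_mul, Complex.I_im, mul_one]
    exact Real.exp_pos t
  let w : ℝ → ℍ := fun t => ⟨((Real.exp t : ℝ) : ℂ) * Complex.I, hI t⟩
  have hw : Continuous w := by
    rw [UpperHalfPlane.isEmbedding_coe.continuous_iff]
    change Continuous fun t : ℝ => ((Real.exp t : ℝ) : ℂ) * Complex.I
    fun_prop
  let G : ℝ → ℍ := fun t => col (ep x) (em x) hne • w t
  have hG : Continuous G := (continuous_const_smul _).comp hw
  have hR : ∀ t, RR (ep x) (em x) (G t) =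
      ((dt (ep x) (em x) * Real.exp t : ℝ) : ℂ) * Complex.I := by
    intro t
    have h1 : RR (ep x) (em x) (G t) = dt (ep x) (em x) * (w t : ℂ) :=
      RR_col (ep x) (em x) hne (w t)
    have h2 : (w t : ℂ) = ((Real.exp t : ℝ) : ℂ) * Complex.I := rfl
    rw [h1, h2]
    push_cast
    ring
  have hR' : ∀ t, RR (em x) (ep x) (G t) =
      ((-(dt (ep x) (em x))⁻¹ * Real.exp (-t) : ℝ) : ℂ) * Complex.I := by
    intro t
    have h1 : RR (em x) (ep x) (G t) = (RR (ep x) (em x) (G t))⁻¹ := by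
      unfold RR
      rw [inv_div]
    rw [h1, hR, mul_inv, Complex.inv_I, Real.exp_neg]
    push_cast
    ring
  refine ⟨G, hG, ?_, ?_, 2 * Real.log |μ|, ?_, ?_⟩
  · refine Conv.of_one hne ?_
    simp only [hR]
    have h1 : Tendsto (fun t : ℝ => dt (ep x) (em x) * Real.exp t) atBot
        (𝓝 (dt (ep x) (em x) * 0)) := Real.tendsto_exp_atBot.const_mul _
    rw [mul_zero] at h1
    have h2 := ((Complex.continuous_ofReal.tendsto 0).comp h1).mul_const Complex.I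
    rw [Complex.ofReal_zero, zero_mul] at h2
    exact h2
  · refine Conv.of_one (v := ep x) (by rw [dt_comm, neg_ne_zero]; exact hne) ?_
    simp only [hR']
    have h1 : Tendsto (fun t : ℝ => -(dt (ep x) (em x))⁻¹ * Real.exp (-t)) atTop
        (𝓝 (-(dt (ep x) (em x))⁻¹ * 0)) :=
      (Real.tendsto_exp_atBot.comp tendsto_neg_atTop_atBot).const_mul _
    rw [mul_zero] at h1
    have h2 := ((Complex.continuous_ofReal.tendsto 0).comp h1).mul_const Complex.I
    rw [Complex.ofReal_zero, zero_mul] at h2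
    exact h2
  · have := Real.log_pos hμ
    positivity
  · intro n t
    have hzp : ∀ n : ℤ, ac ((x ^ n : Γ) : SL(2, ℝ)) (ep x) = μ ^ n • ep x ∧
        ac ((x ^ n : Γ) : SL(2, ℝ)) (em x) = (μ⁻¹) ^ n • em x := by
      have hnat : ∀ n : ℕ, ac ((x ^ n : Γ) : SL(2, ℝ)) (ep x) = μ ^ n • ep x ∧
          ac ((x ^ n : Γ) : SL(2, ℝ)) (em x) = (μ⁻¹) ^ n • em x := by
        intro n
        induction n with
        | zero => simp [ac_one]
        | succ n ih =>
          rw [pow_succ, Subgroup.coe_mul, ac_mul, ac_mul, hxp, hxm, ac_smul, ac_smul, ih.1, ih.2,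
            smul_smul, smul_smul]
          constructor <;> congr 1 <;> ring
      intro n
      rcases Int.eq_nat_or_neg n with ⟨k, rfl | rfl⟩
      · exact_mod_cast hnat k
      · obtain ⟨h1, h2⟩ := hnat k
        have hk : μ ^ k ≠ 0 := pow_ne_zero _ hμ0
        have hk' : μ⁻¹ ^ k ≠ 0 := pow_ne_zero _ (inv_ne_zero hμ0)
        constructor
        · have h3 := ac_inv_ac ((x ^ k : Γ) : SL(2, ℝ)) (ep x)
          rw [h1, ac_smul] at h3
          rw [zpow_neg, zpow_natCast, zpow_neg, zpow_natCast, Subgroup.coe_inv]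
          rw [← h3, smul_smul, inv_mul_cancel₀ hk, one_smul, h3]
        · have h3 := ac_inv_ac ((x ^ k : Γ) : SL(2, ℝ)) (em x)
          rw [h2, ac_smul] at h3
          rw [zpow_neg, zpow_natCast, zpow_neg, zpow_natCast, Subgroup.coe_inv]
          rw [← h3, smul_smul, inv_mul_cancel₀ hk', one_smul, h3]
    have h1 : RR (ep x) (em x) ((x ^ n) • G t) =
        ((μ ^ n)⁻¹ * (μ⁻¹) ^ n : ℝ) * RR (ep x) (em x) (G t) := by
      have h2 := RR_ac ((x ^ n : Γ) : SL(2, ℝ)) (ep x) (em x) (G t)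
      rw [(hzp n).1, (hzp n).2, RR_smul_left, RR_smul_right] at h2
      have hk : ((μ ^ n : ℝ) : ℂ) ≠ 0 := by exact_mod_cast zpow_ne_zero n hμ0
      have hk' : (((μ⁻¹) ^ n : ℝ) : ℂ) ≠ 0 := by exact_mod_cast zpow_ne_zero n (inv_ne_zero hμ0)
      change RR (ep x) (em x) (((x ^ n : Γ) : SL(2, ℝ)) • G t) = _
      rw [← h2, Complex.ofReal_mul, Complex.ofReal_inv]
      generalize RR (ep x) (em x) (((x ^ n : Γ) : SL(2, ℝ)) • G t) = r
      generalize ((μ ^ n : ℝ) : ℂ) = A at hk ⊢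
      generalize (((μ⁻¹) ^ n : ℝ) : ℂ) = B at hk' ⊢
      field_simp
    apply RR_inj hne
    rw [h1, hR, hR]
    have h3 : (μ ^ n)⁻¹ * (μ⁻¹) ^ n = Real.exp (-(n * (2 * Real.log |μ|))) := by
      have h4 : (μ ^ n)⁻¹ * (μ⁻¹) ^ n = (|μ| ^ n)⁻¹ * (|μ| ^ n)⁻¹ := by
        rw [inv_zpow, ← mul_inv, ← mul_inv, ← mul_zpow, ← mul_zpow, abs_mul_abs_self]
      have h5 : |μ| ^ n = Real.exp (n * Real.log |μ|) := by
        rw [mul_comm, Real.exp_mul, Real.exp_log (abs_pos.mpr hμ0), Real.rpow_intCast]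
      rw [h4, h5, ← Real.exp_neg, ← Real.exp_add]
      congr 1
      ring
    rw [h3, sub_eq_add_neg, Real.exp_add]
    push_cast
    ring

/-- Every crossing has a representative in a finite set. -/
lemma finite_aux (hΓ : Hyp Γ) [DiscreteTopology Γ] {u w : Γ} (hu : u ≠ 1) (hw : w ≠ 1) :
    ∃ F : Set Γ, F.Finite ∧ ∀ g ∈ crs u w, ∃ g' ∈ F, Rel u w g g' := by
  obtain ⟨G, hG, hGp, hGm, l, hl, hGl⟩ := exists_axis hΓ hu
  obtain ⟨G', hG', hGp', hGm', l', hl', hGl'⟩ := exists_axis hΓ hw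
  have hK : IsCompact (G '' Icc 0 l) := isCompact_Icc.image hG
  have hK' : IsCompact (G' '' Icc 0 l') := isCompact_Icc.image hG'
  refine ⟨_, ProperlyDiscontinuousSMul.finite_disjoint_inter_image (Γ := Γ) hK' hK, ?_⟩
  intro g hg
  have hconv : ∀ (v : ℝ × ℝ) (f : Filter ℝ), Conv G' f v →
      Conv (fun t => g • G' t) f (ac (g : SL(2, ℝ)) v) := by
    intro v f hv r hr
    have h1 : dt v (ac (g : SL(2, ℝ))⁻¹ r) ≠ 0 := by
      intro h0
      apply hr
      have := dt_ac (g : SL(2, ℝ)) v (ac (g : SL(2, ℝ))⁻¹ r)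
      rw [ac_ac_inv] at this
      rw [this, h0]
    have h2 := hv _ h1
    refine h2.congr fun t => ?_
    have h3 := RR_ac (g : SL(2, ℝ)) v (ac (g : SL(2, ℝ))⁻¹ r) (G' t)
    rw [ac_ac_inv] at h3
    exact h3.symm
  have hlk : Lk (ep u) (em u) (ac (g : SL(2, ℝ)) (ep w)) (ac (g : SL(2, ℝ)) (em w)) := by
    have h1 : Cr u (g * w * g⁻¹) := hg
    unfold Cr at h1
    have h2 : Lk (ep u) (em u) (ep (g * w * g⁻¹)) (em (g * w * g⁻¹)) := by
      unfold Lk at h1 ⊢
      rwa [lkp_swap_left, lkp_swap_right]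
    exact Lk_of_par (ep_ne_zero u) (em_ne_zero u) (ac_ne_zero (ep_ne_zero w))
      (ac_ne_zero (em_ne_zero w)) (dt_self _) (dt_self _) (ep_conj hΓ g hw) (em_conj hΓ g hw) h2
  obtain ⟨s, t, hst⟩ := crossing hG ((continuous_const_smul g).comp hG') hGp hGm
    (hconv _ _ hGp') (hconv _ _ hGm') hlk
  have hst' : G s = g • G' t := hst
  obtain ⟨n, hn, -⟩ := existsUnique_sub_zsmul_mem_Ico hl s 0
  obtain ⟨m, hm, -⟩ := existsUnique_sub_zsmul_mem_Ico hl' t 0
  rw [zero_add, zsmul_eq_mul] at hn hm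
  refine ⟨u ^ n * g * (w ^ m)⁻¹, ?_, u ^ n, (w ^ m)⁻¹, (Commute.refl u).zpow_left n,
    ((Commute.refl w).zpow_left m).inv_left, rfl⟩
  refine ⟨G (s - n * l), ⟨G' (t - m * l'), ⟨t - m * l', Ico_subset_Icc_self hm, rfl⟩, ?_⟩,
    ⟨s - n * l, Ico_subset_Icc_self hn, rfl⟩⟩
  change (u ^ n * g * (w ^ m)⁻¹) • G' (t - m * l') = G (s - n * l)
  rw [← hGl, ← hGl', hst', ← mul_smul, ← mul_smul]
  congr 1
  group


theorem finite_crossing (hΓ : Hyp Γ) [DiscreteTopology Γ] (u w : Γ) : Finite (Crossing u w) := by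
  by_cases hu : u = 1
  · subst hu
    have : IsEmpty (crs (1 : Γ) w) := by rw [crs_left_one]; exact Set.isEmpty_coe_sort.mpr rfl
    unfold Crossing
    infer_instance
  by_cases hw : w = 1
  · subst hw
    have : IsEmpty (crs u (1 : Γ)) := by rw [crs_right_one]; exact Set.isEmpty_coe_sort.mpr rfl
    unfold Crossing
    infer_instance
  obtain ⟨F, hF, h⟩ := finite_aux hΓ hu hw
  have hfin : Finite (F ∩ crs u w : Set Γ) := (hF.inter_of_left _).to_subtype
  let f : (F ∩ crs u w : Set Γ) → Crossing u w := fun g =>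
    Quotient.mk (crossSetoid u w) ⟨g.1, g.2.2⟩
  refine Finite.of_surjective f ?_
  intro q
  obtain ⟨⟨g, hg⟩, rfl⟩ := Quotient.exists_rep q
  obtain ⟨g', hg', hr⟩ := h g hg
  refine ⟨⟨g', hg', crs_of_rel hΓ hr hg⟩, ?_⟩
  exact Quotient.sound (s := crossSetoid u w) hr.symm

theorem card_le_I (hΓ : Hyp Γ) [DiscreteTopology Γ] {ι : Type*} [Fintype ι] {u w : Γ} (F : ι → Γ)
    (hF : ∀ i, F i ∈ crs u w) (hinj : ∀ i j, Rel u w (F i) (F j) → i = j) :
    Fintype.card ι ≤ I u w := by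
  have := finite_crossing hΓ u w
  rw [← Nat.card_eq_fintype_card]
  refine Nat.card_le_card_of_injective (fun i => (Quotient.mk (crossSetoid u w) ⟨F i, hF i⟩ :
    Crossing u w)) ?_
  intro i j hij
  exact hinj i j (Quotient.exact (s := crossSetoid u w) hij)

theorem exists_reps (hΓ : Hyp Γ) [DiscreteTopology Γ] (u w : Γ) : ∃ F : Fin (I u w) → Γ,
    (∀ i, F i ∈ crs u w) ∧ (∀ i j, Rel u w (F i) (F j) → i = j) ∧
    ∀ g ∈ crs u w, ∃ i, Rel u w (F i) g := by
  have := finite_crossing hΓ u w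
  let e : Crossing u w ≃ Fin (I u w) := Finite.equivFin _
  have hout : ∀ q : Crossing u w, ∃ g : crs u w, Quotient.mk (crossSetoid u w) g = q :=
    fun q => Quotient.exists_rep q
  choose r hr using hout
  refine ⟨fun i => (r (e.symm i)).1, fun i => (r (e.symm i)).2, ?_, ?_⟩
  · intro i j hij
    have h1 : Quotient.mk (crossSetoid u w) (r (e.symm i)) =
        Quotient.mk (crossSetoid u w) (r (e.symm j)) := Quotient.sound (s := crossSetoid u w) hij
    rw [hr, hr] at h1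
    exact e.symm.injective h1
  · intro g hg
    let q : Crossing u w := Quotient.mk (crossSetoid u w) ⟨g, hg⟩
    refine ⟨e q, ?_⟩
    have h1 : Quotient.mk (crossSetoid u w) (r (e.symm (e q))) =
        Quotient.mk (crossSetoid u w) ⟨g, hg⟩ := by
      rw [hr (e.symm (e q)), Equiv.symm_apply_apply]
    exact Quotient.exact (s := crossSetoid u w) h1

/-- A bijection of the representatives which respects the equivalence gives a bijection of the
crossings. -/
lemma I_congr {u w u' w' : Γ} (e : Γ ≃ Γ) (h1 : ∀ g, g ∈ crs u w ↔ e g ∈ crs u' w')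
    (h2 : ∀ g g', Rel u w g g' ↔ Rel u' w' (e g) (e g')) : I u w = I u' w' := by
  unfold I Crossing
  refine Nat.card_congr (Quotient.congr (e.subtypeEquiv h1) ?_)
  rintro ⟨g, hg⟩ ⟨g', hg'⟩
  exact h2 g g'

theorem I_map {θ : MulAut Γ} (hθ : θ ∈ opg Γ) (u w : Γ) : I (θ u) (θ w) = I u w := by
  symm
  refine I_congr θ.toEquiv (fun g => ?_) (fun g g' => ?_)
  · change Cr u (g * w * g⁻¹) ↔ Cr (θ u) (θ g * θ w * (θ g)⁻¹)
    rw [← map_inv, ← map_mul, ← map_mul, cr_map hθ]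
  · change Rel u w g g' ↔ Rel (θ u) (θ w) (θ g) (θ g')
    constructor
    · rintro ⟨c, d, hc, hd, rfl⟩
      exact ⟨θ c, θ d, hc.map θ, hd.map θ, by rw [map_mul, map_mul]⟩
    · rintro ⟨c, d, hc, hd, h⟩
      have hap : ∀ z : Γ, θ.symm (θ z) = z := fun z => θ.symm_apply_apply z
      refine ⟨θ.symm c, θ.symm d, ?_, ?_, ?_⟩
      · have := hc.map θ.symm
        rwa [hap] at this
      · have := hd.map θ.symm
        rwa [hap] at this
      · have h3 := congrArg θ.symm h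
        rw [map_mul, map_mul, hap, hap] at h3
        exact h3

lemma I_conj_right (h u w : Γ) : I u (h * w * h⁻¹) = I u w := by
  symm
  refine I_congr (Equiv.mulRight h⁻¹) (fun g => ?_) (fun g g' => ?_)
  · change Cr u (g * w * g⁻¹) ↔ Cr u (g * h⁻¹ * (h * w * h⁻¹) * (g * h⁻¹)⁻¹)
    have e : g * h⁻¹ * (h * w * h⁻¹) * (g * h⁻¹)⁻¹ = g * w * g⁻¹ := by group
    rw [e]
  · change Rel u w g g' ↔ Rel u (h * w * h⁻¹) (g * h⁻¹) (g' * h⁻¹)
    constructor
    · rintro ⟨c, d, hc, hd, rfl⟩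
      refine ⟨c, h * d * h⁻¹, hc, ?_, by group⟩
      exact (Commute.conj_iff h).mpr hd
    · rintro ⟨c, d, hc, hd, h3⟩
      refine ⟨c, h⁻¹ * d * h, hc, ?_, ?_⟩
      · have h4 := (Commute.conj_iff h⁻¹).mpr hd
        have e : h⁻¹ * (h * w * h⁻¹) * h⁻¹⁻¹ = w := by group
        rw [e, inv_inv] at h4
        exact h4
      · have e : g' = (g' * h⁻¹) * h := by group
        rw [e, h3]
        group

theorem I_comm (hΓ : Hyp Γ) (u w : Γ) : I u w = I w u := by
  refine I_congr (Equiv.inv Γ) (fun g => (inv_mem_crs_iff hΓ).symm) (fun g g' => ?_)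
  have key : ∀ (u w g g' : Γ), Rel u w g g' → Rel w u g⁻¹ g'⁻¹ := by
    rintro u w g g' ⟨c, d, hc, hd, rfl⟩
    exact ⟨d⁻¹, c⁻¹, hd.inv_left, hc.inv_left, by group⟩
  change Rel u w g g' ↔ Rel w u g⁻¹ g'⁻¹
  refine ⟨key _ _ _ _, fun h => ?_⟩
  have := key _ _ _ _ h
  rwa [inv_inv, inv_inv] at this

theorem I_conj (hΓ : Hyp Γ) (g h u w : Γ) : I (g * u * g⁻¹) (h * w * h⁻¹) = I u w := by
  rw [I_conj_right, I_comm hΓ, I_conj_right, I_comm hΓ]

theorem I_pos_iff (hΓ : Hyp Γ) [DiscreteTopology Γ] (u w : Γ) :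
    0 < I u w ↔ (crs u w).Nonempty := by
  have := finite_crossing hΓ u w
  unfold I
  rw [Finite.card_pos_iff]
  constructor
  · rintro ⟨q⟩
    obtain ⟨⟨g, hg⟩, -⟩ := Quotient.exists_rep q
    exact ⟨g, hg⟩
  · rintro ⟨g, hg⟩
    exact ⟨Quotient.mk (crossSetoid u w) ⟨g, hg⟩⟩

theorem Simple.I_self {b : Γ} (hb : Simple b) : I b b = 0 := by
  have h : crs b b = ∅ := by
    ext g
    exact ⟨fun h => absurd h (hb.2 g), fun h => h.elim⟩
  have : IsEmpty (crs b b) := by rw [h]; exact Set.isEmpty_coe_sort.mpr rfl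
  unfold I Crossing
  have h2 : IsEmpty (Quotient (crossSetoid b b)) := inferInstance
  exact Nat.card_of_isEmpty

end Pool.Agent.GEN
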