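import Mathlib
import Pool.Agent.GEN.Defs

/-!
# Positions along the axis of a hyperbolic element
-/

set_option autoImplicit false

open Topology Set Filter
open scoped MatrixGroups

namespace Pool.Agent.GEN

open Pool.Agent.Helper2.Fuch

/-! ### The coordinate -/

/-- The coordinate of the direction `v`, zero at `Q` and infinite at `P`.  Its sign does not
depend on the choice of the vectors `P`, `Q`, `v` in their directions. -/
noncomputable def crd (P Q v : ℝ × ℝ) : ℝ := dt P Q * dt v Q / dt v P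

lemma crd_sub {P Q v w : ℝ × ℝ} (hv : dt v P ≠ 0) (hw : dt w P ≠ 0) :
    crd P Q v - crd P Q w = -(dt P Q) ^ 2 * dt v w / (dt v P * dt w P) := by
  unfold crd
  rw [div_sub_div _ _ hv hw]
  congr 1
  simp only [dt]
  ring

lemma crd_smul {P Q v : ℝ × ℝ} {c : ℝ} (hc : c ≠ 0) : crd P Q (c • v) = crd P Q v := by
  unfold crd
  rw [dt_smul_left, dt_smul_left, mul_left_comm, mul_div_mul_left _ _ hc]

lemma crd_par {P Q v w : ℝ × ℝ} (hv : v ≠ 0) (hw : w ≠ 0) (h : dt v w = 0) :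
    crd P Q v = crd P Q w := by
  obtain ⟨c, hc, rfl⟩ := exists_smul_of_dt' hv hw h
  rw [crd_smul hc]

lemma crd_ac (g : SL(2, ℝ)) (P Q v : ℝ × ℝ) : crd (ac g P) (ac g Q) (ac g v) = crd P Q v := by
  simp only [crd, dt_ac]

lemma crd_ne_left {P Q v : ℝ × ℝ} (h : crd P Q v ≠ 0) : dt v P ≠ 0 := by
  intro h0
  apply h
  rw [crd, h0, div_zero]

lemma crd_ne_right {P Q v : ℝ × ℝ} (h : crd P Q v ≠ 0) : dt v Q ≠ 0 := by
  intro h0
  apply h
  rw [crd, h0, mul_zero, zero_div]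

lemma crd_ne_pq {P Q v : ℝ × ℝ} (h : crd P Q v ≠ 0) : dt P Q ≠ 0 := by
  intro h0
  apply h
  rw [crd, h0, zero_mul, zero_div]

lemma crd_ne_zero_iff {P Q v : ℝ × ℝ} :
    crd P Q v ≠ 0 ↔ dt P Q ≠ 0 ∧ dt v P ≠ 0 ∧ dt v Q ≠ 0 := by
  constructor
  · intro h
    exact ⟨crd_ne_pq h, crd_ne_left h, crd_ne_right h⟩
  · rintro ⟨h1, h2, h3⟩
    exact div_ne_zero (mul_ne_zero h1 h3) h2

lemma ne_zero_of_crd {P Q v : ℝ × ℝ} (h : crd P Q v ≠ 0) : v ≠ 0 := by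
  rintro rfl
  exact crd_ne_left h (by simp [dt])

lemma crd_inj {P Q v w : ℝ × ℝ} (hv : crd P Q v ≠ 0) (h : crd P Q v = crd P Q w) :
    dt v w = 0 := by
  have hw : crd P Q w ≠ 0 := h ▸ hv
  have h1 := crd_sub (crd_ne_left hv) (crd_ne_left hw) (Q := Q)
  rw [h, sub_self, eq_comm, div_eq_zero_iff] at h1
  rcases h1 with h1 | h1
  · rcases mul_eq_zero.mp h1 with h2 | h2
    · exfalso
      rw [neg_eq_zero] at h2
      exact crd_ne_pq hv (pow_eq_zero_iff (two_ne_zero) |>.mp h2)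
    · exact h2
  · exact absurd h1 (mul_ne_zero (crd_ne_left hv) (crd_ne_left hw))

lemma neg_iff_of_mul_pos {a b c : ℝ} (h : a = b * c) (hc : 0 < c) : a < 0 ↔ b < 0 := by
  rw [h]
  exact ⟨fun h1 => by nlinarith, fun h1 => mul_neg_of_neg_of_pos h1 hc⟩

/-- Linking in terms of the coordinates. -/
lemma Lk_crd {P Q v v' w w' : ℝ × ℝ} (hPQ : dt P Q ≠ 0) (hv : dt v P ≠ 0) (hv' : dt v' P ≠ 0)
    (hw : dt w P ≠ 0) (hw' : dt w' P ≠ 0) :
    Lk v v' w w' ↔ (crd P Q v - crd P Q w) * (crd P Q v - crd P Q w') *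
      (crd P Q v' - crd P Q w) * (crd P Q v' - crd P Q w') < 0 := by
  rw [crd_sub hv hw, crd_sub hv hw', crd_sub hv' hw, crd_sub hv' hw']
  unfold Lk
  symm
  have hne : (dt P Q) ^ 4 / (dt v P * dt w P * dt v' P * dt w' P) ≠ 0 := by
    refine div_ne_zero (pow_ne_zero _ hPQ) ?_
    exact mul_ne_zero (mul_ne_zero (mul_ne_zero hv hw) hv') hw'
  refine neg_iff_of_mul_pos (c := ((dt P Q) ^ 4 / (dt v P * dt w P * dt v' P * dt w' P)) ^ 2)
    ?_ (by positivity)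
  unfold lkp
  field_simp

/-- Linking with the axis in terms of the coordinates. -/
lemma Lk_axis {P Q v v' : ℝ × ℝ} (hPQ : dt P Q ≠ 0) (hv : dt v P ≠ 0) (hv' : dt v' P ≠ 0) :
    Lk P Q v v' ↔ crd P Q v * crd P Q v' < 0 := by
  unfold Lk
  symm
  have hne : dt P Q / (dt v P * dt v' P) ≠ 0 := div_ne_zero hPQ (mul_ne_zero hv hv')
  refine neg_iff_of_mul_pos (c := (dt P Q / (dt v P * dt v' P)) ^ 2) ?_ (by positivity)
  unfold lkp crd
  rw [dt_comm P v, dt_comm P v', dt_comm Q v, dt_comm Q v']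
  field_simp

/-! ### Logarithmic positions -/

/-- The logarithmic coordinate. -/
noncomputable def lg (P Q v : ℝ × ℝ) : ℝ := Real.log |crd P Q v|

section sides

variable {P Q v v' w w' : ℝ × ℝ}

lemma lg_lt_of_pos (hv : 0 < crd P Q v) (hw : 0 < crd P Q w) :
    lg P Q v < lg P Q w ↔ crd P Q v < crd P Q w := by
  unfold lg
  rw [abs_of_pos hv, abs_of_pos hw]
  exact Real.log_lt_log_iff hv hw

lemma lg_lt_of_neg (hv : crd P Q v < 0) (hw : crd P Q w < 0) :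
    lg P Q v < lg P Q w ↔ crd P Q w < crd P Q v := by
  unfold lg
  rw [abs_of_neg hv, abs_of_neg hw, Real.log_lt_log_iff (by linarith) (by linarith)]
  exact neg_lt_neg_iff

lemma mul_sub_pos_side (hv : 0 < crd P Q v) (hw : 0 < crd P Q w) :
    ∃ c : ℝ, 0 < c ∧ (crd P Q v - crd P Q w = c * (lg P Q v - lg P Q w)) := by
  rcases lt_trichotomy (crd P Q v) (crd P Q w) with h | h | h
  · have h2 := (lg_lt_of_pos hv hw).mpr h
    refine ⟨(crd P Q v - crd P Q w) / (lg P Q v - lg P Q w),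
      div_pos_of_neg_of_neg (by linarith) (by linarith), ?_⟩
    rw [div_mul_cancel₀ _ (by linarith : lg P Q v - lg P Q w ≠ 0)]
  · refine ⟨1, one_pos, ?_⟩
    unfold lg
    rw [h]
    ring
  · have h2 := (lg_lt_of_pos hw hv).mpr h
    refine ⟨(crd P Q v - crd P Q w) / (lg P Q v - lg P Q w),
      div_pos (by linarith) (by linarith), ?_⟩
    rw [div_mul_cancel₀ _ (by linarith : lg P Q v - lg P Q w ≠ 0)]

lemma mul_sub_neg_side (hv : crd P Q v < 0) (hw : crd P Q w < 0) :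
    ∃ c : ℝ, 0 < c ∧ (crd P Q v - crd P Q w = -c * (lg P Q v - lg P Q w)) := by
  rcases lt_trichotomy (crd P Q v) (crd P Q w) with h | h | h
  · have h2 := (lg_lt_of_neg hw hv).mpr h
    refine ⟨(crd P Q w - crd P Q v) / (lg P Q v - lg P Q w),
      div_pos (by linarith) (by linarith), ?_⟩
    have h3 : lg P Q v - lg P Q w ≠ 0 := by linarith
    field_simp
    ring
  · refine ⟨1, one_pos, ?_⟩
    unfold lg
    rw [h]
    ring
  · have h2 := (lg_lt_of_neg hv hw).mpr h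
    refine ⟨(crd P Q w - crd P Q v) / (lg P Q v - lg P Q w),
      div_pos_of_neg_of_neg (by linarith) (by linarith), ?_⟩
    have h3 : lg P Q v - lg P Q w ≠ 0 := by linarith
    field_simp
    ring

/-- Two chords which cross the axis. -/
lemma Lk_cross (hv : 0 < crd P Q v) (hv' : crd P Q v' < 0) (hw : 0 < crd P Q w)
    (hw' : crd P Q w' < 0) :
    Lk v v' w w' ↔ (lg P Q v - lg P Q w) * (lg P Q v' - lg P Q w') < 0 := by
  rw [Lk_crd (crd_ne_pq hv.ne') (crd_ne_left hv.ne') (crd_ne_left hv'.ne) (crd_ne_left hw.ne')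
    (crd_ne_left hw'.ne)]
  obtain ⟨c, hc, h1⟩ := mul_sub_pos_side hv hw
  obtain ⟨d, hd, h2⟩ := mul_sub_neg_side hv' hw'
  have h3 : 0 < crd P Q v - crd P Q w' := by linarith
  have h4 : 0 < -(crd P Q v' - crd P Q w) := by linarith
  refine neg_iff_of_mul_pos (c := c * d * (crd P Q v - crd P Q w') *
    -(crd P Q v' - crd P Q w)) ?_ (by positivity)
  rw [h1, h2]
  ring

/-- A chord which crosses the axis and a chord on the negative side. -/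
lemma Lk_neg_side (hv : 0 < crd P Q v) (hv' : crd P Q v' < 0) (hw : crd P Q w < 0)
    (hw' : crd P Q w' < 0) :
    Lk v v' w w' ↔ (lg P Q v' - lg P Q w) * (lg P Q v' - lg P Q w') < 0 := by
  rw [Lk_crd (crd_ne_pq hv.ne') (crd_ne_left hv.ne') (crd_ne_left hv'.ne) (crd_ne_left hw.ne)
    (crd_ne_left hw'.ne)]
  obtain ⟨c, hc, h1⟩ := mul_sub_neg_side hv' hw
  obtain ⟨d, hd, h2⟩ := mul_sub_neg_side hv' hw'
  have h3 : 0 < crd P Q v - crd P Q w' := by linarith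
  have h4 : 0 < crd P Q v - crd P Q w := by linarith
  refine neg_iff_of_mul_pos (c := c * d * (crd P Q v - crd P Q w') *
    (crd P Q v - crd P Q w)) ?_ (by positivity)
  rw [h1, h2]
  ring

/-- A chord which crosses the axis and a chord on the positive side. -/
lemma Lk_pos_side (hv : 0 < crd P Q v) (hv' : crd P Q v' < 0) (hw : 0 < crd P Q w)
    (hw' : 0 < crd P Q w') :
    Lk v v' w w' ↔ (lg P Q v - lg P Q w) * (lg P Q v - lg P Q w') < 0 := by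
  rw [Lk_crd (crd_ne_pq hv.ne') (crd_ne_left hv.ne') (crd_ne_left hv'.ne) (crd_ne_left hw.ne')
    (crd_ne_left hw'.ne')]
  obtain ⟨c, hc, h1⟩ := mul_sub_pos_side hv hw
  obtain ⟨d, hd, h2⟩ := mul_sub_pos_side hv hw'
  have h3 : 0 < -(crd P Q v' - crd P Q w') := by linarith
  have h4 : 0 < -(crd P Q v' - crd P Q w) := by linarith
  refine neg_iff_of_mul_pos (c := c * d * -(crd P Q v' - crd P Q w') *
    -(crd P Q v' - crd P Q w)) ?_ (by positivity)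
  rw [h1, h2]
  ring

/-- Two chords on the negative side. -/
lemma Lk_neg_neg (hv : crd P Q v < 0) (hv' : crd P Q v' < 0) (hw : crd P Q w < 0)
    (hw' : crd P Q w' < 0) :
    Lk v v' w w' ↔ (lg P Q v - lg P Q w) * (lg P Q v - lg P Q w') *
      (lg P Q v' - lg P Q w) * (lg P Q v' - lg P Q w') < 0 := by
  rw [Lk_crd (crd_ne_pq hv.ne) (crd_ne_left hv.ne) (crd_ne_left hv'.ne) (crd_ne_left hw.ne)
    (crd_ne_left hw'.ne)]
  obtain ⟨c, hc, h1⟩ := mul_sub_neg_side hv hw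
  obtain ⟨d, hd, h2⟩ := mul_sub_neg_side hv hw'
  obtain ⟨e, he, h3⟩ := mul_sub_neg_side hv' hw
  obtain ⟨f, hf, h4⟩ := mul_sub_neg_side hv' hw'
  refine neg_iff_of_mul_pos (c := c * d * e * f) ?_ (by positivity)
  rw [h1, h2, h3, h4]
  ring

/-- Two chords on the positive side. -/
lemma Lk_pos_pos (hv : 0 < crd P Q v) (hv' : 0 < crd P Q v') (hw : 0 < crd P Q w)
    (hw' : 0 < crd P Q w') :
    Lk v v' w w' ↔ (lg P Q v - lg P Q w) * (lg P Q v - lg P Q w') *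
      (lg P Q v' - lg P Q w) * (lg P Q v' - lg P Q w') < 0 := by
  rw [Lk_crd (crd_ne_pq hv.ne') (crd_ne_left hv.ne') (crd_ne_left hv'.ne') (crd_ne_left hw.ne')
    (crd_ne_left hw'.ne')]
  obtain ⟨c, hc, h1⟩ := mul_sub_pos_side hv hw
  obtain ⟨d, hd, h2⟩ := mul_sub_pos_side hv hw'
  obtain ⟨e, he, h3⟩ := mul_sub_pos_side hv' hw
  obtain ⟨f, hf, h4⟩ := mul_sub_pos_side hv' hw'
  refine neg_iff_of_mul_pos (c := c * d * e * f) ?_ (by positivity)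
  rw [h1, h2, h3, h4]
  ring

end sides

/-! ### The eigenvalue and the position -/

variable {Γ : Subgroup SL(2, ℝ)}

/-- Properties of the two ends of an axis. -/
lemma ends_spec (hΓ : Hyp Γ) {γ : Γ} (hγ : γ ≠ 1) : dt (ep γ) (em γ) ≠ 0 ∧ 1 < |ev γ| ∧
    ac γ (ep γ) = ev γ • ep γ ∧ ac γ (em γ) = (ev γ)⁻¹ • em γ := by
  obtain ⟨h1, μ, hμ, h2, h3⟩ := (hΓ.att' hγ).pair (v := att ((γ⁻¹ : Γ) : SL(2, ℝ))) (by
    have := hΓ.att' (inv_ne_one.mpr hγ)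
    rwa [Subgroup.coe_inv] at this ⊢)
  have h4 : ev γ = μ := by
    unfold ev
    change dt (ac (γ : SL(2, ℝ)) (att (γ : SL(2, ℝ)))) (em γ) / _ = _
    rw [h2, dt_smul_left]
    exact mul_div_cancel_right₀ _ h1
  rw [h4]
  exact ⟨h1, hμ, h2, h3⟩

lemma dt_ep_em (hΓ : Hyp Γ) {γ : Γ} (hγ : γ ≠ 1) : dt (ep γ) (em γ) ≠ 0 := (ends_spec hΓ hγ).1

lemma one_lt_ev (hΓ : Hyp Γ) {γ : Γ} (hγ : γ ≠ 1) : 1 < |ev γ| := (ends_spec hΓ hγ).2.1

lemma ev_ne_zero (hΓ : Hyp Γ) {γ : Γ} (hγ : γ ≠ 1) : ev γ ≠ 0 := by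
  intro h
  have := one_lt_ev hΓ hγ
  rw [h, abs_zero] at this
  linarith

lemma log_ev_pos (hΓ : Hyp Γ) {γ : Γ} (hγ : γ ≠ 1) : 0 < Real.log |ev γ| :=
  Real.log_pos (one_lt_ev hΓ hγ)

lemma ac_ep (hΓ : Hyp Γ) {γ : Γ} (hγ : γ ≠ 1) : ac γ (ep γ) = ev γ • ep γ :=
  (ends_spec hΓ hγ).2.2.1

lemma ac_em (hΓ : Hyp Γ) {γ : Γ} (hγ : γ ≠ 1) : ac γ (em γ) = (ev γ)⁻¹ • em γ :=
  (ends_spec hΓ hγ).2.2.2

/-- The coordinate of `v` with respect to the axis of `γ`; its sign is the side of `v`. -/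
noncomputable def cr (γ : Γ) (v : ℝ × ℝ) : ℝ := crd (ep γ) (em γ) v

lemma lft_iff {γ : Γ} {v : ℝ × ℝ} : lft γ v ↔ cr γ v < 0 := by
  unfold lft cr
  by_cases h : dt v (ep γ) = 0
  · simp [crd, h]
  · have h1 : crd (ep γ) (em γ) v =
        -(dt v (em γ) * dt v (ep γ) * dt (em γ) (ep γ)) * (1 / dt v (ep γ)) ^ 2 := by
      unfold crd
      rw [dt_comm (ep γ) (em γ)]
      field_simp
    rw [neg_iff_of_mul_pos h1 (by positivity), neg_lt_zero]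

lemma rgt_iff {γ : Γ} {v : ℝ × ℝ} : rgt γ v ↔ 0 < cr γ v := by
  unfold rgt cr
  by_cases h : dt v (ep γ) = 0
  · simp [crd, h]
  · have h1 : -crd (ep γ) (em γ) v =
        (dt v (em γ) * dt v (ep γ) * dt (em γ) (ep γ)) * (1 / dt v (ep γ)) ^ 2 := by
      unfold crd
      rw [dt_comm (ep γ) (em γ)]
      field_simp
    rw [← neg_lt_zero, neg_iff_of_mul_pos h1 (by positivity)]

lemma not_lft_rgt {γ : Γ} {v : ℝ × ℝ} (h : lft γ v) (h' : rgt γ v) : False :=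
  lt_asymm (lft_iff.mp h) (rgt_iff.mp h')

lemma cr_gamma (hΓ : Hyp Γ) {γ : Γ} (hγ : γ ≠ 1) (v : ℝ × ℝ) :
    cr γ (ac γ v) = (ev γ) ^ 2 * cr γ v := by
  have h1 := ac_ep hΓ hγ
  have h2 := ac_em hΓ hγ
  have hμ := ev_ne_zero hΓ hγ
  have h3 : dt (ac γ v) (ep γ) = (ev γ)⁻¹ * dt v (ep γ) := by
    have h := dt_ac γ v (ep γ)
    rw [h1, dt_smul_right] at h
    rw [← h]
    field_simp
  have h4 : dt (ac γ v) (em γ) = ev γ * dt v (em γ) := by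
    have h := dt_ac γ v (em γ)
    rw [h2, dt_smul_right] at h
    rw [← h]
    field_simp
  unfold cr crd
  rw [h3, h4]
  field_simp

lemma ev_sq_pos (hΓ : Hyp Γ) {γ : Γ} (hγ : γ ≠ 1) : 0 < (ev γ) ^ 2 := by
  have := ev_ne_zero hΓ hγ
  positivity

lemma cr_gamma_ne_zero (hΓ : Hyp Γ) {γ : Γ} (hγ : γ ≠ 1) {v : ℝ × ℝ} :
    cr γ (ac γ v) ≠ 0 ↔ cr γ v ≠ 0 := by
  rw [cr_gamma hΓ hγ, mul_ne_zero_iff]
  simp [ev_ne_zero hΓ hγ]

lemma cr_gamma_pos (hΓ : Hyp Γ) {γ : Γ} (hγ : γ ≠ 1) {v : ℝ × ℝ} :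
    0 < cr γ (ac γ v) ↔ 0 < cr γ v := by
  rw [cr_gamma hΓ hγ]
  exact mul_pos_iff_of_pos_left (ev_sq_pos hΓ hγ)

lemma cr_gamma_neg (hΓ : Hyp Γ) {γ : Γ} (hγ : γ ≠ 1) {v : ℝ × ℝ} :
    cr γ (ac γ v) < 0 ↔ cr γ v < 0 := by
  rw [cr_gamma hΓ hγ]
  have h1 := ev_sq_pos hΓ hγ
  constructor
  · intro h
    by_contra h2
    rw [not_lt] at h2
    exact absurd h (not_lt.mpr (mul_nonneg h1.le h2))
  · intro h
    exact mul_neg_of_pos_of_neg h1 h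

/-- The sides of the axis of `γ` are invariant under `γ`. -/
lemma lft_gamma (hΓ : Hyp Γ) {γ : Γ} (hγ : γ ≠ 1) {v : ℝ × ℝ} :
    lft γ (ac γ v) ↔ lft γ v := by
  rw [lft_iff, lft_iff, cr_gamma_neg hΓ hγ]

lemma rgt_gamma (hΓ : Hyp Γ) {γ : Γ} (hγ : γ ≠ 1) {v : ℝ × ℝ} :
    rgt γ (ac γ v) ↔ rgt γ v := by
  rw [rgt_iff, rgt_iff, cr_gamma_pos hΓ hγ]

lemma pos_eq {γ : Γ} {v : ℝ × ℝ} (hv : cr γ v ≠ 0) :
    pos γ v = (lg (ep γ) (em γ) v - Real.log |dt (ep γ) (em γ)|) / (2 * Real.log |ev γ|) := by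
  have hv' : crd (ep γ) (em γ) v ≠ 0 := hv
  have h1 := crd_ne_pq hv'
  have h2 := crd_ne_left hv'
  have h3 := crd_ne_right hv'
  unfold pos lg crd
  congr 1
  rw [abs_div, abs_mul, mul_div_assoc, Real.log_mul (abs_ne_zero.mpr h1)
    (div_ne_zero (abs_ne_zero.mpr h3) (abs_ne_zero.mpr h2))]
  ring

/-- The translation `γ` adds one to the position. -/
lemma pos_gamma (hΓ : Hyp Γ) {γ : Γ} (hγ : γ ≠ 1) {v : ℝ × ℝ} (hv : cr γ v ≠ 0) :
    pos γ (ac γ v) = pos γ v + 1 := by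
  rw [pos_eq hv, pos_eq ((cr_gamma_ne_zero hΓ hγ).mpr hv)]
  have h1 := cr_gamma hΓ hγ v
  unfold cr at h1 hv
  unfold lg
  rw [h1, abs_mul, Real.log_mul (abs_ne_zero.mpr (pow_ne_zero _ (ev_ne_zero hΓ hγ)))
    (abs_ne_zero.mpr hv), abs_pow, Real.log_pow]
  have h2 := log_ev_pos hΓ hγ
  field_simp
  push_cast
  ring

lemma cr_smul {γ : Γ} {v : ℝ × ℝ} {c : ℝ} (hc : c ≠ 0) : cr γ (c • v) = cr γ v := crd_smul hc

lemma cr_par {γ : Γ} {v w : ℝ × ℝ} (hv : v ≠ 0) (hw : w ≠ 0) (h : dt v w = 0) :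
    cr γ v = cr γ w := crd_par hv hw h

lemma pos_smul {γ : Γ} {v : ℝ × ℝ} {c : ℝ} (hc : c ≠ 0) : pos γ (c • v) = pos γ v := by
  unfold pos
  rw [dt_smul_left, dt_smul_left, abs_mul, abs_mul,
    mul_div_mul_left _ _ (abs_ne_zero.mpr hc)]

lemma pos_par (γ : Γ) {v w : ℝ × ℝ} (hv : v ≠ 0) (hw : w ≠ 0) (h : dt v w = 0) :
    pos γ v = pos γ w := by
  obtain ⟨c, hc, rfl⟩ := exists_smul_of_dt' hv hw h
  rw [pos_smul hc]

lemma lft_par (γ : Γ) {v w : ℝ × ℝ} (hv : v ≠ 0) (hw : w ≠ 0) (h : dt v w = 0) :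
    lft γ v ↔ lft γ w := by
  rw [lft_iff, lft_iff, cr_par hv hw h]

lemma rgt_par (γ : Γ) {v w : ℝ × ℝ} (hv : v ≠ 0) (hw : w ≠ 0) (h : dt v w = 0) :
    rgt γ v ↔ rgt γ w := by
  rw [rgt_iff, rgt_iff, cr_par hv hw h]

lemma lg_sub (hΓ : Hyp Γ) {γ : Γ} (hγ : γ ≠ 1) {v w : ℝ × ℝ} (hv : cr γ v ≠ 0)
    (hw : cr γ w ≠ 0) :
    lg (ep γ) (em γ) v - lg (ep γ) (em γ) w = (2 * Real.log |ev γ|) * (pos γ v - pos γ w) := by
  rw [pos_eq hv, pos_eq hw]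
  have h2 := log_ev_pos hΓ hγ
  field_simp
  ring

section

variable {γ : Γ} {v v' w w' : ℝ × ℝ}

/-- The axis and a chord are linked if and only if the ends of the chord are on different
sides. -/
lemma lk_axis (hΓ : Hyp Γ) (hγ : γ ≠ 1) :
    Lk (em γ) (ep γ) v w ↔ cr γ v * cr γ w < 0 := by
  have hPQ := dt_ep_em hΓ hγ
  have hsw : Lk (em γ) (ep γ) v w ↔ Lk (ep γ) (em γ) v w := by
    unfold Lk
    rw [lkp_swap_left]
  rw [hsw]
  constructor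
  · intro h
    have h1 := h.ne
    refine (Lk_axis hPQ ?_ ?_).mp h
    · rw [dt_comm, neg_ne_zero]
      exact h1.1
    · rw [dt_comm, neg_ne_zero]
      exact h1.2.1
  · intro h
    have hv : cr γ v ≠ 0 := by
      intro h0
      rw [h0, zero_mul] at h
      exact lt_irrefl _ h
    have hw : cr γ w ≠ 0 := by
      intro h0
      rw [h0, mul_zero] at h
      exact lt_irrefl _ h
    exact (Lk_axis hPQ (crd_ne_left hv) (crd_ne_left hw)).mpr h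

/-- The axis of `γ` and a chord are linked if and only if its ends are on different sides. -/
lemma lk_axis' (hΓ : Hyp Γ) (hγ : γ ≠ 1) :
    Lk (em γ) (ep γ) v w ↔ (lft γ v ∧ rgt γ w) ∨ (lft γ w ∧ rgt γ v) := by
  rw [lk_axis hΓ hγ, mul_neg_iff, lft_iff, lft_iff, rgt_iff, rgt_iff]
  tauto

/-- The axes of `γ` and `w` cross if and only if the ends of `w` are on different sides. -/
lemma Cr_iff (hΓ : Hyp Γ) (hγ : γ ≠ 1) {w : Γ} :
    Cr γ w ↔ (lft γ (em w) ∧ rgt γ (ep w)) ∨ (lft γ (ep w) ∧ rgt γ (em w)) :=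
  lk_axis' hΓ hγ

private lemma neg_mul_iff {a b c d k : ℝ} (hk : 0 < k) (ha : a = k * c) (hb : b = k * d) :
    a * b < 0 ↔ c * d < 0 := by
  rw [ha, hb]
  exact neg_iff_of_mul_pos (c := k ^ 2) (by ring) (by positivity)

/-- Two chords which cross the axis. -/
lemma lk_cross (hΓ : Hyp Γ) (hγ : γ ≠ 1) (hv : lft γ v) (hv' : rgt γ v') (hw : lft γ w)
    (hw' : rgt γ w') : Lk v v' w w' ↔ (pos γ v - pos γ w) * (pos γ v' - pos γ w') < 0 := by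
  rw [lft_iff] at hv hw
  rw [rgt_iff] at hv' hw'
  have h1 : Lk v v' w w' ↔ Lk v' v w' w := by
    unfold Lk
    rw [lkp_swap_left, lkp_swap_right]
  rw [h1, Lk_cross hv' hv hw' hw, mul_comm (pos γ v - pos γ w)]
  exact neg_mul_iff (by have := log_ev_pos hΓ hγ; positivity) (lg_sub hΓ hγ hv'.ne' hw'.ne')
    (lg_sub hΓ hγ hv.ne hw.ne)

/-- A chord which crosses the axis and a chord on the left. -/
lemma lk_lft_side (hΓ : Hyp Γ) (hγ : γ ≠ 1) (hv : lft γ v) (hv' : rgt γ v') (hw : lft γ w)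
    (hw' : lft γ w') : Lk v v' w w' ↔ (pos γ v - pos γ w) * (pos γ v - pos γ w') < 0 := by
  rw [lft_iff] at hv hw hw'
  rw [rgt_iff] at hv'
  have h1 : Lk v v' w w' ↔ Lk v' v w w' := by
    unfold Lk
    rw [lkp_swap_left]
  rw [h1, Lk_neg_side hv' hv hw hw']
  exact neg_mul_iff (by have := log_ev_pos hΓ hγ; positivity) (lg_sub hΓ hγ hv.ne hw.ne)
    (lg_sub hΓ hγ hv.ne hw'.ne)

/-- A chord which crosses the axis and a chord on the right. -/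
lemma lk_rgt_side (hΓ : Hyp Γ) (hγ : γ ≠ 1) (hv : lft γ v) (hv' : rgt γ v') (hw : rgt γ w)
    (hw' : rgt γ w') : Lk v v' w w' ↔ (pos γ v' - pos γ w) * (pos γ v' - pos γ w') < 0 := by
  rw [rgt_iff] at hv' hw hw'
  rw [lft_iff] at hv
  have h1 : Lk v v' w w' ↔ Lk v' v w w' := by
    unfold Lk
    rw [lkp_swap_left]
  rw [h1, Lk_pos_side hv' hv hw hw']
  exact neg_mul_iff (by have := log_ev_pos hΓ hγ; positivity) (lg_sub hΓ hγ hv'.ne' hw.ne')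
    (lg_sub hΓ hγ hv'.ne' hw'.ne')

private lemma neg_mul4_iff {a b c d a' b' c' d' k : ℝ} (hk : 0 < k) (ha : a = k * a')
    (hb : b = k * b') (hc : c = k * c') (hd : d = k * d') :
    a * b * c * d < 0 ↔ a' * b' * c' * d' < 0 := by
  rw [ha, hb, hc, hd]
  exact neg_iff_of_mul_pos (c := k ^ 4) (by ring) (by positivity)

/-- Two chords on the left. -/
lemma lk_lft_lft (hΓ : Hyp Γ) (hγ : γ ≠ 1) (hv : lft γ v) (hv' : lft γ v') (hw : lft γ w)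
    (hw' : lft γ w') : Lk v v' w w' ↔ (pos γ v - pos γ w) * (pos γ v - pos γ w') *
      (pos γ v' - pos γ w) * (pos γ v' - pos γ w') < 0 := by
  rw [lft_iff] at hv hv' hw hw'
  rw [Lk_neg_neg hv hv' hw hw']
  exact neg_mul4_iff (by have := log_ev_pos hΓ hγ; positivity) (lg_sub hΓ hγ hv.ne hw.ne)
    (lg_sub hΓ hγ hv.ne hw'.ne) (lg_sub hΓ hγ hv'.ne hw.ne) (lg_sub hΓ hγ hv'.ne hw'.ne)

/-- Two chords on the right. -/
lemma lk_rgt_rgt (hΓ : Hyp Γ) (hγ : γ ≠ 1) (hv : rgt γ v) (hv' : rgt γ v') (hw : rgt γ w)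
    (hw' : rgt γ w') : Lk v v' w w' ↔ (pos γ v - pos γ w) * (pos γ v - pos γ w') *
      (pos γ v' - pos γ w) * (pos γ v' - pos γ w') < 0 := by
  rw [rgt_iff] at hv hv' hw hw'
  rw [Lk_pos_pos hv hv' hw hw']
  exact neg_mul4_iff (by have := log_ev_pos hΓ hγ; positivity) (lg_sub hΓ hγ hv.ne' hw.ne')
    (lg_sub hΓ hγ hv.ne' hw'.ne') (lg_sub hΓ hγ hv'.ne' hw.ne') (lg_sub hΓ hγ hv'.ne' hw'.ne')

/-- Directions on the same side with the same position are parallel. -/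
lemma par_of_pos_eq (hΓ : Hyp Γ) (hγ : γ ≠ 1) (hvw : 0 < cr γ v * cr γ w)
    (h : pos γ v = pos γ w) : dt v w = 0 := by
  have hv : cr γ v ≠ 0 := by
    intro h0
    rw [h0, zero_mul] at hvw
    exact lt_irrefl _ hvw
  have hw : cr γ w ≠ 0 := by
    intro h0
    rw [h0, mul_zero] at hvw
    exact lt_irrefl _ hvw
  refine crd_inj (P := ep γ) (Q := em γ) hv ?_
  have h1 := lg_sub hΓ hγ hv hw
  rw [h, sub_self, mul_zero, sub_eq_zero] at h1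
  unfold lg at h1
  have h2 := Real.log_injOn_pos (Set.mem_Ioi.mpr (abs_pos.mpr hv))
    (Set.mem_Ioi.mpr (abs_pos.mpr hw)) h1
  change |cr γ v| = |cr γ w| at h2
  show cr γ v = cr γ w
  rcases abs_eq_abs.mp h2 with h3 | h3
  · exact h3
  · exfalso
    rw [h3] at hvw
    nlinarith [mul_self_nonneg (cr γ w)]

lemma par_of_lft (hΓ : Hyp Γ) (hγ : γ ≠ 1) (hv : lft γ v) (hw : lft γ w)
    (h : pos γ v = pos γ w) : dt v w = 0 :=
  par_of_pos_eq hΓ hγ (mul_pos_of_neg_of_neg (lft_iff.mp hv) (lft_iff.mp hw)) h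

lemma par_of_rgt (hΓ : Hyp Γ) (hγ : γ ≠ 1) (hv : rgt γ v) (hw : rgt γ w)
    (h : pos γ v = pos γ w) : dt v w = 0 :=
  par_of_pos_eq hΓ hγ (mul_pos (rgt_iff.mp hv) (rgt_iff.mp hw)) h

/-- A chord on one side which is not linked with its translate has length less than one. -/
lemma gap_lt_one (hΓ : Hyp Γ) (hγ : γ ≠ 1) (hvw : 0 < cr γ v * cr γ w)
    (h1 : dt v (ac γ w) ≠ 0) (h2 : dt w (ac γ v) ≠ 0)
    (hl : ¬ Lk v w (ac γ v) (ac γ w)) : |pos γ v - pos γ w| < 1 := by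
  have key : ∀ v w : ℝ × ℝ, 0 < cr γ v * cr γ w → dt v (ac γ w) ≠ 0 →
      ¬ Lk v w (ac γ v) (ac γ w) → pos γ v - pos γ w < 1 := by
    intro v w hvw h1 hl
    have hv : cr γ v ≠ 0 := by
      intro h0
      rw [h0, zero_mul] at hvw
      exact lt_irrefl _ hvw
    have hw : cr γ w ≠ 0 := by
      intro h0
      rw [h0, mul_zero] at hvw
      exact lt_irrefl _ hvw
    by_contra hcon
    rw [not_lt] at hcon
    have hgv := pos_gamma hΓ hγ hv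
    have hgw := pos_gamma hΓ hγ hw
    rcases eq_or_lt_of_le hcon with he | hlt
    · apply h1
      refine par_of_pos_eq hΓ hγ ?_ (by rw [hgw]; linarith)
      rw [cr_gamma hΓ hγ]
      have := ev_sq_pos hΓ hγ
      nlinarith
    · apply hl
      have hprod : (pos γ v - pos γ (ac γ v)) * (pos γ v - pos γ (ac γ w)) *
          (pos γ w - pos γ (ac γ v)) * (pos γ w - pos γ (ac γ w)) < 0 := by
        rw [hgv, hgw]
        have e1 : pos γ v - (pos γ v + 1) = -1 := by ring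
        have e2 : pos γ w - (pos γ w + 1) = -1 := by ring
        rw [e1, e2]
        have e3 : 0 < pos γ v - (pos γ w + 1) := by linarith
        have e4 : 0 < -(pos γ w - (pos γ v + 1)) := by linarith
        nlinarith [mul_pos e3 e4]
      rcases lt_or_gt_of_ne hv with hv' | hv'
      · have hw' : cr γ w < 0 := by
          by_contra h
          rw [not_lt] at h
          nlinarith
        rw [← lft_iff] at hv' hw'
        exact (lk_lft_lft hΓ hγ hv' hw' ((lft_gamma hΓ hγ).mpr hv')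
          ((lft_gamma hΓ hγ).mpr hw')).mpr hprod
      · have hw' : 0 < cr γ w := by
          by_contra h
          rw [not_lt] at h
          nlinarith
        rw [← rgt_iff] at hv' hw'
        exact (lk_rgt_rgt hΓ hγ hv' hw' ((rgt_gamma hΓ hγ).mpr hv')
          ((rgt_gamma hΓ hγ).mpr hw')).mpr hprod
  rw [abs_lt]
  have hl' : ¬ Lk w v (ac γ w) (ac γ v) := by
    unfold Lk at hl ⊢
    rwa [lkp_swap_left, lkp_swap_right]
  have a := key v w hvw h1 hl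
  have b := key w v (by rwa [mul_comm]) h2 hl'
  exact ⟨by linarith, a⟩

end

/-! ### The statements used by the other files -/

/-- Not an end of the axis. -/
lemma cr_ne_zero (hΓ : Hyp Γ) {γ : Γ} (hγ : γ ≠ 1) {v : ℝ × ℝ} (h1 : dt v (em γ) ≠ 0)
    (h2 : dt v (ep γ) ≠ 0) : cr γ v ≠ 0 :=
  crd_ne_zero_iff.mpr ⟨dt_ep_em hΓ hγ, h2, h1⟩

lemma cr_ne_zero_iff (hΓ : Hyp Γ) {γ : Γ} (hγ : γ ≠ 1) {v : ℝ × ℝ} :
    cr γ v ≠ 0 ↔ dt v (em γ) ≠ 0 ∧ dt v (ep γ) ≠ 0 := by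
  refine ⟨fun h => ⟨crd_ne_right h, crd_ne_left h⟩, fun h => cr_ne_zero hΓ hγ h.1 h.2⟩

lemma ac_zpow_ind {γ : Γ} {P : ℤ → ℝ × ℝ → Prop} (h0 : ∀ v, P 0 v)
    (hs : ∀ (n : ℤ) (v : ℝ × ℝ), P n (ac (γ : SL(2, ℝ)) v) ↔ P (n + 1) v) (k : ℤ) (v : ℝ × ℝ) :
    P k v := by
  induction k using Int.induction_on generalizing v with
  | zero => exact h0 v
  | succ n ih => exact (hs n v).mp (ih _)
  | pred n ih =>
    have h1 := (hs (-(n : ℤ) - 1) (ac ((γ : SL(2, ℝ)))⁻¹ v)).mpr (by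
      rw [sub_add_cancel]
      exact ih _)
    rwa [ac_ac_inv] at h1

lemma ac_zpow_succ (γ : Γ) (n : ℤ) (v : ℝ × ℝ) :
    ac ((γ ^ (n + 1) : Γ) : SL(2, ℝ)) v = ac ((γ ^ n : Γ) : SL(2, ℝ)) (ac (γ : SL(2, ℝ)) v) := by
  rw [zpow_add_one, Subgroup.coe_mul, ac_mul]

lemma cr_ac_zpow (hΓ : Hyp Γ) {γ : Γ} (hγ : γ ≠ 1) (k : ℤ) (v : ℝ × ℝ) :
    cr γ (ac ((γ ^ k : Γ) : SL(2, ℝ)) v) = (ev γ) ^ (2 * k) * cr γ v := by
  have hμ := ev_ne_zero hΓ hγ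
  refine ac_zpow_ind (γ := γ)
    (P := fun k v => cr γ (ac ((γ ^ k : Γ) : SL(2, ℝ)) v) = (ev γ) ^ (2 * k) * cr γ v)
    (fun v => by simp [ac_one]) (fun n v => ?_) k v
  rw [ac_zpow_succ, cr_gamma hΓ hγ]
  have h : (ev γ) ^ (2 * (n + 1)) = (ev γ) ^ (2 * n) * (ev γ) ^ 2 := by
    rw [mul_add, zpow_add₀ hμ]
    norm_cast
  rw [h, mul_assoc]

theorem lft_ac_zpow (hΓ : Hyp Γ) {γ : Γ} (hγ : γ ≠ 1) (k : ℤ) (v : ℝ × ℝ) :
    lft γ (ac ((γ ^ k : Γ) : SL(2, ℝ)) v) ↔ lft γ v := by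
  have hμ := ev_ne_zero hΓ hγ
  rw [lft_iff, lft_iff, cr_ac_zpow hΓ hγ]
  have h : 0 < (ev γ) ^ (2 * k) := by
    rw [zpow_mul]
    have : 0 < ev γ ^ (2 : ℤ) := by positivity
    positivity
  exact neg_iff_of_mul_pos (mul_comm _ _) h

theorem rgt_ac_zpow (hΓ : Hyp Γ) {γ : Γ} (hγ : γ ≠ 1) (k : ℤ) (v : ℝ × ℝ) :
    rgt γ (ac ((γ ^ k : Γ) : SL(2, ℝ)) v) ↔ rgt γ v := by
  have hμ := ev_ne_zero hΓ hγ
  rw [rgt_iff, rgt_iff, cr_ac_zpow hΓ hγ]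
  have h : 0 < (ev γ) ^ (2 * k) := by
    rw [zpow_mul]
    have : 0 < ev γ ^ (2 : ℤ) := by positivity
    positivity
  exact mul_pos_iff_of_pos_left h

theorem pos_ac_zpow (hΓ : Hyp Γ) {γ : Γ} (hγ : γ ≠ 1) (k : ℤ) {v : ℝ × ℝ}
    (h1 : dt v (em γ) ≠ 0) (h2 : dt v (ep γ) ≠ 0) :
    pos γ (ac ((γ ^ k : Γ) : SL(2, ℝ)) v) = pos γ v + k := by
  refine ac_zpow_ind (γ := γ)
    (P := fun k v => cr γ v ≠ 0 → pos γ (ac ((γ ^ k : Γ) : SL(2, ℝ)) v) = pos γ v + k)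
    (fun v _ => by simp [ac_one]) (fun n v => ?_) k v (cr_ne_zero hΓ hγ h1 h2)
  rw [ac_zpow_succ, cr_gamma_ne_zero hΓ hγ]
  constructor
  · intro h hv
    rw [h hv, pos_gamma hΓ hγ hv]
    push_cast
    ring
  · intro h hv
    rw [h hv, pos_gamma hΓ hγ hv]
    push_cast
    ring

theorem lk_sides (hΓ : Hyp Γ) {γ : Γ} (hγ : γ ≠ 1) (v v' : ℝ × ℝ) :
    Lk (em γ) (ep γ) v v' ↔ (lft γ v ∧ rgt γ v') ∨ (rgt γ v ∧ lft γ v') := by
  rw [lk_axis' hΓ hγ, and_comm (a := lft γ v') (b := rgt γ v)]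

theorem lk_iff (hΓ : Hyp Γ) {γ : Γ} (hγ : γ ≠ 1) {p q r s : ℝ × ℝ} (hp : lft γ p) (hq : rgt γ q)
    (hr : lft γ r) (hs : rgt γ s) :
    Lk p q r s ↔ (pos γ p - pos γ r) * (pos γ q - pos γ s) < 0 := lk_cross hΓ hγ hp hq hr hs

theorem lk_iff_lft (hΓ : Hyp Γ) {γ : Γ} (hγ : γ ≠ 1) {p q r s : ℝ × ℝ} (hp : lft γ p)
    (hq : rgt γ q) (hr : lft γ r) (hs : lft γ s) :
    Lk p q r s ↔ (pos γ p - pos γ r) * (pos γ p - pos γ s) < 0 := lk_lft_side hΓ hγ hp hq hr hs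

theorem lk_iff_rgt (hΓ : Hyp Γ) {γ : Γ} (hγ : γ ≠ 1) {p q r s : ℝ × ℝ} (hp : lft γ p)
    (hq : rgt γ q) (hr : rgt γ r) (hs : rgt γ s) :
    Lk p q r s ↔ (pos γ q - pos γ r) * (pos γ q - pos γ s) < 0 := lk_rgt_side hΓ hγ hp hq hr hs

lemma lk_order {P Q p r : ℝ × ℝ} (hPQ : dt P Q ≠ 0) (hp : dt p P ≠ 0) (hr : dt r P ≠ 0) :
    Lk Q r p P ↔ crd P Q p * (crd P Q p - crd P Q r) < 0 := by
  rw [crd_sub hp hr]
  symm
  unfold Lk
  refine neg_iff_of_mul_pos (c := (dt P Q / (dt p P * dt r P)) ^ 2) ?_ ?_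
  · unfold lkp crd
    rw [dt_comm Q p, dt_comm Q P, dt_comm r p]
    field_simp
  · have : dt P Q / (dt p P * dt r P) ≠ 0 := div_ne_zero hPQ (mul_ne_zero hp hr)
    positivity

lemma pos_lt_lg (hΓ : Hyp Γ) {γ : Γ} (hγ : γ ≠ 1) {p r : ℝ × ℝ} (hp : cr γ p ≠ 0)
    (hr : cr γ r ≠ 0) : pos γ p < pos γ r ↔ lg (ep γ) (em γ) p < lg (ep γ) (em γ) r := by
  have h := lg_sub hΓ hγ hp hr
  have h2 := log_ev_pos hΓ hγ
  constructor
  · intro h3
    have h4 : (2 * Real.log |ev γ|) * (pos γ p - pos γ r) < 0 :=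
      mul_neg_of_pos_of_neg (by linarith) (by linarith)
    linarith
  · intro h3
    by_contra h4
    rw [not_lt] at h4
    have h5 : 0 ≤ (2 * Real.log |ev γ|) * (pos γ p - pos γ r) :=
      mul_nonneg (by linarith) (by linarith)
    linarith

theorem pos_lt_iff_lft (hΓ : Hyp Γ) {γ : Γ} (hγ : γ ≠ 1) {p r : ℝ × ℝ} (hp : lft γ p)
    (hr : lft γ r) : pos γ p < pos γ r ↔ Lk (em γ) r p (ep γ) := by
  rw [lft_iff] at hp hr
  rw [pos_lt_lg hΓ hγ hp.ne hr.ne, lg_lt_of_neg hp hr,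
    lk_order (dt_ep_em hΓ hγ) (crd_ne_left hp.ne) (crd_ne_left hr.ne)]
  change cr γ r < cr γ p ↔ cr γ p * (cr γ p - cr γ r) < 0
  constructor
  · intro h
    exact mul_neg_of_neg_of_pos hp (by linarith)
  · intro h
    by_contra h2
    rw [not_lt] at h2
    exact absurd h (not_lt.mpr (mul_nonneg_of_nonpos_of_nonpos hp.le (by linarith)))

theorem pos_lt_iff_rgt (hΓ : Hyp Γ) {γ : Γ} (hγ : γ ≠ 1) {p r : ℝ × ℝ} (hp : rgt γ p)
    (hr : rgt γ r) : pos γ p < pos γ r ↔ Lk (em γ) r p (ep γ) := by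
  rw [rgt_iff] at hp hr
  rw [pos_lt_lg hΓ hγ hp.ne' hr.ne', lg_lt_of_pos hp hr,
    lk_order (dt_ep_em hΓ hγ) (crd_ne_left hp.ne') (crd_ne_left hr.ne')]
  change cr γ p < cr γ r ↔ cr γ p * (cr γ p - cr γ r) < 0
  constructor
  · intro h
    exact mul_neg_of_pos_of_neg hp (by linarith)
  · intro h
    by_contra h2
    rw [not_lt] at h2
    exact absurd h (not_lt.mpr (mul_nonneg hp.le (by linarith)))

private lemma att_one_par : dt (ep (1 : Γ)) (em (1 : Γ)) = 0 := by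
  unfold ep em
  rw [inv_one, dt_self]

lemma Cr.left_ne_one' {x y : Γ} (h : Cr x y) : x ≠ 1 := by
  rintro rfl
  have h1 := h.ne'
  rw [dt_comm, att_one_par, neg_zero] at h1
  exact h1 rfl

/-- the left and the right end -/
theorem ends_cases (hΓ : Hyp Γ) {γ w : Γ} (h : Cr γ w) :
    (lft γ (ep w) ∧ rgt γ (em w) ∧ lp γ w = pos γ (ep w) ∧ rp γ w = pos γ (em w)) ∨
    (rgt γ (ep w) ∧ lft γ (em w) ∧ lp γ w = pos γ (em w) ∧ rp γ w = pos γ (ep w)) := by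
  have hγ : γ ≠ 1 := h.left_ne_one'
  rcases (Cr_iff hΓ hγ).mp h with ⟨h1, h2⟩ | ⟨h1, h2⟩
  · right
    have h3 : ¬ lft γ (ep w) := fun h4 => not_lft_rgt h4 h2
    exact ⟨h2, h1, by rw [lp, if_neg h3], by rw [rp, if_neg h3]⟩
  · left
    exact ⟨h1, h2, by rw [lp, if_pos h1], by rw [rp, if_pos h1]⟩

private lemma lk_swap1 {a b c d : ℝ × ℝ} : Lk a b c d ↔ Lk b a c d := by
  unfold Lk
  rw [lkp_swap_left]

private lemma lk_swap2 {a b c d : ℝ × ℝ} : Lk a b c d ↔ Lk a b d c := by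
  unfold Lk
  rw [lkp_swap_right]

theorem cr_iff_lp_rp (hΓ : Hyp Γ) {γ u w : Γ} (hu : Cr γ u) (hw : Cr γ w) :
    Cr u w ↔ (lp γ u - lp γ w) * (rp γ u - rp γ w) < 0 := by
  have hγ : γ ≠ 1 := hu.left_ne_one'
  rcases ends_cases hΓ hu with ⟨h1, h2, h3, h4⟩ | ⟨h1, h2, h3, h4⟩ <;>
    rcases ends_cases hΓ hw with ⟨k1, k2, k3, k4⟩ | ⟨k1, k2, k3, k4⟩ <;>
    rw [h3, h4, k3, k4] <;> unfold Cr
  · rw [lk_swap1, lk_swap2]
    exact lk_iff hΓ hγ h1 h2 k1 k2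
  · rw [lk_swap1]
    exact lk_iff hΓ hγ h1 h2 k2 k1
  · rw [lk_swap2]
    exact lk_iff hΓ hγ h2 h1 k1 k2
  · exact lk_iff hΓ hγ h2 h1 k2 k1

/-- An element crossing both `γ` and something on the left of `γ`. -/
lemma cr_lft_between (hΓ : Hyp Γ) {γ u δ : Γ} (hu : Cr γ u) (h1 : lft γ (ep δ))
    (h2 : lft γ (em δ)) (h : Cr δ u) :
    (lp γ u - pos γ (ep δ)) * (lp γ u - pos γ (em δ)) < 0 := by
  have hγ : γ ≠ 1 := hu.left_ne_one'
  have hs : Lk (em u) (ep u) (em δ) (ep δ) := by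
    unfold Cr at h
    unfold Lk at h ⊢
    rwa [lkp_comm]
  rcases ends_cases hΓ hu with ⟨k1, k2, k3, k4⟩ | ⟨k1, k2, k3, k4⟩ <;> rw [k3]
  · rw [lk_swap1, lk_swap2] at hs
    exact (lk_iff_lft hΓ hγ k1 k2 h1 h2).mp hs
  · rw [lk_swap2] at hs
    exact (lk_iff_lft hΓ hγ k2 k1 h1 h2).mp hs

lemma cr_rgt_between (hΓ : Hyp Γ) {γ u δ : Γ} (hu : Cr γ u) (h1 : rgt γ (ep δ))
    (h2 : rgt γ (em δ)) (h : Cr δ u) :
    (rp γ u - pos γ (ep δ)) * (rp γ u - pos γ (em δ)) < 0 := by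
  have hγ : γ ≠ 1 := hu.left_ne_one'
  have hs : Lk (em u) (ep u) (em δ) (ep δ) := by
    unfold Cr at h
    unfold Lk at h ⊢
    rwa [lkp_comm]
  rcases ends_cases hΓ hu with ⟨k1, k2, k3, k4⟩ | ⟨k1, k2, k3, k4⟩ <;> rw [k4]
  · rw [lk_swap1, lk_swap2] at hs
    exact (lk_iff_rgt hΓ hγ k1 k2 h1 h2).mp hs
  · rw [lk_swap2] at hs
    exact (lk_iff_rgt hΓ hγ k2 k1 h1 h2).mp hs

/-! ### Conjugation -/

private lemma ep_nz (x : Γ) : ep x ≠ 0 := att_ne_zero _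
private lemma em_nz (x : Γ) : em x ≠ 0 := att_ne_zero _

private lemma ep_cj (hΓ : Hyp Γ) (g : Γ) {x : Γ} (hx : x ≠ 1) :
    dt (ac (g : SL(2, ℝ)) (ep x)) (ep (g * x * g⁻¹)) = 0 := by
  rw [dt_comm, neg_eq_zero]
  exact hΓ.conj_par g hx

private lemma em_cj (hΓ : Hyp Γ) (g : Γ) {x : Γ} (hx : x ≠ 1) :
    dt (ac (g : SL(2, ℝ)) (em x)) (em (g * x * g⁻¹)) = 0 := by
  have h := hΓ.conj_par g (inv_ne_one.mpr hx)
  have h2 : g * x⁻¹ * g⁻¹ = (g * x * g⁻¹)⁻¹ := by group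
  rw [h2] at h
  rw [dt_comm, neg_eq_zero]
  exact h

private lemma one_of_cr_one {γ : Γ} (h : Cr γ 1) : False := by
  have h1 : Lk (em (1 : Γ)) (ep (1 : Γ)) (em γ) (ep γ) := by
    unfold Cr at h
    unfold Lk at h ⊢
    rwa [lkp_comm]
  have h2 := h1.ne'
  rw [dt_comm, att_one_par, neg_zero] at h2
  exact h2 rfl

lemma Cr.right_ne_one' {x y : Γ} (h : Cr x y) : y ≠ 1 := by
  rintro rfl
  exact one_of_cr_one h

theorem lp_conj_zpow (hΓ : Hyp Γ) {γ w : Γ} (h : Cr γ w) (k : ℤ) :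
    Cr γ (γ ^ k * w * (γ ^ k)⁻¹) ∧ lp γ (γ ^ k * w * (γ ^ k)⁻¹) = lp γ w + k ∧
    rp γ (γ ^ k * w * (γ ^ k)⁻¹) = rp γ w + k := by
  have hγ : γ ≠ 1 := h.left_ne_one'
  have hw : w ≠ 1 := h.right_ne_one'
  have hp := ep_cj hΓ (γ ^ k) hw
  have hm := em_cj hΓ (γ ^ k) hw
  have np := ac_ne_zero (g := ((γ ^ k : Γ) : SL(2, ℝ))) (ep_nz w)
  have nm := ac_ne_zero (g := ((γ ^ k : Γ) : SL(2, ℝ))) (em_nz w)
  set w' := γ ^ k * w * (γ ^ k)⁻¹ with hw'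
  have lp1 : lft γ (ep w') ↔ lft γ (ep w) := by
    rw [← lft_par γ np (ep_nz w') hp, lft_ac_zpow hΓ hγ]
  have lm1 : lft γ (em w') ↔ lft γ (em w) := by
    rw [← lft_par γ nm (em_nz w') hm, lft_ac_zpow hΓ hγ]
  have rp1 : rgt γ (ep w') ↔ rgt γ (ep w) := by
    rw [← rgt_par γ np (ep_nz w') hp, rgt_ac_zpow hΓ hγ]
  have rm1 : rgt γ (em w') ↔ rgt γ (em w) := by
    rw [← rgt_par γ nm (em_nz w') hm, rgt_ac_zpow hΓ hγ]
  have hcr : Cr γ w' := by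
    rw [Cr_iff hΓ hγ, lp1, lm1, rp1, rm1, ← Cr_iff hΓ hγ]
    exact h
  have hne := h.ne
  have pp : pos γ (ep w') = pos γ (ep w) + k := by
    rw [← pos_par γ np (ep_nz w') hp]
    refine pos_ac_zpow hΓ hγ k ?_ ?_
    · rw [dt_comm, neg_ne_zero]
      exact hne.2.1
    · rw [dt_comm, neg_ne_zero]
      exact hne.2.2.2
  have pm : pos γ (em w') = pos γ (em w) + k := by
    rw [← pos_par γ nm (em_nz w') hm]
    refine pos_ac_zpow hΓ hγ k ?_ ?_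
    · rw [dt_comm, neg_ne_zero]
      exact hne.1
    · rw [dt_comm, neg_ne_zero]
      exact hne.2.2.1
  refine ⟨hcr, ?_, ?_⟩
  · unfold lp
    by_cases hl : lft γ (ep w)
    · rw [if_pos hl, if_pos (lp1.mpr hl), pp]
    · rw [if_neg hl, if_neg (fun h => hl (lp1.mp h)), pm]
  · unfold rp
    by_cases hl : lft γ (ep w)
    · rw [if_pos hl, if_pos (lp1.mpr hl), pm]
    · rw [if_neg hl, if_neg (fun h => hl (lp1.mp h)), pp]

/-! ### Common ends -/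

/-- The two ends are eigenvectors. -/
lemma eig_ends (hΓ : Hyp Γ) {x : Γ} (hx : x ≠ 1) {v : ℝ × ℝ} (hv : v ≠ 0)
    (h : dt (ep x) v = 0 ∨ dt (em x) v = 0) : ∃ μ : ℝ, ac (x : SL(2, ℝ)) v = μ • v := by
  rcases h with h | h
  · obtain ⟨c, hc, rfl⟩ := exists_smul_of_dt' (ep_nz x) hv h
    exact ⟨ev x, by rw [ac_smul, ac_ep hΓ hx, smul_comm]⟩
  · obtain ⟨c, hc, rfl⟩ := exists_smul_of_dt' (em_nz x) hv h
    exact ⟨(ev x)⁻¹, by rw [ac_smul, ac_em hΓ hx, smul_comm]⟩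

/-- Elements with a common end commute. -/
lemma commute_of_end (hΓ : Hyp Γ) {x y : Γ} (hx : x ≠ 1) (hy : y ≠ 1) {v : ℝ × ℝ} (hv : v ≠ 0)
    (h : dt (ep x) v = 0 ∨ dt (em x) v = 0) (h' : dt (ep y) v = 0 ∨ dt (em y) v = 0) :
    Commute x y := by
  obtain ⟨μ, h1⟩ := eig_ends hΓ hx hv h
  obtain ⟨ν, h2⟩ := eig_ends hΓ hy hv h'
  exact Subtype.ext (hΓ.commute x.2 y.2 hv h1 h2)

/-- An eigenvector is an end. -/
lemma end_of_eig (hΓ : Hyp Γ) {x : Γ} (hx : x ≠ 1) {v : ℝ × ℝ} {μ : ℝ}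
    (h : ac (x : SL(2, ℝ)) v = μ • v) : dt (ep x) v = 0 ∨ dt (em x) v = 0 := by
  by_contra hcon
  push Not at hcon
  have h1 := dt_ac (x : SL(2, ℝ)) (ep x) v
  have h2 := dt_ac (x : SL(2, ℝ)) (em x) v
  rw [ac_ep hΓ hx, h, dt_smul_left, dt_smul_right] at h1
  rw [ac_em hΓ hx, h, dt_smul_left, dt_smul_right] at h2
  have hμ := ev_ne_zero hΓ hx
  have h3 : ev x * μ = 1 := by
    have : (ev x * μ - 1) * dt (ep x) v = 0 := by linarith
    linarith [(mul_eq_zero.mp this).resolve_right hcon.1]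
  have h4 : (ev x)⁻¹ * μ = 1 := by
    have : ((ev x)⁻¹ * μ - 1) * dt (em x) v = 0 := by linarith
    linarith [(mul_eq_zero.mp this).resolve_right hcon.2]
  have h5 : μ = ev x := by
    field_simp at h4
    exact h4
  rw [h5] at h3
  have h6 := one_lt_ev hΓ hx
  have h7 : |ev x| * |ev x| = 1 := by rw [← abs_mul, h3, abs_one]
  nlinarith

/-- If `b` commutes with a conjugate `g b g⁻¹` then `g` commutes with `b`. -/
lemma commute_of_commute_conj (hΓ : Hyp Γ) {b g : Γ} (hb : b ≠ 1)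
    (h : Commute b (g * b * g⁻¹)) : Commute g b := by
  have hx : g * b * g⁻¹ ≠ 1 := conj_ne_one g hb
  have hmat : ∀ v : ℝ × ℝ, ac (b : SL(2, ℝ)) (ac ((g * b * g⁻¹ : Γ) : SL(2, ℝ)) v) =
      ac ((g * b * g⁻¹ : Γ) : SL(2, ℝ)) (ac (b : SL(2, ℝ)) v) := by
    intro v
    rw [← ac_mul, ← ac_mul, ← Subgroup.coe_mul, ← Subgroup.coe_mul, h.eq]
  -- the images under `g` of the two ends of `b` are ends of `b`
  have key : ∀ (v : ℝ × ℝ) (ν : ℝ), v ≠ 0 → ac (b : SL(2, ℝ)) v = ν • v →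
      ν * ν ≠ 1 → dt (ep b) (ac (g : SL(2, ℝ)) v) = 0 ∨ dt (em b) (ac (g : SL(2, ℝ)) v) = 0 := by
    intro v ν hv hbv hν
    have h1 : ac ((g * b * g⁻¹ : Γ) : SL(2, ℝ)) (ac (g : SL(2, ℝ)) v) =
        ν • ac (g : SL(2, ℝ)) v := by
      rw [Subgroup.coe_mul, Subgroup.coe_mul, Subgroup.coe_inv, ac_mul, ac_mul, ac_inv_ac, hbv,
        ac_smul]
    set w := ac (g : SL(2, ℝ)) v with hw
    have hw0 : w ≠ 0 := ac_ne_zero hv
    have h2 := hmat w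
    rw [h1, ac_smul] at h2
    -- `b w` is an eigenvector of the conjugate for `ν`
    have h3 := dt_ac ((g * b * g⁻¹ : Γ) : SL(2, ℝ)) w (ac (b : SL(2, ℝ)) w)
    rw [h1, ← h2, dt_smul_left, dt_smul_right] at h3
    have h4 : (ν * ν - 1) * dt w (ac (b : SL(2, ℝ)) w) = 0 := by linarith
    have h5 := (mul_eq_zero.mp h4).resolve_left (sub_ne_zero.mpr hν)
    obtain ⟨c, hc⟩ := exists_smul_of_dt hw0 h5
    exact end_of_eig hΓ hb hc
  have hev := one_lt_ev hΓ hb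
  have hev0 := ev_ne_zero hΓ hb
  have n1 : ev b * ev b ≠ 1 := by
    intro h0
    have : |ev b| * |ev b| = 1 := by rw [← abs_mul, h0, abs_one]
    nlinarith
  have n2 : (ev b)⁻¹ * (ev b)⁻¹ ≠ 1 := by
    intro h0
    apply n1
    rw [← mul_inv, inv_eq_one] at h0
    exact h0
  have k1 := key (ep b) (ev b) (ep_nz b) (ac_ep hΓ hb) n1
  have k2 := key (em b) (ev b)⁻¹ (em_nz b) (ac_em hΓ hb) n2
  have fin : ∀ v : ℝ × ℝ, v ≠ 0 → (dt (ep b) v = 0 ∨ dt (em b) v = 0) →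
      dt v (ac (g : SL(2, ℝ)) v) = 0 → Commute g b := by
    intro v hv h1 h2
    obtain ⟨c, hc⟩ := exists_smul_of_dt hv h2
    obtain ⟨μ, hμ⟩ := eig_ends hΓ hb hv h1
    exact Subtype.ext (hΓ.commute g.2 b.2 hv hc hμ)
  rcases k1 with k1 | k1
  · exact fin _ (ep_nz b) (Or.inl (dt_self _)) k1
  rcases k2 with k2 | k2
  swap
  · exact fin _ (em_nz b) (Or.inr (dt_self _)) k2
  -- `g` exchanges the two ends: impossible
  exfalso
  obtain ⟨c, hc, h1⟩ := exists_smul_of_dt' (em_nz b) (ac_ne_zero (ep_nz b)) k1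
  obtain ⟨d, hd, h2⟩ := exists_smul_of_dt' (ep_nz b) (ac_ne_zero (em_nz b)) k2
  have hne := dt_ep_em hΓ hb
  have h3 := dt_ac (g : SL(2, ℝ)) (ep b) (em b)
  rw [h1, h2, dt_smul_left, dt_smul_right, dt_comm (em b) (ep b)] at h3
  have hcd : c * d = -1 := by
    have : (c * d + 1) * dt (ep b) (em b) = 0 := by linarith
    linarith [(mul_eq_zero.mp this).resolve_right hne]
  have hg2 : ac ((g * g : Γ) : SL(2, ℝ)) (ep b) = (-1 : ℝ) • ep b := by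
    rw [Subgroup.coe_mul, ac_mul, h1, ac_smul, h2, smul_smul, hcd]
  have hgg : g * g ≠ 1 := by
    intro h0
    rw [h0, Subgroup.coe_one, ac_one] at hg2
    have h5 : (2 : ℝ) • ep b = 0 := by
      rw [two_smul]
      nth_rewrite 1 [hg2]
      simp
    exact ep_nz b ((smul_eq_zero.mp h5).resolve_left two_ne_zero)
  -- an eigenvector for `-1`
  have h6 := end_of_eig hΓ hgg hg2
  have e1 := one_lt_ev hΓ hgg
  rcases h6 with h6 | h6
  · obtain ⟨t, ht, h7⟩ := exists_smul_of_dt' (ep_nz (g * g)) (ep_nz b) h6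
    have h8 := ac_ep hΓ hgg
    have h9 : (ev (g * g)) • ep b = (-1 : ℝ) • ep b := by
      rw [← hg2, h7, ac_smul, h8, smul_comm]
    have h10 := smul_left_injective ℝ (ep_nz b) h9
    rw [h10] at e1
    norm_num at e1
  · obtain ⟨t, ht, h7⟩ := exists_smul_of_dt' (em_nz (g * g)) (ep_nz b) h6
    have h8 := ac_em hΓ hgg
    have h9 : (ev (g * g))⁻¹ • ep b = (-1 : ℝ) • ep b := by
      rw [← hg2, h7, ac_smul, h8, smul_comm]
    have h10 := smul_left_injective ℝ (ep_nz b) h9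
    have h11 : ev (g * g) = -1 := by
      rw [← inv_inv (ev (g * g)), h10]
      norm_num
    rw [h11] at e1
    norm_num at e1

/-- an axis which does not cross the axis of `γ` is on one side of it -/
theorem same_side (hΓ : Hyp Γ) {γ δ : Γ} (hγ : γ ≠ 1) (hδ : δ ≠ 1) (h : ¬ Commute γ δ)
    (hc : ¬ Cr γ δ) : (lft γ (ep δ) ∧ lft γ (em δ)) ∨ (rgt γ (ep δ) ∧ rgt γ (em δ)) := by
  have h1 : cr γ (ep δ) ≠ 0 := by
    refine cr_ne_zero hΓ hγ (fun h0 => h ?_) (fun h0 => h ?_)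
    · exact commute_of_end hΓ hγ hδ (em_nz γ) (Or.inr (dt_self _)) (Or.inl h0)
    · exact commute_of_end hΓ hγ hδ (ep_nz γ) (Or.inl (dt_self _)) (Or.inl h0)
  have h2 : cr γ (em δ) ≠ 0 := by
    refine cr_ne_zero hΓ hγ (fun h0 => h ?_) (fun h0 => h ?_)
    · exact commute_of_end hΓ hγ hδ (em_nz γ) (Or.inr (dt_self _)) (Or.inr h0)
    · exact commute_of_end hΓ hγ hδ (ep_nz γ) (Or.inl (dt_self _)) (Or.inr h0)
  rw [Cr_iff hΓ hγ] at hc
  rw [lft_iff, lft_iff, rgt_iff, rgt_iff] at *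
  rcases lt_or_gt_of_ne h1 with h1 | h1 <;> rcases lt_or_gt_of_ne h2 with h2 | h2
  · exact Or.inl ⟨h1, h2⟩
  · exact absurd (Or.inr ⟨h1, h2⟩) hc
  · exact absurd (Or.inl ⟨h2, h1⟩) hc
  · exact Or.inr ⟨h1, h2⟩

private lemma abs_sub_lt_of_between {x y a b : ℝ} (hx : (x - a) * (x - b) < 0)
    (hy : (y - a) * (y - b) < 0) (hab : |a - b| < 1) : |x - y| < 1 := by
  rw [abs_lt] at hab ⊢
  rcases mul_neg_iff.mp hx with ⟨h1, h2⟩ | ⟨h1, h2⟩ <;>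
    rcases mul_neg_iff.mp hy with ⟨h3, h4⟩ | ⟨h3, h4⟩ <;>
    constructor <;> linarith [hab.1, hab.2]

/-- two lines which cross the axis of `b` and another translate of it are close to each other on
one side -/
theorem cross_both (hΓ : Hyp Γ) {b u w g : Γ} (hb : Simple b) (hg : ¬ Commute g b)
    (hu : Cr b u) (hw : Cr b w) (hu' : Cr (g * b * g⁻¹) u) (hw' : Cr (g * b * g⁻¹) w) :
    |lp b u - lp b w| < 1 ∨ |rp b u - rp b w| < 1 := by
  obtain ⟨hb1, hsim⟩ := hb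
  have hδ : g * b * g⁻¹ ≠ 1 := conj_ne_one g hb1
  have hnc : ¬ Commute b (g * b * g⁻¹) := fun h => hg (commute_of_commute_conj hΓ hb1 h)
  set δ := g * b * g⁻¹ with hδdef
  -- the translate of `δ` by `b`
  have hδ' : b * δ * b⁻¹ ≠ 1 := conj_ne_one b hδ
  have hnc' : ¬ Commute δ (b * δ * b⁻¹) := fun h =>
    hnc (commute_of_commute_conj hΓ hδ h)
  have hncr : ¬ Cr δ (b * δ * b⁻¹) := by
    intro hc
    -- conjugate by `g⁻¹`
    have e1 : Cr (g⁻¹ * δ * g⁻¹⁻¹) (g⁻¹ * (b * δ * b⁻¹) * g⁻¹⁻¹) := by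
      have hpar := fun (x : Γ) (hx : x ≠ 1) => (ep_cj hΓ g⁻¹ (x := x) hx)
      unfold Cr at hc ⊢
      rw [← Lk_ac ((g⁻¹ : Γ) : SL(2, ℝ))] at hc
      exact Lk_of_par (em_nz _) (ep_nz _) (em_nz _) (ep_nz _) (em_cj hΓ g⁻¹ hδ)
        (ep_cj hΓ g⁻¹ hδ) (em_cj hΓ g⁻¹ hδ') (ep_cj hΓ g⁻¹ hδ') hc
    have e2 : g⁻¹ * δ * g⁻¹⁻¹ = b := by rw [hδdef]; group
    have e3 : g⁻¹ * (b * δ * b⁻¹) * g⁻¹⁻¹ = (g⁻¹ * b * g) * b * (g⁻¹ * b * g)⁻¹ := by
      rw [hδdef]; group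
    rw [e2, e3] at e1
    exact hsim _ e1
  have hne1 : dt (ep δ) (ac (b : SL(2, ℝ)) (em δ)) ≠ 0 := by
    intro h0
    apply hnc'
    obtain ⟨c, hc, h1⟩ := exists_smul_of_dt' (ac_ne_zero (em_nz δ)) (em_nz _) (em_cj hΓ b hδ)
    refine commute_of_end hΓ hδ hδ' (ep_nz δ) (Or.inl (dt_self _)) (Or.inr ?_)
    rw [h1, dt_smul_left, dt_comm, h0]
    simp
  have hne2 : dt (em δ) (ac (b : SL(2, ℝ)) (ep δ)) ≠ 0 := by
    intro h0
    apply hnc'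
    obtain ⟨c, hc, h1⟩ := exists_smul_of_dt' (ac_ne_zero (ep_nz δ)) (ep_nz _) (ep_cj hΓ b hδ)
    refine commute_of_end hΓ hδ hδ' (em_nz δ) (Or.inr (dt_self _)) (Or.inl ?_)
    rw [h1, dt_smul_left, dt_comm, h0]
    simp
  have hnl : ¬ Lk (ep δ) (em δ) (ac (b : SL(2, ℝ)) (ep δ)) (ac (b : SL(2, ℝ)) (em δ)) := by
    intro hl
    apply hncr
    unfold Cr
    rw [lk_swap1, lk_swap2] at hl
    exact Lk_of_par (em_nz _) (ep_nz _) (em_nz _) (ep_nz _) (dt_self _) (dt_self _)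
      (em_cj hΓ b hδ) (ep_cj hΓ b hδ) hl
  have hbc : ¬ Cr b δ := hsim g
  rcases same_side hΓ hb1 hδ hnc hbc with ⟨s1, s2⟩ | ⟨s1, s2⟩
  · left
    have hgap := gap_lt_one hΓ hb1 (v := ep δ) (w := em δ)
      (mul_pos_of_neg_of_neg (lft_iff.mp s1) (lft_iff.mp s2)) hne1 hne2 hnl
    exact abs_sub_lt_of_between (cr_lft_between hΓ hu s1 s2 hu')
      (cr_lft_between hΓ hw s1 s2 hw') hgap
  · right
    have hgap := gap_lt_one hΓ hb1 (v := ep δ) (w := em δ)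
      (mul_pos (rgt_iff.mp s1) (rgt_iff.mp s2)) hne1 hne2 hnl
    exact abs_sub_lt_of_between (cr_rgt_between hΓ hu s1 s2 hu')
      (cr_rgt_between hΓ hw s1 s2 hw') hgap

end Pool.Agent.GEN
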