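import Mathlib
import Pool.Agent.GEN.Pos
import Pool.Agent.GEN.Int

/-!
# A lower bound for the number of crossings
-/

set_option autoImplicit false

open Topology Set Filter
open scoped MatrixGroups UpperHalfPlane

namespace Pool.Agent.GEN

open Pool.Agent.Helper2.Fuch Pool.Agent.Helper2.Genus Pool.Agent.Helper2.Planar

variable {Γ : Subgroup SL(2, ℝ)}

private lemma count_cr (hΓ : Hyp Γ) {b u g : Γ} (h : g ∈ crs u b) : Cr b (g⁻¹ * u * g) := by
  have h1 : Cr u (g * b * g⁻¹) := h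
  have h2 := (cr_conj hΓ g⁻¹ u (g * b * g⁻¹)).mpr h1
  have e1 : g⁻¹ * (g * b * g⁻¹) * g⁻¹⁻¹ = b := by group
  have e2 : g⁻¹ * u * g⁻¹⁻¹ = g⁻¹ * u * g := by group
  rw [e1, e2] at h2
  exact h2.symm

/-- `b` has infinite order -/
private lemma count_order (hΓ : Hyp Γ) {b w : Γ} (h : Cr b w) {k : ℤ} (hk : b ^ k = 1) : k = 0 := by
  obtain ⟨-, h1, -⟩ := lp_conj_zpow hΓ h k
  rw [hk] at h1
  simp only [one_mul, inv_one, mul_one] at h1
  have h2 : (k : ℝ) = 0 := by linarith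
  exact_mod_cast h2

/-- integers between two reals -/
private lemma count_int {P Q : ℝ} {n : ℕ} (h : (n : ℝ) + 3 ≤ |Q - P|) {m : ℕ} (hm : m < n) :
    (P - (⌈min P Q + 1⌉ + m : ℤ)) * (Q - (⌈min P Q + 1⌉ + m : ℤ)) < 0 ∧
      1 ≤ |P - (⌈min P Q + 1⌉ + m : ℤ)| ∧ 1 ≤ |Q - (⌈min P Q + 1⌉ + m : ℤ)| := by
  have hm' : (m : ℝ) + 1 ≤ n := by exact_mod_cast hm
  have hm0 : (0 : ℝ) ≤ m := Nat.cast_nonneg m
  have h1 := Int.le_ceil (min P Q + 1)
  have h2 := Int.ceil_lt_add_one (min P Q + 1)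
  push_cast
  rcases le_total P Q with hPQ | hPQ
  · rw [min_eq_left hPQ] at h1 h2 ⊢
    rw [abs_of_nonneg (by linarith : (0 : ℝ) ≤ Q - P)] at h
    refine ⟨?_, ?_, ?_⟩
    · exact mul_neg_of_neg_of_pos (by linarith) (by linarith)
    · rw [le_abs]
      right
      linarith
    · rw [le_abs]
      left
      linarith
  · rw [min_eq_right hPQ] at h1 h2 ⊢
    rw [abs_of_nonpos (by linarith : Q - P ≤ 0)] at h
    refine ⟨?_, ?_, ?_⟩
    · exact mul_neg_of_pos_of_neg (by linarith) (by linarith)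
    · rw [le_abs]
      left
      linarith
    · rw [le_abs]
      right
      linarith

/-- The lower bound (F0): each pair of crossings of `u` and of `w` with the simple geodesic of `b`
whose twistings differ by at least `n + 3` gives `n` crossings of `u` with `w`. -/
theorem count (hΓ : Hyp Γ) [DiscreteTopology Γ] {b u w : Γ} (hb : Simple b)
    {ι κ : Type*} [Fintype ι] [Fintype κ] (gx : ι → Γ) (gy : κ → Γ)
    (hx : ∀ i, gx i ∈ crs u b) (hxi : ∀ i j, Rel u b (gx i) (gx j) → i = j)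
    (hy : ∀ i, gy i ∈ crs w b) (hyi : ∀ i j, Rel w b (gy i) (gy j) → i = j) (n : ℕ)
    (hn : ∀ i j, (n : ℝ) + 3 ≤
      |sig b ((gx i)⁻¹ * u * gx i) - sig b ((gy j)⁻¹ * w * gy j)|) :
    Fintype.card ι * Fintype.card κ * n ≤ I u w := by
  -- the two conjugates which cross `b`
  set U : ι → Γ := fun i => (gx i)⁻¹ * u * gx i with hU
  set W : κ → Γ := fun j => (gy j)⁻¹ * w * gy j with hW
  have hUc : ∀ i, Cr b (U i) := fun i => count_cr hΓ (hx i)
  have hWc : ∀ j, Cr b (W j) := fun j => count_cr hΓ (hy j)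
  set P : ι → κ → ℝ := fun i j => lp b (U i) - lp b (W j) with hP
  set Q : ι → κ → ℝ := fun i j => rp b (U i) - rp b (W j) with hQ
  have hPQ : ∀ i j, (n : ℝ) + 3 ≤ |Q i j - P i j| := by
    intro i j
    have h := hn i j
    have e : sig b ((gx i)⁻¹ * u * gx i) - sig b ((gy j)⁻¹ * w * gy j) = Q i j - P i j := by
      simp only [sig, hP, hQ, hU, hW]
      ring
    rwa [e] at h
  -- the exponents and the elements
  let k : ι → κ → Fin n → ℤ := fun i j m => ⌈min (P i j) (Q i j) + 1⌉ + (m : ℕ)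
  have hk : ∀ i j m, (P i j - k i j m) * (Q i j - k i j m) < 0 ∧ 1 ≤ |P i j - k i j m| ∧
      1 ≤ |Q i j - k i j m| := fun i j m => count_int (hPQ i j) m.2
  let F : ι × κ × Fin n → Γ := fun t => gx t.1 * b ^ (k t.1 t.2.1 t.2.2) * (gy t.2.1)⁻¹
  -- the conjugates of `W j` by the powers of `b`
  let V : ι → κ → Fin n → Γ := fun i j m => b ^ (k i j m) * W j * (b ^ (k i j m))⁻¹
  have hV : ∀ i j m, Cr b (V i j m) ∧ lp b (V i j m) = lp b (W j) + k i j m ∧
      rp b (V i j m) = rp b (W j) + k i j m := fun i j m => lp_conj_zpow hΓ (hWc j) _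
  have hUV : ∀ i j m, Cr (U i) (V i j m) := by
    intro i j m
    obtain ⟨h1, h2, h3⟩ := hV i j m
    rw [cr_iff_lp_rp hΓ (hUc i) h1, h2, h3]
    have := (hk i j m).1
    simp only [hP, hQ] at this
    rw [sub_sub, sub_sub] at this
    exact this
  have hFw : ∀ t : ι × κ × Fin n, F t * w * (F t)⁻¹ =
      gx t.1 * V t.1 t.2.1 t.2.2 * (gx t.1)⁻¹ := by
    intro t
    simp only [F, V, hW]
    group
  have hgU : ∀ i, gx i * U i * (gx i)⁻¹ = u := by
    intro i
    simp only [hU]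
    group
  have hF : ∀ t, F t ∈ crs u w := by
    intro t
    change Cr u (F t * w * (F t)⁻¹)
    rw [hFw]
    have h := (cr_conj hΓ (gx t.1) (U t.1) (V t.1 t.2.1 t.2.2)).mpr (hUV _ _ _)
    rwa [hgU] at h
  have hinj : ∀ s t, Rel u w (F s) (F t) → s = t := by
    rintro ⟨i, j, m⟩ ⟨i', j', m'⟩ ⟨c, d, hc, hd, hcd⟩
    set κ₁ := k i j m with hκ₁
    set κ₂ := k i' j' m' with hκ₂
    have hcd : gx i' * b ^ κ₂ * (gy j')⁻¹ = c * (gx i * b ^ κ₁ * (gy j)⁻¹) * d := hcd
    -- the relating element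
    set g : Γ := (gx i)⁻¹ * c⁻¹ * gx i' with hg
    have hgx : gx i' = c * gx i * g := by
      rw [hg]
      group
    have hcu : c⁻¹ * u * c = u := by
      rw [mul_assoc, ← hc.eq, inv_mul_cancel_left]
    have hcomm : Commute g b := by
      by_contra hnc
      -- `g b g⁻¹` crosses `U i`
      have h1 : Cr (g * b * g⁻¹) (U i) := by
        have h2 := (cr_conj hΓ ((gx i)⁻¹ * c⁻¹) (gx i' * b * (gx i')⁻¹) u).mpr (hx i').symm
        have e1 : (gx i)⁻¹ * c⁻¹ * (gx i' * b * (gx i')⁻¹) * ((gx i)⁻¹ * c⁻¹)⁻¹ =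
            g * b * g⁻¹ := by
          rw [hg]
          group
        have e2 : (gx i)⁻¹ * c⁻¹ * u * ((gx i)⁻¹ * c⁻¹)⁻¹ = U i := by
          have : (gx i)⁻¹ * c⁻¹ * u * ((gx i)⁻¹ * c⁻¹)⁻¹ = (gx i)⁻¹ * (c⁻¹ * u * c) * gx i := by
            group
          rw [this, hcu]
        rwa [e1, e2] at h2
      -- `g b g⁻¹` crosses `V i j m`
      have h3 : Cr (g * b * g⁻¹) (V i j m) := by
        have h4 : Cr (gx i' * b * (gx i')⁻¹) (F (i', j', m') * w * (F (i', j', m'))⁻¹) := by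
          rw [hFw]
          exact (cr_conj hΓ (gx i') b (V i' j' m')).mpr (hV i' j' m').1
        have h5 := (cr_conj hΓ ((gx i)⁻¹ * c⁻¹) _ _).mpr h4
        have e1 : (gx i)⁻¹ * c⁻¹ * (gx i' * b * (gx i')⁻¹) * ((gx i)⁻¹ * c⁻¹)⁻¹ =
            g * b * g⁻¹ := by
          rw [hg]
          group
        have e2 : (gx i)⁻¹ * c⁻¹ * (F (i', j', m') * w * (F (i', j', m'))⁻¹) *
            ((gx i)⁻¹ * c⁻¹)⁻¹ = V i j m := by
          have e3 : F (i', j', m') = c * F (i, j, m) * d := hcd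
          rw [e3]
          have hdw : d * w * d⁻¹ = w := by rw [hd.eq, mul_inv_cancel_right]
          have e4 : (gx i)⁻¹ * c⁻¹ * (c * F (i, j, m) * d * w * (c * F (i, j, m) * d)⁻¹) *
              ((gx i)⁻¹ * c⁻¹)⁻¹ =
              (gx i)⁻¹ * (F (i, j, m) * (d * w * d⁻¹) * (F (i, j, m))⁻¹) * gx i := by
            group
          rw [e4, hdw, hFw]
          group
        rwa [e1, e2] at h5
      have h6 := cross_both hΓ hb hnc (hUc i) (hV i j m).1 h1 h3
      obtain ⟨-, h7, h8⟩ := hV i j m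
      rw [h7, h8] at h6
      obtain ⟨-, h9, h10⟩ := hk i j m
      have e5 : lp b (U i) - (lp b (W j) + k i j m) = P i j - k i j m := by
        simp only [hP]
        ring
      have e6 : rp b (U i) - (rp b (W j) + k i j m) = Q i j - k i j m := by
        simp only [hQ]
        ring
      rw [e5, e6] at h6
      rcases h6 with h6 | h6 <;> linarith
    have hii : i = i' := hxi i i' ⟨c, g, hc, hcomm, hgx⟩
    subst hii
    -- `c = 1`
    have hc1 : c = 1 := by
      have e1 : c = gx i * g⁻¹ * (gx i)⁻¹ := by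
        have h2 : c * gx i * g = gx i := hgx.symm
        calc c = (c * gx i * g) * g⁻¹ * (gx i)⁻¹ := by group
          _ = gx i * g⁻¹ * (gx i)⁻¹ := by rw [h2]
      refine eq_one_of_commute hΓ (hx i) hc ?_
      rw [e1]
      have h3 : Commute g⁻¹ b := hcomm.inv_left
      have h4 : gx i * g⁻¹ * (gx i)⁻¹ * (gx i * b * (gx i)⁻¹) = gx i * (g⁻¹ * b) * (gx i)⁻¹ := by
        group
      have h5 : gx i * b * (gx i)⁻¹ * (gx i * g⁻¹ * (gx i)⁻¹) = gx i * (b * g⁻¹) * (gx i)⁻¹ := by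
        group
      change _ = _
      rw [h4, h5, h3.eq]
    subst hc1
    rw [one_mul] at hcd
    -- the second coset
    have hgy : gy j' = d⁻¹ * gy j * b ^ (κ₂ - κ₁) := by
      have h2 : (gy j')⁻¹ = b ^ (-κ₂) * (b ^ κ₁ * (gy j)⁻¹ * d) := by
        have h3 : b ^ κ₂ * (gy j')⁻¹ = b ^ κ₁ * (gy j)⁻¹ * d := by
          have h4 : gx i * (b ^ κ₂ * (gy j')⁻¹) = gx i * (b ^ κ₁ * (gy j)⁻¹ * d) := by
            rw [← mul_assoc, hcd]
            group
          exact mul_left_cancel h4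
        rw [← h3, zpow_neg, inv_mul_cancel_left]
      have h5 : gy j' = (b ^ (-κ₂) * (b ^ κ₁ * (gy j)⁻¹ * d))⁻¹ := by rw [← h2, inv_inv]
      rw [h5, zpow_sub, zpow_neg]
      have h6 : b ^ κ₂ * (b ^ κ₁)⁻¹ = (b ^ κ₁)⁻¹ * b ^ κ₂ := by
        rw [← zpow_neg, ← zpow_add, ← zpow_add, add_comm]
      rw [h6]
      group
    have hbp : Commute (b ^ (κ₂ - κ₁)) b := (Commute.refl b).zpow_left _
    have hjj : j = j' := hyi j j' ⟨d⁻¹, b ^ (κ₂ - κ₁), hd.inv_left, hbp, hgy⟩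
    subst hjj
    have hd1 : d = 1 := by
      have e1 : d = gy j * b ^ (κ₂ - κ₁) * (gy j)⁻¹ := by
        calc d = d * gy j * (gy j)⁻¹ := by group
          _ = d * (d⁻¹ * gy j * b ^ (κ₂ - κ₁)) * (gy j)⁻¹ := by rw [← hgy]
          _ = gy j * b ^ (κ₂ - κ₁) * (gy j)⁻¹ := by group
      refine eq_one_of_commute hΓ (hy j) hd ?_
      rw [e1]
      have h4 : gy j * b ^ (κ₂ - κ₁) * (gy j)⁻¹ * (gy j * b * (gy j)⁻¹) =
          gy j * (b ^ (κ₂ - κ₁) * b) * (gy j)⁻¹ := by group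
      have h5 : gy j * b * (gy j)⁻¹ * (gy j * b ^ (κ₂ - κ₁) * (gy j)⁻¹) =
          gy j * (b * b ^ (κ₂ - κ₁)) * (gy j)⁻¹ := by group
      change _ = _
      rw [h4, h5, hbp.eq]
    subst hd1
    have hbk : b ^ (κ₂ - κ₁) = 1 := by
      rw [inv_one, one_mul] at hgy
      exact (mul_eq_left.mp hgy.symm)
    have hkk := count_order hΓ (hWc j) hbk
    have hmm : m = m' := by
      have h1 : κ₂ = κ₁ := by omega
      simp only [hκ₁, hκ₂, k] at h1
      apply Fin.ext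
      omega
    rw [hmm]
  have h := card_le_I hΓ F hF hinj
  rw [Fintype.card_prod, Fintype.card_prod, Fintype.card_fin, ← mul_assoc] at h
  exact h

end Pool.Agent.GEN
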