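import Mathlib
import Pool.Agent.GEN.Collar

/-!
# The flow along the axis of an element
-/

set_option autoImplicit false

open Topology Set Filter
open scoped MatrixGroups UpperHalfPlane

namespace Pool.Agent.GEN

open Pool.Agent.Helper2.Fuch Pool.Agent.Helper2.Genus Pool.Agent.Helper2.Planar

variable {Γ : Subgroup SL(2, ℝ)}

/-- A matrix is determined by its action on two independent vectors. -/
lemma ext_of_ac {g g' : SL(2, ℝ)} {u v : ℝ × ℝ} (h : dt u v ≠ 0) (hu : ac g u = ac g' u)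
    (hv : ac g v = ac g' v) : g = g' := by
  have hall : ∀ w : ℝ × ℝ, ac g w = ac g' w := by
    intro w
    have hw := expand h w
    rw [hw, ac_add, ac_add, ac_smul, ac_smul, ac_smul, ac_smul, hu, hv]
  have h1 := hall (1, 0)
  have h2 := hall (0, 1)
  simp only [ac, mul_one, mul_zero, add_zero, zero_add, Prod.mk.injEq] at h1 h2
  exact sl_ext h1.1 h2.1 h1.2 h2.2

lemma fl_mul {P Q : ℝ × ℝ} (h : dt P Q ≠ 0) (s t : ℝ) :
    fl P Q h (s + t) = fl P Q h s * fl P Q h t := by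
  refine ext_of_ac h ?_ ?_
  · rw [ac_mul, ac_fl_left, ac_fl_left, ac_smul, ac_fl_left, smul_smul, Real.exp_add, mul_comm]
  · rw [ac_mul, ac_fl_right, ac_fl_right, ac_smul, ac_fl_right, smul_smul, neg_add, Real.exp_add,
      mul_comm]

theorem exists_flow (hΓ : Hyp Γ) {b : Γ} (hb : b ≠ 1) : ∃ S : ℝ → SL(2, ℝ),
    Continuous (fun p : ℝ × ℍ => S p.1 • p.2) ∧ (∀ s t, S (s + t) = S s * S t) ∧
    (∀ z : ℍ, S 1 • z = b • z) ∧ (∀ s z, ang b (S s • z) = ang b z) ∧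
    ∀ g : Γ, Commute g b → ∀ s, (g : SL(2, ℝ)) * S s = S s * g := by
  have hb1 : (b : SL(2, ℝ)) ≠ 1 := fun h => hb (Subtype.ext h)
  obtain ⟨hne', μ, hμ, hu, hv⟩ := (hΓ.att b.2 hb1).pair
    (hΓ.att (Γ.inv_mem b.2) (inv_ne_one.mpr hb1))
  have hμ0 : μ ≠ 0 := by
    rintro rfl
    rw [abs_zero] at hμ
    linarith
  have hne : dt (em b) (ep b) ≠ 0 := by
    rw [dt_comm, neg_ne_zero]
    exact hne'
  have hu' : ac (b : SL(2, ℝ)) (ep b) = (μ⁻¹)⁻¹ • ep b := by rw [inv_inv]; exact hu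
  have hv' : ac (b : SL(2, ℝ)) (em b) = μ⁻¹ • em b := hv
  refine ⟨fun t => fl (em b) (ep b) hne (t * Real.log |μ⁻¹|), ?_, ?_, ?_, ?_, ?_⟩
  · exact ((fl_continuous hne).comp (continuous_fst.mul continuous_const)).smul continuous_snd
  · intro s t
    simp only
    rw [add_mul, fl_mul]
  · intro z
    simp only
    rw [one_mul]
    exact fl_eq hne (inv_ne_zero hμ0) hv' hu' z
  · intro s z
    exact sd_fl hne _ z
  · intro g hg s
    have hsq : μ ^ 2 ≠ 1 := by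
      rw [← sq_abs]
      nlinarith
    have hsq' : (μ⁻¹) ^ 2 ≠ 1 := by
      rw [inv_pow]
      exact inv_ne_one.mpr hsq
    have hxy : (b : SL(2, ℝ)) * (g : SL(2, ℝ)) = (g : SL(2, ℝ)) * b :=
      congrArg Subtype.val hg.symm.eq
    obtain ⟨ν, hν⟩ := eig_of_comm (ep_ne_zero b) hsq hu hxy
    obtain ⟨ν', hν'⟩ := eig_of_comm (em_ne_zero b) hsq' hv' hxy
    refine ext_of_ac hne ?_ ?_
    · rw [ac_mul, ac_mul, ac_fl_left, hν', ac_smul, ac_smul, ac_fl_left, hν', smul_comm]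
    · rw [ac_mul, ac_mul, ac_fl_right, hν, ac_smul, ac_smul, ac_fl_right, hν, smul_comm]

end Pool.Agent.GEN
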