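import Mathlib
import Pool.Agent.GEN.Basic
import Pool.Agent.GEN.Pos

/-!
# A twist changes the twisting number of every crossing by the same amount, up to two
-/

set_option autoImplicit false

open Topology Set Filter
open scoped MatrixGroups

namespace Pool.Agent.GEN

open Pool.Agent.Helper2.Fuch

variable {Γ : Subgroup SL(2, ℝ)}

/-! ### The order of the positions -/

private lemma tw_lk {P Q v w : ℝ × ℝ} (hPQ : dt P Q ≠ 0) (hv : dt v P ≠ 0) (hw : dt w P ≠ 0) :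
    Lk Q w v P ↔ 0 < crd P Q v * (crd P Q w - crd P Q v) := by
  rw [crd_sub hw hv]
  have h1 : lkp Q w v P = -(crd P Q v * (-(dt P Q) ^ 2 * dt w v / (dt w P * dt v P))) *
      ((dt v P * dt w P) / dt P Q) ^ 2 := by
    unfold lkp crd
    rw [dt_comm Q v, dt_comm Q P]
    field_simp
  have h2 : 0 < ((dt v P * dt w P) / dt P Q) ^ 2 := by
    have : (dt v P * dt w P) / dt P Q ≠ 0 := div_ne_zero (mul_ne_zero hv hw) hPQ
    positivity
  unfold Lk
  rw [neg_iff_of_mul_pos h1 h2, neg_lt_zero]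

private lemma tw_lt_lft (hΓ : Hyp Γ) {b : Γ} (hb : b ≠ 1) {v w : ℝ × ℝ} (hv : lft b v)
    (hw : lft b w) : pos b v < pos b w ↔ Lk (em b) w v (ep b) := by
  rw [lft_iff] at hv hw
  have hv' : crd (ep b) (em b) v < 0 := hv
  have hw' : crd (ep b) (em b) w < 0 := hw
  rw [tw_lk (crd_ne_pq hv'.ne) (crd_ne_left hv'.ne) (crd_ne_left hw'.ne)]
  obtain ⟨c, hc, h1⟩ := mul_sub_neg_side hw' hv'
  have h2 := lg_sub hΓ hb hw.ne hv.ne
  have h3 := log_ev_pos hΓ hb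
  rw [h1, h2]
  constructor
  · intro h
    have h4 : 0 < pos b w - pos b v := by linarith
    have h5 : 0 < -crd (ep b) (em b) v := by linarith
    have h6 := mul_pos (mul_pos h5 hc) (mul_pos (mul_pos two_pos h3) h4)
    linarith
  · intro h
    by_contra hcon
    rw [not_lt] at hcon
    have h4 : 0 ≤ pos b v - pos b w := by linarith
    have h5 : 0 < -crd (ep b) (em b) v := by linarith
    have h6 := mul_nonneg (mul_pos h5 hc).le (mul_nonneg (mul_pos two_pos h3).le h4)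
    linarith

private lemma tw_lt_rgt (hΓ : Hyp Γ) {b : Γ} (hb : b ≠ 1) {v w : ℝ × ℝ} (hv : rgt b v)
    (hw : rgt b w) : pos b v < pos b w ↔ Lk (em b) w v (ep b) := by
  rw [rgt_iff] at hv hw
  have hv' : 0 < crd (ep b) (em b) v := hv
  have hw' : 0 < crd (ep b) (em b) w := hw
  rw [tw_lk (crd_ne_pq hv'.ne') (crd_ne_left hv'.ne') (crd_ne_left hw'.ne')]
  obtain ⟨c, hc, h1⟩ := mul_sub_pos_side hw' hv'
  have h2 := lg_sub hΓ hb hw.ne' hv.ne'
  have h3 := log_ev_pos hΓ hb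
  rw [h1, h2]
  constructor
  · intro h
    have h4 : 0 < pos b w - pos b v := by linarith
    have h6 := mul_pos (mul_pos hv' hc) (mul_pos (mul_pos two_pos h3) h4)
    linarith
  · intro h
    by_contra hcon
    rw [not_lt] at hcon
    have h4 : 0 ≤ pos b v - pos b w := by linarith
    have h6 := mul_nonneg (mul_pos hv' hc).le (mul_nonneg (mul_pos two_pos h3).le h4)
    linarith

/-! ### Powers of the translation -/

private lemma tw_cr_zpow (hΓ : Hyp Γ) {b : Γ} (hb : b ≠ 1) (k : ℤ) :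
    ∀ v : ℝ × ℝ, cr b (ac ((b ^ k : Γ) : SL(2, ℝ)) v) = (ev b) ^ (2 * k) * cr b v := by
  have hμ := ev_ne_zero hΓ hb
  have hstep : ∀ v : ℝ × ℝ, cr b (ac (b : SL(2, ℝ)) v) = (ev b) ^ 2 * cr b v :=
    fun v => cr_gamma hΓ hb v
  induction k using Int.induction_on with
  | zero => intro v; simp [ac_one]
  | succ n ih =>
    intro v
    rw [zpow_add_one, Subgroup.coe_mul, ac_mul, ih, hstep, mul_add, zpow_add₀ hμ]
    norm_num
    ring
  | pred n ih =>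
    intro v
    rw [zpow_sub_one, Subgroup.coe_mul, ac_mul, ih, mul_sub, zpow_sub₀ hμ]
    have h1 := hstep (ac ((b⁻¹ : Γ) : SL(2, ℝ)) v)
    rw [Subgroup.coe_inv, ac_ac_inv] at h1
    rw [Subgroup.coe_inv, h1]
    norm_num
    field_simp

private lemma tw_ac_ends (hΓ : Hyp Γ) {b : Γ} (hb : b ≠ 1) (k : ℤ) (v : ℝ × ℝ) :
    |dt (ac ((b ^ k : Γ) : SL(2, ℝ)) v) (em b)| = |ev b| ^ k * |dt v (em b)| ∧
    |dt (ac ((b ^ k : Γ) : SL(2, ℝ)) v) (ep b)| = |ev b| ^ (-k) * |dt v (ep b)| := by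
  have hμ := ev_ne_zero hΓ hb
  have hμ' : |ev b| ≠ 0 := abs_ne_zero.mpr hμ
  have h3 : ∀ v : ℝ × ℝ, dt (ac b v) (ep b) = (ev b)⁻¹ * dt v (ep b) := by
    intro v
    have h := dt_ac b v (ep b)
    rw [ac_ep hΓ hb, dt_smul_right] at h
    rw [← h]
    field_simp
  have h4 : ∀ v : ℝ × ℝ, dt (ac b v) (em b) = ev b * dt v (em b) := by
    intro v
    have h := dt_ac b v (em b)
    rw [ac_em hΓ hb, dt_smul_right] at h
    rw [← h]
    field_simp
  revert v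
  induction k using Int.induction_on with
  | zero => intro v; simp [ac_one]
  | succ n ih =>
    intro v
    rw [zpow_add_one, Subgroup.coe_mul, ac_mul, (ih _).1, (ih _).2, h3, h4, abs_mul, abs_mul,
      abs_inv, zpow_add_one₀ hμ', neg_add, zpow_add₀ hμ', zpow_neg_one]
    constructor <;> ring
  | pred n ih =>
    intro v
    have e3 := h3 (ac ((b⁻¹ : Γ) : SL(2, ℝ)) v)
    have e4 := h4 (ac ((b⁻¹ : Γ) : SL(2, ℝ)) v)
    rw [Subgroup.coe_inv, ac_ac_inv] at e3 e4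
    rw [zpow_sub_one, Subgroup.coe_mul, ac_mul, (ih _).1, (ih _).2, Subgroup.coe_inv, e3, e4,
      abs_mul, abs_mul, abs_inv, zpow_sub_one₀ hμ', neg_sub, sub_neg_eq_add, zpow_add₀ hμ',
      zpow_one, zpow_neg]
    constructor
    · field_simp
    · rw [neg_neg]
      field_simp

private lemma tw_pos_zpow (hΓ : Hyp Γ) {b : Γ} (hb : b ≠ 1) (k : ℤ) {v : ℝ × ℝ}
    (hv : cr b v ≠ 0) : pos b (ac ((b ^ k : Γ) : SL(2, ℝ)) v) = pos b v + k := by
  have hv' : crd (ep b) (em b) v ≠ 0 := hv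
  have h1 := abs_ne_zero.mpr (crd_ne_left hv')
  have h2 := abs_ne_zero.mpr (crd_ne_right hv')
  have hμ := ev_ne_zero hΓ hb
  have hμ' : |ev b| ≠ 0 := abs_ne_zero.mpr hμ
  have hl := log_ev_pos hΓ hb
  obtain ⟨e1, e2⟩ := tw_ac_ends hΓ hb k v
  unfold pos
  rw [e1, e2]
  have e3 : |ev b| ^ k * |dt v (em b)| / (|ev b| ^ (-k) * |dt v (ep b)|) =
      |ev b| ^ (2 * k) * (|dt v (em b)| / |dt v (ep b)|) := by
    rw [zpow_neg, two_mul, zpow_add₀ hμ']
    field_simp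
  rw [e3, Real.log_mul (zpow_ne_zero _ hμ') (div_ne_zero h2 h1), Real.log_zpow]
  push_cast
  field_simp
  ring

private lemma tw_conj (hΓ : Hyp Γ) {b : Γ} (hb : b ≠ 1) (k : ℤ) {x : Γ} (hx : x ≠ 1)
    (h : cr b (ep x) ≠ 0) : (lft b (ep (b ^ k * x * (b ^ k)⁻¹)) ↔ lft b (ep x)) ∧
      (rgt b (ep (b ^ k * x * (b ^ k)⁻¹)) ↔ rgt b (ep x)) ∧
      pos b (ep (b ^ k * x * (b ^ k)⁻¹)) = pos b (ep x) + k := by
  have h1 := ep_conj hΓ (b ^ k) hx
  have h2 : ep (b ^ k * x * (b ^ k)⁻¹) ≠ 0 := ep_ne_zero _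
  have h3 : ac ((b ^ k : Γ) : SL(2, ℝ)) (ep x) ≠ 0 := ac_ne_zero (ep_ne_zero x)
  have h4 : 0 < (ev b) ^ (2 * k) := by
    rw [zpow_mul]
    exact zpow_pos (ev_sq_pos hΓ hb) _
  refine ⟨?_, ?_, ?_⟩
  · rw [lft_par b h2 h3 h1, lft_iff, lft_iff, tw_cr_zpow hΓ hb]
    exact neg_iff_of_mul_pos (mul_comm _ _) h4
  · rw [rgt_par b h2 h3 h1, rgt_iff, rgt_iff, tw_cr_zpow hΓ hb]
    exact mul_pos_iff_of_pos_left h4
  · rw [pos_par b h2 h3 h1, tw_pos_zpow hΓ hb k h]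

/-! ### Automorphisms which fix `b` -/

private lemma tw_fix {G : Type*} [Group G] {ψ : MulAut G} {v : G} (h : ψ v = v) (N : ℤ) :
    (ψ ^ N) v = v := by
  have h1 : ψ ∈ MulAction.stabilizer (MulAut G) v := by
    rw [MulAction.mem_stabilizer_iff, MulAut.smul_def]
    exact h
  have h2 := zpow_mem h1 N
  rw [MulAction.mem_stabilizer_iff, MulAut.smul_def] at h2
  exact h2

private lemma tw_shift {G : Type*} [Group G] {θ : MulAut G} {b v : G} (hb : θ b = b)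
    (h : θ v = b * v * b⁻¹) (N : ℤ) : (θ ^ N) v = b ^ N * v * (b ^ N)⁻¹ := by
  have hcomm : Commute (MulAut.conj b) ((MulAut.conj b)⁻¹ * θ) := by
    apply Commute.mul_right (Commute.inv_right (Commute.refl _))
    ext x
    simp [MulAut.conj_apply, hb]
  have h1 : θ = MulAut.conj b * ((MulAut.conj b)⁻¹ * θ) := by group
  have h2 : ((MulAut.conj b)⁻¹ * θ) v = v := by
    rw [MulAut.mul_apply, h, ← MulAut.conj_apply, MulAut.inv_apply_self]
  rw [h1, hcomm.mul_zpow, MulAut.mul_apply, tw_fix h2, ← map_zpow, MulAut.conj_apply]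

section Fixed

variable {b : Γ} {η : MulAut Γ}

private lemma tw_cr_ne (hb : b ≠ 1) (hη : η ∈ opg Γ) (hbb : η b = b) {x : Γ}
    (hx : x ≠ 1) (h : cr b (ep x) ≠ 0) : cr b (ep (η x)) ≠ 0 := by
  have h' : crd (ep b) (em b) (ep x) ≠ 0 := h
  have h1 := crd_ne_left h'
  have h2 := crd_ne_right h'
  have h3 := (hη.par x b hx hb).not.mp h1
  have h4 := (hη.par x b⁻¹ hx (inv_ne_one.mpr hb)).not.mp h2
  rw [hbb] at h3
  rw [map_inv, hbb] at h4
  exact crd_ne_zero_iff.mpr ⟨crd_ne_pq h', h3, h4⟩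

/-- the sides are preserved as soon as one direction stays on its side. -/
private lemma tw_side (hΓ : Hyp Γ) (hb : b ≠ 1) (hη : η ∈ opg Γ) (hbb : η b = b) {v : Γ}
    (hv : v ≠ 1) (hs : 0 < cr b (ep v) * cr b (ep (η v))) {x : Γ} (hx : x ≠ 1)
    (h : cr b (ep x) ≠ 0) : 0 < cr b (ep x) * cr b (ep (η x)) := by
  have hne := tw_cr_ne hb hη hbb hx h
  have h1 := hη.lk b⁻¹ b x v (inv_ne_one.mpr hb) hb hx hv
  rw [map_inv, hbb] at h1
  have h2 : cr b (ep x) * cr b (ep v) < 0 ↔ cr b (ep (η x)) * cr b (ep (η v)) < 0 := by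
    rw [← lk_axis hΓ hb, ← lk_axis hΓ hb]
    exact h1
  have hv0 : cr b (ep v) ≠ 0 := by
    intro h0
    rw [h0, zero_mul] at hs
    exact lt_irrefl _ hs
  have hv1 : cr b (ep (η v)) ≠ 0 := by
    intro h0
    rw [h0, mul_zero] at hs
    exact lt_irrefl _ hs
  rcases lt_or_gt_of_ne h with hx1 | hx1 <;> rcases lt_or_gt_of_ne hne with hx2 | hx2 <;>
    rcases lt_or_gt_of_ne hv0 with hv2 | hv2 <;> rcases lt_or_gt_of_ne hv1 with hv3 | hv3
  all_goals first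
    | exact mul_pos_of_neg_of_neg hx1 hx2
    | exact mul_pos hx1 hx2
    | (exfalso; exact absurd hs (not_lt.mpr (mul_nonpos_of_nonpos_of_nonneg hv2.le hv3.le)))
    | (exfalso; exact absurd hs (not_lt.mpr (mul_nonpos_of_nonneg_of_nonpos hv2.le hv3.le)))
    | (exfalso; exact absurd (h2.mp (mul_neg_of_neg_of_pos hx1 hv2))
        (not_lt.mpr (mul_nonneg hx2.le hv3.le)))
    | (exfalso; exact absurd (h2.mp (mul_neg_of_pos_of_neg hx1 hv2))
        (not_lt.mpr (mul_nonneg_of_nonpos_of_nonpos hx2.le hv3.le)))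
    | (exfalso; exact absurd (h2.mpr (mul_neg_of_neg_of_pos hx2 hv3))
        (not_lt.mpr (mul_nonneg hx1.le hv2.le)))
    | (exfalso; exact absurd (h2.mpr (mul_neg_of_pos_of_neg hx2 hv3))
        (not_lt.mpr (mul_nonneg_of_nonpos_of_nonpos hx1.le hv2.le)))

private lemma tw_order_lft (hΓ : Hyp Γ) (hb : b ≠ 1) (hη : η ∈ opg Γ) (hbb : η b = b) {x y : Γ}
    (hx : x ≠ 1) (hy : y ≠ 1) (h1 : lft b (ep x)) (h2 : lft b (ep y)) (h3 : lft b (ep (η x)))
    (h4 : lft b (ep (η y))) :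
    pos b (ep x) < pos b (ep y) ↔ pos b (ep (η x)) < pos b (ep (η y)) := by
  rw [tw_lt_lft hΓ hb h1 h2, tw_lt_lft hΓ hb h3 h4]
  have h5 := hη.lk b⁻¹ y x b (inv_ne_one.mpr hb) hy hx hb
  rw [map_inv, hbb] at h5
  exact h5

private lemma tw_order_rgt (hΓ : Hyp Γ) (hb : b ≠ 1) (hη : η ∈ opg Γ) (hbb : η b = b) {x y : Γ}
    (hx : x ≠ 1) (hy : y ≠ 1) (h1 : rgt b (ep x)) (h2 : rgt b (ep y)) (h3 : rgt b (ep (η x)))
    (h4 : rgt b (ep (η y))) :
    pos b (ep x) < pos b (ep y) ↔ pos b (ep (η x)) < pos b (ep (η y)) := by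
  rw [tw_lt_rgt hΓ hb h1 h2, tw_lt_rgt hΓ hb h3 h4]
  have h5 := hη.lk b⁻¹ y x b (inv_ne_one.mpr hb) hy hx hb
  rw [map_inv, hbb] at h5
  exact h5

end Fixed

private lemma tw_floor {p p' P P' : ℝ} (h : ∀ k : ℤ, p < P + k ↔ p' < P' + k) :
    |p' - p - (P' - P)| ≤ 1 := by
  have h1 := (h (⌊p - P⌋ + 1)).mp (by
    have := Int.lt_floor_add_one (p - P)
    push_cast
    linarith)
  have h2 := (h ⌊p - P⌋).not.mp (by
    have := Int.floor_le (p - P)
    push Not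
    linarith)
  push_cast at h1
  push Not at h2
  have h3 := Int.floor_le (p - P)
  have h4 := Int.lt_floor_add_one (p - P)
  rw [abs_le]
  constructor <;> linarith

/-- the position of a direction on the side of the marker `v` changes by `M`, up to one. -/
private lemma tw_move_lft (hΓ : Hyp Γ) {b : Γ} (hb : b ≠ 1) {η : MulAut Γ} (hη : η ∈ opg Γ)
    (hbb : η b = b) {v : Γ} (hv : v ≠ 1) (hl : lft b (ep v)) {M : ℤ}
    (hM : η v = b ^ M * v * (b ^ M)⁻¹) {x : Γ} (hx : x ≠ 1) (hxl : lft b (ep x)) :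
    lft b (ep (η x)) ∧ |pos b (ep (η x)) - pos b (ep x) - M| ≤ 1 := by
  have hv0 : cr b (ep v) ≠ 0 := (lft_iff.mp hl).ne
  have hx0 : cr b (ep x) ≠ 0 := (lft_iff.mp hxl).ne
  have hηv : lft b (ep (η v)) := by
    rw [hM]
    exact (tw_conj hΓ hb M hv hv0).1.mpr hl
  have hs : 0 < cr b (ep v) * cr b (ep (η v)) :=
    mul_pos_of_neg_of_neg (lft_iff.mp hl) (lft_iff.mp hηv)
  have hxs := tw_side hΓ hb hη hbb hv hs hx hx0
  have hηx : lft b (ep (η x)) := by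
    rw [lft_iff] at hxl ⊢
    by_contra hcon
    rw [not_lt] at hcon
    exact absurd hxs (not_lt.mpr (mul_nonpos_of_nonpos_of_nonneg hxl.le hcon))
  refine ⟨hηx, ?_⟩
  have key : ∀ k : ℤ, pos b (ep x) < pos b (ep v) + k ↔
      pos b (ep (η x)) < pos b (ep v) + M + k := by
    intro k
    obtain ⟨a1, -, a3⟩ := tw_conj hΓ hb k hv hv0
    have hvk : b ^ k * v * (b ^ k)⁻¹ ≠ 1 := conj_ne_one _ hv
    have e1 : η (b ^ k * v * (b ^ k)⁻¹) = b ^ (M + k) * v * (b ^ (M + k))⁻¹ := by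
      rw [map_mul, map_mul, map_inv, map_zpow, hbb, hM, zpow_add]
      group
    obtain ⟨c1, -, c3⟩ := tw_conj hΓ hb (M + k) hv hv0
    have h1 := tw_order_lft hΓ hb hη hbb hx hvk hxl (a1.mpr hl) hηx (by rw [e1]; exact c1.mpr hl)
    rw [e1, a3, c3] at h1
    rw [h1]
    push_cast
    rw [add_assoc]
  have h2 := tw_floor key
  have e2 : pos b (ep v) + M - pos b (ep v) = M := by ring
  rwa [e2] at h2

private lemma tw_move_rgt (hΓ : Hyp Γ) {b : Γ} (hb : b ≠ 1) {η : MulAut Γ} (hη : η ∈ opg Γ)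
    (hbb : η b = b) {v : Γ} (hv : v ≠ 1) (hl : rgt b (ep v)) {M : ℤ}
    (hM : η v = b ^ M * v * (b ^ M)⁻¹) {x : Γ} (hx : x ≠ 1) (hxl : rgt b (ep x)) :
    rgt b (ep (η x)) ∧ |pos b (ep (η x)) - pos b (ep x) - M| ≤ 1 := by
  have hv0 : cr b (ep v) ≠ 0 := (rgt_iff.mp hl).ne'
  have hx0 : cr b (ep x) ≠ 0 := (rgt_iff.mp hxl).ne'
  have hηv : rgt b (ep (η v)) := by
    rw [hM]
    exact (tw_conj hΓ hb M hv hv0).2.1.mpr hl
  have hs : 0 < cr b (ep v) * cr b (ep (η v)) := mul_pos (rgt_iff.mp hl) (rgt_iff.mp hηv)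
  have hxs := tw_side hΓ hb hη hbb hv hs hx hx0
  have hηx : rgt b (ep (η x)) := by
    rw [rgt_iff] at hxl ⊢
    by_contra hcon
    rw [not_lt] at hcon
    exact absurd hxs (not_lt.mpr (mul_nonpos_of_nonneg_of_nonpos hxl.le hcon))
  refine ⟨hηx, ?_⟩
  have key : ∀ k : ℤ, pos b (ep x) < pos b (ep v) + k ↔
      pos b (ep (η x)) < pos b (ep v) + M + k := by
    intro k
    obtain ⟨-, a1, a3⟩ := tw_conj hΓ hb k hv hv0
    have hvk : b ^ k * v * (b ^ k)⁻¹ ≠ 1 := conj_ne_one _ hv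
    have e1 : η (b ^ k * v * (b ^ k)⁻¹) = b ^ (M + k) * v * (b ^ (M + k))⁻¹ := by
      rw [map_mul, map_mul, map_inv, map_zpow, hbb, hM, zpow_add]
      group
    obtain ⟨-, c1, c3⟩ := tw_conj hΓ hb (M + k) hv hv0
    have h1 := tw_order_rgt hΓ hb hη hbb hx hvk hxl (a1.mpr hl) hηx (by rw [e1]; exact c1.mpr hl)
    rw [e1, a3, c3] at h1
    rw [h1]
    push_cast
    rw [add_assoc]
  have h2 := tw_floor key
  have e2 : pos b (ep v) + M - pos b (ep v) = M := by ring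
  rwa [e2] at h2

theorem Twist.cr {b : Γ} {θ : MulAut Γ} (h : Twist b θ) (N : ℤ) {w : Γ} :
    Cr b ((θ ^ N) w) ↔ Cr b w := by
  have h1 := cr_map (zpow_mem h.op N) b w
  rwa [tw_fix h.fix] at h1

theorem Twist.sig (hΓ : Hyp Γ) {b : Γ} (hb : b ≠ 1) {θ : MulAut Γ} (h : Twist b θ) (N : ℤ) {w : Γ}
    (hw : Cr b w) : |sig b ((θ ^ N) w) - sig b w - N| ≤ 2 := by
  have hη := zpow_mem h.op N
  have hbb : (θ ^ N) b = b := tw_fix h.fix N
  obtain ⟨v, hv, hvl, hθv⟩ := h.left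
  obtain ⟨v', hv', hvr, hθv'⟩ := h.right
  have hL : (θ ^ N) v = b ^ (0 : ℤ) * v * (b ^ (0 : ℤ))⁻¹ := by
    rw [tw_fix hθv]
    simp
  have hR : (θ ^ N) v' = b ^ N * v' * (b ^ N)⁻¹ := tw_shift h.fix hθv' N
  have hw1 : w ≠ 1 := hw.ne_one_right
  have hwi : w⁻¹ ≠ 1 := inv_ne_one.mpr hw1
  have hl := fun {x : Γ} (hx : x ≠ 1) (hxl : lft b (ep x)) =>
    tw_move_lft hΓ hb hη hbb hv hvl hL hx hxl
  have hr := fun {x : Γ} (hx : x ≠ 1) (hxl : rgt b (ep x)) =>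
    tw_move_rgt hΓ hb hη hbb hv' hvr hR hx hxl
  have hem : ∀ x : Γ, ep x⁻¹ = em x := ep_inv
  rcases (Cr_iff hΓ hb).mp hw with ⟨h1, h2⟩ | ⟨h1, h2⟩
  · obtain ⟨a1, a2⟩ := hl hwi (by rw [hem]; exact h1)
    obtain ⟨c1, c2⟩ := hr hw1 h2
    rw [map_inv, hem, hem] at a2
    have n1 : ¬ lft b (ep w) := fun hc => not_lft_rgt hc h2
    have n2 : ¬ lft b (ep ((θ ^ N) w)) := fun hc => not_lft_rgt hc c1
    have e1 : GEN.sig b w = pos b (ep w) - pos b (em w) := by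
      unfold GEN.sig rp lp
      rw [if_neg n1, if_neg n1]
    have e2 : GEN.sig b ((θ ^ N) w) = pos b (ep ((θ ^ N) w)) - pos b (em ((θ ^ N) w)) := by
      unfold GEN.sig rp lp
      rw [if_neg n2, if_neg n2]
    rw [e1, e2]
    rw [abs_le] at a2 c2 ⊢
    push_cast at a2
    constructor <;> linarith
  · obtain ⟨a1, a2⟩ := hl hw1 h1
    obtain ⟨c1, c2⟩ := hr hwi (by rw [hem]; exact h2)
    rw [map_inv, hem, hem] at c2
    have e1 : GEN.sig b w = pos b (em w) - pos b (ep w) := by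
      unfold GEN.sig rp lp
      rw [if_pos h1, if_pos h1]
    have e2 : GEN.sig b ((θ ^ N) w) = pos b (em ((θ ^ N) w)) - pos b (ep ((θ ^ N) w)) := by
      unfold GEN.sig rp lp
      rw [if_pos a1, if_pos a1]
    rw [e1, e2]
    rw [abs_le] at a2 c2 ⊢
    push_cast at a2
    constructor <;> linarith

end Pool.Agent.GEN
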