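import Mathlib
import Pool.Agent.GEN.Count
import Pool.Agent.GEN.Tw

/-!
# Ping-pong estimates for large powers of a twist
-/

set_option autoImplicit false

open Topology Set Filter
open scoped MatrixGroups UpperHalfPlane

namespace Pool.Agent.GEN

open Pool.Agent.Helper2.Fuch Pool.Agent.Helper2.Genus Pool.Agent.Helper2.Planar

variable {Γ : Subgroup SL(2, ℝ)}

/-- At least half of the crossings of `u` with `b` are close to a given crossing of `d`. -/
theorem half_good (hΓ : Hyp Γ) [DiscreteTopology Γ] {b d y : Γ} (hb : Simple b)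
    (hy : y ∈ crs d b) {u : Γ} (hI : I u d ≤ I u b) : ∃ (m : ℕ) (F : Fin m → Γ), I u b ≤ 2 * m ∧
    (∀ i, F i ∈ crs u b) ∧ (∀ i j, Rel u b (F i) (F j) → i = j) ∧
    ∀ i, |sig b ((F i)⁻¹ * u * F i) - sig b (y⁻¹ * d * y)| ≤ 5 := by
  classical
  obtain ⟨F, hF, hFi, -⟩ := exists_reps hΓ u b
  set bad : Finset (Fin (I u b)) :=
    Finset.univ.filter fun i => 5 < |sig b ((F i)⁻¹ * u * F i) - sig b (y⁻¹ * d * y)| with hbad
  set gd : Finset (Fin (I u b)) :=
    Finset.univ.filter fun i => ¬ 5 < |sig b ((F i)⁻¹ * u * F i) - sig b (y⁻¹ * d * y)| with hgd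
  have hcard : bad.card + gd.card = I u b := by
    rw [hbad, hgd, Finset.card_filter_add_card_filter_not, Finset.card_univ, Fintype.card_fin]
  have hcount := count hΓ (u := u) (w := d) hb (ι := bad) (κ := Unit) (fun i => F i)
    (fun _ => y) (fun i => hF i) (fun i j h => Subtype.ext (hFi _ _ h)) (fun _ => hy)
    (fun _ _ _ => rfl) 2 (fun i _ => by
      have := (Finset.mem_filter.1 i.2).2
      push_cast
      linarith)
  rw [Fintype.card_coe, Fintype.card_unit, mul_one] at hcount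
  set e := gd.equivFin with he
  refine ⟨gd.card, fun i => F (e.symm i), by omega, fun i => hF _, fun i j h => ?_, fun i => ?_⟩
  · exact e.symm.injective (Subtype.ext (hFi _ _ h))
  · exact not_lt.1 (Finset.mem_filter.1 (e.symm i).2).2

/-- The powers of a twist fix the curve. -/
theorem Twist.zpow_b {b : Γ} {θ : MulAut Γ} (h : Twist b θ) (N : ℤ) : (θ ^ N) b = b := by
  have h1 : θ ∈ MulAction.stabilizer (MulAut Γ) b := h.fix
  exact (MulAction.stabilizer (MulAut Γ) b).zpow_mem h1 N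

theorem Twist.zpow_mem {b : Γ} {θ : MulAut Γ} (h : Twist b θ) (N : ℤ) : θ ^ N ∈ opg Γ :=
  (opg Γ).zpow_mem h.op N

/-- A twist about `b` does not change the number of crossings with `b`. -/
theorem Twist.I_eq {b : Γ} {θ : MulAut Γ} (h : Twist b θ) (N : ℤ) (u : Γ) :
    I ((θ ^ N) u) b = I u b := by
  have h1 := I_map (h.zpow_mem N) u b
  rwa [h.zpow_b N] at h1

theorem map_crs {b : Γ} {η : MulAut Γ} (hη : η ∈ opg Γ) (hb : η b = b) {u g : Γ}
    (hg : g ∈ crs u b) : η g ∈ crs (η u) b := by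
  have h1 : Cr u (g * b * g⁻¹) := hg
  rw [← cr_map hη, map_mul, map_mul, map_inv, hb] at h1
  exact h1

theorem map_rel {b : Γ} {η : MulAut Γ} (hb : η b = b) {u g g' : Γ}
    (h : Rel (η u) b (η g) (η g')) : Rel u b g g' := by
  obtain ⟨c, d, hc, hd, he⟩ := h
  have hb' : η.symm b = b := by
    rw [MulEquiv.symm_apply_eq]
    exact hb.symm
  refine ⟨η.symm c, η.symm d, ?_, ?_, ?_⟩
  · have := hc.map η.symm
    rwa [MulEquiv.symm_apply_apply] at this
  · have := hd.map η.symm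
    rwa [hb'] at this
  · apply η.injective
    rw [map_mul, map_mul, MulEquiv.apply_symm_apply, MulEquiv.apply_symm_apply]
    exact he

theorem cr_of_crs (hΓ : Hyp Γ) {b u g : Γ} (hg : g ∈ crs u b) : Cr b (g⁻¹ * u * g) := by
  have h1 : Cr u (g * b * g⁻¹) := hg
  rw [← cr_conj hΓ g⁻¹] at h1
  have e1 : g⁻¹ * (g * b * g⁻¹) * g⁻¹⁻¹ = b := by group
  have e2 : g⁻¹ * u * g⁻¹⁻¹ = g⁻¹ * u * g := by group
  rw [e1, e2] at h1
  exact h1.symm

/-- The twisting of the image of a crossing. -/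
theorem Twist.sig_map (hΓ : Hyp Γ) {b : Γ} (hb : b ≠ 1) {θ : MulAut Γ} (h : Twist b θ) (N : ℤ)
    {u g : Γ} (hg : g ∈ crs u b) :
    |GEN.sig b (((θ ^ N) g)⁻¹ * (θ ^ N) u * (θ ^ N) g) - GEN.sig b (g⁻¹ * u * g) - N| ≤ 2 := by
  have h1 := Twist.sig hΓ hb h N (cr_of_crs hΓ hg)
  rwa [map_mul, map_mul, map_inv] at h1

theorem ping (hΓ : Hyp Γ) [DiscreteTopology Γ] {b d : Γ} {θ : MulAut Γ} (hb : Simple b)
    (hdb : 0 < I d b) (hθ : Twist b θ) {N : ℤ} (hN : 20 ≤ |N|) {u : Γ} (hI : I u d ≤ I u b) :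
    5 * I u b ≤ I ((θ ^ N) u) d := by
  obtain ⟨Y, hY, -, -⟩ := exists_reps hΓ d b
  have hy := hY ⟨0, hdb⟩
  obtain ⟨m, F, hm, hF, hFi, hFs⟩ := half_good hΓ hb hy hI
  have hNR : (20 : ℝ) ≤ |(N : ℝ)| := by
    rw [← Int.cast_abs]
    exact_mod_cast hN
  have h := count hΓ (u := (θ ^ N) u) (w := d) hb (ι := Fin m) (κ := Unit)
    (fun i => (θ ^ N) (F i)) (fun _ => Y ⟨0, hdb⟩)
    (fun i => map_crs (hθ.zpow_mem N) (hθ.zpow_b N) (hF i))
    (fun i j h => hFi i j (map_rel (hθ.zpow_b N) h)) (fun _ => hy) (fun _ _ _ => rfl) 10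
    (fun i _ => by
      have h1 := abs_le.1 (hθ.sig_map hΓ hb.1 N (hF i))
      have h2 := abs_le.1 (hFs i)
      push_cast
      rcases abs_cases (N : ℝ) with ⟨h3, h4⟩ | ⟨h3, h4⟩
      · rw [h3] at hNR
        refine le_trans ?_ (le_abs_self _)
        linarith [h1.1, h2.1]
      · rw [h3] at hNR
        refine le_trans ?_ (neg_le_abs _)
        linarith [h1.2, h2.2])
  rw [Fintype.card_fin, Fintype.card_unit] at h
  omega

theorem ping_mixed (hΓ : Hyp Γ) [DiscreteTopology Γ] {b d : Γ} {θ : MulAut Γ} (hb : Simple b)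
    (hdb : 0 < I d b) (hθ : Twist b θ) {N : ℤ} (hN : 20 ≤ |N|) {u w : Γ} (hu : I u d ≤ I u b)
    (hw : I w d ≤ I w b) : I u b * I w b ≤ I ((θ ^ N) u) w := by
  obtain ⟨Y, hY, -, -⟩ := exists_reps hΓ d b
  have hy := hY ⟨0, hdb⟩
  obtain ⟨m, F, hm, hF, hFi, hFs⟩ := half_good hΓ hb hy hu
  obtain ⟨m', F', hm', hF', hFi', hFs'⟩ := half_good hΓ hb hy hw
  have hNR : (20 : ℝ) ≤ |(N : ℝ)| := by
    rw [← Int.cast_abs]
    exact_mod_cast hN
  have h := count hΓ (u := (θ ^ N) u) (w := w) hb (ι := Fin m) (κ := Fin m')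
    (fun i => (θ ^ N) (F i)) F'
    (fun i => map_crs (hθ.zpow_mem N) (hθ.zpow_b N) (hF i))
    (fun i j h => hFi i j (map_rel (hθ.zpow_b N) h)) hF' hFi' 5
    (fun i j => by
      have h1 := abs_le.1 (hθ.sig_map hΓ hb.1 N (hF i))
      have h2 := abs_le.1 (hFs i)
      have h5 := abs_le.1 (hFs' j)
      push_cast
      rcases abs_cases (N : ℝ) with ⟨h3, h4⟩ | ⟨h3, h4⟩
      · rw [h3] at hNR
        refine le_trans ?_ (le_abs_self _)
        linarith [h1.1, h2.1, h5.2]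
      · rw [h3] at hNR
        refine le_trans ?_ (neg_le_abs _)
        linarith [h1.2, h2.2, h5.1])
  rw [Fintype.card_fin, Fintype.card_fin] at h
  calc I u b * I w b ≤ (2 * m) * (2 * m') := Nat.mul_le_mul hm hm'
    _ ≤ m * m' * 5 := by nlinarith [Nat.zero_le (m * m')]
    _ ≤ _ := h

end Pool.Agent.GEN
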