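import Mathlib
import Pool.Agent.GEN.Ping
import Pool.Agent.GEN.Abs

/-!
# The length function on a group of automorphisms
-/

set_option autoImplicit false

open Topology Set Filter
open scoped MatrixGroups UpperHalfPlane

namespace Pool.Agent.GEN

open Pool.Agent.Helper2.Fuch Pool.Agent.Helper2.Genus Pool.Agent.Helper2.Planar

variable {Γ : Subgroup SL(2, ℝ)}

/-- The data of the length function. -/
structure Data (a b : Γ) (θa θb : MulAut Γ) (H : Subgroup (MulAut Γ)) (N : ℤ) : Prop where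
  sa : Simple a
  sb : Simple b
  ta : Twist a θa
  tb : Twist b θb
  le : H ≤ opg Γ
  hN : 20 ≤ N
  ma : θa ^ N ∈ H
  mb : θb ^ N ∈ H
  nd : ∀ η ∈ H, 0 < I (η a) a + I (η a) b + (I (η b) a + I (η b) b)

/-- The action on the conjugacy classes. -/
@[instance_reducible]
def len_act (H : Subgroup (MulAut Γ)) : MulAction H (ConjClasses Γ) where
  smul θ c := ConjClasses.map (MulEquiv.toMonoidHom (θ : MulAut Γ)) c
  one_smul := by
    rintro ⟨x⟩
    rfl
  mul_smul := by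
    rintro θ η ⟨x⟩
    rfl

/-- The intersection number of two conjugacy classes. -/
noncomputable def len_I (hΓ : Hyp Γ) (c d : ConjClasses Γ) : ℕ :=
  Quotient.liftOn₂ c d I (by
    intro u w u' w' hu hw
    obtain ⟨g, rfl⟩ := isConj_iff.mp hu
    obtain ⟨h, rfl⟩ := isConj_iff.mp hw
    rw [I_conj hΓ])

lemma len_I_mk (hΓ : Hyp Γ) (u w : Γ) :
    len_I hΓ (ConjClasses.mk u) (ConjClasses.mk w) = I u w := rfl

section

variable {a b : Γ} {θa θb : MulAut Γ} {H : Subgroup (MulAut Γ)} {N : ℤ}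

lemma len_fix {b : Γ} {θ : MulAut Γ} (h : Twist b θ) (n : ℤ) : (θ ^ n) b = b := by
  have h1 : θ ∈ MulAction.stabilizer (MulAut Γ) b := h.fix
  exact (MulAction.stabilizer (MulAut Γ) b).zpow_mem h1 n

lemma Data.crs (hΓ : Hyp Γ) [DiscreteTopology Γ] (D : Data a b θa θb H N) : 0 < I a b := by
  have h := D.nd 1 H.one_mem
  rw [MulAut.one_apply, MulAut.one_apply, D.sa.I_self, D.sb.I_self, I_comm hΓ b a] at h
  omega

/-- The abstract data. -/
noncomputable def Data.pp (hΓ : Hyp Γ) [DiscreteTopology Γ] (D : Data a b θa θb H N) :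
    letI := len_act H
    PP H (ConjClasses Γ) :=
  letI := len_act H
  { I := len_I hΓ
    a := ConjClasses.mk a
    b := ConjClasses.mk b
    A := ⟨θa ^ N, D.ma⟩
    B := ⟨θb ^ N, D.mb⟩
    comm := by
      rintro ⟨u⟩ ⟨w⟩
      exact I_comm hΓ u w
    inv := by
      rintro θ ⟨u⟩ ⟨w⟩
      exact I_map (D.le θ.2) u w
    aa := D.sa.I_self
    bb := D.sb.I_self
    ab := D.crs hΓ
    Aa := congrArg ConjClasses.mk (len_fix D.ta N)
    Bb := congrArg ConjClasses.mk (len_fix D.tb N)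
    stepA := by
      rintro k hk ⟨u⟩ hu
      have hN : 20 ≤ |N * k| := by
        rw [abs_mul]
        have h1 := Int.one_le_abs hk
        have h2 := le_abs_self N
        have h3 := D.hN
        nlinarith
      have h := ping hΓ D.sa (by rw [I_comm hΓ]; exact D.crs hΓ) D.ta hN (u := u) hu
      have e : (((⟨θa ^ N, D.ma⟩ : H) ^ k : H) : MulAut Γ) = θa ^ (N * k) := by
        rw [Subgroup.coe_zpow, zpow_mul]
      change 4 * I u a ≤ I ((((⟨θa ^ N, D.ma⟩ : H) ^ k : H) : MulAut Γ) u) b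
      rw [e]
      omega
    stepB := by
      rintro k hk ⟨u⟩ hu
      have hN : 20 ≤ |N * k| := by
        rw [abs_mul]
        have h1 := Int.one_le_abs hk
        have h2 := le_abs_self N
        have h3 := D.hN
        nlinarith
      have h := ping hΓ D.sb (D.crs hΓ) D.tb hN (u := u) hu
      have e : (((⟨θb ^ N, D.mb⟩ : H) ^ k : H) : MulAut Γ) = θb ^ (N * k) := by
        rw [Subgroup.coe_zpow, zpow_mul]
      change 4 * I u b ≤ I ((((⟨θb ^ N, D.mb⟩ : H) ^ k : H) : MulAut Γ) u) a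
      rw [e]
      omega
    big := by
      rintro k hk ⟨u⟩ ⟨w⟩ hu hw
      have hN : 20 ≤ |N * k| := by
        rw [abs_mul]
        have h1 := Int.one_le_abs hk
        have h2 := le_abs_self N
        have h3 := D.hN
        nlinarith
      have h := ping_mixed hΓ D.sb (D.crs hΓ) D.tb hN (u := u) (w := w) hu hw
      have e : (((⟨θb ^ N, D.mb⟩ : H) ^ k : H) : MulAut Γ) = θb ^ (N * k) := by
        rw [Subgroup.coe_zpow, zpow_mul]
      change I u b * I w b ≤ I ((((⟨θb ^ N, D.mb⟩ : H) ^ k : H) : MulAut Γ) u) w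
      rw [e]
      exact h }

end

theorem exists_len (hΓ : Hyp Γ) [DiscreteTopology Γ] {a b : Γ} {θa θb : MulAut Γ}
    {H : Subgroup (MulAut Γ)} {N : ℤ} (D : Data a b θa θb H N) :
    ∃ (ℓ : MulAut Γ → ℝ) (C : ℝ), IsLen ℓ H ∧
      (∀ θ ∈ H, IsConj (θ a) a → IsConj (θ b) b → ℓ θ = 0) ∧
      (∀ n : ℕ, (n : ℝ) - C ≤ ℓ ((θb ^ N * θa ^ N) ^ n)) ∧
      ∀ (n : ℤ) (k : ℕ), (k : ℝ) - C ≤
        ℓ ((θb ^ N * θa ^ N) ^ (-n) * (θb ^ (-N) * θa ^ N) ^ k) := by
  classical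
  let _ := len_act H
  set P : PP H (ConjClasses Γ) := D.pp hΓ with hP
  have hA : P.A ∈ (⊤ : Subgroup H) := Subgroup.mem_top _
  have hB : P.B ∈ (⊤ : Subgroup H) := Subgroup.mem_top _
  have hN : P.NonDisp ⊤ := by
    intro η _
    have h := D.nd η η.2
    have key : ∀ x y : Γ, 0 < I ((η : MulAut Γ) x) y →
        0 < P.I (η • ConjClasses.mk x) (ConjClasses.mk y) := fun _ _ h => h
    by_cases h1 : 0 < I ((η : MulAut Γ) a) a
    · exact ⟨_, _, Or.inl rfl, Or.inl rfl, key _ _ h1⟩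
    by_cases h2 : 0 < I ((η : MulAut Γ) a) b
    · exact ⟨_, _, Or.inl rfl, Or.inr rfl, key _ _ h2⟩
    by_cases h3 : 0 < I ((η : MulAut Γ) b) a
    · exact ⟨_, _, Or.inr rfl, Or.inl rfl, key _ _ h3⟩
    · have h4 : 0 < I ((η : MulAut Γ) b) b := by omega
      exact ⟨_, _, Or.inr rfl, Or.inr rfl, key _ _ h4⟩
  have hL := P.length_isLen hA hB hN
  -- extension by zero
  set ℓ : MulAut Γ → ℝ := fun θ => if h : θ ∈ H then P.length ⊤ (⟨θ, h⟩ : H) else 0 with hℓ
  have hℓmem : ∀ η : H, ℓ (η : MulAut Γ) = P.length ⊤ η := by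
    intro η
    rw [hℓ]
    simp only [dif_pos η.2]
  have hf : ((P.f : H) : MulAut Γ) = θb ^ N * θa ^ N := rfl
  have hf' : ((P.flip.f : H) : MulAut Γ) = θb ^ (-N) * θa ^ N := by
    rw [zpow_neg]
    rfl
  refine ⟨ℓ, P.kap 1, ⟨?_, ?_, ?_⟩, ?_, ?_, ?_⟩
  · have h := hℓmem 1
    rw [hL.one] at h
    exact h
  · intro g hg
    have h1 := hℓmem (⟨g, hg⟩ : H)
    have h2 := hℓmem (⟨g, hg⟩ : H)⁻¹
    rw [hL.inv _ (Subgroup.mem_top _), ← h1] at h2
    exact h2
  · intro g hg h hh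
    have h1 := hℓmem (⟨g, hg⟩ : H)
    have h2 := hℓmem (⟨h, hh⟩ : H)
    have h3 := hℓmem ((⟨g, hg⟩ : H) * ⟨h, hh⟩)
    have h4 := hL.mul (⟨g, hg⟩ : H) (Subgroup.mem_top _) ⟨h, hh⟩ (Subgroup.mem_top _)
    rw [← h1, ← h2, ← h3] at h4
    exact h4
  · intro θ hθ h1 h2
    rw [hℓmem (⟨θ, hθ⟩ : H)]
    exact P.length_fix (ConjClasses.mk_eq_mk_iff_isConj.mpr h1)
      (ConjClasses.mk_eq_mk_iff_isConj.mpr h2)
  · intro n
    have h1 := P.length_f hA hB hN n
    rw [← hℓmem, Subgroup.coe_zpow, hf, zpow_natCast] at h1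
    simpa using h1
  · intro n k
    have h1 := P.length_far hA hB hN n k
    rw [← hℓmem, Subgroup.coe_mul, Subgroup.coe_zpow, Subgroup.coe_pow, hf, hf'] at h1
    have h2 : (0 : ℝ) ≤ P.kap 1 := Nat.cast_nonneg _
    linarith

end Pool.Agent.GEN
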