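import Mathlib
import Pool.Agent.GEN.Defs

/-!
# Translates of the axis of a simple element on both sides of it
-/

set_option autoImplicit false

open scoped MatrixGroups

namespace Pool.Agent.GEN

open Pool.Agent.Helper2.Fuch

variable {Γ : Subgroup SL(2, ℝ)}

namespace Sd

/-- The sign rule: of two disjoint lines, each on the left of the other, no direction is on the
right of both. -/
lemma alg {Ar Br As Bs Ax Bx D drs dxr dxs : ℝ} (h1 : 0 < Ar * Br * D) (h2 : 0 < As * Bs * D)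
    (h3 : Ax * Bx * D < 0) (h4 : 0 < Ar * As * drs) (h5 : dxr * dxs * drs < 0)
    (exr : dxr * D = Ax * Br - Bx * Ar) (exs : dxs * D = Ax * Bs - Bx * As) : False := by
  have hD : D ≠ 0 := by
    rintro rfl
    simp at h1
  have hAr : Ar ≠ 0 := by
    rintro rfl
    simp at h1
  have hAs : As ≠ 0 := by
    rintro rfl
    simp at h2
  have S : 0 < dxr * dxs * (Ar * As) * D ^ 4 := by
    have e : dxr * dxs * (Ar * As) * D ^ 4 = Ax ^ 2 * ((Ar * Br * D) * (As * Bs * D)) +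
        -(Ax * Bx * D) * (As ^ 2 * (Ar * Br * D) + Ar ^ 2 * (As * Bs * D)) +
        (Bx * Ar * As * D) ^ 2 := by
      linear_combination (Ar * As * D ^ 2) * (dxs * D * exr + (Ax * Br - Bx * Ar) * exs)
    rw [e]
    have p1 : 0 ≤ Ax ^ 2 * ((Ar * Br * D) * (As * Bs * D)) :=
      mul_nonneg (sq_nonneg _) (mul_pos h1 h2).le
    have p2 : 0 < -(Ax * Bx * D) * (As ^ 2 * (Ar * Br * D) + Ar ^ 2 * (As * Bs * D)) :=
      mul_pos (neg_pos.mpr h3) (add_pos (mul_pos (by positivity) h1) (mul_pos (by positivity) h2))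
    have p3 : 0 ≤ (Bx * Ar * As * D) ^ 2 := sq_nonneg _
    linarith
  have hD4 : 0 < D ^ 4 := by positivity
  have S' : 0 < dxr * dxs * (Ar * As) := pos_of_mul_pos_left S hD4.le
  have T := mul_pos S' h4
  have e : dxr * dxs * (Ar * As) * (Ar * As * drs) = (Ar * As) ^ 2 * (dxr * dxs * drs) := by ring
  rw [e] at T
  have : (Ar * As) ^ 2 * (dxr * dxs * drs) ≤ 0 := mul_nonpos_of_nonneg_of_nonpos (sq_nonneg _) h5.le
  linarith

/-- The same with vectors; `L P Q v` says that `v` is on the left of the line from `P` to `Q`. -/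
lemma vec {p q r s x : ℝ × ℝ} (h1 : 0 < dt r p * dt r q * dt p q)
    (h2 : 0 < dt s p * dt s q * dt p q) (h3 : dt x p * dt x q * dt p q < 0)
    (h4 : 0 < dt p r * dt p s * dt r s) (h5 : dt x r * dt x s * dt r s < 0) : False := by
  refine alg (Ar := dt r p) (Br := dt r q) (As := dt s p) (Bs := dt s q) (Ax := dt x p)
    (Bx := dt x q) (D := dt p q) (drs := dt r s) (dxr := dt x r) (dxs := dt x s) h1 h2 h3 ?_ h5
    ?_ ?_
  · have e : dt r p * dt s p * dt r s = dt p r * dt p s * dt r s := by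
      rw [dt_comm r p, dt_comm s p]
      ring
    rw [e]
    exact h4
  · simp only [dt]
    ring
  · simp only [dt]
    ring

lemma isAtt_ep (hΓ : Hyp Γ) {x : Γ} (hx : x ≠ 1) : IsAtt (x : SL(2, ℝ)) (ep x) := hΓ.att' hx

lemma isAtt_em (hΓ : Hyp Γ) {x : Γ} (hx : x ≠ 1) : IsAtt ((x : SL(2, ℝ))⁻¹) (em x) := by
  have h := hΓ.att' (inv_ne_one.mpr hx)
  rw [Subgroup.coe_inv] at h
  exact h

/-- An element which exchanges two directions has trace zero. -/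
lemma trace_zero {g : SL(2, ℝ)} {u : ℝ × ℝ} (hu : u ≠ 0) (h : ac g (ac g u) = -u) :
    (g : Matrix (Fin 2) (Fin 2) ℝ).trace = 0 := by
  rw [Matrix.trace_fin_two]
  have hdet := det_eq g
  have e1 : g 0 0 * (g 0 0 * u.1 + g 0 1 * u.2) + g 0 1 * (g 1 0 * u.1 + g 1 1 * u.2) = -u.1 :=
    congrArg Prod.fst h
  have e2 : g 1 0 * (g 0 0 * u.1 + g 0 1 * u.2) + g 1 1 * (g 1 0 * u.1 + g 1 1 * u.2) = -u.2 :=
    congrArg Prod.snd h
  have f1 : (g 0 0 + g 1 1) * (g 0 0 * u.1 + g 0 1 * u.2) = 0 := by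
    linear_combination e1 + u.1 * hdet
  have f2 : (g 0 0 + g 1 1) * (g 1 0 * u.1 + g 1 1 * u.2) = 0 := by
    linear_combination e2 + u.2 * hdet
  by_contra hne
  have hne' : g 0 0 + g 1 1 ≠ 0 := hne
  apply ac_ne_zero (g := g) hu
  exact Prod.ext ((mul_eq_zero.mp f1).resolve_left hne') ((mul_eq_zero.mp f2).resolve_left hne')

/-- The eigenvectors of a hyperbolic element. -/
lemma eig {b : SL(2, ℝ)} {u v w : ℝ × ℝ} {μ ν : ℝ} (hμ : 1 < |μ|)
    (hu : ac b u = μ • u) (hv : ac b v = μ⁻¹ • v) (hw : ac b w = ν • w) :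
    dt u w = 0 ∨ dt v w = 0 := by
  have hμ0 : μ ≠ 0 := by
    rintro rfl
    simp at hμ
    linarith
  have h1 := dt_ac b u w
  have h2 := dt_ac b v w
  rw [hu, hw, dt_smul_left, dt_smul_right] at h1
  rw [hv, hw, dt_smul_left, dt_smul_right] at h2
  by_contra hcon
  rw [not_or] at hcon
  have e1 : μ * ν = 1 := by
    have : (μ * ν - 1) * dt u w = 0 := by linarith
    have := (mul_eq_zero.mp this).resolve_right hcon.1
    linarith
  have e2 : μ⁻¹ * ν = 1 := by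
    have : (μ⁻¹ * ν - 1) * dt v w = 0 := by linarith
    have := (mul_eq_zero.mp this).resolve_right hcon.2
    linarith
  have e3 : ν = μ := by
    field_simp at e2
    exact e2
  rw [e3] at e1
  have e4 : |μ| * |μ| = 1 := by rw [← abs_mul, e1, abs_one]
  nlinarith

/-- Attracting directions go to attracting directions under commuting elements. -/
lemma eig_of_comm {a b : SL(2, ℝ)} {u : ℝ × ℝ} (hu : IsAtt a u) (h : a * b = b * a) :
    ∃ ν : ℝ, ac b u = ν • u := by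
  have h1 : IsAtt a (ac b u) := by
    have h2 := hu.conj b
    rw [← h, mul_inv_cancel_right] at h2
    exact h2
  have h3 := hu.par h1
  obtain ⟨c, hc⟩ := exists_smul_of_dt hu.1 h3
  exact ⟨c, hc⟩

/-- If `b` commutes with a conjugate `g b g⁻¹`, then it commutes with `g`. -/
lemma comm_of_comm_conj (hΓ : Hyp Γ) {b g : Γ} (hb : b ≠ 1) (h : Commute b (g * b * g⁻¹)) :
    Commute b g := by
  by_contra hcon
  have hg1 : g ≠ 1 := by
    rintro rfl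
    exact hcon (Commute.one_right b)
  obtain ⟨huv, μ, hμ, hu, hv⟩ := (isAtt_ep hΓ hb).pair (isAtt_em hΓ hb)
  have hbc : (b : SL(2, ℝ)) * ((g : SL(2, ℝ)) * b * (g : SL(2, ℝ))⁻¹) =
      ((g : SL(2, ℝ)) * b * (g : SL(2, ℝ))⁻¹) * b := by
    have := congrArg (Subtype.val : Γ → SL(2, ℝ)) h.eq
    simpa using this
  -- a direction fixed by `g` and `b` makes them commute
  have key : ∀ w : ℝ × ℝ, w ≠ 0 → ∀ ν : ℝ, ac (b : SL(2, ℝ)) w = ν • w →
      dt w (ac (g : SL(2, ℝ)) w) ≠ 0 := by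
    intro w hw ν hν h0
    obtain ⟨c, hc⟩ := exists_smul_of_dt hw h0
    exact hcon (Subtype.ext (hΓ.commute b.2 g.2 hw hν hc))
  have hgu : dt (em b) (ac (g : SL(2, ℝ)) (ep b)) = 0 := by
    have h1 : IsAtt ((g : SL(2, ℝ)) * b * (g : SL(2, ℝ))⁻¹) (ac (g : SL(2, ℝ)) (ep b)) :=
      (isAtt_ep hΓ hb).conj _
    obtain ⟨ν, hν⟩ := eig_of_comm h1 hbc.symm
    rcases eig hμ hu hv hν with h2 | h2
    · exact absurd h2 (key _ (isAtt_ep hΓ hb).1 _ hu)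
    · exact h2
  have hgv : dt (ep b) (ac (g : SL(2, ℝ)) (em b)) = 0 := by
    have h1 : IsAtt ((g : SL(2, ℝ)) * (b : SL(2, ℝ))⁻¹ * (g : SL(2, ℝ))⁻¹)
        (ac (g : SL(2, ℝ)) (em b)) := (isAtt_em hΓ hb).conj _
    have hbc' : ((g : SL(2, ℝ)) * (b : SL(2, ℝ))⁻¹ * (g : SL(2, ℝ))⁻¹) * (b : SL(2, ℝ)) =
        (b : SL(2, ℝ)) * ((g : SL(2, ℝ)) * (b : SL(2, ℝ))⁻¹ * (g : SL(2, ℝ))⁻¹) := by
      have h2 : Commute (b : SL(2, ℝ)) ((g : SL(2, ℝ)) * b * (g : SL(2, ℝ))⁻¹) := hbc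
      have h3 := h2.inv_right
      have e : ((g : SL(2, ℝ)) * b * (g : SL(2, ℝ))⁻¹)⁻¹ =
          (g : SL(2, ℝ)) * (b : SL(2, ℝ))⁻¹ * (g : SL(2, ℝ))⁻¹ := by group
      rw [e] at h3
      exact h3.symm.eq
    obtain ⟨ν, hν⟩ := eig_of_comm h1 hbc'
    rcases eig hμ hu hv hν with h2 | h2
    · exact h2
    · exact absurd h2 (key _ (isAtt_em hΓ hb).1 _ hv)
  obtain ⟨α, hα⟩ := exists_smul_of_dt (isAtt_em hΓ hb).1 hgu
  obtain ⟨β, hβ⟩ := exists_smul_of_dt (isAtt_ep hΓ hb).1 hgv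
  have hdet := dt_ac (g : SL(2, ℝ)) (ep b) (em b)
  rw [hα, hβ, dt_smul_left, dt_smul_right, dt_comm (em b) (ep b)] at hdet
  have hαβ : α * β = -1 := by
    have : (α * β + 1) * dt (ep b) (em b) = 0 := by linarith
    have := (mul_eq_zero.mp this).resolve_right huv
    linarith
  have h2 : ac (g : SL(2, ℝ)) (ac (g : SL(2, ℝ)) (ep b)) = -ep b := by
    rw [hα, ac_smul, hβ, smul_smul, hαβ, neg_one_smul]
  have h3 := trace_zero (isAtt_ep hΓ hb).1 h2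
  have h4 := hΓ g g.2 (fun h => hg1 (Subtype.ext h))
  rw [h3] at h4
  norm_num at h4

/-- Crossing elements do not commute. -/
lemma not_comm (hΓ : Hyp Γ) {b c : Γ} (hb : b ≠ 1) (hc : Cr b c) : ¬ Commute b c := by
  intro h
  have hc1 : c ≠ 1 := by
    rintro rfl
    have h1 : lkp (em b) (ep b) (em (1 : Γ)) (ep (1 : Γ)) < 0 := hc
    have e : em (1 : Γ) = ep (1 : Γ) := by simp [em, ep]
    rw [e] at h1
    unfold lkp at h1
    nlinarith [mul_self_nonneg (dt (em b) (ep (1 : Γ)) * dt (ep b) (ep (1 : Γ)))]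
  obtain ⟨-, μ, hμ, hu, hv⟩ := (isAtt_ep hΓ hc1).pair (isAtt_em hΓ hc1)
  have h1 : (b : SL(2, ℝ)) * c = c * b := by
    have := congrArg (Subtype.val : Γ → SL(2, ℝ)) h.eq
    simpa using this
  obtain ⟨ν, hν⟩ := eig_of_comm (isAtt_ep hΓ hb) h1
  have hne := hc.ne
  rcases eig hμ hu hv hν with h2 | h2
  · rw [dt_comm, neg_eq_zero] at h2
    exact hne.2.2.2 h2
  · rw [dt_comm, neg_eq_zero] at h2
    exact hne.2.2.1 h2

lemma ne_zero_of_not_comm (hΓ : Hyp Γ) {x y : Γ} (hx : x ≠ 1) (hy : y ≠ 1) (h : ¬ Commute x y) :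
    dt (ep x) (ep y) ≠ 0 := by
  intro h0
  exact h (Subtype.ext (hΓ.comm_of_par x.2 y.2 (fun h => hx (Subtype.ext h))
    (fun h => hy (Subtype.ext h)) h0))

lemma ne_zero4 (hΓ : Hyp Γ) {x y : Γ} (hx : x ≠ 1) (hy : y ≠ 1) (h : ¬ Commute x y) :
    dt (ep x) (ep y) ≠ 0 ∧ dt (ep x) (em y) ≠ 0 ∧ dt (em x) (ep y) ≠ 0 ∧ dt (em x) (em y) ≠ 0 :=
  ⟨ne_zero_of_not_comm hΓ hx hy h,
    ne_zero_of_not_comm hΓ hx (inv_ne_one.mpr hy) (fun h' => h (by simpa using h'.inv_right)),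
    ne_zero_of_not_comm hΓ (inv_ne_one.mpr hx) hy (fun h' => h (by simpa using h'.inv_left)),
    ne_zero_of_not_comm hΓ (inv_ne_one.mpr hx) (inv_ne_one.mpr hy)
      (fun h' => h (by simpa using h'.inv_left.inv_right))⟩

/-- An axis which does not cross the axis of `x` is on one side of it. -/
lemma side (hΓ : Hyp Γ) {x y : Γ} (hx : x ≠ 1) (hy : y ≠ 1) (h : ¬ Commute x y)
    (hc : ¬ Cr x y) : (lft x (ep y) ∧ lft x (em y)) ∨ (rgt x (ep y) ∧ rgt x (em y)) := by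
  obtain ⟨n1, n2, n3, n4⟩ := ne_zero4 hΓ hx hy h
  have huv := ((isAtt_ep hΓ hx).pair (isAtt_em hΓ hx)).1
  rw [dt_comm] at n1 n2 n3 n4 huv
  have m1 := neg_ne_zero.mp n1
  have m2 := neg_ne_zero.mp n2
  have m3 := neg_ne_zero.mp n3
  have m4 := neg_ne_zero.mp n4
  have m5 := neg_ne_zero.mp huv
  have hp : 0 ≤ lkp (em x) (ep x) (em y) (ep y) := not_lt.mp hc
  have e : lkp (em x) (ep x) (em y) (ep y) * (dt (em x) (ep x)) ^ 2 =
      (dt (ep y) (em x) * dt (ep y) (ep x) * dt (em x) (ep x)) *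
        (dt (em y) (em x) * dt (em y) (ep x) * dt (em x) (ep x)) := by
    unfold lkp
    rw [dt_comm (em x) (em y), dt_comm (em x) (ep y), dt_comm (ep x) (em y),
      dt_comm (ep x) (ep y)]
    ring
  have f1 : dt (ep y) (em x) * dt (ep y) (ep x) * dt (em x) (ep x) ≠ 0 :=
    mul_ne_zero (mul_ne_zero m3 m1) m5
  have f2 : dt (em y) (em x) * dt (em y) (ep x) * dt (em x) (ep x) ≠ 0 :=
    mul_ne_zero (mul_ne_zero m4 m2) m5
  have hpos : 0 ≤ (dt (ep y) (em x) * dt (ep y) (ep x) * dt (em x) (ep x)) *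
      (dt (em y) (em x) * dt (em y) (ep x) * dt (em x) (ep x)) := by
    rw [← e]
    exact mul_nonneg hp (sq_nonneg _)
  have hpos' := lt_of_le_of_ne hpos (mul_ne_zero f1 f2).symm
  rcases mul_pos_iff.mp hpos' with h' | h'
  · exact Or.inl h'
  · exact Or.inr h'

/-- The triple product which tells the side. -/
noncomputable def tq (x : Γ) (v : ℝ × ℝ) : ℝ := dt v (em x) * dt v (ep x) * dt (em x) (ep x)

lemma tq_conj (hΓ : Hyp Γ) (g : Γ) {x : Γ} (hx : x ≠ 1) {v v' : ℝ × ℝ} (hv : v ≠ 0)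
    (hv' : v' ≠ 0) (h : dt v' (ac (g : SL(2, ℝ)) v) = 0) :
    ∃ k : ℝ, 0 < k ∧ tq (g * x * g⁻¹) v' = k * tq x v := by
  have h1 : dt (ep (g * x * g⁻¹)) (ac (g : SL(2, ℝ)) (ep x)) = 0 := hΓ.conj_par g hx
  have h2 : dt (em (g * x * g⁻¹)) (ac (g : SL(2, ℝ)) (em x)) = 0 := by
    have h3 := hΓ.conj_par g (inv_ne_one.mpr hx)
    have e : g * x⁻¹ * g⁻¹ = (g * x * g⁻¹)⁻¹ := by group
    rw [e] at h3
    exact h3
  obtain ⟨α, hα, eα⟩ := exists_smul_of_dt' (ac_ne_zero (att_ne_zero _)) (att_ne_zero _)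
    (show dt (ac (g : SL(2, ℝ)) (ep x)) (ep (g * x * g⁻¹)) = 0 by rw [dt_comm, h1, neg_zero])
  obtain ⟨β, hβ, eβ⟩ := exists_smul_of_dt' (ac_ne_zero (att_ne_zero _)) (att_ne_zero _)
    (show dt (ac (g : SL(2, ℝ)) (em x)) (em (g * x * g⁻¹)) = 0 by rw [dt_comm, h2, neg_zero])
  obtain ⟨γ, hγ, eγ⟩ := exists_smul_of_dt' (ac_ne_zero hv) hv'
    (show dt (ac (g : SL(2, ℝ)) v) v' = 0 by rw [dt_comm, h, neg_zero])
  refine ⟨(α * β * γ) ^ 2, by positivity, ?_⟩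
  have eα' : ep (g * x * g⁻¹) = α • ac (g : SL(2, ℝ)) (ep x) := eα
  have eβ' : em (g * x * g⁻¹) = β • ac (g : SL(2, ℝ)) (em x) := eβ
  unfold tq
  rw [eα', eβ', eγ]
  simp only [dt_smul_left, dt_smul_right, dt_ac]
  ring

lemma lft_conj (hΓ : Hyp Γ) (g : Γ) {x : Γ} (hx : x ≠ 1) {v v' : ℝ × ℝ} (hv : v ≠ 0)
    (hv' : v' ≠ 0) (h : dt v' (ac (g : SL(2, ℝ)) v) = 0) (hl : lft x v) :
    lft (g * x * g⁻¹) v' := by
  obtain ⟨k, hk, e⟩ := tq_conj hΓ g hx hv hv' h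
  change 0 < tq (g * x * g⁻¹) v'
  rw [e]
  exact mul_pos hk hl

lemma rgt_conj (hΓ : Hyp Γ) (g : Γ) {x : Γ} (hx : x ≠ 1) {v v' : ℝ × ℝ} (hv : v ≠ 0)
    (hv' : v' ≠ 0) (h : dt v' (ac (g : SL(2, ℝ)) v) = 0) (hl : rgt x v) :
    rgt (g * x * g⁻¹) v' := by
  obtain ⟨k, hk, e⟩ := tq_conj hΓ g hx hv hv' h
  change tq (g * x * g⁻¹) v' < 0
  rw [e]
  exact mul_neg_of_pos_of_neg hk hl

/-- The case in which `c` crosses the axis of `b` from the right to the left. -/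
lemma aux (hΓ : Hyp Γ) {b c : Γ} (hb : Simple b) (hc : Cr b c) (hl : lft b (ep c))
    (hr : rgt b (em c)) :
    (∃ g : Γ, lft b (ep (g * b * g⁻¹)) ∧ lft b (em (g * b * g⁻¹))) ∧
    ∃ g : Γ, rgt b (ep (g * b * g⁻¹)) ∧ rgt b (em (g * b * g⁻¹)) := by
  have hb1 := hb.1
  have hnc := not_comm hΓ hb1 hc
  have hc1 : c ≠ 1 := by
    rintro rfl
    exact hnc (Commute.one_right b)
  have n1 : ¬ Commute b (c * b * c⁻¹) := fun h => hnc (comm_of_comm_conj hΓ hb1 h)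
  have n2 : ¬ Commute b (c⁻¹ * b * c⁻¹⁻¹) := fun h => hnc (by
    simpa using (comm_of_comm_conj hΓ hb1 h).inv_right)
  -- the ends of `c` are fixed by `c`
  have hfix : ∀ {w : ℝ × ℝ} {ν : ℝ}, ac (c : SL(2, ℝ)) w = ν • w →
      dt w (ac ((c⁻¹ : Γ) : SL(2, ℝ)) w) = 0 := by
    intro w ν hν
    rw [← dt_ac (c : SL(2, ℝ)), Subgroup.coe_inv, ac_ac_inv, hν, dt_smul_left, dt_self, mul_zero]
  obtain ⟨-, μ, hμ, hu, hv⟩ := (isAtt_ep hΓ hc1).pair (isAtt_em hΓ hc1)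
  have hep := hfix hu
  have hem := hfix hv
  have hcan : c⁻¹ * (c * b * c⁻¹) * c⁻¹⁻¹ = b := by group
  have hce : dt (ep b) (ac ((c⁻¹ : Γ) : SL(2, ℝ)) (ep (c * b * c⁻¹))) = 0 := by
    have h := hΓ.conj_par c⁻¹ (conj_ne_one c hb1)
    rw [hcan] at h
    exact h
  have hcm : dt (em b) (ac ((c⁻¹ : Γ) : SL(2, ℝ)) (em (c * b * c⁻¹))) = 0 := by
    have h := hΓ.conj_par c⁻¹ (inv_ne_one.mpr (conj_ne_one c hb1))
    have e : c⁻¹ * (c * b * c⁻¹)⁻¹ * c⁻¹⁻¹ = b⁻¹ := by group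
    rw [e] at h
    exact h
  have hz : ∀ x : Γ, ep x ≠ 0 := fun x => att_ne_zero _
  have hz' : ∀ x : Γ, em x ≠ 0 := fun x => att_ne_zero _
  rcases side hΓ hb1 (conj_ne_one c hb1) n1 (hb.2 c) with h1 | h1
  · refine ⟨⟨c, h1⟩, ?_⟩
    rcases side hΓ hb1 (conj_ne_one c⁻¹ hb1) n2 (hb.2 c⁻¹) with h2 | h2
    · exfalso
      have k1 := lft_conj hΓ c⁻¹ hb1 (hz' _) (hz' _) hcm h1.2
      have k2 := rgt_conj hΓ c⁻¹ hb1 (hz' _) (hz' _) hem hr
      exact vec h2.2 h2.1 hr k1 k2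
    · exact ⟨c⁻¹, h2⟩
  · refine ⟨?_, ⟨c, h1⟩⟩
    rcases side hΓ hb1 (conj_ne_one c⁻¹ hb1) n2 (hb.2 c⁻¹) with h2 | h2
    · exact ⟨c⁻¹, h2⟩
    · exfalso
      have k1 := rgt_conj hΓ c⁻¹ hb1 (hz _) (hz _) hce h1.1
      have k2 := lft_conj hΓ c⁻¹ hb1 (hz _) (hz _) hep hl
      have r1 := h2.1
      have r2 := h2.2
      unfold rgt at r1 r2 k1
      unfold lft at hl k2
      refine vec (p := ep b) (q := em b) (r := ep (c⁻¹ * b * c⁻¹⁻¹))
        (s := em (c⁻¹ * b * c⁻¹⁻¹)) (x := ep c) ?_ ?_ ?_ ?_ ?_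
      · rw [dt_comm (ep b) (em b)]
        linarith
      · rw [dt_comm (ep b) (em b)]
        linarith
      · rw [dt_comm (ep b) (em b)]
        linarith
      · rw [dt_comm (ep (c⁻¹ * b * c⁻¹⁻¹)) (em (c⁻¹ * b * c⁻¹⁻¹))]
        linarith
      · rw [dt_comm (ep (c⁻¹ * b * c⁻¹⁻¹)) (em (c⁻¹ * b * c⁻¹⁻¹))]
        linarith

end Sd

/-- Translates of the axis of `b` on both sides of it. -/
theorem exists_sides (hΓ : Hyp Γ) {b c : Γ} (hb : Simple b) (hc : Cr b c) :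
    (∃ g : Γ, lft b (ep (g * b * g⁻¹)) ∧ lft b (em (g * b * g⁻¹))) ∧
    ∃ g : Γ, rgt b (ep (g * b * g⁻¹)) ∧ rgt b (em (g * b * g⁻¹)) := by
  have h0 : lkp (em b) (ep b) (em c) (ep c) < 0 := hc
  have e : lkp (em b) (ep b) (em c) (ep c) * (dt (em b) (ep b)) ^ 2 =
      (dt (ep c) (em b) * dt (ep c) (ep b) * dt (em b) (ep b)) *
        (dt (em c) (em b) * dt (em c) (ep b) * dt (em b) (ep b)) := by
    unfold lkp
    rw [dt_comm (em b) (em c), dt_comm (em b) (ep c), dt_comm (ep b) (em c),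
      dt_comm (ep b) (ep c)]
    ring
  have h1 : (dt (ep c) (em b) * dt (ep c) (ep b) * dt (em b) (ep b)) *
      (dt (em c) (em b) * dt (em c) (ep b) * dt (em b) (ep b)) < 0 := by
    rw [← e]
    have hne := hc.ne'
    exact mul_neg_of_neg_of_pos h0 (by positivity)
  rcases mul_neg_iff.mp h1 with h2 | h2
  · exact Sd.aux hΓ hb hc h2.1 h2.2
  · have hc' : Cr b c⁻¹ := by
      have e1 : em c⁻¹ = ep c := by simp [em, ep]
      have e2 : ep c⁻¹ = em c := rfl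
      change lkp (em b) (ep b) (em c⁻¹) (ep c⁻¹) < 0
      rw [e1, e2, lkp_swap_right]
      exact h0
    have e1 : em c⁻¹ = ep c := by simp [em, ep]
    refine Sd.aux hΓ hb hc' h2.2 ?_
    rw [e1]
    exact h2.1

end Pool.Agent.GEN
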