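import Mathlib
import Pool.Agent.GEN.Collar

/-!
# The twist homeomorphism of the surface

The collars of the translates of the axis of `b` are disjoint and locally finite.  On the collar
`{z : |ang b z| ≤ ε}` the homeomorphism is induced by the flow `S` with the time `chi ε (ang b z)`,
and it is the identity outside of the collars.
-/

set_option autoImplicit false

open Topology Set Filter
open scoped MatrixGroups UpperHalfPlane

namespace Pool.Agent.GEN

open Pool.Agent.Helper2.Fuch Pool.Agent.Helper2.Genus Pool.Agent.Helper2.Planar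

variable {Γ : Subgroup SL(2, ℝ)}

/-! ### The twist homeomorphism -/

section TMap

lemma conj_ne_one {b : Γ} (hb : b ≠ 1) (g : Γ) : g * b * g⁻¹ ≠ 1 := by
  intro h
  apply hb
  have h1 : g⁻¹ * (g * b * g⁻¹) * g = b := by group
  rw [← h1, h]
  group

/-- Two elements which move a point into the closed collar differ by an element of the centralizer
of `b`. -/
lemma tmap_commute (hΓ : Hyp Γ) {b : Γ} (hb : b ≠ 1) {ε : ℝ}
    (hcol : ∀ g : Γ, ¬ Commute g b → ∀ z : ℍ, |ang b z| ≤ ε → ε < |ang (g * b * g⁻¹) z|)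
    {z : ℍ} {k : Γ} (h1 : |ang b z| ≤ ε) (h2 : |ang b (k • z)| ≤ ε) : Commute k b := by
  by_contra hc
  have hc' : ¬ Commute k⁻¹ b := fun h => hc (by simpa using h.inv_left)
  have h3 := hcol k⁻¹ hc' z h1
  have h4 := ang_conj hΓ k⁻¹ hb (k • z)
  rw [inv_smul_smul] at h4
  rw [h4] at h3
  linarith

open Classical in
/-- The map to the surface which twists the collars by `c`. -/
noncomputable def tfun (b : Γ) (ε : ℝ) (S : ℝ → SL(2, ℝ)) (c : ℝ → ℝ) (z : ℍ) : Surf Γ :=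
  if h : ∃ g : Γ, |ang b (g • z)| ≤ ε then
    pr Γ (S (c (ang b (h.choose • z))) • h.choose • z) else pr Γ z

variable (hΓ : Hyp Γ) [DiscreteTopology Γ] {b : Γ} (hb : b ≠ 1) {ε : ℝ}
  (hcol : ∀ g : Γ, ¬ Commute g b → ∀ z : ℍ, |ang b z| ≤ ε → ε < |ang (g * b * g⁻¹) z|)
  {S : ℝ → SL(2, ℝ)} (hS : Continuous (fun p : ℝ × ℍ => S p.1 • p.2))
  (hcomm : ∀ g : Γ, Commute g b → ∀ s, (g : SL(2, ℝ)) * S s = S s * g)
  {c : ℝ → ℝ} (hc : Continuous c)
  (hbd : ∀ z : ℍ, |ang b z| = ε → pr Γ (S (c (ang b z)) • z) = pr Γ z)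

omit [DiscreteTopology Γ] in
include hΓ hb hcol hcomm in
lemma tfun_eq {z : ℍ} (g : Γ) (hg : |ang b (g • z)| ≤ ε) :
    tfun b ε S c z = pr Γ (S (c (ang b (g • z))) • g • z) := by
  have h : ∃ g : Γ, |ang b (g • z)| ≤ ε := ⟨g, hg⟩
  unfold tfun
  rw [dif_pos h]
  set g' := h.choose with hg'
  have hg2 : |ang b (g' • z)| ≤ ε := h.choose_spec
  have hk : Commute (g' * g⁻¹) b := by
    refine tmap_commute hΓ hb hcol (z := g • z) hg ?_
    rw [mul_smul, inv_smul_smul]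
    exact hg2
  have h3 : g' • z = (g' * g⁻¹) • g • z := by rw [mul_smul, inv_smul_smul]
  rw [h3, ang_commute hΓ hb hk]
  set s := c (ang b (g • z)) with hs
  set k := g' * g⁻¹ with hkk
  have h4 : S s • k • g • z = k • S s • g • z := by
    have h5 := hcomm k hk s
    show S s • (k : SL(2, ℝ)) • g • z = (k : SL(2, ℝ)) • S s • g • z
    rw [← mul_smul, ← mul_smul, h5]
  rw [h4, pr_smul]

omit [DiscreteTopology Γ] in
include hΓ hb hcol hcomm in
lemma tfun_smul (k : Γ) (z : ℍ) : tfun b ε S c (k • z) = tfun b ε S c z := by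
  by_cases h : ∃ g : Γ, |ang b (g • z)| ≤ ε
  · obtain ⟨g, hg⟩ := h
    have h1 : (g * k⁻¹) • k • z = g • z := by rw [mul_smul, inv_smul_smul]
    rw [tfun_eq hΓ hb hcol hcomm g hg, tfun_eq hΓ hb hcol hcomm (g * k⁻¹) (by rw [h1]; exact hg),
      h1]
  · have h' : ¬ ∃ g : Γ, |ang b (g • k • z)| ≤ ε := by
      rintro ⟨g, hg⟩
      exact h ⟨g * k, by rw [mul_smul]; exact hg⟩
    unfold tfun
    rw [dif_neg h, dif_neg h', pr_smul]

omit [DiscreteTopology Γ] in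
include hΓ hb hcol hcomm hbd in
lemma tfun_out {z : ℍ} (hz : ∀ g : Γ, ε ≤ |ang (g * b * g⁻¹) z|) :
    tfun b ε S c z = pr Γ z := by
  by_cases h : ∃ g : Γ, |ang b (g • z)| ≤ ε
  · obtain ⟨g, hg⟩ := h
    rw [tfun_eq hΓ hb hcol hcomm g hg]
    have h1 := hz g⁻¹
    have h2 := ang_conj hΓ g⁻¹ hb (g • z)
    rw [inv_smul_smul] at h2
    rw [h2] at h1
    rw [hbd _ (le_antisymm hg h1), pr_smul]
  · unfold tfun
    rw [dif_neg h]

include hΓ hb hcol hcomm hbd hc hS in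
lemma tfun_continuous : Continuous (tfun b ε S c) := by
  -- the pieces
  let C : Option {δ : Γ // ∃ g : Γ, δ = g * b * g⁻¹} → Set ℍ := fun o =>
    match o with
    | none => {z | ∀ g : Γ, ε ≤ |ang (g * b * g⁻¹) z|}
    | some δ => {z | |ang δ.1 z| ≤ ε}
  have hclosed : ∀ δ : {δ : Γ // ∃ g : Γ, δ = g * b * g⁻¹}, Continuous (ang δ.1) := by
    rintro ⟨δ, g, rfl⟩
    exact continuous_ang hΓ (conj_ne_one hb g)
  refine LocallyFinite.continuous (f := C) ?_ ?_ ?_ ?_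
  · intro z
    obtain ⟨K, hK, hzK⟩ := exists_compact_mem_nhds z
    refine ⟨K, hzK, ?_⟩
    have h1 := collar_finite hΓ hb ε hK
    have h2 : {o | (C o ∩ K).Nonempty} ⊆ insert none
        (some '' {δ : {δ : Γ // ∃ g : Γ, δ = g * b * g⁻¹} | ∃ z ∈ K, |ang δ.1 z| ≤ ε}) := by
      rintro (_ | δ) ho
      · exact mem_insert _ _
      · obtain ⟨w, hw1, hw2⟩ := ho
        exact mem_insert_of_mem _ ⟨δ, ⟨w, hw2, hw1⟩, rfl⟩
    refine Set.Finite.subset (Set.Finite.insert _ (Set.Finite.image _ ?_)) h2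
    refine Set.Finite.of_finite_image (f := Subtype.val) (h1.subset ?_)
      Subtype.val_injective.injOn
    rintro _ ⟨δ, ⟨w, hw1, hw2⟩, rfl⟩
    exact ⟨δ.2, w, hw1, hw2⟩
  · refine eq_univ_of_forall fun z => mem_iUnion.mpr ?_
    by_cases h : ∃ δ : {δ : Γ // ∃ g : Γ, δ = g * b * g⁻¹}, |ang δ.1 z| ≤ ε
    · obtain ⟨δ, hδ⟩ := h
      exact ⟨some δ, hδ⟩
    · refine ⟨none, fun g => ?_⟩
      push Not at h
      exact (h ⟨g * b * g⁻¹, g, rfl⟩).le
  · rintro (_ | δ)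
    · have : C none = ⋂ g : Γ, {z | ε ≤ |ang (g * b * g⁻¹) z|} := by
        ext z
        simp [C]
      rw [this]
      exact isClosed_iInter fun g => isClosed_le continuous_const
        (hclosed ⟨g * b * g⁻¹, g, rfl⟩).abs
    · exact isClosed_le (hclosed δ).abs continuous_const
  · rintro (_ | δ)
    · refine ContinuousOn.congr pr_continuous.continuousOn ?_
      intro z hz
      exact tfun_out hΓ hb hcol hcomm hbd hz
    · obtain ⟨g, hg⟩ := δ.2
      have h1 : ∀ z ∈ C (some δ), tfun b ε S c z =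
          pr Γ (S (c (ang b (g⁻¹ • z))) • g⁻¹ • z) := by
        intro z hz
        refine tfun_eq hΓ hb hcol hcomm g⁻¹ ?_
        have h2 := ang_conj hΓ g hb (g⁻¹ • z)
        rw [smul_inv_smul, ← hg] at h2
        rw [← h2]
        exact hz
      refine ContinuousOn.congr (Continuous.continuousOn ?_) h1
      have h3 : Continuous fun z : ℍ => g⁻¹ • z := continuous_const_smul _
      have h4 : Continuous fun z : ℍ => ((c (ang b (g⁻¹ • z)), g⁻¹ • z) : ℝ × ℍ) :=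
        (hc.comp ((continuous_ang hΓ hb).comp h3)).prodMk h3
      have h5 := Continuous.comp hS h4
      have h6 := Continuous.comp (pr_continuous (Γ := Γ)) h5
      simp only [Function.comp_def] at h6
      exact h6

include hΓ hb hcol hcomm hbd hc hS in
lemma exists_tfun : ∃ T : Surf Γ → Surf Γ, Continuous T ∧
    (∀ z : ℍ, |ang b z| ≤ ε → T (pr Γ z) = pr Γ (S (c (ang b z)) • z)) ∧
    ∀ z : ℍ, (∀ g : Γ, ε ≤ |ang (g * b * g⁻¹) z|) → T (pr Γ z) = pr Γ z := by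
  have hq : IsQuotientMap (pr Γ) := isQuotientMap_quotient_mk'
  let F : Surf Γ → Surf Γ := Quotient.lift (tfun b ε S c) (fun z w hzw => by
    obtain ⟨g, hg⟩ := pr_eq.mp (Quotient.sound hzw : pr Γ z = pr Γ w)
    rw [← hg, tfun_smul hΓ hb hcol hcomm])
  have hF : ∀ z, F (pr Γ z) = tfun b ε S c z := fun z => rfl
  refine ⟨F, hq.continuous_iff.mpr (tfun_continuous hΓ hb hcol hS hcomm hc hbd), ?_, ?_⟩
  · intro z hz
    have h1 : (1 : Γ) • z = z := one_smul _ _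
    rw [hF, tfun_eq hΓ hb hcol hcomm 1 (by rw [h1]; exact hz), h1]
  · intro z hz
    rw [hF, tfun_out hΓ hb hcol hcomm hbd hz]

end TMap

/-- `1` for `x ≤ -ε`, `0` for `ε ≤ x`. -/
noncomputable def chi (ε x : ℝ) : ℝ := max 0 (min 1 ((ε - x) / (2 * ε)))

lemma chi_continuous (ε : ℝ) : Continuous (chi ε) := by
  unfold chi
  fun_prop

lemma chi_right {ε : ℝ} : chi ε ε = 0 := by
  simp [chi]

lemma chi_left {ε : ℝ} (hε : 0 < ε) : chi ε (-ε) = 1 := by
  unfold chi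
  have : (ε - -ε) / (2 * ε) = 1 := by
    rw [div_eq_one_iff_eq (by positivity)]
    ring
  rw [this]
  simp

theorem exists_tmap (hΓ : Hyp Γ) [DiscreteTopology Γ] {b : Γ} (hb : b ≠ 1) {ε : ℝ} (hε : 0 < ε)
    (hcol : ∀ g : Γ, ¬ Commute g b → ∀ z : ℍ, |ang b z| ≤ ε → ε < |ang (g * b * g⁻¹) z|)
    {S : ℝ → SL(2, ℝ)} (hS : Continuous (fun p : ℝ × ℍ => S p.1 • p.2))
    (hadd : ∀ s t, S (s + t) = S s * S t) (h1 : ∀ z : ℍ, S 1 • z = b • z)
    (hang : ∀ s z, ang b (S s • z) = ang b z)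
    (hcomm : ∀ g : Γ, Commute g b → ∀ s, (g : SL(2, ℝ)) * S s = S s * g) :
    ∃ T : Surf Γ ≃ₜ Surf Γ,
      (∀ z : ℍ, |ang b z| ≤ ε → T (pr Γ z) = pr Γ (S (chi ε (ang b z)) • z)) ∧
      ∀ z : ℍ, (∀ g : Γ, ε ≤ |ang (g * b * g⁻¹) z|) → T (pr Γ z) = pr Γ z := by
  have hS0 : S 0 = 1 := by
    have h2 := hadd 0 0
    rw [add_zero] at h2
    exact (mul_eq_left.mp h2.symm)
  have hSneg : ∀ s (z : ℍ), S (-s) • S s • z = z := by
    intro s z
    rw [← mul_smul, ← hadd, neg_add_cancel, hS0, one_smul]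
  have hSneg' : ∀ s (z : ℍ), S s • S (-s) • z = z := by
    intro s z
    rw [← mul_smul, ← hadd, add_neg_cancel, hS0, one_smul]
  have hcases : ∀ z : ℍ, |ang b z| = ε → ang b z = ε ∨ ang b z = -ε := by
    intro z hz
    exact (abs_eq hε.le).mp hz
  have hbd1 : ∀ z : ℍ, |ang b z| = ε → pr Γ (S (chi ε (ang b z)) • z) = pr Γ z := by
    intro z hz
    rcases hcases z hz with h | h
    · rw [h, chi_right, hS0, one_smul]
    · rw [h, chi_left hε, h1, pr_smul]
  have hbd2 : ∀ z : ℍ, |ang b z| = ε → pr Γ (S (-chi ε (ang b z)) • z) = pr Γ z := by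
    intro z hz
    rcases hcases z hz with h | h
    · rw [h, chi_right, neg_zero, hS0, one_smul]
    · rw [h, chi_left hε]
      have h3 : b • S (-1) • z = z := by
        rw [← h1, hSneg' 1]
      rw [← pr_smul b (S (-1) • z), h3]
  obtain ⟨T, hT, hT1, hT2⟩ := exists_tfun hΓ hb hcol hS hcomm (chi_continuous ε) hbd1
  obtain ⟨T', hT', hT1', hT2'⟩ := exists_tfun hΓ hb hcol hS hcomm (chi_continuous ε).neg hbd2
  have key : ∀ x : Surf Γ, (∃ z : ℍ, |ang b z| ≤ ε ∧ pr Γ z = x) ∨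
      ∃ z : ℍ, (∀ g : Γ, ε ≤ |ang (g * b * g⁻¹) z|) ∧ pr Γ z = x := by
    intro x
    obtain ⟨z, rfl⟩ := pr_surj x
    by_cases h : ∃ g : Γ, |ang (g * b * g⁻¹) z| ≤ ε
    · obtain ⟨g, hg⟩ := h
      refine Or.inl ⟨g⁻¹ • z, ?_, pr_smul _ _⟩
      have h2 := ang_conj hΓ g hb (g⁻¹ • z)
      rw [smul_inv_smul] at h2
      rw [← h2]
      exact hg
    · push Not at h
      exact Or.inr ⟨z, fun g => (h g).le, rfl⟩
  have hinv : ∀ x, T' (T x) = x := by
    intro x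
    rcases key x with ⟨z, hz, rfl⟩ | ⟨z, hz, rfl⟩
    · rw [hT1 z hz, hT1' _ (by rw [hang]; exact hz), hang]
      show pr Γ (S (-chi ε (ang b z)) • S (chi ε (ang b z)) • z) = pr Γ z
      rw [hSneg]
    · rw [hT2 z hz, hT2' z hz]
  have hinv' : ∀ x, T (T' x) = x := by
    intro x
    rcases key x with ⟨z, hz, rfl⟩ | ⟨z, hz, rfl⟩
    · rw [hT1' z hz, hT1 _ (by rw [hang]; exact hz), hang]
      show pr Γ (S (chi ε (ang b z)) • S (-chi ε (ang b z)) • z) = pr Γ z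
      rw [hSneg']
    · rw [hT2' z hz, hT2 z hz]
  exact ⟨⟨⟨T, T', hinv, hinv'⟩, hT, hT'⟩, hT1, hT2⟩

end Pool.Agent.GEN
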