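import Mathlib
import Pool.Agent.GEN.Basic
import Pool.Agent.GEN.Flow2
import Pool.Agent.GEN.TMap
import Pool.Agent.GEN.Sides

/-!
# The automorphism induced by a twist
-/

set_option autoImplicit false

open Topology Set Filter
open scoped MatrixGroups UpperHalfPlane

namespace Pool.Agent.GEN.LTw

open Pool.Agent.Helper2.Fuch

variable {Γ : Subgroup SL(2, ℝ)}

/-! ### Signs -/

/-- The side of a direction: positive on the left, negative on the right. -/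
noncomputable def sdir (b : Γ) (v : ℝ × ℝ) : ℝ := dt v (em b) * dt v (ep b) * dt (em b) (ep b)

lemma ang_pos_iff (hΓ : Hyp Γ) {b : Γ} (hb : b ≠ 1) (s : ℝ) (z : ℍ) :
    0 < s * ang b z ↔ 0 < s * ((RR (em b) (ep b) z).re * dt (em b) (ep b)) := by
  have hD := dt_em_ep hΓ hb
  have him : (RR (em b) (ep b) z).im * dt (em b) (ep b) > 0 := by
    rw [RR_im]
    have h1 := Complex.normSq_pos.mpr (DD_ne_zero (ep_ne_zero b) z)
    have h2 := z.im_pos
    have h3 : 0 < dt (em b) (ep b) * dt (em b) (ep b) := mul_self_pos.mpr hD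
    have h4 : dt (em b) (ep b) * z.im / Complex.normSq (DD (ep b) z) * dt (em b) (ep b) =
        dt (em b) (ep b) * dt (em b) (ep b) * (z.im / Complex.normSq (DD (ep b) z)) := by ring
    rw [h4]
    positivity
  have hi0 : (RR (em b) (ep b) z).im ≠ 0 := fun h => by rw [h, zero_mul] at him; exact lt_irrefl _ him
  have e : s * ang b z = s * ((RR (em b) (ep b) z).re * dt (em b) (ep b)) /
      ((RR (em b) (ep b) z).im * dt (em b) (ep b)) := by
    unfold ang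
    field_simp
  rw [e]
  exact div_pos_iff_of_pos_right him

lemma tendsto_re {b : Γ} {c : ℝ → ℍ} {l : Filter ℝ} {v : ℝ × ℝ} (hc : Conv c l v)
    (h2 : dt v (ep b) ≠ 0) : Tendsto (fun t => (RR (em b) (ep b) (c t)).re) l
      (𝓝 (dt v (em b) / dt v (ep b))) := by
  have h := (Complex.continuous_re.tendsto _).comp (hc.lim (em b) h2)
  rwa [Complex.ofReal_re] at h

lemma sdir_eq {b : Γ} {v : ℝ × ℝ} (h2 : dt v (ep b) ≠ 0) (s : ℝ) :
    s * sdir b v = s * (dt v (em b) / dt v (ep b) * dt (em b) (ep b)) * (dt v (ep b)) ^ 2 := by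
  unfold sdir
  field_simp

lemma eventually_side (hΓ : Hyp Γ) {b : Γ} (hb : b ≠ 1) {c : ℝ → ℍ} {l : Filter ℝ} {v : ℝ × ℝ}
    (hc : Conv c l v) {s : ℝ} (h : 0 < s * sdir b v) : ∀ᶠ t in l, 0 < s * ang b (c t) := by
  have h2 : dt v (ep b) ≠ 0 := by
    intro h0
    rw [sdir, h0] at h
    simp at h
  rw [sdir_eq h2] at h
  have h3 : 0 < s * (dt v (em b) / dt v (ep b) * dt (em b) (ep b)) := by
    rcases pos_and_pos_or_neg_and_neg_of_mul_pos h with h4 | h4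
    · exact h4.1
    · exact absurd h4.2 (not_lt.mpr (sq_nonneg _))
  have h4 : Tendsto (fun t => s * ((RR (em b) (ep b) (c t)).re * dt (em b) (ep b))) l
      (𝓝 (s * (dt v (em b) / dt v (ep b) * dt (em b) (ep b)))) :=
    ((tendsto_re hc h2).mul_const _).const_mul _
  filter_upwards [h4.eventually (lt_mem_nhds h3)] with t ht
  exact (ang_pos_iff hΓ hb s (c t)).mpr ht

lemma side_of_frequently (hΓ : Hyp Γ) {b : Γ} (hb : b ≠ 1) {c : ℝ → ℍ} {l : Filter ℝ}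
    {v : ℝ × ℝ} (hc : Conv c l v) (h1 : dt v (em b) ≠ 0) (h2 : dt v (ep b) ≠ 0) {s : ℝ}
    (hs : s ≠ 0) (h : ∃ᶠ t in l, 0 < s * ang b (c t)) : 0 < s * sdir b v := by
  by_contra hcon
  have h0 : s * sdir b v ≠ 0 := by
    unfold sdir
    exact mul_ne_zero hs (mul_ne_zero (mul_ne_zero h1 h2) (dt_em_ep hΓ hb))
  have h3 : 0 < (-s) * sdir b v := by
    rw [neg_mul]
    exact neg_pos.mpr (lt_of_le_of_ne (not_lt.mp hcon) h0)
  have h4 := eventually_side hΓ hb hc h3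
  refine h ?_
  filter_upwards [h4] with t ht
  rw [neg_mul] at ht
  linarith

/-- A point of the axis. -/
lemma exists_axis (hΓ : Hyp Γ) {b : Γ} (hb : b ≠ 1) : ∃ G : ℝ → ℍ, Conv G atTop (ep b) ∧
    ∀ t, ang b (G t) = 0 := by
  obtain ⟨G, -, -, h2, h3, -⟩ := exists_geod (dt_em_ep hΓ hb)
  exact ⟨G, h2, fun t => by unfold ang; rw [h3 t, zero_div]⟩

/-- Commuting elements have the same axis. -/
lemma abs_ang_of_commute (hΓ : Hyp Γ) {b c : Γ} (hb : b ≠ 1) (hc : c ≠ 1) (h : Commute c b)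
    (z : ℍ) : |ang c z| = |ang b z| := by
  rcases ends_of_commute hΓ hb hc h with ⟨h1, h2⟩ | ⟨h1, h2⟩
  · have e : ang c z = ang b z :=
      sd_par (em_ne_zero b) (em_ne_zero c) (ep_ne_zero b) (ep_ne_zero c) h2 h1 z
    rw [e]
  · have e : sd (ep c) (em c) z = ang b z :=
      sd_par (em_ne_zero b) (ep_ne_zero c) (ep_ne_zero b) (em_ne_zero c) h2 h1 z
    have e' : ang c z = -sd (ep c) (em c) z := sd_swap _ _ z
    rw [e', e, abs_neg]

section Collar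

variable {b : Γ} {ε : ℝ}

lemma conj_ne (hb : b ≠ 1) (g : Γ) : g * b * g⁻¹ ≠ 1 := GEN.conj_ne_one hb g

lemma conj_of_commute {g : Γ} (h : Commute g b) : g * b * g⁻¹ = b := by
  rw [h.eq, mul_inv_cancel_right]

lemma ang_conj' (hΓ : Hyp Γ) (hb : b ≠ 1) (g : Γ) (z : ℍ) :
    ang b (g⁻¹ • z) = ang (g * b * g⁻¹) z := by
  have h := ang_conj hΓ g hb (g⁻¹ • z)
  rw [smul_inv_smul] at h
  exact h.symm

lemma collar_symm (hΓ : Hyp Γ) (hb : b ≠ 1)
    (hcol : ∀ g : Γ, ¬ Commute g b → ∀ z : ℍ, |ang b z| ≤ ε → ε < |ang (g * b * g⁻¹) z|)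
    {g : Γ} (hg : ¬ Commute g b) {z : ℍ} (hz : |ang (g * b * g⁻¹) z| ≤ ε) : ε < |ang b z| := by
  have h1 := hcol g⁻¹ (fun h => hg (by simpa using h.inv_left)) (g⁻¹ • z)
    (by rw [ang_conj' hΓ hb]; exact hz)
  rwa [ang_conj hΓ g⁻¹ hb z] at h1

lemma not_commute_conj (hΓ : Hyp Γ) (hb : b ≠ 1) (hε : 0 < ε)
    (hcol : ∀ g : Γ, ¬ Commute g b → ∀ z : ℍ, |ang b z| ≤ ε → ε < |ang (g * b * g⁻¹) z|)
    {g : Γ} (hg : ¬ Commute g b) : ¬ Commute b (g * b * g⁻¹) := by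
  intro h
  obtain ⟨G, -, hG⟩ := exists_axis hΓ hb
  have h1 := hcol g hg (G 0) (by rw [hG, abs_zero]; exact hε.le)
  rw [abs_ang_of_commute hΓ hb (conj_ne hb g) h.symm, hG, abs_zero] at h1
  linarith

/-- The first collar on one side. -/
lemma exists_first [DiscreteTopology Γ] (hΓ : Hyp Γ) (hb : b ≠ 1)
    (hcol : ∀ g : Γ, ¬ Commute g b → ∀ z : ℍ, |ang b z| ≤ ε → ε < |ang (g * b * g⁻¹) z|)
    {s : ℝ} (hs : |s| = 1) {zA zB : ℍ} (hA : s * ang b zA ≤ ε) (hB : ε < s * ang b zB)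
    {g : Γ} (hg : ¬ Commute g b) (hBg : |ang (g * b * g⁻¹) zB| ≤ ε) :
    ∃ (p : ℝ → ℍ) (t0 t1 : ℝ), Continuous p ∧ t0 ≤ t1 ∧ s * ang b (p t0) = ε ∧
      (∀ t ∈ Icc t0 t1, ∀ h : Γ, ε ≤ |ang (h * b * h⁻¹) (p t)|) ∧ ε ≤ s * ang b (p t1) ∧
      ∃ h : Γ, ¬ Commute h b ∧ |ang (h * b * h⁻¹) (p t1)| = ε := by
  obtain ⟨γ⟩ := PathConnectedSpace.joined zA zB
  set p : ℝ → ℍ := fun t => γ.extend t with hp
  have hpc : Continuous p := γ.extend.continuous
  have hp0 : p 0 = zA := γ.extend_zero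
  have hp1 : p 1 = zB := γ.extend_one
  set f : ℝ → ℝ := fun t => s * ang b (p t) with hf
  have hfc : Continuous f := continuous_const.mul ((continuous_ang hΓ hb).comp hpc)
  have hfabs : ∀ t, f t ≤ |ang b (p t)| := by
    intro t
    have h1 : f t ≤ |s * ang b (p t)| := le_abs_self _
    rwa [abs_mul, hs, one_mul] at h1
  -- the last point in the closed half plane
  set A : Set ℝ := Icc 0 1 ∩ {t | f t ≤ ε} with hAdef
  have hAc : IsCompact A := isCompact_Icc.inter_right (isClosed_le hfc continuous_const)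
  have hAne : A.Nonempty := ⟨0, ⟨le_rfl, zero_le_one⟩, by
    change f 0 ≤ ε
    rw [hf]
    simp only
    rw [hp0]
    exact hA⟩
  set t0 := sSup A with ht0
  have ht0A : t0 ∈ A := hAc.sSup_mem hAne
  have hgt : ∀ t ∈ Icc (0 : ℝ) 1, t0 < t → ε < f t := by
    intro t ht htt
    by_contra hle
    exact absurd (le_csSup hAc.bddAbove ⟨ht, not_lt.mp hle⟩) (not_le.mpr htt)
  have hf1 : ε < f 1 := by
    rw [hf]
    simp only
    rw [hp1]
    exact hB
  have ht01 : t0 < 1 := by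
    rcases lt_or_eq_of_le ht0A.1.2 with h | h
    · exact h
    · exact absurd ht0A.2 (by rw [h]; exact not_le.mpr hf1)
  have hft0 : f t0 = ε := by
    obtain ⟨t, ht, hft⟩ := intermediate_value_Icc ht01.le hfc.continuousOn
      (⟨ht0A.2, hf1.le⟩ : ε ∈ Icc (f t0) (f 1))
    have h1 : t ≤ t0 := le_csSup hAc.bddAbove ⟨⟨ht0A.1.1.trans ht.1, ht.2⟩, hft.le⟩
    have h2 : t = t0 := le_antisymm h1 ht.1
    rwa [h2] at hft
  -- the first point in another collar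
  set K : Set ℍ := p '' Icc t0 1 with hK
  have hKc : IsCompact K := isCompact_Icc.image hpc
  set D : Set Γ := {δ : Γ | (∃ h : Γ, ¬ Commute h b ∧ δ = h * b * h⁻¹) ∧ ∃ z ∈ K, |ang δ z| ≤ ε}
    with hD
  have hDf : D.Finite := (collar_finite hΓ hb ε hKc).subset
    fun δ hδ => ⟨hδ.1.imp fun h hh => hh.2, hδ.2⟩
  set F : Set ℝ := Icc t0 1 ∩ ⋃ δ ∈ D, {t | |ang δ (p t)| ≤ ε} with hF
  have hFc : IsCompact F := by
    refine isCompact_Icc.inter_right (hDf.isClosed_biUnion fun δ hδ => ?_)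
    obtain ⟨⟨h, -, rfl⟩, -⟩ := hδ
    exact isClosed_le (((continuous_ang hΓ (conj_ne hb h)).comp hpc).abs) continuous_const
  have hFmem : ∀ t, t ∈ F ↔ t ∈ Icc t0 1 ∧ ∃ h : Γ, ¬ Commute h b ∧
      |ang (h * b * h⁻¹) (p t)| ≤ ε := by
    intro t
    constructor
    · rintro ⟨h1, h2⟩
      simp only [mem_iUnion] at h2
      obtain ⟨δ, ⟨⟨h, hh, rfl⟩, -⟩, h3⟩ := h2
      exact ⟨h1, h, hh, h3⟩
    · rintro ⟨h1, h, hh, h3⟩
      refine ⟨h1, ?_⟩
      simp only [mem_iUnion]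
      exact ⟨_, ⟨⟨h, hh, rfl⟩, p t, mem_image_of_mem _ h1, h3⟩, h3⟩
  have hFne : F.Nonempty := ⟨1, (hFmem 1).mpr ⟨⟨ht01.le, le_rfl⟩, g, hg, by rw [hp1]; exact hBg⟩⟩
  set t1 := sInf F with ht1
  have ht1F : t1 ∈ F := hFc.sInf_mem hFne
  obtain ⟨ht1I, h, hh, hh1⟩ := (hFmem t1).mp ht1F
  have hlt : t0 < t1 := by
    rcases lt_or_eq_of_le ht1I.1 with h' | h'
    · exact h'
    · exfalso
      rw [← h'] at hh1
      have h2 : |ang b (p t0)| = ε := by
        have h3 : |f t0| = |ang b (p t0)| := by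
          rw [hf]
          simp only
          rw [abs_mul, hs, one_mul]
        rw [← h3, hft0]
        have h4 : 0 ≤ ε := (abs_nonneg _).trans hh1
        exact abs_of_nonneg h4
      exact absurd (hcol h hh (p t0) h2.le) (not_lt.mpr hh1)
  have hout : ∀ k : Γ, ¬ Commute k b → ∀ t ∈ Ico t0 t1, ε ≤ |ang (k * b * k⁻¹) (p t)| := by
    intro k hk t ht
    by_contra hle
    rw [not_le] at hle
    have h2 : t ∈ F := (hFmem t).mpr ⟨⟨ht.1, ht.2.le.trans ht1I.2⟩, k, hk, hle.le⟩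
    exact absurd (csInf_le hFc.bddBelow h2) (not_le.mpr ht.2)
  have hout' : ∀ k : Γ, ¬ Commute k b → ∀ t ∈ Icc t0 t1, ε ≤ |ang (k * b * k⁻¹) (p t)| := by
    intro k hk
    have hcl : IsClosed {t : ℝ | ε ≤ |ang (k * b * k⁻¹) (p t)|} :=
      isClosed_le continuous_const (((continuous_ang hΓ (conj_ne hb k)).comp hpc).abs)
    have h2 : closure (Ico t0 t1) ⊆ {t : ℝ | ε ≤ |ang (k * b * k⁻¹) (p t)|} :=
      hcl.closure_subset_iff.mpr (hout k hk)
    rw [closure_Ico hlt.ne] at h2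
    exact fun t ht => h2 ht
  have hge : ∀ t ∈ Icc t0 t1, ε ≤ f t := by
    intro t ht
    rcases lt_or_eq_of_le ht.1 with h2 | h2
    · exact (hgt t ⟨ht0A.1.1.trans ht.1, ht.2.trans ht1I.2⟩ h2).le
    · rw [← h2, hft0]
  refine ⟨p, t0, t1, hpc, hlt.le, hft0, fun t ht k => ?_, hge t1 ⟨hlt.le, le_rfl⟩, h, hh,
    le_antisymm hh1 (hout' h hh t1 ⟨hlt.le, le_rfl⟩)⟩
  by_cases hk : Commute k b
  · rw [conj_of_commute hk]
    exact (hge t ht).trans (hfabs t)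
  · exact hout' k hk t ht

lemma flow_zero {S : ℝ → SL(2, ℝ)} (hadd : ∀ s t, S (s + t) = S s * S t) : S 0 = 1 := by
  have h := hadd 0 0
  rw [add_zero] at h
  exact (mul_eq_left.mp h.symm)

/-- The twist is the identity on the frontiers of the collars. -/
lemma fix_frontier (hΓ : Hyp Γ) (hb : b ≠ 1) (hε : 0 < ε) {S : ℝ → SL(2, ℝ)}
    (hadd : ∀ s t, S (s + t) = S s * S t) (h1 : ∀ z : ℍ, S 1 • z = b • z)
    {T : Surf Γ ≃ₜ Surf Γ}
    (hT1 : ∀ z : ℍ, |ang b z| ≤ ε → T (pr Γ z) = pr Γ (S (chi ε (ang b z)) • z)) (h : Γ) {z : ℍ}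
    (hz : |ang (h * b * h⁻¹) z| = ε) : T (pr Γ z) = pr Γ z := by
  rw [← ang_conj' hΓ hb] at hz
  have h2 : pr Γ z = pr Γ (h⁻¹ • z) := (pr_smul h⁻¹ z).symm
  rw [h2, hT1 _ hz.le]
  rcases (abs_eq hε.le).mp hz with h3 | h3
  · rw [h3, chi_right, flow_zero hadd, one_smul]
  · rw [h3, chi_left hε, h1]
    exact pr_smul b _

end Collar

/-- The lift of the twist along a path on which the twist is the identity. -/
lemma lift_const [DiscreteTopology Γ] (hΓ : Hyp Γ) {T : Surf Γ ≃ₜ Surf Γ} {φ : ℍ ≃ₜ ℍ}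
    (hφ : ∀ z, pr Γ (φ z) = T (pr Γ z)) {c : ℝ → ℍ} (hc : Continuous c) {J : Set ℝ}
    (hJ : IsPreconnected J) (hT : ∀ t ∈ J, T (pr Γ (c t)) = pr Γ (c t)) {k : Γ} {t₀ t : ℝ}
    (ht₀ : t₀ ∈ J) (ht : t ∈ J) (h : φ (c t₀) = k • c t₀) : φ (c t) = k • c t := by
  have h2 : EqOn (fun t => φ (c t)) (fun t => k • c t) J := by
    refine hΓ.isCov.eqOn_of_comp_eqOn hJ (φ.continuous.comp hc).continuousOn
      ((continuous_const_smul k).comp hc).continuousOn (fun t ht => ?_) ht₀ h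
    change pr Γ (φ (c t)) = pr Γ (k • c t)
    rw [hφ, hT t ht, pr_smul]
  exact h2 ht

lemma flow_continuous {S : ℝ → SL(2, ℝ)} (hS : Continuous (fun p : ℝ × ℍ => S p.1 • p.2))
    (w : ℍ) : Continuous fun s : ℝ => S s • w := by
  have h3 : Continuous fun s : ℝ => (s, w) := by fun_prop
  have h4 := hS.comp h3
  exact h4

/-- The curve along the frontier of the collar of `h b h⁻¹`. -/
noncomputable def fcurve (S : ℝ → SL(2, ℝ)) (h : Γ) (z : ℍ) (s : ℝ) : ℍ := h • (S s • (h⁻¹ • z))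

lemma fcurve_continuous {S : ℝ → SL(2, ℝ)} (hS : Continuous (fun p : ℝ × ℍ => S p.1 • p.2))
    (h : Γ) (z : ℍ) : Continuous (fcurve S h z) := by
  unfold fcurve
  exact (continuous_const_smul h).comp (flow_continuous hS _)

lemma fcurve_zero {S : ℝ → SL(2, ℝ)} (hadd : ∀ s t, S (s + t) = S s * S t) (h : Γ) (z : ℍ) :
    fcurve S h z 0 = z := by
  unfold fcurve
  rw [flow_zero hadd, one_smul, smul_inv_smul]

lemma fcurve_ang_aux (hΓ : Hyp Γ) {b : Γ} (hb : b ≠ 1) (w : ℍ) (h : Γ) :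
    ang (h * b * h⁻¹) (h • w) = ang b w := by
  have h2 := ang_conj hΓ h hb w
  exact h2

lemma fcurve_ang (hΓ : Hyp Γ) {b : Γ} (hb : b ≠ 1) {S : ℝ → SL(2, ℝ)}
    (hang : ∀ s z, ang b (S s • z) = ang b z) (h : Γ) (z : ℍ) (s : ℝ) :
    ang (h * b * h⁻¹) (fcurve S h z s) = ang (h * b * h⁻¹) z :=
  (fcurve_ang_aux hΓ hb (S s • (h⁻¹ • z)) h).trans
    ((hang s (h⁻¹ • z)).trans (ang_conj' hΓ hb h z))

lemma fcurve_nat {b : Γ} {S : ℝ → SL(2, ℝ)} (hadd : ∀ s t, S (s + t) = S s * S t)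
    (h1 : ∀ z : ℍ, S 1 • z = b • z) (h : Γ) (z : ℍ) (n : ℕ) :
    fcurve S h z n = (h * b * h⁻¹) ^ n • z := by
  have h2 : ∀ n : ℕ, ∀ w : ℍ, S n • w = b ^ n • w := by
    intro n
    induction n with
    | zero => intro w; rw [Nat.cast_zero, flow_zero hadd, one_smul, pow_zero, one_smul]
    | succ n ih =>
      intro w
      have h3 : S ((n : ℝ) + 1) • w = S n • (S 1 • w) := by rw [hadd, mul_smul]
      rw [Nat.cast_succ, h3, h1, ih, pow_succ, mul_smul]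
  have h3 : (h * b * h⁻¹) ^ n = h * (b ^ n * h⁻¹) := by rw [conj_pow, mul_assoc]
  rw [h3, mul_smul, mul_smul, ← h2]
  rfl

/-- The automorphism on the stabilizer of a collar. -/
lemma theta_conj [DiscreteTopology Γ] (hΓ : Hyp Γ) {b : Γ} {ε : ℝ} (hb : b ≠ 1) (hε : 0 < ε)
    {S : ℝ → SL(2, ℝ)} (hS : Continuous (fun p : ℝ × ℍ => S p.1 • p.2))
    (hadd : ∀ s t, S (s + t) = S s * S t) (h1 : ∀ z : ℍ, S 1 • z = b • z)
    (hang : ∀ s z, ang b (S s • z) = ang b z) {T : Surf Γ ≃ₜ Surf Γ}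
    (hT1 : ∀ z : ℍ, |ang b z| ≤ ε → T (pr Γ z) = pr Γ (S (chi ε (ang b z)) • z)) {φ : ℍ ≃ₜ ℍ}
    (hφ : ∀ z, pr Γ (φ z) = T (pr Γ z)) {θ : MulAut Γ} (hθ : Eqv φ θ) {h k : Γ} {z : ℍ}
    (hz : |ang (h * b * h⁻¹) z| = ε) (hk : φ z = k • z) :
    θ (h * b * h⁻¹) = k * (h * b * h⁻¹) * k⁻¹ := by
  have hfr : ∀ s, |ang (h * b * h⁻¹) (fcurve S h z s)| = ε := fun s => by
    rw [fcurve_ang hΓ hb hang]
    exact hz
  have hc1 : fcurve S h z 1 = (h * b * h⁻¹) • z := by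
    have h2 := fcurve_nat hadd h1 h z 1
    rwa [Nat.cast_one, pow_one] at h2
  have h2 := lift_const hΓ hφ (fcurve_continuous hS h z) isPreconnected_univ
    (fun t _ => fix_frontier hΓ hb hε hadd h1 hT1 h (hfr t)) (k := k) (mem_univ 0) (mem_univ 1)
    (by rw [fcurve_zero hadd]; exact hk)
  rw [hc1, hθ, hk] at h2
  generalize h * b * h⁻¹ = δ at h2
  have h3 : (k * δ)⁻¹ * (θ δ * k) = 1 := by
    refine hΓ.free (z := z) ?_
    rw [mul_smul, mul_smul, h2, ← mul_smul k δ, inv_smul_smul]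
  rw [inv_mul_eq_one] at h3
  rw [h3, mul_inv_cancel_right]

/-- The ends of the axis of an adjacent collar. -/
lemma side_first [DiscreteTopology Γ] (hΓ : Hyp Γ) {b : Γ} {ε : ℝ} (hb : b ≠ 1) (hε : 0 < ε)
    (hcol : ∀ g : Γ, ¬ Commute g b → ∀ z : ℍ, |ang b z| ≤ ε → ε < |ang (g * b * g⁻¹) z|)
    {S : ℝ → SL(2, ℝ)} (hS : Continuous (fun p : ℝ × ℍ => S p.1 • p.2))
    (hadd : ∀ s t, S (s + t) = S s * S t) (h1 : ∀ z : ℍ, S 1 • z = b • z)
    (hang : ∀ s z, ang b (S s • z) = ang b z) {s : ℝ} (hs : |s| = 1) {h : Γ}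
    (hh : ¬ Commute h b) {z : ℍ} (hz : |ang (h * b * h⁻¹) z| = ε) (hzs : ε ≤ s * ang b z) :
    0 < s * sdir b (ep (h * b * h⁻¹)) := by
  set δ := h * b * h⁻¹ with hδ
  have hδ1 : δ ≠ 1 := conj_ne hb h
  have hs0 : s ≠ 0 := by
    rintro rfl
    simp at hs
  have hfr : ∀ s, |ang δ (fcurve S h z s)| = ε := fun s => by
    rw [hδ, fcurve_ang hΓ hb hang]
    exact hz
  have hne : ∀ t, s * ang b (fcurve S h z t) ≠ 0 := by
    intro t h0
    have h2 := collar_symm hΓ hb hcol hh (hfr t).le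
    rcases mul_eq_zero.mp h0 with h3 | h3
    · exact hs0 h3
    · rw [h3, abs_zero] at h2
      linarith
  have hpos : ∀ t, 0 < s * ang b (fcurve S h z t) := by
    intro t
    by_contra hcon
    have hcont : Continuous fun t => s * ang b (fcurve S h z t) :=
      continuous_const.mul ((continuous_ang hΓ hb).comp (fcurve_continuous hS h z))
    have h0 : 0 < s * ang b (fcurve S h z 0) := by
      rw [fcurve_zero hadd]
      linarith
    obtain ⟨t', ht'⟩ := mem_range_of_exists_le_of_exists_ge hcont ⟨t, not_lt.mp hcon⟩ ⟨0, h0.le⟩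
    exact hne t' ht'
  have hCon : Con δ (fun t => δ ^ ⌊t⌋₊ • z) atTop := by
    refine ⟨{z}, isCompact_singleton, fun N => ?_⟩
    filter_upwards [eventually_ge_atTop (N : ℝ)] with t ht
    exact ⟨⌊t⌋₊, Nat.le_floor ht, z, rfl, rfl⟩
  have hConv := hCon.conv hΓ hδ1
  have hend := ends_ne hΓ hδ1 hb fun hcm => not_commute_conj hΓ hb hε hcol hh hcm.symm
  refine side_of_frequently hΓ hb hConv hend.2.1 hend.1 hs0 (Eventually.frequently ?_)
  refine Eventually.of_forall fun t => ?_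
  have h5 := hpos (⌊t⌋₊ : ℝ)
  rw [fcurve_nat hadd h1] at h5
  exact h5

/-- The collar is connected. -/
lemma collar_connected (hΓ : Hyp Γ) {b : Γ} (hb : b ≠ 1) (ε : ℝ) :
    IsPreconnected {z : ℍ | |ang b z| ≤ ε} := by
  set M := col (em b) (ep b) (dt_em_ep hΓ hb) with hM
  have hang : ∀ z : ℍ, ang b (M • z) = z.re / z.im := by
    intro z
    have h1 := RR_col (em b) (ep b) (dt_em_ep hΓ hb) z
    have hD := dt_em_ep hΓ hb
    unfold ang
    rw [hM, h1, Complex.re_ofReal_mul, Complex.im_ofReal_mul, mul_div_mul_left _ _ hD]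
    rfl
  have hC : IsPreconnected {z : ℍ | |z.re / z.im| ≤ ε} := by
    rw [← UpperHalfPlane.isOpenEmbedding_coe.isInducing.isPreconnected_image]
    have h2 : ((↑) : ℍ → ℂ) '' {z : ℍ | |z.re / z.im| ≤ ε} =
        {w : ℂ | 0 < w.im} ∩ ({w : ℂ | w.re ≤ ε * w.im} ∩ {w : ℂ | -(ε * w.im) ≤ w.re}) := by
      ext w
      constructor
      · rintro ⟨z, hz, rfl⟩
        have hz' : |z.re / z.im| ≤ ε := hz
        rw [abs_div, abs_of_pos z.im_pos, div_le_iff₀ z.im_pos, abs_le] at hz'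
        exact ⟨z.im_pos, hz'.2, hz'.1⟩
      · rintro ⟨h3, h4, h5⟩
        have h3' : 0 < w.im := h3
        refine ⟨⟨w, h3'⟩, ?_, rfl⟩
        change |w.re / w.im| ≤ ε
        rw [abs_div, abs_of_pos h3', div_le_iff₀ h3', abs_le]
        exact ⟨h5, h4⟩
    rw [h2]
    apply Convex.isPreconnected
    have hre : IsLinearMap ℝ (Complex.re) := ⟨fun _ _ => rfl, fun c x => by simp⟩
    have him : IsLinearMap ℝ (Complex.im) := ⟨fun _ _ => rfl, fun c x => by simp⟩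
    refine (convex_halfSpace_gt him 0).inter (Convex.inter ?_ ?_)
    · have h6 : IsLinearMap ℝ (fun w : ℂ => w.re - ε * w.im) :=
        ⟨fun x y => by simp; ring, fun c x => by simp; ring⟩
      have h7 := convex_halfSpace_le h6 0
      convert h7 using 1
      ext w
      simp
    · have h6 : IsLinearMap ℝ (fun w : ℂ => w.re + ε * w.im) :=
        ⟨fun x y => by simp; ring, fun c x => by simp; ring⟩
      have h7 := convex_halfSpace_ge h6 0
      convert h7 using 1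
      ext w
      simp only [mem_ofPred_eq]
      constructor <;> intro h <;> linarith
  have himage : {z : ℍ | |ang b z| ≤ ε} = (fun z => M • z) '' {z : ℍ | |z.re / z.im| ≤ ε} := by
    ext z
    constructor
    · intro hz
      refine ⟨M⁻¹ • z, ?_, smul_inv_smul _ _⟩
      have h3 := hang (M⁻¹ • z)
      rw [smul_inv_smul] at h3
      change |_ / _| ≤ ε
      rw [← h3]
      exact hz
    · rintro ⟨w, hw, rfl⟩
      change |ang b (M • w)| ≤ ε
      rw [hang]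
      exact hw
  rw [himage]
  exact hC.image _ (continuous_const_smul M).continuousOn

/-- A point of a translate of the axis on one side. -/
lemma exists_far (hΓ : Hyp Γ) {b : Γ} {ε : ℝ} (hb : b ≠ 1) (hε : 0 < ε)
    (hcol : ∀ g : Γ, ¬ Commute g b → ∀ z : ℍ, |ang b z| ≤ ε → ε < |ang (g * b * g⁻¹) z|)
    {s : ℝ} (hs : |s| = 1) {g : Γ} (hg : 0 < s * sdir b (ep (g * b * g⁻¹))) :
    ¬ Commute g b ∧ ∃ z : ℍ, ε < s * ang b z ∧ |ang (g * b * g⁻¹) z| ≤ ε := by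
  have hng : ¬ Commute g b := by
    intro h
    rw [conj_of_commute h, sdir, dt_self, mul_zero, zero_mul, mul_zero] at hg
    exact lt_irrefl _ hg
  refine ⟨hng, ?_⟩
  obtain ⟨G, hG, hG0⟩ := exists_axis hΓ (conj_ne hb g)
  obtain ⟨t, ht⟩ := (eventually_side hΓ hb hG hg).exists
  have h0 : |ang (g * b * g⁻¹) (G t)| ≤ ε := by
    rw [hG0, abs_zero]
    exact hε.le
  refine ⟨G t, ?_, h0⟩
  have h2 := collar_symm hΓ hb hcol hng h0
  have h3 : |s * ang b (G t)| = |ang b (G t)| := by rw [abs_mul, hs, one_mul]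
  rwa [← h3, abs_of_pos ht] at h2

end Pool.Agent.GEN.LTw

namespace Pool.Agent.GEN

open Pool.Agent.Helper2.Fuch LTw

variable {Γ : Subgroup SL(2, ℝ)}

/-- **The twist.** -/
theorem exists_twist (hΓ : Hyp Γ) [DiscreteTopology Γ] {b c : Γ} (hb : Simple b) (hc : Cr b c) :
    ∃ (T : Surf Γ ≃ₜ Surf Γ) (θ : MulAut Γ), LiftOf T θ ∧ Twist b θ := by
  obtain ⟨ε, hε, hcol⟩ := exists_collar hΓ hb
  obtain ⟨S, hS, hadd, h1, hang, hcomm⟩ := exists_flow hΓ hb.1
  obtain ⟨T, hT1, hT2⟩ := exists_tmap hΓ hb.1 hε hcol hS hadd h1 hang hcomm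
  obtain ⟨⟨gl, hgl, -⟩, gr, hgr, -⟩ := exists_sides hΓ hb hc
  have hgl' : 0 < (1 : ℝ) * sdir b (ep (gl * b * gl⁻¹)) := by rw [one_mul]; exact hgl
  have hgr' : 0 < (-1 : ℝ) * sdir b (ep (gr * b * gr⁻¹)) := by
    have : sdir b (ep (gr * b * gr⁻¹)) < 0 := hgr
    linarith
  obtain ⟨hngl, zl, hzl, hzl'⟩ := exists_far hΓ hb.1 hε hcol (abs_one) hgl'
  obtain ⟨hngr, zr, hzr, hzr'⟩ := exists_far hΓ hb.1 hε hcol (by rw [abs_neg, abs_one]) hgr'
  obtain ⟨G, -, hG⟩ := exists_axis hΓ hb.1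
  obtain ⟨p, t0, t1, hp, ht, hp0, hpT, hp1, hl, hhl, hhl1⟩ := exists_first hΓ hb.1 hcol abs_one
    (zA := G 0) (by rw [hG, mul_zero]; exact hε.le) hzl hngl hzl'
  obtain ⟨q, r0, r1, hq, hr, hq0, hqT, hq1, hr', hhr, hhr1⟩ := exists_first hΓ hb.1 hcol
    (by rw [abs_neg, abs_one]) (zA := G 0) (by rw [hG, mul_zero]; exact hε.le) hzr hngr hzr'
  rw [one_mul] at hp0
  have hq0' : ang b (q r0) = -ε := by linarith
  -- the lift
  obtain ⟨φ, hφ0, hφ⟩ := hΓ.exists_homeo T (a := p t0) (b := p t0)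
    (hT2 _ (hpT t0 ⟨le_rfl, ht⟩)).symm
  obtain ⟨θ, hθ⟩ := hΓ.exists_eqv hφ
  have e1 : φ (p t0) = (1 : Γ) • p t0 := by rw [hφ0, one_smul]
  have e2 : φ (p t1) = (1 : Γ) • p t1 :=
    lift_const hΓ hφ hp isPreconnected_Icc (fun t ht' => hT2 _ (hpT t ht')) ⟨le_rfl, ht⟩
      ⟨ht, le_rfl⟩ e1
  have e3 : φ (q r0) = b • q r0 := by
    have hcolc := collar_connected hΓ hb.1 ε
    have h2 : EqOn φ (fun z => S (chi ε (ang b z)) • z) {z : ℍ | |ang b z| ≤ ε} := by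
      refine hΓ.isCov.eqOn_of_comp_eqOn hcolc φ.continuous.continuousOn ?_ (fun z hz => ?_)
        (a := p t0) ?_ ?_
      · have h3 : Continuous fun z : ℍ => (chi ε (ang b z), z) := by
          have h4 := continuous_ang hΓ hb.1
          unfold chi
          fun_prop
        exact (hS.comp h3).continuousOn
      · change pr Γ (φ z) = pr Γ (S (chi ε (ang b z)) • z)
        rw [hφ, hT1 z hz]
      · change |ang b (p t0)| ≤ ε
        rw [hp0, abs_of_pos hε]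
      · rw [hp0, chi_right, flow_zero hadd, one_smul, hφ0]
    have h3 := h2 (show q r0 ∈ {z : ℍ | |ang b z| ≤ ε} by
      change |ang b (q r0)| ≤ ε
      rw [hq0', abs_neg, abs_of_pos hε])
    have h4 : (fun z => S (chi ε (ang b z)) • z) (q r0) = b • q r0 := by
      change S (chi ε (ang b (q r0))) • q r0 = b • q r0
      rw [hq0', chi_left hε, h1]
    rw [h3, h4]
  have e4 : φ (q r1) = b • q r1 :=
    lift_const hΓ hφ hq isPreconnected_Icc (fun t ht' => hT2 _ (hqT t ht')) ⟨le_rfl, hr⟩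
      ⟨hr, le_rfl⟩ e3
  refine ⟨T, θ, ⟨φ, hφ, hθ⟩, hθ.op hΓ, ?_, ?_, ?_⟩
  · have h2 := theta_conj hΓ hb.1 hε hS hadd h1 hang hT1 hφ hθ (h := 1) (k := 1) (z := p t0)
      (by rw [one_mul, inv_one, mul_one, hp0, abs_of_pos hε]) e1
    simpa using h2
  · refine ⟨hl * b * hl⁻¹, conj_ne hb.1 hl, ?_, ?_⟩
    · have h2 := side_first hΓ hb.1 hε hcol hS hadd h1 hang abs_one hhl hhl1 hp1
      rw [one_mul] at h2
      exact h2
    · have h2 := theta_conj hΓ hb.1 hε hS hadd h1 hang hT1 hφ hθ hhl1 e2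
      rw [h2]
      group
  · refine ⟨hr' * b * hr'⁻¹, conj_ne hb.1 hr', ?_, ?_⟩
    · have h2 := side_first hΓ hb.1 hε hcol hS hadd h1 hang (by rw [abs_neg, abs_one]) hhr hhr1
        hq1
      have h3 : sdir b (ep (hr' * b * hr'⁻¹)) < 0 := by linarith
      exact h3
    · exact theta_conj hΓ hb.1 hε hS hadd h1 hang hT1 hφ hθ hhr1 e4

end Pool.Agent.GEN
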