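import Mathlib
import Pool.Agent.GEN.Act
import Pool.Agent.GEN.Defs

/-!
# Closed curves on the surface and elements of the group
-/

set_option autoImplicit false

open Topology Set Filter unitInterval
open scoped MatrixGroups UpperHalfPlane

namespace Pool.Agent.GEN

open Pool.Agent.Helper2.Fuch Pool.Agent.Helper2.Genus Pool.Agent.Helper2.Planar

variable {Γ : Subgroup SL(2, ℝ)}

/-! ### The circle -/

/-- The projection of the line onto the circle. -/
def toCircle : C(ℝ, UnitAddCircle) := ⟨fun t => (t : UnitAddCircle), continuous_quotient_mk'⟩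

lemma toCircle_quot : IsOpenQuotientMap (toCircle : ℝ → UnitAddCircle) :=
  QuotientAddGroup.isOpenQuotientMap_mk

lemma toCircle_eq {s t : ℝ} (h : toCircle s = toCircle t) : ∃ n : ℤ, s = t + n := by
  have h1 : ((s : ℝ) : UnitAddCircle) = (t : UnitAddCircle) := h
  rw [QuotientAddGroup.eq_iff_sub_mem, AddSubgroup.mem_zmultiples_iff] at h1
  obtain ⟨n, hn⟩ := h1
  refine ⟨n, ?_⟩
  rw [zsmul_eq_mul, mul_one] at hn
  linarith

lemma toCircle_add_one (t : ℝ) : toCircle (t + 1) = toCircle t := AddCircle.coe_add_period 1 t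

lemma periodic_int {A : Type*} {f : ℝ → A} (h : ∀ t, f (t + 1) = f t) (t : ℝ) (n : ℤ) :
    f (t + n) = f t := by
  have h1 : Function.Periodic f 1 := h
  have h2 := h1.int_mul n
  rw [mul_one] at h2
  exact h2 t

/-- A continuous periodic function defines a function on the circle. -/
lemma exists_circle {A : Type*} [TopologicalSpace A] {f : ℝ → A} (hf : Continuous f)
    (h : ∀ t, f (t + 1) = f t) : ∃ c : C(UnitAddCircle, A), ∀ t, c (toCircle t) = f t := by
  have hfac : ∀ s t : ℝ, toCircle s = toCircle t → (⟨f, hf⟩ : C(ℝ, A)) s =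
      (⟨f, hf⟩ : C(ℝ, A)) t := by
    intro s t hst
    obtain ⟨n, rfl⟩ := toCircle_eq hst
    exact periodic_int h t n
  refine ⟨toCircle_quot.isQuotientMap.lift ⟨f, hf⟩ hfac, fun t => ?_⟩
  exact congrFun (congrArg DFunLike.coe
    (toCircle_quot.isQuotientMap.lift_comp (⟨f, hf⟩ : C(ℝ, A)) hfac)) t

/-- A continuous periodic family of functions defines a homotopy. -/
lemma homotopic_of {A : Type*} [TopologicalSpace A] {c c' : C(UnitAddCircle, A)}
    {F : I × ℝ → A} (hF : Continuous F) (h : ∀ s t, F (s, t + 1) = F (s, t))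
    (h0 : ∀ t, F (0, t) = c (toCircle t)) (h1 : ∀ t, F (1, t) = c' (toCircle t)) :
    c.Homotopic c' := by
  let P : C(I × ℝ, I × UnitAddCircle) := ⟨Prod.map id toCircle,
    continuous_id.prodMap toCircle.continuous⟩
  have hP : IsOpenQuotientMap (P : I × ℝ → I × UnitAddCircle) :=
    IsOpenQuotientMap.id.prodMap toCircle_quot
  have hfac : ∀ a b : I × ℝ, P a = P b → (⟨F, hF⟩ : C(I × ℝ, A)) a =
      (⟨F, hF⟩ : C(I × ℝ, A)) b := by
    rintro ⟨s, t⟩ ⟨s', t'⟩ hst
    obtain ⟨rfl, h2⟩ := Prod.mk.injEq _ _ _ _ ▸ hst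
    obtain ⟨n, rfl⟩ := toCircle_eq h2
    exact periodic_int (f := fun t => F (s, t)) (h s) t' n
  let G := hP.isQuotientMap.lift (⟨F, hF⟩ : C(I × ℝ, A)) hfac
  have hG : ∀ s t, G (s, toCircle t) = F (s, t) := fun s t =>
    congrFun (congrArg DFunLike.coe (hP.isQuotientMap.lift_comp (⟨F, hF⟩ : C(I × ℝ, A)) hfac))
      (s, t)
  refine ⟨⟨G, fun x => ?_, fun x => ?_⟩⟩
  · obtain ⟨t, rfl⟩ := toCircle_quot.surjective x
    exact (hG 0 t).trans (h0 t)
  · obtain ⟨t, rfl⟩ := toCircle_quot.surjective x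
    exact (hG 1 t).trans (h1 t)

/-! ### Lifts of closed curves -/

/-- `l` is a lift of the closed curve `c` and `x` is the corresponding element of the group. -/
structure Rep (c : C(UnitAddCircle, Surf Γ)) (x : Γ) (l : ℝ → ℍ) : Prop where
  cont : Continuous l
  lift : ∀ t, pr Γ (l t) = c (toCircle t)
  per : ∀ t, l (t + 1) = x • l t

lemma Rep.pow {c : C(UnitAddCircle, Surf Γ)} {x : Γ} {l : ℝ → ℍ} (h : Rep c x l) (t : ℝ)
    (n : ℕ) : l (t + n) = x ^ n • l t := by
  induction n with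
  | zero => simp
  | succ n ih =>
    have h1 := h.per (t + n)
    rw [Nat.cast_succ, ← add_assoc, h1, ih, smul_smul, ← pow_succ']

lemma Rep.zpow {c : C(UnitAddCircle, Surf Γ)} {x : Γ} {l : ℝ → ℍ} (h : Rep c x l) (t : ℝ)
    (n : ℤ) : l (t + n) = x ^ n • l t := by
  obtain ⟨n, rfl | rfl⟩ := n.eq_nat_or_neg
  · have := h.pow t n
    simpa using this
  · have h1 := h.pow (t + ((-n : ℤ) : ℝ)) n
    rw [zpow_neg, zpow_natCast, eq_inv_smul_iff, ← h1]
    congr 1
    push_cast
    ring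

lemma exists_rep_of {x : Γ} {l : ℝ → ℍ} (hl : Continuous l) (h : ∀ t, l (t + 1) = x • l t) :
    ∃ c : C(UnitAddCircle, Surf Γ), Rep c x l := by
  obtain ⟨c, hc⟩ := exists_circle (f := fun t => pr Γ (l t)) (pr_continuous.comp hl)
    (fun t => by rw [h, pr_smul])
  exact ⟨c, hl, fun t => (hc t).symm, h⟩

lemma Rep.conj {c : C(UnitAddCircle, Surf Γ)} {x : Γ} {l : ℝ → ℍ} (h : Rep c x l) (g : Γ) :
    Rep c (g * x * g⁻¹) (fun t => g • l t) where
  cont := (continuous_const_smul g).comp h.cont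
  lift := fun t => by rw [pr_smul, h.lift]
  per := fun t => by
    rw [h.per, smul_smul, smul_smul]
    congr 1
    group

lemma Rep.map {c : C(UnitAddCircle, Surf Γ)} {x : Γ} {l : ℝ → ℍ} (h : Rep c x l)
    {k : Surf Γ ≃ₜ Surf Γ} {φ : ℍ ≃ₜ ℍ} {θ : MulAut Γ} (h1 : ∀ z, pr Γ (φ z) = k (pr Γ z))
    (h2 : Eqv φ θ) : Rep ((⟨k, k.continuous⟩ : C(Surf Γ, Surf Γ)).comp c) (θ x) (φ ∘ l) where
  cont := φ.continuous.comp h.cont
  lift := fun t => by
    rw [Function.comp_apply, h1, h.lift]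
    rfl
  per := fun t => by rw [Function.comp_apply, h.per, h2, Function.comp_apply]

section
variable [DiscreteTopology Γ] (hΓ : Hyp Γ)

include hΓ in
lemma exists_rep (c : C(UnitAddCircle, Surf Γ)) : ∃ x l, Rep c x l := by
  obtain ⟨z₀, hz₀⟩ := pr_surj (c (toCircle 0))
  obtain ⟨l, ⟨h1, h2⟩, -⟩ := hΓ.isCov.existsUnique_continuousMap_lifts
    (c.comp toCircle) 0 z₀ hz₀
  have hl : ∀ t, pr Γ (l t) = c (toCircle t) := fun t => congrFun h2 t
  have h3 : pr Γ (l 1) = pr Γ (l 0) := by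
    rw [hl, hl]
    congr 1
    have := toCircle_add_one 0
    rwa [zero_add] at this
  obtain ⟨x, hx⟩ := pr_eq.mp h3
  refine ⟨x, l, l.continuous, hl, fun t => ?_⟩
  have h4 : (fun t : ℝ => l (t + 1)) = fun t => x • l t := by
    refine hΓ.lift_unique (l.continuous.comp (continuous_id.add continuous_const))
      ((continuous_const_smul x).comp l.continuous) (fun t => ?_) (a := 0) ?_
    · rw [hl, pr_smul, hl, toCircle_add_one]
    · rw [zero_add]
      exact hx.symm
  exact congrFun h4 t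

end

/-- Interpolation in the upper half plane. -/
noncomputable def mix (s : I) (z w : ℍ) : ℍ :=
  ⟨(1 - (s : ℝ)) * (z : ℂ) + (s : ℝ) * (w : ℂ), by
    have h1 : ((1 - (s : ℝ)) * (z : ℂ) + (s : ℝ) * (w : ℂ)).im = (1 - (s : ℝ)) * z.im + s * w.im := by
      simp
    rw [h1]
    have h2 := s.2.1
    have h3 := s.2.2
    have h4 := z.im_pos
    have h5 := w.im_pos
    rcases eq_or_lt_of_le h3 with h | h
    · rw [h]
      simpa using h5
    · have : 0 < (1 - (s : ℝ)) * z.im := mul_pos (by linarith) h4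
      have : 0 ≤ (s : ℝ) * w.im := mul_nonneg h2 h5.le
      linarith⟩

lemma coe_mix (s : I) (z w : ℍ) :
    ((mix s z w : ℍ) : ℂ) = (1 - (s : ℝ)) * (z : ℂ) + (s : ℝ) * (w : ℂ) := rfl

lemma continuous_mix : Continuous (fun p : I × ℍ × ℍ => mix p.1 p.2.1 p.2.2) := by
  rw [UpperHalfPlane.isEmbedding_coe.continuous_iff]
  change Continuous fun p : I × ℍ × ℍ =>
    ((1 - ((p.1 : ℝ) : ℂ)) * (p.2.1 : ℂ) + ((p.1 : ℝ) : ℂ) * (p.2.2 : ℂ))
  have := UpperHalfPlane.continuous_coe
  fun_prop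

/-- In the coordinate given by `M` the element `k` is a dilation with factor `r`. -/
def Dil (M k : SL(2, ℝ)) (r : ℝ) : Prop :=
  0 < r ∧ ∀ z : ℍ, ((M • k • z : ℍ) : ℂ) = r * ((M • z : ℍ) : ℂ)

lemma dil_one (M : SL(2, ℝ)) : Dil M 1 1 := ⟨one_pos, fun z => by simp⟩

/-- Two closed curves with the same element are homotopic. -/
lemma Rep.homotopic {c c' : C(UnitAddCircle, Surf Γ)} {x : Γ} {l l' : ℝ → ℍ} (h : Rep c x l)
    (h' : Rep c' x l') {M : SL(2, ℝ)} {r : ℝ} (hd : Dil M x r) : c.Homotopic c' := by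
  let F : I × ℝ → ℍ := fun p => M⁻¹ • mix p.1 (M • l p.2) (M • l' p.2)
  have hF : Continuous F := by
    have h1 : Continuous (fun t => M • l t) := (continuous_const_smul M).comp h.cont
    have h2 : Continuous (fun t => M • l' t) := (continuous_const_smul M).comp h'.cont
    exact (continuous_const_smul M⁻¹).comp (continuous_mix.comp (continuous_fst.prodMk
      ((h1.comp continuous_snd).prodMk (h2.comp continuous_snd))))
  refine homotopic_of (F := fun p => pr Γ (F p)) (pr_continuous.comp hF) (fun s t => ?_)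
    (fun t => ?_) (fun t => ?_)
  · have h1 : F (s, t + 1) = x • F (s, t) := by
      change M⁻¹ • mix s (M • l (t + 1)) (M • l' (t + 1)) =
        (x : SL(2, ℝ)) • M⁻¹ • mix s (M • l t) (M • l' t)
      rw [inv_smul_eq_iff]
      apply UpperHalfPlane.ext
      rw [coe_mix, hd.2, smul_inv_smul, coe_mix, h.per, h'.per]
      have e1 := hd.2 (l t)
      have e2 := hd.2 (l' t)
      change (1 - ((s : ℝ) : ℂ)) * ((M • (x : SL(2, ℝ)) • l t : ℍ) : ℂ) +
        ((s : ℝ) : ℂ) * ((M • (x : SL(2, ℝ)) • l' t : ℍ) : ℂ) = _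
      rw [e1, e2]
      ring
    rw [h1, pr_smul]
  · have h1 : F (0, t) = l t := by
      change M⁻¹ • mix 0 (M • l t) (M • l' t) = l t
      rw [inv_smul_eq_iff]
      apply UpperHalfPlane.ext
      rw [coe_mix]
      simp
    change pr Γ (F (0, t)) = _
    rw [h1, h.lift]
  · have h1 : F (1, t) = l' t := by
      change M⁻¹ • mix 1 (M • l t) (M • l' t) = l' t
      rw [inv_smul_eq_iff]
      apply UpperHalfPlane.ext
      rw [coe_mix]
      simp
    change pr Γ (F (1, t)) = _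
    rw [h1, h'.lift]

/-- Multiplication by a positive number. -/
noncomputable def sc (r : ℝ) (hr : 0 < r) (z : ℍ) : ℍ :=
  ⟨r * (z : ℂ), by
    have h1 : ((r : ℂ) * (z : ℂ)).im = r * z.im := by simp
    rw [h1]
    exact mul_pos hr z.im_pos⟩

lemma coe_sc (r : ℝ) (hr : 0 < r) (z : ℍ) : ((sc r hr z : ℍ) : ℂ) = r * (z : ℂ) := rfl

/-- The orbit of `w` under the dilations, in the coordinate given by `M`. -/
noncomputable def gcurve (M : SL(2, ℝ)) (r : ℝ) (w : ℍ) (t : ℝ) : ℍ :=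
  M⁻¹ • sc (Real.exp (t * Real.log r)) (Real.exp_pos _) w

lemma coe_gcurve (M : SL(2, ℝ)) (r : ℝ) (w : ℍ) (t : ℝ) :
    ((M • gcurve M r w t : ℍ) : ℂ) = (Real.exp (t * Real.log r) : ℝ) * (w : ℂ) := by
  unfold gcurve
  rw [smul_inv_smul, coe_sc]

lemma gcurve_continuous (M : SL(2, ℝ)) (r : ℝ) (w : ℍ) : Continuous (gcurve M r w) := by
  refine (continuous_const_smul M⁻¹).comp ?_
  rw [UpperHalfPlane.isEmbedding_coe.continuous_iff]
  change Continuous fun t : ℝ => (((Real.exp (t * Real.log r) : ℝ) : ℂ) * (w : ℂ))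
  fun_prop

lemma gcurve_add_one {M k : SL(2, ℝ)} {r : ℝ} (hd : Dil M k r) (w : ℍ) (t : ℝ) :
    gcurve M r w (t + 1) = k • gcurve M r w t := by
  have h1 : M • gcurve M r w (t + 1) = M • k • gcurve M r w t := by
    apply UpperHalfPlane.ext
    rw [hd.2, coe_gcurve, coe_gcurve, add_mul, one_mul, Real.exp_add, Real.exp_log hd.1]
    push_cast
    ring
  exact (MulAction.injective M) h1

lemma exists_gcurve {M : SL(2, ℝ)} {x : Γ} {r : ℝ} (hd : Dil M x r) (w : ℍ) :
    ∃ c : C(UnitAddCircle, Surf Γ), Rep c x (gcurve M r w) :=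
  exists_rep_of (gcurve_continuous M r w) (fun t => gcurve_add_one hd w t)

end Pool.Agent.GEN
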