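import Mathlib
import Pool.Agent.GEN.Act
import Pool.Agent.GEN.Basic
import Pool.Agent.ND4.Pseudo
import Pool.Agent.Helper2.Genus.Criterion

/-!
# The final argument, from a length function on the group of automorphisms
-/

set_option autoImplicit false

open Topology Set Filter
open scoped MatrixGroups UpperHalfPlane

namespace Pool.Agent.GEN

open Pool.Agent.Helper2.Fuch Pool.Agent.Helper2.Genus Pool.Agent.Helper2.Planar
open Pool.Agent.Helper50.Ends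

variable {Γ : Subgroup SL(2, ℝ)}

/-- The automorphisms induced by the homeomorphisms in `H`. -/
def autos (H : Subgroup (Surf Γ ≃ₜ Surf Γ)) : Subgroup (MulAut Γ) where
  carrier := {θ | ∃ h ∈ H, LiftOf h θ}
  one_mem' := ⟨1, H.one_mem, LiftOf.one⟩
  mul_mem' := by
    rintro θ θ' ⟨h, hh, h1⟩ ⟨h', hh', h1'⟩
    exact ⟨h * h', H.mul_mem hh hh', h1.mul h1'⟩
  inv_mem' := by
    rintro θ ⟨h, hh, h1⟩
    exact ⟨h⁻¹, H.inv_mem hh, h1.inv⟩

lemma mem_autos {H : Subgroup (Surf Γ ≃ₜ Surf Γ)} {θ : MulAut Γ} :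
    θ ∈ autos H ↔ ∃ h ∈ H, LiftOf h θ := Iff.rfl

lemma conj_mem_autos (H : Subgroup (Surf Γ ≃ₜ Surf Γ)) (g : Γ) : MulAut.conj g ∈ autos H :=
  ⟨1, H.one_mem, LiftOf.one_conj g⟩

lemma isConj_conj (g x : Γ) : IsConj (MulAut.conj g x) x :=
  IsConj.symm (isConj_iff.mpr ⟨g, (MulAut.conj_apply g x).symm⟩)

variable [DiscreteTopology Γ] (hΓ : Hyp Γ)

/-- An automorphism induced by `h`. -/
noncomputable def aut (h : Surf Γ ≃ₜ Surf Γ) : MulAut Γ := (exists_liftOf hΓ h).choose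

lemma aut_liftOf (h : Surf Γ ≃ₜ Surf Γ) : LiftOf h (aut hΓ h) := (exists_liftOf hΓ h).choose_spec

section Len

variable {H : Subgroup (Surf Γ ≃ₜ Surf Γ)} {L : MulAut Γ → ℝ} (hL : IsLen L (autos H))
  (hconj : ∀ g, L (MulAut.conj g) = 0)

include hL hconj in
lemma len_aut {h : Surf Γ ≃ₜ Surf Γ} (hh : h ∈ H) {θ : MulAut Γ} (hθ : LiftOf h θ) :
    L (aut hΓ h) = L θ := by
  have key : ∀ {η η' : MulAut Γ}, LiftOf h η → LiftOf h η' → L η' ≤ L η := by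
    intro η η' h1 h2
    obtain ⟨g, hg⟩ := LiftOf.unique hΓ h1 h2
    rw [hg]
    have := hL.mul (MulAut.conj g) (conj_mem_autos H g) η ⟨h, hh, h1⟩
    rwa [hconj, zero_add] at this
  exact le_antisymm (key hθ (aut_liftOf hΓ h)) (key (aut_liftOf hΓ h) hθ)

include hL hconj in
lemma isLen_aut : IsLen (fun h : Surf Γ ≃ₜ Surf Γ => L (aut hΓ h)) H where
  one := by
    rw [len_aut hΓ hL hconj H.one_mem LiftOf.one, hL.one]
  inv := by
    intro h hh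
    rw [len_aut hΓ hL hconj (H.inv_mem hh) (aut_liftOf hΓ h).inv,
      hL.inv _ ⟨h, hh, aut_liftOf hΓ h⟩]
  mul := by
    intro g hg h hh
    rw [len_aut hΓ hL hconj (H.mul_mem hg hh) ((aut_liftOf hΓ g).mul (aut_liftOf hΓ h))]
    exact hL.mul _ ⟨g, hg, aut_liftOf hΓ g⟩ _ ⟨h, hh, aut_liftOf hΓ h⟩

end Len

include hΓ in
/-- The final argument, for a length function which is zero outside the subgroup. -/
theorem not_two_of_aux (H : Subgroup (Surf Γ ≃ₜ Surf Γ)) {L : MulAut Γ → ℝ}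
    (hL : IsLen L (autos H)) {α β : Γ}
    (hzero : ∀ θ, IsConj (θ α) α → IsConj (θ β) β → L θ = 0)
    {f f' : MulAut Γ} (hf : f ∈ autos H) (hf' : f' ∈ autos H) {C : ℝ}
    (h1 : ∀ n : ℕ, (n : ℝ) - C ≤ L (f ^ n))
    (h2 : ∀ (n : ℤ) (m : ℕ), (m : ℝ) - C ≤ L (f ^ (-n) * f' ^ m))
    (S : Set (MCG H)) (hS : CoarselyBounded S) (hgen : Subgroup.closure S = ⊤) :
    numEnds (cayley S) ≠ 2 := by
  have hconj : ∀ g, L (MulAut.conj g) = 0 := fun g =>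
    hzero _ (isConj_conj g α) (isConj_conj g β)
  obtain ⟨f₀, hf₀, hf₀a⟩ := hf
  obtain ⟨g₀, hg₀, hg₀a⟩ := hf'
  have hlen := isLen_aut hΓ hL hconj
  have hnear : ∀ᶠ g : Surf Γ ≃ₜ Surf Γ in 𝓝 1, L (aut hΓ g) = 0 := by
    filter_upwards [LiftOf.near hΓ α, LiftOf.near hΓ β] with g ha hb
    exact hzero _ (ha _ (aut_liftOf hΓ g)) (hb _ (aut_liftOf hΓ g))
  have hiso : ∀ u ∈ isotopySubgroup (Surf Γ), L (aut hΓ u) = 0 := by
    intro u hu
    exact hzero _ (LiftOf.isotopic hΓ hu (aut_liftOf hΓ u) α)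
      (LiftOf.isotopic hΓ hu (aut_liftOf hΓ u) β)
  obtain ⟨d, hd⟩ := Pool.Agent.ND4.exists_pseudometric_sub H hlen hnear hiso
  have hLf : ∀ n : ℤ, |(n : ℝ)| - C ≤ L (aut hΓ (f₀ ^ n)) := by
    intro n
    rw [len_aut hΓ hL hconj (H.zpow_mem hf₀ n) (hf₀a.zpow n)]
    obtain ⟨n, rfl | rfl⟩ := n.eq_nat_or_neg
    · have := h1 n
      simpa using this
    · have h3 := h1 n
      rw [zpow_neg, zpow_natCast, hL.inv _ ⟨_, H.pow_mem hf₀ n, hf₀a.pow n⟩]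
      simpa using h3
  have hLg : ∀ (n : ℤ) (k : ℕ), (k : ℝ) - C ≤ L (aut hΓ (f₀ ^ (-n) * g₀ ^ k)) := by
    intro n k
    rw [len_aut hΓ hL hconj (H.mul_mem (H.zpow_mem hf₀ _) (H.pow_mem hg₀ k))
      ((hf₀a.zpow _).mul (hg₀a.pow k))]
    exact h2 n k
  refine not_two_of_far S hS hgen d ((⟨f₀, hf₀⟩ : H) : MCG H) ?_ ?_
  · intro R
    set N : ℕ := ⌈R + C⌉₊ with hN
    refine (Set.finite_Icc (-(N : ℤ)) N).subset ?_
    intro n hn
    have hn' : d.d 1 (((⟨f₀, hf₀⟩ : H) : MCG H) ^ n) ≤ R := hn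
    rw [← QuotientGroup.mk_zpow, ← QuotientGroup.mk_one, hd] at hn'
    have e1 : (((1 : H) : Surf Γ ≃ₜ Surf Γ))⁻¹ * (((⟨f₀, hf₀⟩ : H) ^ n : H) :
        Surf Γ ≃ₜ Surf Γ) = f₀ ^ n := by
      rw [Subgroup.coe_one, inv_one, one_mul, Subgroup.coe_zpow]
    rw [e1] at hn'
    have e3 := hLf n
    have e8 : |(n : ℝ)| ≤ N := (by linarith : |(n : ℝ)| ≤ R + C).trans (Nat.le_ceil _)
    have e9 := abs_le.mp e8
    constructor
    · have := e9.1
      exact_mod_cast this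
    · have := e9.2
      exact_mod_cast this
  · intro R
    set k : ℕ := ⌈R + C⌉₊ + 1 with hk
    refine ⟨(((⟨g₀, hg₀⟩ : H) ^ k : H) : MCG H), fun n => ?_⟩
    rw [← QuotientGroup.mk_zpow, hd]
    have e1 : ((((⟨f₀, hf₀⟩ : H) ^ n : H) : Surf Γ ≃ₜ Surf Γ))⁻¹ *
        (((⟨g₀, hg₀⟩ : H) ^ k : H) : Surf Γ ≃ₜ Surf Γ) = f₀ ^ (-n) * g₀ ^ k := by
      rw [Subgroup.coe_zpow, Subgroup.coe_pow, zpow_neg]
    rw [e1]
    have e3 := hLg n k
    have e5 : R + C < k := by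
      have := Nat.le_ceil (R + C)
      rw [hk]
      push_cast
      linarith
    linarith

include hΓ in
open Classical in
/-- The final argument. -/
theorem not_two_of (H : Subgroup (Surf Γ ≃ₜ Surf Γ)) {L : MulAut Γ → ℝ}
    (hL : IsLen L (autos H)) {α β : Γ}
    (hzero : ∀ θ ∈ autos H, IsConj (θ α) α → IsConj (θ β) β → L θ = 0)
    {f f' : MulAut Γ} (hf : f ∈ autos H) (hf' : f' ∈ autos H) {C : ℝ}
    (h1 : ∀ n : ℕ, (n : ℝ) - C ≤ L (f ^ n))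
    (h2 : ∀ (n : ℤ) (m : ℕ), (m : ℝ) - C ≤ L (f ^ (-n) * f' ^ m))
    (S : Set (MCG H)) (hS : CoarselyBounded S) (hgen : Subgroup.closure S = ⊤) :
    numEnds (cayley S) ≠ 2 := by
  set L' : MulAut Γ → ℝ := fun θ => if θ ∈ autos H then L θ else 0 with hL'
  have hin : ∀ θ ∈ autos H, L' θ = L θ := fun θ hθ => if_pos hθ
  refine not_two_of_aux hΓ H (L := L') (α := α) (β := β) (C := C) ?_ ?_ hf hf' ?_ ?_ S hS hgen
  · constructor
    · rw [hin _ (Subgroup.one_mem _), hL.one]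
    · intro g hg
      rw [hin _ (Subgroup.inv_mem _ hg), hin _ hg, hL.inv _ hg]
    · intro g hg h hh
      rw [hin _ (Subgroup.mul_mem _ hg hh), hin _ hg, hin _ hh]
      exact hL.mul _ hg _ hh
  · intro θ ha hb
    by_cases hθ : θ ∈ autos H
    · rw [hin _ hθ]
      exact hzero θ hθ ha hb
    · exact if_neg hθ
  · intro n
    rw [hin _ (Subgroup.pow_mem _ hf n)]
    exact h1 n
  · intro n m
    rw [hin _ (Subgroup.mul_mem _ (Subgroup.zpow_mem _ hf _) (Subgroup.pow_mem _ hf' m))]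
    exact h2 n m

omit [DiscreteTopology Γ] in
include hΓ in
lemma autos_le (H : Subgroup (Surf Γ ≃ₜ Surf Γ)) : autos H ≤ opg Γ := by
  rintro θ ⟨h, -, hl⟩
  exact LiftOf.op hΓ hl

include hΓ in
/-- The main theorem from the rows: `hI` (row INT), `hlen` (row LEN), `htw` (row LIFTTW). -/
theorem main_of {a b : Γ} (ha : Simple a) (hb : Simple b)
    (H : Subgroup (Surf Γ ≃ₜ Surf Γ)) (hH : H.FiniteIndex)
    (hN : ∀ h ∈ H, ∀ θ, LiftOf h θ → ∃ x ∈ ({a, b} : Set Γ), ∃ y ∈ ({a, b} : Set Γ), ∃ g : Γ,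
      Cr (θ x) (g * y * g⁻¹))
    (hI : ∀ u w : Γ, (crs u w).Nonempty → 0 < I u w)
    (hlen : ∀ (θa θb : MulAut Γ) (N : ℤ), Twist a θa → Twist b θb → 20 ≤ N →
      θa ^ N ∈ autos H → θb ^ N ∈ autos H →
      (∀ η ∈ autos H, 0 < I (η a) a + I (η a) b + (I (η b) a + I (η b) b)) →
      ∃ (ℓ : MulAut Γ → ℝ) (C : ℝ), IsLen ℓ (autos H) ∧
      (∀ θ ∈ autos H, IsConj (θ a) a → IsConj (θ b) b → ℓ θ = 0) ∧
      (∀ n : ℕ, (n : ℝ) - C ≤ ℓ ((θb ^ N * θa ^ N) ^ n)) ∧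
      ∀ (n : ℤ) (k : ℕ), (k : ℝ) - C ≤
        ℓ ((θb ^ N * θa ^ N) ^ (-n) * (θb ^ (-N) * θa ^ N) ^ k))
    (htw : ∀ b c : Γ, Simple b → Cr b c →
      ∃ (T : Surf Γ ≃ₜ Surf Γ) (θ : MulAut Γ), LiftOf T θ ∧ Twist b θ) : NotTwoEnds H := by
  -- the two curves cross
  have hcross : (∃ c, Cr a c) ∧ ∃ c, Cr b c := by
    obtain ⟨x, hx, y, hy, g, hc⟩ := hN 1 H.one_mem 1 LiftOf.one
    rw [MulAut.one_apply] at hc
    rcases hx with rfl | hx <;> rcases hy with rfl | hy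
    · exact absurd hc (ha.2 g)
    · rw [Set.mem_singleton_iff.mp hy] at hc
      refine ⟨⟨_, hc⟩, g⁻¹ * x * g⁻¹⁻¹, ?_⟩
      have h1 := (cr_conj hΓ g⁻¹ x (g * b * g⁻¹)).mpr hc
      have h2 : g⁻¹ * (g * b * g⁻¹) * g⁻¹⁻¹ = b := by group
      rw [h2] at h1
      exact h1.symm
    · rw [Set.mem_singleton_iff.mp hx] at hc
      refine ⟨⟨g⁻¹ * b * g⁻¹⁻¹, ?_⟩, _, hc⟩
      have h1 := (cr_conj hΓ g⁻¹ b (g * y * g⁻¹)).mpr hc
      have h2 : g⁻¹ * (g * y * g⁻¹) * g⁻¹⁻¹ = y := by group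
      rw [h2] at h1
      exact h1.symm
    · rw [Set.mem_singleton_iff.mp hx, Set.mem_singleton_iff.mp hy] at hc
      exact absurd hc (hb.2 g)
  obtain ⟨⟨c, hc⟩, c', hc'⟩ := hcross
  obtain ⟨Ta, θa, hTa, hta⟩ := htw a c ha hc
  obtain ⟨Tb, θb, hTb, htb⟩ := htw b c' hb hc'
  obtain ⟨m, hm0, -, hm⟩ := Subgroup.exists_pow_mem_of_index_ne_zero hH.index_ne_zero Ta
  obtain ⟨l, hl0, -, hl⟩ := Subgroup.exists_pow_mem_of_index_ne_zero hH.index_ne_zero Tb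
  set N : ℤ := 20 * (m * l) with hNdef
  have hN20 : 20 ≤ N := by
    have h1 : (1 : ℤ) ≤ m := by exact_mod_cast Nat.one_le_iff_ne_zero.mpr (by omega)
    have h2 : (1 : ℤ) ≤ l := by exact_mod_cast Nat.one_le_iff_ne_zero.mpr (by omega)
    nlinarith
  have hma : θa ^ N ∈ autos H := by
    refine ⟨Ta ^ N, ?_, hTa.zpow N⟩
    have : Ta ^ N = (Ta ^ m) ^ (20 * (l : ℤ)) := by
      rw [← zpow_natCast, ← zpow_mul, hNdef]
      congr 1
      ring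
    rw [this]
    exact H.zpow_mem hm _
  have hmb : θb ^ N ∈ autos H := by
    refine ⟨Tb ^ N, ?_, hTb.zpow N⟩
    have : Tb ^ N = (Tb ^ l) ^ (20 * (m : ℤ)) := by
      rw [← zpow_natCast, ← zpow_mul, hNdef]
      congr 1
      ring
    rw [this]
    exact H.zpow_mem hl _
  have hnd : ∀ η ∈ autos H, 0 < I (η a) a + I (η a) b + (I (η b) a + I (η b) b) := by
    rintro η ⟨h, hh, hη⟩
    obtain ⟨x, hx, y, hy, g, hc⟩ := hN h hh η hη
    have h1 : 0 < I (η x) y := hI _ _ ⟨g, hc⟩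
    rcases hx with rfl | hx <;> rcases hy with rfl | hy
    · omega
    · rw [Set.mem_singleton_iff.mp hy] at h1
      omega
    · rw [Set.mem_singleton_iff.mp hx] at h1
      omega
    · rw [Set.mem_singleton_iff.mp hx, Set.mem_singleton_iff.mp hy] at h1
      omega
  obtain ⟨ℓ, C, e1, e2, e3, e4⟩ := hlen θa θb N hta htb hN20 hma hmb hnd
  intro S hS hgen
  refine not_two_of hΓ H e1 e2 (f := θb ^ N * θa ^ N) (f' := θb ^ (-N) * θa ^ N) ?_ ?_ e3 e4 S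
    hS hgen
  · exact Subgroup.mul_mem _ hmb hma
  · rw [zpow_neg]
    exact Subgroup.mul_mem _ (Subgroup.inv_mem _ hmb) hma

end Pool.Agent.GEN
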