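import Mathlib
import Pool.Agent.GEN.Loop
import Pool.Agent.GEN.Basic
import Pool.Agent.GEN.Collar

/-!
# Curves which do not cross can be made disjoint by homotopies
-/

set_option autoImplicit false

open Topology Set Filter unitInterval
open scoped MatrixGroups UpperHalfPlane

namespace Pool.Agent.GEN

open Pool.Agent.Helper2.Fuch Pool.Agent.Helper2.Genus Pool.Agent.Helper2.Planar

variable {Γ : Subgroup SL(2, ℝ)}

/-! ### The coordinate along an axis -/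

/-- The coordinate in which the directions `u`, `v` are `0` and `∞`. -/
noncomputable def cm (u v : ℝ × ℝ) (h : dt u v ≠ 0) : SL(2, ℝ) := (col u v h)⁻¹

lemma RR_cm (u v : ℝ × ℝ) (h : dt u v ≠ 0) (z : ℍ) :
    RR u v z = dt u v * ((cm u v h • z : ℍ) : ℂ) := by
  have h1 := RR_col u v h (cm u v h • z)
  unfold cm at h1 ⊢
  rwa [smul_inv_smul] at h1

lemma dil_of {u v : ℝ × ℝ} (h : dt u v ≠ 0) {k : SL(2, ℝ)} {ν : ℝ} (hν : ν ≠ 0)
    (hu : ac k u = ν • u) (hv : ac k v = ν⁻¹ • v) : Dil (cm u v h) k ((ν ^ 2)⁻¹) := by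
  refine ⟨by positivity, fun z => ?_⟩
  have h1 := RR_pow hν hu hv 1 z
  rw [pow_one, RR_cm u v h, RR_cm u v h, mul_one] at h1
  have h2 : ((dt u v : ℝ) : ℂ) ≠ 0 := by exact_mod_cast h
  apply mul_left_cancel₀ h2
  rw [h1]
  push_cast
  ring

/-- An element which commutes with `x` is a dilation in the coordinate along the axis of `x`. -/
lemma exists_dil (hΓ : Hyp Γ) {x y : Γ} (hx : x ≠ 1) (h : Commute x y) :
    ∃ r : ℝ, Dil (cm (em x) (ep x) (dt_em_ep hΓ hx)) y r := by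
  have hcomm : (x : SL(2, ℝ)) * y = y * x := congrArg Subtype.val h.eq
  have key : ∀ z : Γ, z ≠ 1 → Commute z y → ∃ ν : ℝ, ν ≠ 0 ∧
      ac (y : SL(2, ℝ)) (ep z) = ν • ep z := by
    intro z hz hzy
    have hzy' : (z : SL(2, ℝ)) * y = y * z := congrArg Subtype.val hzy.eq
    have hatt := isAtt_ep hΓ hz
    obtain ⟨h1, ρ, h2, h3⟩ := hatt
    have h4 : IsAtt (z : SL(2, ℝ)) (ac (y : SL(2, ℝ)) (ep z)) := by
      refine ⟨ac_ne_zero h1, ρ, h2, ?_⟩
      rw [← ac_mul, hzy', ac_mul, h3, ac_smul]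
    have h5 := (isAtt_ep hΓ hz).par h4
    obtain ⟨c, hc, hc'⟩ := exists_smul_of_dt' h1 (ac_ne_zero h1) h5
    exact ⟨c, hc, hc'⟩
  obtain ⟨ν, hν, h1⟩ := key x⁻¹ (inv_ne_one.mpr hx) h.inv_left
  obtain ⟨ν', hν', h2⟩ := key x hx h
  rw [ep_inv] at h1
  have h3 := dt_ac (y : SL(2, ℝ)) (em x) (ep x)
  rw [h1, h2, dt_smul_left, dt_smul_right] at h3
  have h4 := dt_em_ep hΓ hx
  have h5 : ν * ν' = 1 := by
    have : (ν * ν' - 1) * dt (em x) (ep x) = 0 := by linarith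
    have := (mul_eq_zero.mp this).resolve_right h4
    linarith
  have h6 : ν' = ν⁻¹ := by
    field_simp
    linarith
  exact ⟨_, dil_of _ hν h1 (by rw [h2, h6])⟩

lemma ang_cm (hΓ : Hyp Γ) {x : Γ} (hx : x ≠ 1) (z : ℍ) : ang x z =
    (cm (em x) (ep x) (dt_em_ep hΓ hx) • z).re / (cm (em x) (ep x) (dt_em_ep hΓ hx) • z).im := by
  have h := dt_em_ep hΓ hx
  unfold ang
  rw [RR_cm _ _ h, Complex.re_ofReal_mul, Complex.im_ofReal_mul]
  exact mul_div_mul_left _ _ h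

lemma ang_gcurve (hΓ : Hyp Γ) {x : Γ} (hx : x ≠ 1) (r : ℝ) (w : ℍ) (t : ℝ) :
    ang x (gcurve (cm (em x) (ep x) (dt_em_ep hΓ hx)) r w t) = w.re / w.im := by
  rw [ang_cm hΓ hx]
  have h := coe_gcurve (cm (em x) (ep x) (dt_em_ep hΓ hx)) r w t
  have h1 := congrArg Complex.re h
  have h2 := congrArg Complex.im h
  rw [Complex.re_ofReal_mul] at h1
  rw [Complex.im_ofReal_mul] at h2
  change (((cm (em x) (ep x) (dt_em_ep hΓ hx)) • gcurve _ r w t : ℍ) : ℂ).re /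
    (((cm (em x) (ep x) (dt_em_ep hΓ hx)) • gcurve _ r w t : ℍ) : ℂ).im = _
  rw [h1, h2]
  exact mul_div_mul_left _ _ (Real.exp_ne_zero _)

/-- The point `κ + i`. -/
noncomputable def kpt (κ : ℝ) : ℍ := ⟨κ + Complex.I, by simp⟩

lemma kpt_div (κ : ℝ) : (kpt κ).re / (kpt κ).im = κ := by
  have h1 : (kpt κ).re = κ := by
    change ((κ : ℂ) + Complex.I).re = κ
    simp
  have h2 : (kpt κ).im = 1 := by
    change ((κ : ℂ) + Complex.I).im = 1
    simp
  rw [h1, h2, div_one]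

/-! ### Disjoint copies -/

section Disjoint

variable [DiscreteTopology Γ] (hΓ : Hyp Γ)

/-- There are disjoint curves homotopic to `c` and `d`. -/
def Disj (c d : C(UnitAddCircle, Surf Γ)) : Prop :=
  ∃ c' d' : C(UnitAddCircle, Surf Γ), c.Homotopic c' ∧ d.Homotopic d' ∧ ∀ s t, c' s ≠ d' t

omit [DiscreteTopology Γ] in
lemma Disj.symm {c d : C(UnitAddCircle, Surf Γ)} (h : Disj c d) : Disj d c := by
  obtain ⟨c', d', h1, h2, h3⟩ := h
  exact ⟨d', c', h2, h1, fun s t h => h3 t s h.symm⟩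

omit [DiscreteTopology Γ] in
lemma rep_ne {c d : C(UnitAddCircle, Surf Γ)} {x y : Γ} {l m : ℝ → ℍ} (hc : Rep c x l)
    (hd : Rep d y m) (h : ∀ (g : Γ) (s t : ℝ), g • l s ≠ m t) : ∀ s t, c s ≠ d t := by
  intro s t hst
  obtain ⟨s, rfl⟩ := toCircle_quot.surjective s
  obtain ⟨t, rfl⟩ := toCircle_quot.surjective t
  rw [← hc.lift, ← hd.lift] at hst
  obtain ⟨g, hg⟩ := pr_eq.mp hst.symm
  exact h g s t hg

include hΓ in
/-- The axis and a parallel curve. -/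
lemma parallel {x : Γ} (hx : Simple x) : ∃ κ : ℝ, 0 < κ ∧ ∀ (g : Γ) (z z' : ℍ), ang x z = 0 →
    ang x z' = κ → g • z ≠ z' := by
  obtain ⟨ε, hε, h⟩ := exists_collar hΓ hx
  refine ⟨ε, hε, ?_⟩
  rintro g z z' hz hz' rfl
  by_cases hg : Commute g x
  · rw [ang_commute hΓ hx.1 hg, hz] at hz'
    exact hε.ne hz'
  · have h1 := h g hg (g • z) (by rw [hz', abs_of_pos hε])
    rw [ang_conj hΓ g hx.1, hz, abs_zero] at h1
    exact hε.not_gt h1

include hΓ in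
lemma disj_of_not_cr {c d : C(UnitAddCircle, Surf Γ)} {x y : Γ} {l m : ℝ → ℍ} (hc : Rep c x l)
    (hd : Rep d y m) (hx : Simple x) (hy : y ≠ 1) (h : ∀ g : Γ, ¬ Cr x (g * y * g⁻¹)) :
    Disj c d := by
  obtain ⟨r, hr⟩ := exists_dil hΓ hx.1 (Commute.refl x)
  obtain ⟨c', hc'⟩ := exists_gcurve hr (kpt 0)
  have hcc := hc.homotopic hc' hr
  have ha0 : ∀ t, ang x (gcurve (cm (em x) (ep x) (dt_em_ep hΓ hx.1)) r (kpt 0) t) = 0 := by
    intro t
    rw [ang_gcurve hΓ hx.1, kpt_div]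
  by_cases hcomm : ∃ g : Γ, Commute x (g * y * g⁻¹)
  · -- a parallel copy
    obtain ⟨g, hg⟩ := hcomm
    obtain ⟨κ, hκ, hpar⟩ := parallel hΓ hx
    obtain ⟨r', hr'⟩ := exists_dil hΓ hx.1 hg
    obtain ⟨d', hd'⟩ := exists_gcurve hr' (kpt κ)
    refine ⟨c', d', hcc, (hd.conj g).homotopic hd' hr', rep_ne hc' hd' fun k s t => ?_⟩
    exact hpar k _ _ (ha0 s) (by rw [ang_gcurve hΓ hx.1, kpt_div])
  · -- two disjoint geodesics
    push Not at hcomm
    obtain ⟨r', hr'⟩ := exists_dil hΓ hy (Commute.refl y)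
    obtain ⟨d', hd'⟩ := exists_gcurve hr' (kpt 0)
    refine ⟨c', d', hcc, hd.homotopic hd' hr', rep_ne hc' hd' fun k s t hst => ?_⟩
    set z := gcurve (cm (em x) (ep x) (dt_em_ep hΓ hx.1)) r (kpt 0) s with hz
    set z' := gcurve (cm (em y) (ep y) (dt_em_ep hΓ hy)) r' (kpt 0) t with hz'
    have h1 : ang x z = 0 := ha0 s
    have h2 : ang (k⁻¹ * y * k⁻¹⁻¹) z = 0 := by
      have h3 : z = k⁻¹ • z' := by rw [← hst, inv_smul_smul]
      rw [h3, ang_conj hΓ k⁻¹ hy, ang_gcurve hΓ hy, kpt_div]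
    set y' := k⁻¹ * y * k⁻¹⁻¹ with hy'
    have hy1 : y' ≠ 1 := by
      intro h4
      rw [hy', mul_inv_eq_one] at h4
      exact hy (mul_eq_left.mp h4)
    have key : ∀ w : Γ, w ≠ 1 → ang w z = 0 → (RR (em w) (ep w) z).re = 0 := by
      intro w hw h4
      unfold ang at h4
      rcases div_eq_zero_iff.mp h4 with h5 | h5
      · exact h5
      · exfalso
        rw [RR_im] at h5
        have h6 : em w ≠ 0 := em_ne_zero w
        have h7 := Complex.normSq_pos.mpr (DD_ne_zero (ep_ne_zero w) z)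
        have h8 := z.im_pos
        have h9 := dt_em_ep hΓ hw
        have h10 : dt (em w) (ep w) * z.im ≠ 0 := mul_ne_zero h9 h8.ne'
        exact (div_ne_zero h10 h7.ne') h5
    have h3 := lkp_nonpos (ep_ne_zero x) (ep_ne_zero y') (key x hx.1 h1) (key y' hy1 h2)
    obtain ⟨n1, n2, n3, n4⟩ := ends_ne hΓ hx.1 hy1 (hcomm k⁻¹)
    have h4 : lkp (em x) (ep x) (em y') (ep y') ≠ 0 := by
      unfold lkp
      exact mul_ne_zero (mul_ne_zero (mul_ne_zero n4 n3) n2) n1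
    exact h k⁻¹ (lt_of_le_of_ne h3 h4)

omit [DiscreteTopology Γ] in
/-- The constant curve. -/
lemma rep_const (z : ℍ) : Rep (ContinuousMap.const UnitAddCircle (pr Γ z)) (1 : Γ) (fun _ => z) :=
  ⟨continuous_const, fun _ => rfl, fun _ => (one_smul _ _).symm⟩

include hΓ in
lemma disj_null {c d : C(UnitAddCircle, Surf Γ)} {y : Γ} {l m : ℝ → ℍ} (hc : Rep c 1 l)
    (hd : Rep d y m) (hy : Simple y) : Disj c d := by
  obtain ⟨κ, hκ, hpar⟩ := parallel hΓ hy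
  obtain ⟨r, hr⟩ := exists_dil hΓ hy.1 (Commute.refl y)
  obtain ⟨d', hd'⟩ := exists_gcurve hr (kpt 0)
  set z := gcurve (cm (em y) (ep y) (dt_em_ep hΓ hy.1)) r (kpt κ) 0 with hz
  refine ⟨_, d', hc.homotopic (rep_const z) (dil_one 1), hd.homotopic hd' hr, ?_⟩
  intro s t hst
  refine rep_ne hd' (rep_const z) (fun k s t => hpar k _ _ ?_ ?_) t s hst.symm
  · rw [ang_gcurve hΓ hy.1, kpt_div]
  · rw [hz, ang_gcurve hΓ hy.1, kpt_div]

include hΓ in
lemma disj_null_null {c d : C(UnitAddCircle, Surf Γ)} {l m : ℝ → ℍ} (hc : Rep c 1 l)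
    (hd : Rep d 1 m) : Disj c d := by
  obtain ⟨U, hU, hdis⟩ := hΓ.cover.disjoint UpperHalfPlane.I
  have h1 : ∃ z ∈ U, z ≠ UpperHalfPlane.I := by
    have h2 : (𝓝[≠] UpperHalfPlane.I).NeBot := inferInstance
    have h3 : U ∈ 𝓝[≠] UpperHalfPlane.I := mem_nhdsWithin_of_mem_nhds hU
    have h4 : {z : ℍ | z ≠ UpperHalfPlane.I} ∈ 𝓝[≠] UpperHalfPlane.I := self_mem_nhdsWithin
    obtain ⟨z, hz1, hz2⟩ := h2.nonempty_of_mem (inter_mem h3 h4)
    exact ⟨z, hz1, hz2⟩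
  obtain ⟨z, hzU, hz⟩ := h1
  refine ⟨_, _, hc.homotopic (rep_const UpperHalfPlane.I) (dil_one 1),
    hd.homotopic (rep_const z) (dil_one 1), rep_ne (rep_const _) (rep_const _) fun k s t h => ?_⟩
  have h5 := hdis k ⟨z, ⟨UpperHalfPlane.I, mem_of_mem_nhds hU, h⟩, hzU⟩
  rw [h5, one_smul] at h
  exact hz h.symm

end Disjoint

/-! ### Simple curves -/

lemma rep_eq {c : C(UnitAddCircle, Surf Γ)} {x : Γ} {l : ℝ → ℍ} (h : Rep c x l) (t : ℝ) :
    l t = x ^ ⌊t⌋ • l (Int.fract t) := by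
  rw [← h.zpow, Int.fract]
  congr 1
  ring

lemma rep_con_top {c : C(UnitAddCircle, Surf Γ)} {x : Γ} {l : ℝ → ℍ} (h : Rep c x l) :
    Con x l atTop := by
  refine ⟨l '' Icc 0 1, isCompact_Icc.image h.cont, fun N => ?_⟩
  filter_upwards [eventually_ge_atTop (N : ℝ)] with t ht
  have h1 : (N : ℤ) ≤ ⌊t⌋ := Int.le_floor.mpr (by exact_mod_cast ht)
  refine ⟨⌊t⌋.toNat, by omega, l (Int.fract t),
    ⟨_, ⟨Int.fract_nonneg t, (Int.fract_lt_one t).le⟩, rfl⟩, ?_⟩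
  have h2 : ((⌊t⌋.toNat : ℕ) : ℤ) = ⌊t⌋ := Int.toNat_of_nonneg (by omega)
  rw [← zpow_natCast, h2]
  exact rep_eq h t

lemma rep_con_bot {c : C(UnitAddCircle, Surf Γ)} {x : Γ} {l : ℝ → ℍ} (h : Rep c x l) :
    Con x⁻¹ l atBot := by
  refine ⟨l '' Icc 0 1, isCompact_Icc.image h.cont, fun N => ?_⟩
  filter_upwards [eventually_le_atBot (-(N : ℝ))] with t ht
  have h1 : ⌊t⌋ ≤ -(N : ℤ) := by
    have h3 : (⌊t⌋ : ℝ) ≤ ((-(N : ℤ) : ℤ) : ℝ) := by
      push_cast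
      exact (Int.floor_le t).trans ht
    exact_mod_cast h3
  refine ⟨(-⌊t⌋).toNat, by omega, l (Int.fract t),
    ⟨_, ⟨Int.fract_nonneg t, (Int.fract_lt_one t).le⟩, rfl⟩, ?_⟩
  have h2 : (((-⌊t⌋).toNat : ℕ) : ℤ) = -⌊t⌋ := Int.toNat_of_nonneg (by omega)
  rw [← zpow_natCast, h2, inv_zpow', neg_neg]
  exact rep_eq h t

lemma simple_of_injective (hΓ : Hyp Γ) {c : C(UnitAddCircle, Surf Γ)}
    (hc : Function.Injective c) {x : Γ} {l : ℝ → ℍ} (h : Rep c x l) (hx : x ≠ 1) : Simple x := by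
  refine ⟨hx, fun g hcr => ?_⟩
  have hg := h.conj g
  have hgx : g * x * g⁻¹ ≠ 1 := by
    intro h4
    rw [mul_inv_eq_one] at h4
    exact hx (mul_eq_left.mp h4)
  have c1 : Conv l atTop (ep x) := (rep_con_top h).conv hΓ hx
  have c2 : Conv l atBot (em x) := (rep_con_bot h).conv hΓ (inv_ne_one.mpr hx)
  have c3 : Conv (fun t => g • l t) atTop (ep (g * x * g⁻¹)) := (rep_con_top hg).conv hΓ hgx
  have c4 : Conv (fun t => g • l t) atBot (em (g * x * g⁻¹)) :=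
    (rep_con_bot hg).conv hΓ (inv_ne_one.mpr hgx)
  obtain ⟨s, t, hst⟩ := crossing h.cont hg.cont c2 c1 c4 c3 hcr
  have h1 : c (toCircle s) = c (toCircle t) := by rw [← h.lift, ← hg.lift, hst]
  obtain ⟨n, rfl⟩ := toCircle_eq (hc h1)
  rw [h.zpow] at hst
  have h2 : (g⁻¹ * x ^ n) • l t = l t := by rw [mul_smul, hst, inv_smul_smul]
  have h3 := hΓ.free h2
  rw [inv_mul_eq_one] at h3
  have h4 : g * x * g⁻¹ = x := by
    rw [h3]
    group
  rw [h4] at hcr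
  exact not_cr_self x hcr

/-! ### The topological form of the hypotheses -/

/-- Every curve homotopic to `c` meets every curve homotopic to `d`. -/
def Meets {X : Type*} [TopologicalSpace X] (c d : C(UnitAddCircle, X)) : Prop :=
  ∀ c' d' : C(UnitAddCircle, X), c.Homotopic c' → d.Homotopic d' → ∃ s t, c' s = d' t

lemma Disj.not_meets {c d : C(UnitAddCircle, Surf Γ)} (h : Disj c d) : ¬ Meets c d := by
  intro h'
  obtain ⟨c', d', h1, h2, h3⟩ := h
  obtain ⟨s, t, hst⟩ := h' c' d' h1 h2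
  exact h3 s t hst

section

variable [DiscreteTopology Γ] (hΓ : Hyp Γ)

include hΓ in
lemma disj_of {c d : C(UnitAddCircle, Surf Γ)} (ic : Function.Injective c)
    (id : Function.Injective d) {x y : Γ} {l m : ℝ → ℍ} (hc : Rep c x l) (hd : Rep d y m)
    (h : x ≠ 1 → y ≠ 1 → ∀ g : Γ, ¬ Cr x (g * y * g⁻¹)) : Disj c d := by
  by_cases hx : x = 1
  · subst hx
    by_cases hy : y = 1
    · subst hy
      exact disj_null_null hΓ hc hd
    · exact disj_null hΓ hc hd (simple_of_injective hΓ id hd hy)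
  · by_cases hy : y = 1
    · subst hy
      exact (disj_null hΓ hd hc (simple_of_injective hΓ ic hc hx)).symm
    · exact disj_of_not_cr hΓ hc hd (simple_of_injective hΓ ic hc hx) hy (h hx hy)

include hΓ in
theorem alg_of_top {a b : C(UnitAddCircle, Surf Γ)} (ia : Function.Injective a)
    (ib : Function.Injective b) (H : Subgroup (Surf Γ ≃ₜ Surf Γ))
    (hN : ∀ h ∈ H, ∃ c ∈ ({a, b} : Set C(UnitAddCircle, Surf Γ)),
      ∃ d ∈ ({a, b} : Set C(UnitAddCircle, Surf Γ)),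
      Meets ((⟨h, h.continuous⟩ : C(Surf Γ, Surf Γ)).comp c) d) :
    ∃ x y : Γ, Simple x ∧ Simple y ∧ ∀ h ∈ H, ∀ θ, LiftOf h θ → ∃ u ∈ ({x, y} : Set Γ),
      ∃ v ∈ ({x, y} : Set Γ), ∃ g : Γ, Cr (θ u) (g * v * g⁻¹) := by
  obtain ⟨x, l, hl⟩ := exists_rep hΓ a
  obtain ⟨y, m, hm⟩ := exists_rep hΓ b
  -- a trivial curve can be moved away
  have key : x ≠ 1 ∧ y ≠ 1 := by
    by_contra hxy
    obtain ⟨c, hc, d, hd, hcd⟩ := hN 1 H.one_mem
    have h1 : (⟨(1 : Surf Γ ≃ₜ Surf Γ), (1 : Surf Γ ≃ₜ Surf Γ).continuous⟩ :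
        C(Surf Γ, Surf Γ)).comp c = c := by
      ext t
      rfl
    rw [h1] at hcd
    refine Disj.not_meets ?_ hcd
    have hxs : x ≠ 1 → ∀ g, ¬ Cr x (g * x * g⁻¹) := fun hx =>
      (simple_of_injective hΓ ia hl hx).2
    have hys : y ≠ 1 → ∀ g, ¬ Cr y (g * y * g⁻¹) := fun hy =>
      (simple_of_injective hΓ ib hm hy).2
    rcases hc with rfl | hc <;> rcases hd with rfl | hd
    · exact disj_of hΓ ia ia hl hl fun h _ => hxs h
    · rw [mem_singleton_iff] at hd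
      subst hd
      exact disj_of hΓ ia ib hl hm fun h h' => absurd ⟨h, h'⟩ hxy
    · rw [mem_singleton_iff] at hc
      subst hc
      exact disj_of hΓ ib ia hm hl fun h h' => absurd ⟨h', h⟩ hxy
    · rw [mem_singleton_iff] at hc hd
      subst hc
      subst hd
      exact disj_of hΓ ib ib hm hm fun h _ => hys h
  refine ⟨x, y, simple_of_injective hΓ ia hl key.1, simple_of_injective hΓ ib hm key.2, ?_⟩
  intro h hh θ hθ
  obtain ⟨c, hc, d, hd, hcd⟩ := hN h hh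
  obtain ⟨φ, hφ, hφθ⟩ := hθ
  have hlh := hl.map hφ hφθ
  have hmh := hm.map hφ hφθ
  have iah : Function.Injective ((⟨h, h.continuous⟩ : C(Surf Γ, Surf Γ)).comp a) :=
    h.injective.comp ia
  have ibh : Function.Injective ((⟨h, h.continuous⟩ : C(Surf Γ, Surf Γ)).comp b) :=
    h.injective.comp ib
  by_contra hno
  push Not at hno
  have hx : x ∈ ({x, y} : Set Γ) := Or.inl rfl
  have hy : y ∈ ({x, y} : Set Γ) := Or.inr rfl
  refine Disj.not_meets ?_ hcd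
  rcases hc with rfl | hc <;> rcases hd with rfl | hd
  · exact disj_of hΓ iah ia hlh hl fun _ _ g => hno x hx x hx g
  · rw [mem_singleton_iff] at hd
    subst hd
    exact disj_of hΓ iah ib hlh hm fun _ _ g => hno x hx y hy g
  · rw [mem_singleton_iff] at hc
    subst hc
    exact disj_of hΓ ibh ia hmh hl fun _ _ g => hno y hy x hx g
  · rw [mem_singleton_iff] at hc hd
    subst hc
    subst hd
    exact disj_of hΓ ibh ib hmh hm fun _ _ g => hno y hy y hy g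

end

end Pool.Agent.GEN
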