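import Mathlib
import Pool.Agent.GEN.Top
import Pool.Agent.GEN.MainOf

/-!
# The hypothesis of the main theorem
-/

set_option autoImplicit false

open Topology Set Filter unitInterval
open scoped MatrixGroups UpperHalfPlane

namespace Pool.Agent.GEN

open Pool.Agent.Helper2.Fuch

/-- The closed curve `h ∘ c`. -/
def push {X : Type*} [TopologicalSpace X] (h : X ≃ₜ X) (c : C(UnitAddCircle, X)) :
    C(UnitAddCircle, X) := (⟨h, h.continuous⟩ : C(X, X)).comp c

/-- For every `h ∈ H` one of the curves `h ∘ a`, `h ∘ b` and one of the curves `a`, `b` cannot be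
made disjoint by homotopies. -/
def NonDisplaceable {X : Type*} [TopologicalSpace X] (H : Subgroup (X ≃ₜ X))
    (a b : C(UnitAddCircle, X)) : Prop :=
  ∀ h ∈ H, Meets (push h a) a ∨ Meets (push h a) b ∨ Meets (push h b) a ∨ Meets (push h b) b

variable {Γ : Subgroup SL(2, ℝ)} [DiscreteTopology Γ] (hΓ : Hyp Γ)

include hΓ in
/-- The algebraic form of the hypotheses. -/
theorem alg_of_nonDisplaceable {a b : C(UnitAddCircle, Surf Γ)} (ia : Function.Injective a)
    (ib : Function.Injective b) (H : Subgroup (Surf Γ ≃ₜ Surf Γ))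
    (hN : NonDisplaceable H a b) :
    ∃ x y : Γ, Simple x ∧ Simple y ∧ ∀ h ∈ H, ∀ θ, LiftOf h θ → ∃ u ∈ ({x, y} : Set Γ),
      ∃ v ∈ ({x, y} : Set Γ), ∃ g : Γ, Cr (θ u) (g * v * g⁻¹) := by
  refine alg_of_top hΓ ia ib H fun h hh => ?_
  rcases hN h hh with h1 | h1 | h1 | h1
  · exact ⟨a, Or.inl rfl, a, Or.inl rfl, h1⟩
  · exact ⟨a, Or.inl rfl, b, Or.inr rfl, h1⟩
  · exact ⟨b, Or.inr rfl, a, Or.inl rfl, h1⟩
  · exact ⟨b, Or.inr rfl, b, Or.inr rfl, h1⟩

end Pool.Agent.GEN
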