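import Mathlib
import Pool.Agent.GEN.MainOf
import Pool.Agent.GEN.Surface
import Pool.Agent.GEN.Int
import Pool.Agent.GEN.Len
import Pool.Agent.GEN.LiftTw

/-!
# The main theorem
-/

set_option autoImplicit false

open Topology Set Filter
open scoped MatrixGroups UpperHalfPlane

namespace Pool.Agent.GEN

open Pool.Agent.Helper2.Fuch Pool.Agent.Helper2.Genus Pool.Agent.Helper2.Planar

/-- The main theorem, algebraic form. -/
theorem main {Γ : Subgroup SL(2, ℝ)} (hΓ : Hyp Γ) [DiscreteTopology Γ] {a b : Γ} (ha : Simple a)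
    (hb : Simple b) (H : Subgroup (Surf Γ ≃ₜ Surf Γ)) (hH : H.FiniteIndex)
    (hN : ∀ h ∈ H, ∀ θ, LiftOf h θ → ∃ x ∈ ({a, b} : Set Γ), ∃ y ∈ ({a, b} : Set Γ), ∃ g : Γ,
      Cr (θ x) (g * y * g⁻¹)) : NotTwoEnds H :=
  main_of hΓ ha hb H hH hN (fun u w h => (I_pos_iff hΓ u w).mpr h)
    (fun _ _ _ hta htb hN20 hma hmb hnd =>
      exists_len hΓ ⟨ha, hb, hta, htb, autos_le hΓ H, hN20, hma, hmb, hnd⟩)
    (fun _ _ hb hc => exists_twist hΓ hb hc)

/-- **The main theorem.** -/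
theorem not_two (Γ : Fuchsian) (a b : C(UnitAddCircle, Γ.X)) (ha : Function.Injective a)
    (hb : Function.Injective b) (H : Subgroup (Γ.X ≃ₜ Γ.X)) (hH : H.FiniteIndex)
    (hN : NonDisplaceable H a b) : NotTwoEnds H := by
  have := Γ.discrete
  obtain ⟨x, y, hx, hy, h⟩ := alg_of_nonDisplaceable Γ.hyp ha hb H hN
  exact main Γ.hyp hx hy H hH h

end Pool.Agent.GEN
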